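import Pool.Agent.Lib.MP_7b7e48_nt.PX.S9x

/-!
# QEX: a good set of rare prime moduli

PROOF. As `PL/E6l.lean`: `S9x` with `c' = 2 μ` at `y = pw N (1/2 - 2/k)`, `SS c m ≤ m (1 + log m)`: `sig c (pw N (2μ)) (pw N (1/2 - 2/k)) ≥ L/(10 log N)` (`N^(-μ/200) ≤ L`, `μ/200 ≤ 2μ/4`). The primes `q` with `c q = 1`, `pw N (2μ) < q ≤ pw N (1/2-2/k)` are distributed over at most `2 log N` dyadic intervals `(2^j, 2^(j+1)]`; so for one `j`, with
`Q = 2^j` and `QQ` the rare primes `q` of this kind in `(Q, 2Q]`: `∑ 1/q ≥ L/(20 (log N)²) ≥ N^(-μ/100)`. `Q ≥ pw N (2μ)/2 ≥ N^μ` and `2Q < 2q ≤ 2 N^(1/2-2/k) ≤ N^(1/2-μ)` (`QQ` is nonempty); `q ∤ N` as `c q ≠ 0`.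
-/

set_option autoImplicit false

open Finset
open Pool.Agent.Lib.GT (Rough V)
open Pool.Agent.Lib.MP_45349e_nt.LS (lam)
open Pool.Agent.Lib.RG (RC LV rr SS PB sig)

namespace Pool.Agent.Lib.PX

open Pool.Agent.Lib.PQ (pw)

private theorem qe_abs {N : ℕ} {c : ℕ → ℝ} (hc : RC N c) (n : ℕ) : |c n| ≤ 1 := by
  by_cases h : n.Coprime N
  · rcases hc.val n h with h1 | h1
    · rw [h1, abs_one]
    · rw [h1, abs_neg, abs_one]
  · rw [hc.zero n h, abs_zero]
    exact zero_le_one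

private theorem qe_harm (n : ℕ) : ∑ a ∈ Finset.Icc 1 n, (1 : ℝ) / a ≤ 1 + Real.log n := by
  have h := harmonic_le_one_add_log n
  rw [harmonic_eq_sum_Icc] at h
  push_cast at h
  refine le_trans (le_of_eq ?_) h
  exact Finset.sum_congr rfl fun a _ => one_div _

private theorem qe_swap (c : ℕ → ℝ) (y : ℕ) :
    ∑ m ∈ Finset.Icc 1 y, rr c m = ∑ a ∈ Finset.Icc 1 y, c a * ((y / a : ℕ) : ℝ) := by
  classical
  have h1 : ∀ m ∈ Finset.Icc 1 y, rr c m =
      ∑ a ∈ Finset.Icc 1 y, if a ∣ m then c a else 0 := by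
    intro m hm
    rw [Finset.mem_Icc] at hm
    unfold rr
    rw [← Finset.sum_filter]
    refine Finset.sum_congr ?_ fun _ _ => rfl
    ext a
    rw [Nat.mem_divisors, Finset.mem_filter, Finset.mem_Icc]
    constructor
    · rintro ⟨h, _⟩
      have h2 := Nat.le_of_dvd (by omega) h
      have h4 : 0 < a := Nat.pos_of_dvd_of_pos h (by omega)
      exact ⟨⟨h4, by omega⟩, h⟩
    · rintro ⟨_, h⟩
      exact ⟨h, by omega⟩
  rw [Finset.sum_congr rfl h1, Finset.sum_comm]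
  refine Finset.sum_congr rfl fun a _ => ?_
  rw [← Finset.sum_filter, Finset.sum_const, nsmul_eq_mul, mul_comm]
  congr 2
  have h2 := Nat.Ioc_filter_dvd_card_eq_div y a
  exact h2

/-- the trivial bound -/
private theorem qe_triv {N : ℕ} {c : ℕ → ℝ} (hc : RC N c) (y : ℕ) (hy1 : 1 ≤ y) :
    SS c y ≤ y * (1 + Real.log y) := by
  have hy0 : (0 : ℝ) < y := by exact_mod_cast hy1
  unfold SS
  rw [qe_swap]
  have h2 : ∀ a ∈ Finset.Icc 1 y, c a * ((y / a : ℕ) : ℝ) ≤ y * (1 / (a : ℝ)) := by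
    intro a ha
    have h4 : ((y / a : ℕ) : ℝ) ≤ (y : ℝ) / a := Nat.cast_div_le
    calc c a * ((y / a : ℕ) : ℝ) ≤ 1 * ((y / a : ℕ) : ℝ) :=
          mul_le_mul_of_nonneg_right ((le_abs_self _).trans (qe_abs hc a)) (Nat.cast_nonneg _)
      _ ≤ y * (1 / (a : ℝ)) := by
          rw [one_mul]
          refine h4.trans (le_of_eq ?_)
          ring
  refine (Finset.sum_le_sum h2).trans ?_
  rw [← Finset.mul_sum]
  exact mul_le_mul_of_nonneg_left (qe_harm y) hy0.le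

/-- the upper bound for the Chebyshev sum -/
private theorem qe_upper {N : ℕ} {c : ℕ → ℝ} (hRC : RC N c) (z y : ℕ) (hyN : y ≤ N)
    (hlog : 3 ≤ Real.log N) :
    ∑ p ∈ (Finset.range (y + 1)).filter (fun p => p.Prime ∧ z < p ∧ c p = 1),
      Real.log p * SS c (y / p) ≤ 2 * Real.log N ^ 2 * y * sig c z y := by
  have hyN' : (y : ℝ) ≤ N := by exact_mod_cast hyN
  unfold sig
  rw [Finset.mul_sum]
  refine Finset.sum_le_sum fun p hp => ?_
  obtain ⟨hpy, hpp, _, _⟩ := Finset.mem_filter.mp hp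
  have hpy' : p ≤ y := by
    have := Finset.mem_range.mp hpy
    omega
  have hp1 : 1 ≤ p := hpp.one_lt.le
  have hp0 : (0 : ℝ) < p := by exact_mod_cast hpp.pos
  have hw1 : 1 ≤ y / p := (Nat.one_le_div_iff hpp.pos).mpr hpy'
  have hw0 : (1 : ℝ) ≤ ((y / p : ℕ) : ℝ) := by exact_mod_cast hw1
  have h1 := qe_triv hRC (y / p) hw1
  have h2 : 1 + Real.log ((y / p : ℕ) : ℝ) ≤ 2 * Real.log N := by
    have h3 : Real.log ((y / p : ℕ) : ℝ) ≤ Real.log N := by
      refine Real.log_le_log (by linarith) ?_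
      refine le_trans ?_ hyN'
      exact_mod_cast Nat.div_le_self y p
    linarith
  have h3 : Real.log p ≤ Real.log N := by
    refine Real.log_le_log hp0 ?_
    refine le_trans ?_ hyN'
    exact_mod_cast hpy'
  have h4 : ((y / p : ℕ) : ℝ) ≤ y / p := Nat.cast_div_le
  have hlogp : 0 ≤ Real.log p := Real.log_nonneg (by exact_mod_cast hp1)
  have hw : 0 ≤ 1 + Real.log ((y / p : ℕ) : ℝ) := by
    have := Real.log_nonneg hw0
    linarith
  calc Real.log p * SS c (y / p)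
      ≤ Real.log N * (((y / p : ℕ) : ℝ) * (1 + Real.log ((y / p : ℕ) : ℝ))) := by
        refine (mul_le_mul_of_nonneg_left h1 hlogp).trans ?_
        exact mul_le_mul_of_nonneg_right h3 (mul_nonneg (Nat.cast_nonneg _) hw)
    _ ≤ Real.log N * ((y / p) * (2 * Real.log N)) := by
        refine mul_le_mul_of_nonneg_left ?_ (by linarith)
        exact mul_le_mul h4 h2 hw (by positivity)
    _ = 2 * Real.log N ^ 2 * y * (1 / p) := by ring

private theorem qe_log (N : ℕ) (hN : 3 ≤ Real.log N) : ((Nat.log 2 N + 1 : ℕ) : ℝ) ≤ 2 * Real.log N := by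
  have hN0 : N ≠ 0 := by
    rintro rfl
    simp at hN
    linarith
  have h1 : (2 : ℝ) ^ (Nat.log 2 N) ≤ N := by exact_mod_cast Nat.pow_log_le_self 2 hN0
  have h2 : (Nat.log 2 N : ℝ) * Real.log 2 ≤ Real.log N := by
    rw [← Real.log_pow]
    exact Real.log_le_log (by positivity) h1
  have h3 := Real.log_two_gt_d9
  have h4 : (0 : ℝ) ≤ Nat.log 2 N := Nat.cast_nonneg _
  push_cast
  nlinarith

theorem QEX {k : ℕ} {β : ℝ} (hP : PL.Par k β) (μ : ℝ) (hμ : 0 < μ) (hμ1 : μ ≤ 1 / (1000 * k)) : ∃ N0 : ℕ, ∀ N : ℕ,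
    N0 ≤ N → ∀ (c : ℕ → ℝ) (L : ℝ), RC N c → LV N c L → (N : ℝ) ^ (-(μ / 200)) ≤ L → Spc N β c →
    ∃ (Q : ℕ) (QQ : Finset ℕ), QS N μ Q QQ ∧ (∀ q ∈ QQ, c q = 1) ∧
      (N : ℝ) ^ (-(μ / 100)) ≤ ∑ q ∈ QQ, 1 / (q : ℝ) := by
  classical
  have hk1 : (40000 : ℝ) ≤ k := by
    have h1 := hP.big
    have h2 := hP.le
    have h3 := hP.pos
    have h4 : (0 : ℝ) ≤ k := Nat.cast_nonneg k
    nlinarith
  have hk0 : (0 : ℝ) < k := by linarith
  have h2c : 2 * μ ≤ 1 / (100 * k) := by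
    have h1 : 1 / (1000 * (k : ℝ)) = 1 / 10 * (1 / (100 * k)) := by field_simp; norm_num
    have h2 : 0 < 1 / (100 * (k : ℝ)) := by positivity
    linarith
  obtain ⟨N1, hN1'⟩ := S9x hP (2 * μ) (by linarith) h2c
  have hcast : Filter.Tendsto (fun N : ℕ => (N : ℝ)) Filter.atTop Filter.atTop := tendsto_natCast_atTop_atTop
  have e2 : ∀ᶠ N : ℕ in Filter.atTop, (3 : ℝ) ≤ Real.log N :=
    (Real.tendsto_log_atTop.comp hcast).eventually_ge_atTop _
  have hrp : ∀ (t A : ℝ), 0 < t → ∀ᶠ N : ℕ in Filter.atTop, A ≤ (N : ℝ) ^ t := fun t A ht =>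
    ((tendsto_rpow_atTop ht).comp hcast).eventually_ge_atTop _
  have hkμ : 0 < 2 / (k : ℝ) - μ := by
    have h1 : 1 / (1000 * (k : ℝ)) < 2 / k := by
      rw [div_lt_div_iff₀ (by positivity) hk0]
      nlinarith
    linarith
  obtain ⟨N0, hN0⟩ := Filter.eventually_atTop.mp
    (e2.and ((Filter.eventually_ge_atTop N1).and ((Filter.eventually_ge_atTop 2).and
      ((hrp μ 2 hμ).and ((hrp (2 / k - μ) 2 hkμ).and
        (hrp (μ / 400) (20 / (μ / 800) ^ 2) (by positivity)))))))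
  refine ⟨N0, ?_⟩
  intro N hN c L hRC hLV hL hS
  obtain ⟨f2, f3, f4, f5, f6, f7⟩ := hN0 N hN
  have hN1 : (1 : ℝ) ≤ N := by exact_mod_cast (by omega : 1 ≤ N)
  have hNpos : (0 : ℝ) < N := by linarith
  set y : ℕ := pw N (1 / 2 - 2 / k) with hy
  have hk8 : 2 / (k : ℝ) ≤ 1 / 2 := by
    rw [div_le_div_iff₀ (by positivity) (by norm_num)]
    linarith
  have hk9 : 0 ≤ 2 / (k : ℝ) := by positivity
  have hyU : (y : ℝ) ≤ (N : ℝ) ^ (1 / 2 - 2 / k : ℝ) := Nat.floor_le (by positivity)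
  have hyN' : (y : ℝ) ≤ N := by
    refine hyU.trans ?_
    calc (N : ℝ) ^ (1 / 2 - 2 / k : ℝ) ≤ (N : ℝ) ^ (1 : ℝ) :=
          Real.rpow_le_rpow_of_exponent_le hN1 (by linarith)
      _ = N := Real.rpow_one _
  have hyB : y ≤ N := by exact_mod_cast hyN'
  have hy1 : 1 ≤ y := by
    refine Nat.le_floor ?_
    rw [Nat.cast_one]
    exact Real.one_le_rpow hN1 (by linarith)
  have hy0 : (1 : ℝ) ≤ y := by exact_mod_cast hy1
  have hL2 : (N : ℝ) ^ (-(2 * μ / 4)) ≤ L := by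
    refine le_trans ?_ hL
    apply Real.rpow_le_rpow_of_exponent_le hN1
    linarith
  have h9 := hN1' N f3 c L hRC hLV hL2 hS y le_rfl hyB
  have hlp : 0 < Real.log N := by linarith
  have hL0 : 0 < L := lt_of_lt_of_le (by positivity) hL
  have hS4 := qe_upper hRC (pw N (2 * μ)) y hyB f2
  have hyp : (0 : ℝ) < y := by linarith
  -- lower bound for sig
  have hsig : L / (10 * Real.log N) ≤ sig c (pw N (2 * μ)) y := by
    have h10 := h9.trans hS4
    rw [div_le_iff₀ (by positivity)]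
    have h12 : (Real.log N * y) * L ≤ (Real.log N * y) * (sig c (pw N (2 * μ)) y * (10 * Real.log N)) := by
      calc (Real.log N * y) * L = 5 * (1 / 5 * (Real.log N * (L * y))) := by ring
        _ ≤ 5 * (2 * Real.log N ^ 2 * y * sig c (pw N (2 * μ)) y) :=
            mul_le_mul_of_nonneg_left h10 (by norm_num)
        _ = _ := by ring
    exact le_of_mul_le_mul_left h12 (by positivity)
  -- dyadic pigeonhole
  set S : Finset ℕ := (Finset.range (y + 1)).filter (fun q => q.Prime ∧ pw N (2 * μ) < q ∧ c q = 1)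
    with hSdef
  have hsS : sig c (pw N (2 * μ)) y = ∑ q ∈ S, 1 / (q : ℝ) := rfl
  set J : ℕ := Nat.log 2 N + 1 with hJ
  have hmaps : ∀ q ∈ S, Nat.log 2 (q - 1) ∈ Finset.range J := by
    intro q hq
    rw [hSdef, Finset.mem_filter, Finset.mem_range] at hq
    rw [Finset.mem_range, hJ]
    have : Nat.log 2 (q - 1) ≤ Nat.log 2 N := Nat.log_mono_right (by omega)
    omega
  have hfib := Finset.sum_fiberwise_of_maps_to hmaps (fun q : ℕ => 1 / (q : ℝ))
  have hJ1 := qe_log N f2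
  rw [← hJ] at hJ1
  have hJ0 : (0 : ℝ) < J := by
    rw [hJ]
    positivity
  have hex : ∃ j ∈ Finset.range J, L / (10 * Real.log N) / J ≤
      ∑ q ∈ S.filter (fun q => Nat.log 2 (q - 1) = j), 1 / (q : ℝ) := by
    by_contra hcon
    push Not at hcon
    have hlt : ∑ j ∈ Finset.range J, ∑ q ∈ S.filter (fun q => Nat.log 2 (q - 1) = j), 1 / (q : ℝ)
        < ∑ j ∈ Finset.range J, L / (10 * Real.log N) / J := by
      apply Finset.sum_lt_sum_of_nonempty
      · rw [Finset.nonempty_range_iff, hJ]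
        omega
      · exact hcon
    rw [hfib, Finset.sum_const, Finset.card_range, nsmul_eq_mul, mul_div_cancel₀ _ hJ0.ne',
      ← hsS] at hlt
    linarith
  obtain ⟨j, _, hj⟩ := hex
  set QQ : Finset ℕ := S.filter (fun q => Nat.log 2 (q - 1) = j) with hQQ
  have hsum : (N : ℝ) ^ (-(μ / 100)) ≤ ∑ q ∈ QQ, 1 / (q : ℝ) := by
    refine le_trans ?_ hj
    have hl : Real.log N ≤ (N : ℝ) ^ (μ / 800) / (μ / 800) :=
      Real.log_le_rpow_div hNpos.le (by positivity)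
    have hl2 : Real.log N ^ 2 ≤ (N : ℝ) ^ (μ / 400) / (μ / 800) ^ 2 := by
      have h1 : Real.log N ^ 2 ≤ ((N : ℝ) ^ (μ / 800) / (μ / 800)) ^ 2 := pow_le_pow_left₀ hlp.le hl 2
      have h2 : ((N : ℝ) ^ (μ / 800)) ^ 2 = (N : ℝ) ^ (μ / 400) := by
        rw [sq, ← Real.rpow_add hNpos]
        congr 1
        ring
      rw [div_pow, h2] at h1
      exact h1
    have hl3 : 20 * Real.log N ^ 2 ≤ (N : ℝ) ^ (μ / 200) := by
      have hp : 0 < (N : ℝ) ^ (μ / 400) := by positivity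
      calc 20 * Real.log N ^ 2 ≤ 20 * ((N : ℝ) ^ (μ / 400) / (μ / 800) ^ 2) := by linarith
        _ = (N : ℝ) ^ (μ / 400) * (20 / (μ / 800) ^ 2) := by ring
        _ ≤ (N : ℝ) ^ (μ / 400) * (N : ℝ) ^ (μ / 400) := mul_le_mul_of_nonneg_left f7 hp.le
        _ = (N : ℝ) ^ (μ / 200) := by rw [← Real.rpow_add hNpos]; congr 1; ring
    have hl4 : 10 * Real.log N * J ≤ (N : ℝ) ^ (μ / 200) := by
      refine le_trans ?_ hl3
      nlinarith
    rw [div_div, le_div_iff₀ (by positivity)]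
    calc (N : ℝ) ^ (-(μ / 100)) * (10 * Real.log N * J)
        ≤ (N : ℝ) ^ (-(μ / 100)) * (N : ℝ) ^ (μ / 200) := mul_le_mul_of_nonneg_left hl4 (by positivity)
      _ = (N : ℝ) ^ (-(μ / 200)) := by rw [← Real.rpow_add hNpos]; congr 1; ring
      _ ≤ L := hL
  have hne : QQ.Nonempty := by
    by_contra h0
    rw [Finset.not_nonempty_iff_eq_empty] at h0
    rw [h0, Finset.sum_empty] at hsum
    have : 0 < (N : ℝ) ^ (-(μ / 100)) := by positivity
    linarith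
  have hmem : ∀ q ∈ QQ, q.Prime ∧ pw N (2 * μ) < q ∧ c q = 1 ∧ q ≤ y ∧ 2 ^ j < q ∧ q ≤ 2 * 2 ^ j := by
    intro q hq
    rw [hQQ, Finset.mem_filter, hSdef, Finset.mem_filter, Finset.mem_range] at hq
    obtain ⟨⟨h1, h2, h3, h4⟩, h5⟩ := hq
    have h6 := h2.two_le
    have h7 : 2 ^ j ≤ q - 1 := by rw [← h5]; exact Nat.pow_log_le_self 2 (by omega)
    have h8 : q - 1 < 2 ^ (j + 1) := by rw [← h5]; exact Nat.lt_pow_succ_log_self (by norm_num) _
    rw [pow_succ] at h8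
    exact ⟨h2, h3, h4, by omega, by omega, by omega⟩
  refine ⟨2 ^ j, QQ, ⟨?_, ?_, ?_⟩, ?_, hsum⟩
  · obtain ⟨q, hq⟩ := hne
    obtain ⟨_, h2, _, _, _, h6⟩ := hmem q hq
    have h7 : (N : ℝ) ^ (2 * μ) < q := by
      have := Nat.lt_of_floor_lt h2
      exact this
    have h8 : (q : ℝ) ≤ 2 * ((2 ^ j : ℕ) : ℝ) := by exact_mod_cast h6
    have h9 : (N : ℝ) ^ (2 * μ) = (N : ℝ) ^ μ * (N : ℝ) ^ μ := by
      rw [← Real.rpow_add hNpos]
      congr 1
      ring
    rw [h9] at h7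
    have hp : 0 < (N : ℝ) ^ μ := by positivity
    nlinarith
  · obtain ⟨q, hq⟩ := hne
    obtain ⟨_, _, _, h4, h5, _⟩ := hmem q hq
    have h6 : (((2 ^ j : ℕ) : ℝ)) ≤ y := by exact_mod_cast (by omega : 2 ^ j ≤ y)
    calc 2 * ((2 ^ j : ℕ) : ℝ) ≤ (N : ℝ) ^ (2 / k - μ : ℝ) * (N : ℝ) ^ (1 / 2 - 2 / k : ℝ) := by
          apply mul_le_mul f6 (h6.trans hyU) (by positivity) (by positivity)
      _ = (N : ℝ) ^ (1 / 2 - μ) := by rw [← Real.rpow_add hNpos]; congr 1; ring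
  · intro q hq
    obtain ⟨h1, _, h3, _, h5, h6⟩ := hmem q hq
    refine ⟨h1, h5, h6, ?_⟩
    intro hd
    have hnc : ¬ q.Coprime N := by
      intro hcop
      have := Nat.eq_one_of_dvd_coprimes hcop dvd_rfl hd
      exact h1.one_lt.ne' this
    have := hRC.zero q hnc
    rw [this] at h3
    exact zero_ne_one h3
  · intro q hq
    exact (hmem q hq).2.2.1

end Pool.Agent.Lib.PX
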