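import Pool.Agent.Lib.MP_7b7e48_nt.PX.Defs

/-!
# APC: sums of `c` over arithmetic progressions

PROOF. `PB N ≥ 0` (`hc.pv 0`). If no natural number `u` satisfies the three conditions, the sum is empty. If `gcd(m1, N) > 1` all terms are `0` (`hc.zero`). Otherwise let `u₀` be a natural number which satisfies them; the conditions are `u = u₀` modulo
`m = lcm(m1, m2, m3)`, which is coprime to `N`, `m ≥ 1`. Let `r = u₀ % m` and `m m' = 1` modulo `N` (`N = 1`: trivial choice). `u = r + m j`, `j` in an interval `(j₁, j₂]` or `[0, j₂]` of natural numbers (the `u ∈ (A, B]` in the class), and `c (r + m j) = c (m (r m' + j)) = c m * c (r m' + j)`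
(`r + m j = m (r m' + j)` modulo `N`, `hc.per`), so the sum is `c m` times the difference of two sums `∑_{n ≤ Y} c n`: at most `2 PB N`.
-/

set_option autoImplicit false

open Finset
open Pool.Agent.Lib.GT (Rough V)
open Pool.Agent.Lib.MP_45349e_nt.LS (lam)
open Pool.Agent.Lib.RG (RC LV rr SS PB sig)

namespace Pool.Agent.Lib.PX

open Pool.Agent.Lib.PQ (pw)

private theorem APC_per {N : ℕ} {c : ℕ → ℝ} (hc : RC N c) (n k : ℕ) : c (n + N * k) = c n := by
  induction k with
  | zero => simp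
  | succ k ih =>
    have h : n + N * (k + 1) = (n + N * k) + N := by ring
    rw [h, hc.per, ih]

private theorem APC_mod {N : ℕ} {c : ℕ → ℝ} (hc : RC N c) {n n' : ℕ} (h : n ≡ n' [MOD N]) : c n = c n' := by
  have e1 : c n = c (n % N) := by
    conv_lhs => rw [← Nat.mod_add_div n N]
    exact APC_per hc _ _
  have e2 : c n' = c (n' % N) := by
    conv_lhs => rw [← Nat.mod_add_div n' N]
    exact APC_per hc _ _
  rw [e1, e2, h]

private theorem APC_abs {N : ℕ} {c : ℕ → ℝ} (hc : RC N c) (n : ℕ) : |c n| ≤ 1 := by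
  by_cases h : n.Coprime N
  · rcases hc.val n h with h1 | h1 <;> simp [h1]
  · simp [hc.zero n h]

private theorem APC_PB {N : ℕ} {c : ℕ → ℝ} (hc : RC N c) : 0 ≤ PB N := by
  have h := hc.pv 0
  simp at h
  exact h

private theorem APC_ico {N : ℕ} {c : ℕ → ℝ} (hc : RC N c) {a : ℕ} (ha : 1 ≤ a) : |∑ n ∈ Finset.Ico 1 a, c n| ≤ PB N := by
  have h := hc.pv (a - 1)
  have e : Finset.Icc 1 (a - 1) = Finset.Ico 1 a := by
    ext x
    simp only [Finset.mem_Icc, Finset.mem_Ico]
    omega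
  rwa [e] at h

private theorem APC_cls {N : ℕ} {c : ℕ → ℝ} (hc : RC N c) (hN : 1 ≤ N) (A B m r : ℕ) (hm : 1 ≤ m) (hr : r < m)
    (hmN : m.Coprime N) : |∑ u ∈ (Finset.Ioc A B).filter (fun u => u % m = r), c u| ≤ 2 * PB N := by
  have key : ∀ Y j : ℕ, r + m * j ≤ Y ↔ j < (Y + m - r) / m := by
    intro Y j
    rw [Nat.lt_iff_add_one_le, Nat.le_div_iff_mul_le hm]
    have e : (j + 1) * m = m * j + m := by ring
    rw [e]
    omega
  set kA := (A + m - r) / m with hkA
  set kB := (B + m - r) / m with hkB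
  obtain ⟨m', hm'⟩ : ∃ m' : ℕ, m * m' ≡ 1 [MOD N] := by
    rcases Nat.lt_or_ge 1 N with h | h
    · obtain ⟨m', h'⟩ := Nat.exists_mul_mod_eq_one_of_coprime hmN h
      refine ⟨m', ?_⟩
      rw [Nat.ModEq, h'.2, Nat.mod_eq_of_lt h]
    · have : N = 1 := by omega
      exact ⟨0, by rw [this]; exact Nat.modEq_one⟩
  set a := r * m' + N with hadef
  have ha : 1 ≤ a := by omega
  have hkA' : 1 ≤ kA + a := le_trans ha (Nat.le_add_left _ _)
  have hkB' : 1 ≤ kB + a := le_trans ha (Nat.le_add_left _ _)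
  have himg : (Finset.Ioc A B).filter (fun u => u % m = r) = (Finset.Ico kA kB).image (fun j => r + m * j) := by
    ext u
    simp only [Finset.mem_filter, Finset.mem_Ioc, Finset.mem_image, Finset.mem_Ico]
    constructor
    · rintro ⟨⟨h1, h2⟩, h3⟩
      have hu : r + m * (u / m) = u := by
        rw [← h3]
        exact Nat.mod_add_div u m
      refine ⟨u / m, ⟨?_, ?_⟩, hu⟩
      · by_contra hlt
        have := (key A (u / m)).2 (by omega)
        omega
      · exact (key B (u / m)).1 (by omega)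
    · rintro ⟨j, ⟨h1, h2⟩, h3⟩
      have h4 : ¬ (r + m * j ≤ A) := fun h => by
        have := (key A j).1 h
        omega
      have h5 := (key B j).2 h2
      refine ⟨⟨by omega, by omega⟩, ?_⟩
      rw [← h3, Nat.add_mul_mod_self_left, Nat.mod_eq_of_lt hr]
  have hinj : Function.Injective (fun j => r + m * j) := by
    intro x y hxy
    have : m * x = m * y := by simpa using hxy
    exact Nat.eq_of_mul_eq_mul_left hm this
  have hval : ∀ j, c (r + m * j) = c m * c (a + j) := by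
    intro j
    rw [← hc.mul]
    refine APC_mod hc ?_
    have e : m * (a + j) = r * (m * m') + m * N + m * j := by
      rw [hadef]
      ring
    rw [e]
    have h1 : r * (m * m') ≡ r * 1 [MOD N] := Nat.ModEq.mul_left r hm'
    have h2 : m * N ≡ 0 [MOD N] := by
      rw [Nat.modEq_zero_iff_dvd]
      exact Dvd.intro_left m rfl
    have h3 := ((h1.add h2).add (Nat.ModEq.refl (m * j)))
    have h4 : r * 1 + 0 + m * j = r + m * j := by ring
    rw [h4] at h3
    exact h3.symm
  rw [himg, Finset.sum_image (fun x _ y _ h => hinj h)]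
  rw [Finset.sum_congr rfl (fun j _ => hval j), ← Finset.mul_sum]
  have hPB := APC_PB hc
  rcases Nat.lt_or_ge kB kA with h | h
  · rw [Finset.Ico_eq_empty (by omega)]
    simp
    exact hPB
  · have e1 : ∑ j ∈ Finset.Ico kA kB, c (a + j) = ∑ n ∈ Finset.Ico (kA + a) (kB + a), c n := by
      rw [← Finset.sum_Ico_add']
      refine Finset.sum_congr rfl fun j _ => ?_
      rw [add_comm]
    have e2 : ∑ n ∈ Finset.Ico (kA + a) (kB + a), c n =
        ∑ n ∈ Finset.Ico 1 (kB + a), c n - ∑ n ∈ Finset.Ico 1 (kA + a), c n := by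
      rw [← Finset.sum_Ico_consecutive c hkA' (by omega : kA + a ≤ kB + a)]
      ring
    rw [e1, e2, abs_mul]
    have b1 := APC_ico hc hkB'
    have b2 := APC_ico hc hkA'
    have b3 := APC_abs hc m
    have b4 := abs_sub (∑ n ∈ Finset.Ico 1 (kB + a), c n) (∑ n ∈ Finset.Ico 1 (kA + a), c n)
    calc |c m| * |∑ n ∈ Finset.Ico 1 (kB + a), c n - ∑ n ∈ Finset.Ico 1 (kA + a), c n|
        ≤ 1 * |∑ n ∈ Finset.Ico 1 (kB + a), c n - ∑ n ∈ Finset.Ico 1 (kA + a), c n| :=
          mul_le_mul_of_nonneg_right b3 (abs_nonneg _)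
      _ ≤ 2 * PB N := by linarith

open Classical in
theorem APC {N : ℕ} {c : ℕ → ℝ} (hc : RC N c) (hN : 1 ≤ N) (A B m1 m2 m3 s t : ℕ) (h1 : 1 ≤ m1) (h2 : 1 ≤ m2)
    (h3 : 1 ≤ m3) (h2c : m2.Coprime N) (h3c : m3.Coprime N) :
    |∑ u ∈ (Finset.Ioc A B).filter (fun u => m1 ∣ u ∧ u ≡ s [MOD m2] ∧ u ≡ t [MOD m3]), c u| ≤ 2 * PB N := by
  have hPB := APC_PB hc
  by_cases h1c : m1.Coprime N
  · by_cases hex : ∃ u, m1 ∣ u ∧ u ≡ s [MOD m2] ∧ u ≡ t [MOD m3]
    · obtain ⟨u0, g1, g2, g3⟩ := hex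
      set m := Nat.lcm m1 (Nat.lcm m2 m3) with hm
      have hmpos : 1 ≤ m := Nat.lcm_pos h1 (Nat.lcm_pos h2 h3)
      have hmN : m.Coprime N := by
        have hd : m ∣ m1 * (m2 * m3) :=
          Nat.lcm_dvd (Dvd.intro _ rfl) ((Nat.lcm_dvd_mul m2 m3).trans (Dvd.intro_left _ rfl))
        exact Nat.Coprime.coprime_dvd_left hd (Nat.Coprime.mul_left h1c (Nat.Coprime.mul_left h2c h3c))
      have e : (Finset.Ioc A B).filter (fun u => m1 ∣ u ∧ u ≡ s [MOD m2] ∧ u ≡ t [MOD m3]) =
          (Finset.Ioc A B).filter (fun u => u % m = u0 % m) := by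
        refine Finset.filter_congr fun u _ => ?_
        constructor
        · rintro ⟨k1, k2, k3⟩
          have a1 : u ≡ u0 [MOD m1] :=
            ((Nat.modEq_zero_iff_dvd).2 k1).trans ((Nat.modEq_zero_iff_dvd).2 g1).symm
          have a2 : u ≡ u0 [MOD m2] := k2.trans g2.symm
          have a3 : u ≡ u0 [MOD m3] := k3.trans g3.symm
          have b1 : (m1 : ℤ) ∣ (u0 : ℤ) - u := (Nat.modEq_iff_dvd).1 a1
          have b2 : (m2 : ℤ) ∣ (u0 : ℤ) - u := (Nat.modEq_iff_dvd).1 a2
          have b3 : (m3 : ℤ) ∣ (u0 : ℤ) - u := (Nat.modEq_iff_dvd).1 a3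
          have b : u ≡ u0 [MOD m] := by
            rw [Nat.modEq_iff_dvd, Int.natCast_dvd]
            exact Nat.lcm_dvd (Int.natCast_dvd.1 b1) (Nat.lcm_dvd (Int.natCast_dvd.1 b2) (Int.natCast_dvd.1 b3))
          exact b
        · intro k
          have k' : u ≡ u0 [MOD m] := k
          have a1 : u ≡ u0 [MOD m1] := k'.of_dvd (Nat.dvd_lcm_left _ _)
          have a2 : u ≡ u0 [MOD m2] := k'.of_dvd ((Nat.dvd_lcm_left _ _).trans (Nat.dvd_lcm_right _ _))
          have a3 : u ≡ u0 [MOD m3] := k'.of_dvd ((Nat.dvd_lcm_right _ _).trans (Nat.dvd_lcm_right _ _))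
          refine ⟨?_, a2.trans g2, a3.trans g3⟩
          exact (Nat.modEq_zero_iff_dvd).1 (a1.trans ((Nat.modEq_zero_iff_dvd).2 g1))
      rw [e]
      exact APC_cls hc hN A B m (u0 % m) hmpos (Nat.mod_lt _ hmpos) hmN
    · rw [Finset.filter_false_of_mem (fun u _ h => hex ⟨u, h⟩)]
      simp
      exact hPB
  · rw [Finset.sum_eq_zero]
    · simp
      exact hPB
    · intro u hu
      refine hc.zero u fun hcop => h1c ?_
      exact Nat.Coprime.coprime_dvd_left ((Finset.mem_filter.1 hu).2.1) hcop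

end Pool.Agent.Lib.PX
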