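import Pool.Agent.Lib.MP_7b7e48_nt.PX.Defs

/-!
# HYP: the hyperbola decomposition

PROOF. The pairs `(u, v)` with `u v = n ≤ X`. `cfr_sum`: exchange the sums, `n = u v`, `v ≤ X/u`. `HYP2`: the pairs with `u ≤ U` and those with `u > U`; in the latter `v ≤ X/(U+1)` and `u ≤ X/v`. `cf_split`: a divisor of `n ≤ X` is `≤ X`.
-/

set_option autoImplicit false

open Finset
open Pool.Agent.Lib.GT (Rough V)
open Pool.Agent.Lib.MP_45349e_nt.LS (lam)
open Pool.Agent.Lib.RG (RC LV rr SS PB sig)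

namespace Pool.Agent.Lib.PX

open Pool.Agent.Lib.PQ (pw)

open Classical in
theorem cfr_sum (c f : ℕ → ℝ) (U U' X : ℕ) (p : ℕ → Prop) :
    ∑ n ∈ (Finset.Icc 1 X).filter p, cfr c f U U' n =
      ∑ u ∈ Finset.Ioc U U', c u * ∑ v ∈ (Finset.Icc 1 (X / u)).filter (fun v => p (u * v)), f v := by
  unfold cfr
  simp_rw [Finset.mul_sum]
  rw [Finset.sum_sigma', Finset.sum_sigma']
  refine Finset.sum_nbij' (fun a => (⟨a.2, a.1 / a.2⟩ : Σ _ : ℕ, ℕ)) (fun b => (⟨b.1 * b.2, b.1⟩ : Σ _ : ℕ, ℕ)) ?_ ?_ ?_ ?_ ?_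
  · rintro ⟨n, u⟩ h
    simp only [Finset.mem_sigma, Finset.mem_filter, Finset.mem_Icc, Nat.mem_divisors, Finset.mem_Ioc] at h ⊢
    obtain ⟨⟨⟨h1, h2⟩, h3⟩, ⟨h4, h5⟩, h6, h7⟩ := h
    obtain ⟨v, rfl⟩ := h4
    have hu : 0 < u := by omega
    have hv : 0 < v := by
      rcases Nat.eq_zero_or_pos v with h | h
      · rw [h] at h1; omega
      · exact h
    rw [Nat.mul_div_cancel_left v hu]
    exact ⟨⟨h6, h7⟩, ⟨hv, (Nat.le_div_iff_mul_le hu).2 (by rw [mul_comm]; exact h2)⟩, h3⟩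
  · rintro ⟨u, v⟩ h
    simp only [Finset.mem_sigma, Finset.mem_filter, Finset.mem_Icc, Nat.mem_divisors, Finset.mem_Ioc] at h ⊢
    obtain ⟨⟨h1, h2⟩, ⟨h3, h4⟩, h5⟩ := h
    have hu : 0 < u := by omega
    have h6 := (Nat.le_div_iff_mul_le hu).1 h4
    refine ⟨⟨⟨Nat.mul_pos hu h3, by rw [mul_comm]; exact h6⟩, h5⟩, ⟨Dvd.intro v rfl, (Nat.mul_pos hu h3).ne'⟩, h1, h2⟩
  · rintro ⟨n, u⟩ h
    simp only [Finset.mem_sigma, Finset.mem_filter, Finset.mem_Icc, Nat.mem_divisors] at h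
    simp only [Nat.mul_div_cancel' h.2.1.1]
  · rintro ⟨u, v⟩ h
    simp only [Finset.mem_sigma, Finset.mem_filter, Finset.mem_Icc, Finset.mem_Ioc] at h
    have hu : 0 < u := by omega
    simp only [Nat.mul_div_cancel_left v hu]
  · rintro ⟨n, u⟩ h
    rfl

open Classical in
theorem cfr_sum' (c f : ℕ → ℝ) (U X : ℕ) (p : ℕ → Prop) :
    ∑ n ∈ (Finset.Icc 1 X).filter p, cfr c f U X n =
      ∑ v ∈ Finset.Icc 1 (X / (U + 1)), f v * ∑ u ∈ (Finset.Ioc U (X / v)).filter (fun u => p (u * v)), c u := by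
  unfold cfr
  simp_rw [Finset.mul_sum]
  rw [Finset.sum_sigma', Finset.sum_sigma']
  refine Finset.sum_nbij' (fun a => (⟨a.1 / a.2, a.2⟩ : Σ _ : ℕ, ℕ)) (fun b => (⟨b.2 * b.1, b.2⟩ : Σ _ : ℕ, ℕ)) ?_ ?_ ?_ ?_ ?_
  · rintro ⟨n, u⟩ h
    simp only [Finset.mem_sigma, Finset.mem_filter, Finset.mem_Icc, Nat.mem_divisors, Finset.mem_Ioc] at h ⊢
    obtain ⟨⟨⟨h1, h2⟩, h3⟩, ⟨h4, h5⟩, h6, h7⟩ := h
    obtain ⟨v, rfl⟩ := h4
    have hu : 0 < u := by omega
    have hv : 0 < v := by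
      rcases Nat.eq_zero_or_pos v with h | h
      · rw [h] at h1; omega
      · exact h
    rw [Nat.mul_div_cancel_left v hu]
    refine ⟨⟨hv, (Nat.le_div_iff_mul_le (Nat.succ_pos U)).2 ?_⟩, ⟨h6, (Nat.le_div_iff_mul_le hv).2 h2⟩, h3⟩
    calc v * (U + 1) ≤ v * u := Nat.mul_le_mul_left v h6
      _ = u * v := mul_comm _ _
      _ ≤ X := h2
  · rintro ⟨v, u⟩ h
    simp only [Finset.mem_sigma, Finset.mem_filter, Finset.mem_Icc, Nat.mem_divisors, Finset.mem_Ioc] at h ⊢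
    obtain ⟨⟨h1, h2⟩, ⟨h3, h4⟩, h5⟩ := h
    have hu : 0 < u := by omega
    have h6 := (Nat.le_div_iff_mul_le (show 0 < v from h1)).1 h4
    refine ⟨⟨⟨Nat.mul_pos hu h1, h6⟩, h5⟩, ⟨Dvd.intro v rfl, (Nat.mul_pos hu h1).ne'⟩, h3, ?_⟩
    exact le_trans (Nat.le_mul_of_pos_right u h1) h6
  · rintro ⟨n, u⟩ h
    simp only [Finset.mem_sigma, Finset.mem_filter, Finset.mem_Icc, Nat.mem_divisors] at h
    simp only [Nat.mul_div_cancel' h.2.1.1]
  · rintro ⟨v, u⟩ h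
    simp only [Finset.mem_sigma, Finset.mem_filter, Finset.mem_Icc, Finset.mem_Ioc] at h
    have hu : 0 < u := by omega
    simp only [Nat.mul_div_cancel_left v hu]
  · rintro ⟨n, u⟩ h
    exact mul_comm _ _

theorem cf_split (c f : ℕ → ℝ) (U U' X n : ℕ) (hU : U ≤ U') (hn : n ≤ X) (hX : U' ≤ X) :
    cf c f n = cfr c f 0 U n + cfr c f U U' n + cfr c f U' X n := by
  classical
  unfold cf cfr
  rw [Finset.sum_filter, Finset.sum_filter, Finset.sum_filter, ← Finset.sum_add_distrib, ← Finset.sum_add_distrib]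
  refine Finset.sum_congr rfl fun u hu => ?_
  have h1 : 0 < u := Nat.pos_of_mem_divisors hu
  have h2 : u ≤ X := le_trans (Nat.divisor_le hu) hn
  by_cases h3 : u ≤ U
  · rw [if_pos ⟨h1, h3⟩, if_neg (by omega), if_neg (by omega)]; ring
  · by_cases h4 : u ≤ U'
    · rw [if_neg (by omega), if_pos (by omega), if_neg (by omega)]; ring
    · rw [if_neg (by omega), if_neg (by omega), if_pos (by omega)]; ring

open Classical in
theorem HYP2 (c f : ℕ → ℝ) (U X : ℕ) (p : ℕ → Prop) :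
    ∑ n ∈ (Finset.Icc 1 X).filter p, cf c f n =
      ∑ u ∈ Finset.Icc 1 U, c u * (∑ v ∈ (Finset.Icc 1 (X / u)).filter (fun v => p (u * v)), f v) +
      ∑ v ∈ Finset.Icc 1 (X / (U + 1)), f v * ∑ u ∈ (Finset.Ioc U (X / v)).filter (fun u => p (u * v)), c u := by
  have h0 : ∀ n ∈ (Finset.Icc 1 X).filter p, cf c f n = cfr c f 0 U n + cfr c f U X n := by
    intro n hn
    have hn2 : n ≤ X := (Finset.mem_Icc.1 (Finset.mem_filter.1 hn).1).2
    unfold cf cfr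
    rw [Finset.sum_filter, Finset.sum_filter, ← Finset.sum_add_distrib]
    refine Finset.sum_congr rfl fun u hu => ?_
    have h1 : 0 < u := Nat.pos_of_mem_divisors hu
    have h2 : u ≤ X := le_trans (Nat.divisor_le hu) hn2
    by_cases h3 : u ≤ U
    · rw [if_pos ⟨h1, h3⟩, if_neg (by omega)]; ring
    · rw [if_neg (by omega), if_pos (by omega)]; ring
  rw [Finset.sum_congr rfl h0, Finset.sum_add_distrib, cfr_sum, cfr_sum']
  rfl

end Pool.Agent.Lib.PX
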