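import Pool.Agent.Lib.MP_7b7e48_nt.PX.EQ1
import Pool.Agent.Lib.MP_7b7e48_nt.PX.HYP
import Pool.Agent.Lib.MP_7b7e48_nt.PX.APC

/-!
# BVl: large `u`

PROOF. `cfr_sum'`: fixed `v ≤ X/(U2+1) ≤ 2 N^(μ/100 + μ/3)`, the inner sums are over `u ∈ (U2, X/v]` with `D1 ∣ u v`, `u v = a` modulo `D2`, and `u v = r q` modulo `q` resp. `q ∤ u v`. They are empty if `gcd(v, D2) > 1`; otherwise `D1 ∣ u v` iff `D1/gcd(D1,v) ∣ u`, and the others are classes of `u` modulo `D2` and `q` (`q ∤ v`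
as `v < q`; `q ∤ u` = all minus the class `0` modulo `q`). By `APC` (three times) the error for one `v` is `≤ (1 + log X)(2 PB + (1/(q-1)) 4 PB) ≤ 6 PB (1 + log X)`. Total `≤ #QQ * 2 N^(μ/100+μ/3) * 6 PB (1 + log X)`, `#QQ ≤ Q ≤ N^(1/2-μ)`, `PB ≤ C N^(1/2+μ/100)`: exponent `1 - μ + μ/3 + μ/50 ≤ 1 - 0.64 μ`.
-/

set_option autoImplicit false

open Finset
open Pool.Agent.Lib.GT (Rough V)
open Pool.Agent.Lib.MP_45349e_nt.LS (lam)
open Pool.Agent.Lib.RG (RC LV rr SS PB sig)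

namespace Pool.Agent.Lib.PX

open Pool.Agent.Lib.PQ (pw)

open Classical in
private noncomputable def BVl_S (s : Finset ℕ) (p : ℕ → Prop) (f : ℕ → ℝ) : ℝ := ∑ v ∈ s.filter p, f v

private theorem BVl_S_eq (s : Finset ℕ) (p : ℕ → Prop) [DecidablePred p] (f : ℕ → ℝ) : ∑ v ∈ s.filter p, f v = BVl_S s p f := by
  unfold BVl_S
  exact Finset.sum_congr (by ext n; simp only [Finset.mem_filter]) fun _ _ => rfl

private theorem BVl_S_congr {s : Finset ℕ} {p p' : ℕ → Prop} (f : ℕ → ℝ) (h : ∀ v, (p v ↔ p' v)) : BVl_S s p f = BVl_S s p' f := by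
  classical
  unfold BVl_S
  exact Finset.sum_congr (by ext n; simp only [Finset.mem_filter]; exact and_congr_right fun _ => h n) fun _ _ => rfl

private theorem BVl_S_not (s : Finset ℕ) (A P : ℕ → Prop) (f : ℕ → ℝ) :
    BVl_S s (fun v => ¬ A v ∧ P v) f = BVl_S s P f - BVl_S s (fun v => A v ∧ P v) f := by
  classical
  have h := Finset.sum_filter_add_sum_filter_not (s.filter P) A f
  have h1 : ∑ x ∈ (s.filter P).filter A, f x = BVl_S s (fun v => A v ∧ P v) f := by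
    unfold BVl_S
    exact Finset.sum_congr (by ext n; simp only [Finset.mem_filter]; tauto) fun _ _ => rfl
  have h2 : ∑ x ∈ (s.filter P).filter (fun x => ¬ A x), f x = BVl_S s (fun v => ¬ A v ∧ P v) f := by
    unfold BVl_S
    exact Finset.sum_congr (by ext n; simp only [Finset.mem_filter]; tauto) fun _ _ => rfl
  have h3 : ∑ x ∈ s.filter P, f x = BVl_S s P f := BVl_S_eq s P f
  rw [h1, h2, h3] at h
  linarith

private theorem BVl_S_false (s : Finset ℕ) (p : ℕ → Prop) (f : ℕ → ℝ) (h : ∀ v, ¬ p v) : BVl_S s p f = 0 := by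
  classical
  unfold BVl_S
  rw [Finset.filter_false_of_mem fun v _ => h v, Finset.sum_empty]

private theorem BVl_FD (D1 D2 a X : ℕ) (G : ℕ → ℝ) (A : ℕ → Prop) :
    BVl_S (Finset.Icc 1 X) A (FD D1 D2 a G) = BVl_S (Finset.Icc 1 X) (fun n => A n ∧ (D1 ∣ n ∧ n ≡ a [MOD D2])) G := by
  classical
  unfold BVl_S
  rw [Finset.sum_filter, Finset.sum_filter]
  refine Finset.sum_congr rfl fun n _ => ?_
  unfold FD
  by_cases h1 : A n
  · by_cases h2 : D1 ∣ n ∧ n ≡ a [MOD D2]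
    · rw [if_pos h1, if_pos h2, if_pos ⟨h1, h2⟩]
    · rw [if_pos h1, if_neg h2, if_neg fun h => h2 h.2]
  · rw [if_neg h1, if_neg fun h => h1 h.1]

/-- the solutions of a linear congruence -/
private theorem BVl_lin (M u a : ℕ) (hM : 1 ≤ M) : (∀ v, ¬ u * v ≡ a [MOD M]) ∨ ∃ b, ∀ v, (u * v ≡ a [MOD M] ↔ v ≡ b [MOD M / M.gcd u]) := by
  by_cases h : ∃ v0, u * v0 ≡ a [MOD M]
  · obtain ⟨v0, h0⟩ := h
    refine Or.inr ⟨v0, fun v => ⟨fun h1 => Nat.ModEq.cancel_left_div_gcd hM (h1.trans h0.symm), fun h1 => ?_⟩⟩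
    have hg : M.gcd u ∣ M := Nat.gcd_dvd_left _ _
    have hg' : M.gcd u ∣ u := Nat.gcd_dvd_right _ _
    have h2 := (h1.mul_left' (M.gcd u)).mul_left (u / M.gcd u)
    rw [Nat.mul_div_cancel' hg, ← mul_assoc, ← mul_assoc, Nat.div_mul_cancel hg'] at h2
    exact h2.trans h0
  · push Not at h
    exact Or.inl h

/-- the sum over one class, a divisibility and a congruence modulo `D2` -/
private theorem BVl_apc {N : ℕ} {c : ℕ → ℝ} (hc : RC N c) (hN : 1 ≤ N) (A B v q r D1 D2 a : ℕ) (hq : 1 ≤ q) (hqN : q.Coprime N) (h1 : 1 ≤ D1)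
    (h2 : 1 ≤ D2) (h2N : D2.Coprime N) :
    |BVl_S (Finset.Ioc A B) (fun u => u * v ≡ r [MOD q] ∧ (D1 ∣ u * v ∧ u * v ≡ a [MOD D2])) c| ≤ 2 * PB N := by
  classical
  have hPB : 0 ≤ PB N := (abs_nonneg _).trans (hc.pv 0)
  have hz : ∀ p : ℕ → Prop, (∀ u, ¬ p u) → |BVl_S (Finset.Ioc A B) p c| ≤ 2 * PB N := by
    intro p hp
    rw [BVl_S_false _ _ _ hp, abs_zero]
    linarith
  rcases BVl_lin q v r hq with h | ⟨b3, hb3⟩
  · exact hz _ fun u hu => h u (by rw [mul_comm]; exact hu.1)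
  rcases BVl_lin D2 v a h2 with h | ⟨b2, hb2⟩
  · exact hz _ fun u hu => h u (by rw [mul_comm]; exact hu.2.2)
  rcases BVl_lin D1 v 0 h1 with h | ⟨b1, hb1⟩
  · exact hz _ fun u hu => h u (by rw [mul_comm]; exact (Nat.modEq_zero_iff_dvd).2 hu.2.1)
  have hb0 : 0 ≡ b1 [MOD D1 / D1.gcd v] := (hb1 0).1 (by rw [mul_zero])
  have hd : ∀ M : ℕ, 1 ≤ M → 1 ≤ M / M.gcd v := fun M hM =>
    Nat.div_pos (Nat.le_of_dvd hM (Nat.gcd_dvd_left _ _)) (Nat.gcd_pos_of_pos_left _ hM)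
  have hdc : ∀ M : ℕ, M.Coprime N → (M / M.gcd v).Coprime N := fun M hM =>
    Nat.Coprime.coprime_dvd_left (Nat.div_dvd_of_dvd (Nat.gcd_dvd_left _ _)) hM
  have e1 : BVl_S (Finset.Ioc A B) (fun u => u * v ≡ r [MOD q] ∧ (D1 ∣ u * v ∧ u * v ≡ a [MOD D2])) c =
      BVl_S (Finset.Ioc A B) (fun u => D1 / D1.gcd v ∣ u ∧ u ≡ b2 [MOD D2 / D2.gcd v] ∧ u ≡ b3 [MOD q / q.gcd v]) c := by
    refine BVl_S_congr c fun u => ?_
    rw [← hb3 u, ← hb2 u, mul_comm v u]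
    have h3 : D1 / D1.gcd v ∣ u ↔ D1 ∣ u * v := by
      rw [← Nat.modEq_zero_iff_dvd, ← Nat.modEq_zero_iff_dvd, mul_comm u v, hb1 u]
      exact ⟨fun h => h.trans hb0, fun h => h.trans hb0.symm⟩
    rw [h3]
    tauto
  rw [e1]
  have h := APC hc hN A B (D1 / D1.gcd v) (D2 / D2.gcd v) (q / q.gcd v) b2 b3 (hd D1 h1) (hd D2 h2) (hd q hq) (hdc D2 h2N) (hdc q hqN)
  rw [BVl_S_eq] at h
  exact h

/-- the error for one `v` -/
private theorem BVl_err {N : ℕ} {c : ℕ → ℝ} (hc : RC N c) (hN : 1 ≤ N) (A B v q r D1 D2 a : ℕ) (hq : q.Prime) (hqN : ¬ q ∣ N) (h1 : 1 ≤ D1)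
    (h2 : 1 ≤ D2) (h2N : D2.Coprime N) :
    |BVl_S (Finset.Ioc A B) (fun u => u * v ≡ r [MOD q] ∧ (D1 ∣ u * v ∧ u * v ≡ a [MOD D2])) c -
      1 / ((q : ℝ) - 1) * BVl_S (Finset.Ioc A B) (fun u => ¬ q ∣ u * v ∧ (D1 ∣ u * v ∧ u * v ≡ a [MOD D2])) c| ≤ 6 * PB N := by
  classical
  have hPB : 0 ≤ PB N := (abs_nonneg _).trans (hc.pv 0)
  have hq2 : (2 : ℝ) ≤ q := by exact_mod_cast hq.two_le
  have hcq : q.Coprime N := (Nat.Prime.coprime_iff_not_dvd hq).2 hqN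
  have hA1 := BVl_apc hc hN A B v q r D1 D2 a hq.pos hcq h1 h2 h2N
  have hA2 := BVl_apc hc hN A B v 1 0 D1 D2 a le_rfl (Nat.coprime_one_left N) h1 h2 h2N
  have hA3 := BVl_apc hc hN A B v q 0 D1 D2 a hq.pos hcq h1 h2 h2N
  have e2 : BVl_S (Finset.Ioc A B) (fun u => u * v ≡ 0 [MOD 1] ∧ (D1 ∣ u * v ∧ u * v ≡ a [MOD D2])) c =
      BVl_S (Finset.Ioc A B) (fun u => D1 ∣ u * v ∧ u * v ≡ a [MOD D2]) c :=
    BVl_S_congr c fun u => ⟨fun h => h.2, fun h => ⟨Nat.modEq_one, h⟩⟩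
  have e3 : BVl_S (Finset.Ioc A B) (fun u => u * v ≡ 0 [MOD q] ∧ (D1 ∣ u * v ∧ u * v ≡ a [MOD D2])) c =
      BVl_S (Finset.Ioc A B) (fun u => q ∣ u * v ∧ (D1 ∣ u * v ∧ u * v ≡ a [MOD D2])) c :=
    BVl_S_congr c fun u => by rw [Nat.modEq_zero_iff_dvd]
  rw [e2] at hA2
  rw [e3] at hA3
  rw [BVl_S_not]
  obtain ⟨S1, hS1⟩ : ∃ S1, S1 = BVl_S (Finset.Ioc A B) (fun u => u * v ≡ r [MOD q] ∧ (D1 ∣ u * v ∧ u * v ≡ a [MOD D2])) c := ⟨_, rfl⟩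
  obtain ⟨S2, hS2⟩ : ∃ S2, S2 = BVl_S (Finset.Ioc A B) (fun u => D1 ∣ u * v ∧ u * v ≡ a [MOD D2]) c := ⟨_, rfl⟩
  obtain ⟨S3, hS3⟩ : ∃ S3, S3 = BVl_S (Finset.Ioc A B) (fun u => q ∣ u * v ∧ (D1 ∣ u * v ∧ u * v ≡ a [MOD D2])) c := ⟨_, rfl⟩
  rw [← hS1] at hA1 ⊢
  rw [← hS2] at hA2 ⊢
  rw [← hS3] at hA3 ⊢
  have hq1 : (0 : ℝ) < (q : ℝ) - 1 := by linarith
  have hinv : 0 ≤ 1 / ((q : ℝ) - 1) := by positivity
  have hinv1 : 1 / ((q : ℝ) - 1) ≤ 1 := by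
    rw [div_le_one hq1]
    linarith
  have hB : |S2 - S3| ≤ 4 * PB N := by
    refine (abs_sub _ _).trans ?_
    linarith
  have hC : |1 / ((q : ℝ) - 1) * (S2 - S3)| ≤ 4 * PB N := by
    rw [abs_mul, abs_of_nonneg hinv]
    calc 1 / ((q : ℝ) - 1) * |S2 - S3| ≤ 1 * |S2 - S3| :=
          mul_le_mul_of_nonneg_right hinv1 (abs_nonneg _)
      _ ≤ _ := by rw [one_mul]; exact hB
  refine (abs_sub _ _).trans ?_
  linarith

private theorem BVl_EQ (c f : ℕ → ℝ) (U X q r D1 D2 a : ℕ) : EQ (FD D1 D2 a (cfr c f U X)) X q r =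
    ∑ v ∈ Finset.Icc 1 (X / (U + 1)), f v * (BVl_S (Finset.Ioc U (X / v)) (fun u => u * v ≡ r [MOD q] ∧ (D1 ∣ u * v ∧ u * v ≡ a [MOD D2])) c -
      1 / ((q : ℝ) - 1) * BVl_S (Finset.Ioc U (X / v)) (fun u => ¬ q ∣ u * v ∧ (D1 ∣ u * v ∧ u * v ≡ a [MOD D2])) c) := by
  have key : ∀ A : ℕ → Prop, BVl_S (Finset.Icc 1 X) A (FD D1 D2 a (cfr c f U X)) =
      ∑ v ∈ Finset.Icc 1 (X / (U + 1)), f v * BVl_S (Finset.Ioc U (X / v)) (fun u => A (u * v) ∧ (D1 ∣ u * v ∧ u * v ≡ a [MOD D2])) c := by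
    intro A
    have h1 := cfr_sum' c f U X (fun n => A n ∧ (D1 ∣ n ∧ n ≡ a [MOD D2]))
    rw [BVl_S_eq] at h1
    rw [BVl_FD, h1]
    refine Finset.sum_congr rfl fun u _ => ?_
    rw [BVl_S_eq]
  unfold EQ
  rw [BVl_S_eq, BVl_S_eq, key (fun n => n ≡ r [MOD q]), key (fun n => ¬ q ∣ n), Finset.mul_sum, ← Finset.sum_sub_distrib]
  exact Finset.sum_congr rfl fun u _ => by ring

theorem BVl (μ : ℝ) (hμ : 0 < μ) (hμ1 : μ ≤ 1 / 10) : ∃ N0 : ℕ, ∀ N : ℕ, N0 ≤ N → ∀ c f : ℕ → ℝ,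
    RC N c → (f = on1 ∨ f = lg) → ∀ (Q : ℕ) (QQ : Finset ℕ) (r : ℕ → ℕ) (X D1 D2 a U2 : ℕ),
    QS N μ Q QQ → (∀ q ∈ QQ, ¬ q ∣ r q) → (X : ℝ) ≤ (N : ℝ) ^ (1 + μ / 100) → 1 ≤ D1 →
    (D1 : ℝ) ≤ (N : ℝ) ^ (μ / 100) → 1 ≤ D2 → (D2 : ℝ) ≤ (N : ℝ) ^ (μ / 100) → D2.Coprime N → a.Coprime D2 →
    (N : ℝ) ^ (1 - μ / 3) ≤ 2 * U2 →
    ∑ q ∈ QQ, |EQ (FD D1 D2 a (cfr c f U2 X)) X q (r q)| ≤ (N : ℝ) ^ (1 - μ / 2) := by
  obtain ⟨C, hC0, hC⟩ := RG.PB_le (μ / 100) (by positivity)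
  have t1 : ∀ᶠ N : ℕ in Filter.atTop, 6 * C * (1 + 40 / μ) ≤ (N : ℝ) ^ (μ / 20) :=
    ((tendsto_rpow_atTop (by positivity)).comp tendsto_natCast_atTop_atTop).eventually_ge_atTop _
  obtain ⟨N0, hN0⟩ := Filter.eventually_atTop.1 (t1.and (Filter.eventually_ge_atTop 2))
  refine ⟨N0, ?_⟩
  intro N hN c f hc hf Q QQ r X D1 D2 a U2 hQS _ hX hD1 _ hD2 _ hD2c _ hU2
  obtain ⟨g1, g3⟩ := hN0 N hN
  have hN1 : (1 : ℝ) < N := by exact_mod_cast (by omega : 1 < N)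
  have hNpos : (0 : ℝ) < N := by linarith
  have hlogN : 0 ≤ Real.log N := Real.log_nonneg hN1.le
  have hPB : 0 ≤ PB N := (abs_nonneg _).trans (hc.pv 0)
  have hX' : (X : ℝ) ≤ (N : ℝ) ^ (2 : ℝ) := hX.trans (Real.rpow_le_rpow_of_exponent_le hN1.le (by linarith))
  have hlogX : Real.log X ≤ 2 * Real.log N := by
    rcases Nat.eq_zero_or_pos X with h0 | h0
    · rw [h0, Nat.cast_zero, Real.log_zero]
      linarith
    · have h1 : (0 : ℝ) < X := by exact_mod_cast h0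
      have h2 := Real.log_le_log h1 hX'
      rwa [Real.log_rpow hNpos] at h2
  have hL0 : 0 ≤ 1 + 2 * Real.log N := by linarith
  have hP1 : (0 : ℝ) < (N : ℝ) ^ (1 - μ / 3) := Real.rpow_pos_of_pos hNpos _
  -- the number of `v`
  have hY : ((X / (U2 + 1) : ℕ) : ℝ) ≤ 2 * (N : ℝ) ^ (μ / 100 + μ / 3) := by
    have h1 : ((X / (U2 + 1) : ℕ) : ℝ) ≤ (X : ℝ) / ((U2 + 1 : ℕ) : ℝ) := Nat.cast_div_le
    refine h1.trans ?_
    have h2 : (0 : ℝ) < ((U2 + 1 : ℕ) : ℝ) := by positivity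
    rw [div_le_iff₀ h2]
    have h3 : (N : ℝ) ^ (1 + μ / 100) = (N : ℝ) ^ (μ / 100 + μ / 3) * (N : ℝ) ^ (1 - μ / 3) := by
      rw [← Real.rpow_add hNpos]
      congr 1
      ring
    have h4 : (N : ℝ) ^ (1 - μ / 3) ≤ 2 * ((U2 + 1 : ℕ) : ℝ) := by
      push_cast
      linarith
    have h5 : (0 : ℝ) < (N : ℝ) ^ (μ / 100 + μ / 3) := Real.rpow_pos_of_pos hNpos _
    calc (X : ℝ) ≤ (N : ℝ) ^ (μ / 100 + μ / 3) * (N : ℝ) ^ (1 - μ / 3) := hX.trans (le_of_eq h3)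
      _ ≤ (N : ℝ) ^ (μ / 100 + μ / 3) * (2 * ((U2 + 1 : ℕ) : ℝ)) := mul_le_mul_of_nonneg_left h4 h5.le
      _ = _ := by ring
  -- one modulus
  have hone : ∀ q ∈ QQ, |EQ (FD D1 D2 a (cfr c f U2 X)) X q (r q)| ≤
      (2 * (N : ℝ) ^ (μ / 100 + μ / 3)) * ((1 + 2 * Real.log N) * (6 * PB N)) := by
    intro q hq
    obtain ⟨hqp, -, -, hqN⟩ := hQS.mem q hq
    rw [BVl_EQ]
    refine (Finset.abs_sum_le_sum_abs _ _).trans ?_
    have hterm : ∀ v ∈ Finset.Icc 1 (X / (U2 + 1)), |f v * (BVl_S (Finset.Ioc U2 (X / v)) (fun u => u * v ≡ r q [MOD q] ∧ (D1 ∣ u * v ∧ u * v ≡ a [MOD D2])) c -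
      1 / ((q : ℝ) - 1) * BVl_S (Finset.Ioc U2 (X / v)) (fun u => ¬ q ∣ u * v ∧ (D1 ∣ u * v ∧ u * v ≡ a [MOD D2])) c)| ≤
        (1 + 2 * Real.log N) * (6 * PB N) := by
      intro v hv
      rw [Finset.mem_Icc] at hv
      rw [abs_mul]
      have hfv : |f v| ≤ 1 + 2 * Real.log N := by
        rcases hf with h | h
        · rw [h]
          unfold on1
          rw [abs_one]
          linarith
        · rw [h]
          unfold lg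
          have hv1 : (1 : ℝ) ≤ v := by exact_mod_cast hv.1
          have hvX : (v : ℝ) ≤ X := by exact_mod_cast hv.2.trans (Nat.div_le_self _ _)
          rw [abs_of_nonneg (Real.log_nonneg hv1)]
          have := Real.log_le_log (by linarith) hvX
          linarith
      exact mul_le_mul hfv (BVl_err hc (by omega) U2 (X / v) v q (r q) D1 D2 a hqp hqN hD1 hD2 hD2c) (abs_nonneg _) hL0
    refine (Finset.sum_le_sum hterm).trans ?_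
    rw [Finset.sum_const, Nat.card_Icc, nsmul_eq_mul, Nat.add_sub_cancel]
    exact mul_le_mul_of_nonneg_right hY (by positivity)
  have hcard : (QQ.card : ℝ) ≤ Q := by
    have h1 : QQ ⊆ Finset.Ioc Q (2 * Q) := fun q hq => Finset.mem_Ioc.2 ⟨(hQS.mem q hq).2.1, (hQS.mem q hq).2.2.1⟩
    have h2 := Finset.card_le_card h1
    rw [Nat.card_Ioc] at h2
    have h3 : QQ.card ≤ Q := by omega
    exact_mod_cast h3
  have hL : 1 + 2 * Real.log N ≤ (1 + 40 / μ) * (N : ℝ) ^ (μ / 20) := by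
    have h1 := Real.log_le_rpow_div hNpos.le (show (0 : ℝ) < μ / 20 by positivity)
    have h2 : (N : ℝ) ^ (μ / 20) / (μ / 20) = 20 / μ * (N : ℝ) ^ (μ / 20) := by
      field_simp
    rw [h2] at h1
    have h3 : (1 : ℝ) ≤ (N : ℝ) ^ (μ / 20) := Real.one_le_rpow hN1.le (by positivity)
    have h4 : (1 + 40 / μ) * (N : ℝ) ^ (μ / 20) = (N : ℝ) ^ (μ / 20) + 2 * (20 / μ * (N : ℝ) ^ (μ / 20)) := by ring
    rw [h4]
    linarith
  have hPBN : PB N ≤ C * (N : ℝ) ^ (1 / 2 + μ / 100) := (hC N g3).1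
  obtain ⟨E, hE⟩ : ∃ E, E = (N : ℝ) ^ (μ / 20) := ⟨_, rfl⟩
  rw [← hE] at hL g1
  have hE0 : 0 < E := by rw [hE]; exact Real.rpow_pos_of_pos hNpos _
  have hμ40 : 0 < 1 + 40 / μ := by positivity
  calc ∑ q ∈ QQ, |EQ (FD D1 D2 a (cfr c f U2 X)) X q (r q)| ≤
        ∑ q ∈ QQ, (2 * (N : ℝ) ^ (μ / 100 + μ / 3)) * ((1 + 2 * Real.log N) * (6 * PB N)) := Finset.sum_le_sum hone
    _ = QQ.card * ((2 * (N : ℝ) ^ (μ / 100 + μ / 3)) * ((1 + 2 * Real.log N) * (6 * PB N))) := by rw [Finset.sum_const, nsmul_eq_mul]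
    _ ≤ Q * ((2 * (N : ℝ) ^ (μ / 100 + μ / 3)) * (((1 + 40 / μ) * E) * (6 * (C * (N : ℝ) ^ (1 / 2 + μ / 100))))) := by
        refine mul_le_mul hcard ?_ (by positivity) (Nat.cast_nonneg _)
        refine mul_le_mul_of_nonneg_left ?_ (by positivity)
        exact mul_le_mul hL (by linarith) (by positivity) (by positivity)
    _ = (2 * (Q : ℝ)) * (N : ℝ) ^ (μ / 100 + μ / 3) * ((N : ℝ) ^ (1 / 2 + μ / 100) * ((6 * C * (1 + 40 / μ)) * E)) := by ring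
    _ ≤ (N : ℝ) ^ (1 / 2 - μ) * (N : ℝ) ^ (μ / 100 + μ / 3) * ((N : ℝ) ^ (1 / 2 + μ / 100) * (E * E)) := by
        refine mul_le_mul (mul_le_mul_of_nonneg_right hQS.upp (by positivity)) ?_ (by positivity) (by positivity)
        refine mul_le_mul_of_nonneg_left ?_ (by positivity)
        exact mul_le_mul_of_nonneg_right g1 hE0.le
    _ = (N : ℝ) ^ ((1 / 2 - μ) + (μ / 100 + μ / 3) + ((1 / 2 + μ / 100) + (μ / 20 + μ / 20))) := by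
        rw [hE, Real.rpow_add hNpos ((1 / 2 - μ) + (μ / 100 + μ / 3)) ((1 / 2 + μ / 100) + (μ / 20 + μ / 20)),
          Real.rpow_add hNpos (1 / 2 - μ) (μ / 100 + μ / 3), Real.rpow_add hNpos (1 / 2 + μ / 100) (μ / 20 + μ / 20),
          Real.rpow_add hNpos (μ / 20) (μ / 20)]
    _ ≤ (N : ℝ) ^ (1 - μ / 2) := Real.rpow_le_rpow_of_exponent_le hN1.le (by linarith)

end Pool.Agent.Lib.PX
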