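import Pool.Agent.Lib.MP_7b7e48_nt.PX.Defs

/-!
# APL: sums of `1` and `log` over arithmetic progressions

PROOF. `A w = #{v ≤ w, v = b mod m} = w/m + θ w`, `|θ w| ≤ 1` (`Nat.count_modEq_card` or directly). `f = on1`: the difference is `θ Y`. `f = lg`: partial summation, `∑_{v ≤ Y, v = b} log v = A Y log Y - ∑_{w < Y} A w (log (w+1) - log w)`, the same for `∑_{v ≤ Y} log v` with `w` in place of
`A w`; the difference is `θ Y log Y - ∑_{w<Y} θ w (log (w+1) - log w)`, at most `2 log Y`. `Y = 0`: both sides are `0 ≤ 2`.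
-/

set_option autoImplicit false

open Finset
open Pool.Agent.Lib.GT (Rough V)
open Pool.Agent.Lib.MP_45349e_nt.LS (lam)
open Pool.Agent.Lib.RG (RC LV rr SS PB sig)

namespace Pool.Agent.Lib.PX

open Pool.Agent.Lib.PQ (pw)

open Classical in
private theorem APL_card (Y m b : ℕ) (hm : 1 ≤ m) :
    |(((Finset.Icc 1 Y).filter (fun v => v ≡ b [MOD m])).card : ℝ) - (Y : ℝ) / m| ≤ 1 := by
  have h := Nat.Ioc_filter_modEq_card 0 Y hm b
  have e : (Finset.Icc 1 Y).filter (fun v => v ≡ b [MOD m]) = (Finset.Ioc 0 Y).filter (fun v => v ≡ b [MOD m]) := by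
    ext v
    simp only [Finset.mem_filter, Finset.mem_Icc, Finset.mem_Ioc]
    constructor <;> rintro ⟨⟨h1, h2⟩, h3⟩ <;> exact ⟨⟨by omega, h2⟩, h3⟩
  have h' : ((((Finset.Icc 1 Y).filter (fun v => v ≡ b [MOD m])).card : ℤ)) =
      max (⌊((Y : ℚ) - b) / m⌋ - ⌊(((0 : ℕ) : ℚ) - b) / m⌋) 0 := by
    rw [e, ← h]
  have hm0 : (0 : ℚ) < m := by exact_mod_cast hm
  have a1 := Int.floor_le (((Y : ℚ) - b) / m)
  have a2 := Int.lt_floor_add_one (((Y : ℚ) - b) / m)
  have b1 := Int.floor_le ((((0 : ℕ) : ℚ) - b) / m)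
  have b2 := Int.lt_floor_add_one ((((0 : ℕ) : ℚ) - b) / m)
  have hd : ((Y : ℚ) - b) / m - (((0 : ℕ) : ℚ) - b) / m = (Y : ℚ) / m := by
    push_cast; ring
  have hq : |((((Finset.Icc 1 Y).filter (fun v => v ≡ b [MOD m])).card : ℕ) : ℚ) - (Y : ℚ) / m| ≤ 1 := by
    have h2 : ((((Finset.Icc 1 Y).filter (fun v => v ≡ b [MOD m])).card : ℕ) : ℚ) =
        max ((⌊((Y : ℚ) - b) / m⌋ : ℚ) - (⌊(((0 : ℕ) : ℚ) - b) / m⌋ : ℚ)) 0 := by
      have := congrArg (fun z : ℤ => (z : ℚ)) h'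
      push_cast at this ⊢
      exact this
    rw [h2]
    have hY : (0 : ℚ) ≤ (Y : ℚ) / m := by positivity
    rcases le_total ((⌊((Y : ℚ) - b) / m⌋ : ℚ) - (⌊(((0 : ℕ) : ℚ) - b) / m⌋ : ℚ)) 0 with h3 | h3
    · rw [max_eq_right h3, abs_le]
      constructor <;> linarith
    · rw [max_eq_left h3, abs_le]
      constructor <;> linarith
  have hr : |((((Finset.Icc 1 Y).filter (fun v => v ≡ b [MOD m])).card : ℕ) : ℝ) - (Y : ℝ) / m| ≤ 1 := by
    have h5 := (Rat.cast_le (K := ℝ)).2 hq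
    rw [Rat.cast_abs] at h5
    push_cast at h5
    exact h5
  exact hr

open Classical in
private theorem APL_log (Y m b : ℕ) (hm : 1 ≤ m) :
    |∑ v ∈ Finset.Icc 1 Y, ((if v ≡ b [MOD m] then (1 : ℝ) else 0) - 1 / (m : ℝ)) * lg v -
      ((((Finset.Icc 1 Y).filter (fun v => v ≡ b [MOD m])).card : ℝ) - (Y : ℝ) / m) * Real.log Y| ≤ Real.log Y := by
  induction Y with
  | zero => simp
  | succ n ih =>
    have hc : ((((Finset.Icc 1 (n + 1)).filter (fun v => v ≡ b [MOD m])).card : ℕ) : ℝ) =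
        (((Finset.Icc 1 n).filter (fun v => v ≡ b [MOD m])).card : ℝ) + (if (n + 1) ≡ b [MOD m] then (1 : ℝ) else 0) := by
      rw [Finset.card_filter, Finset.card_filter, Finset.sum_Icc_succ_top (by omega)]
      push_cast
      rfl
    rw [Finset.sum_Icc_succ_top (by omega), hc]
    have e : lg (n + 1) = Real.log ((n : ℝ) + 1) := by unfold lg; push_cast; rfl
    rw [e]
    push_cast
    have hθ := APL_card n m b hm
    set θ : ℝ := (((Finset.Icc 1 n).filter (fun v => v ≡ b [MOD m])).card : ℝ) - (n : ℝ) / m with hθd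
    have hl : Real.log (n : ℝ) ≤ Real.log ((n : ℝ) + 1) := by
      rcases Nat.eq_zero_or_pos n with h | h
      · subst h; simp
      · exact Real.log_le_log (by exact_mod_cast h) (by linarith)
    have key : ∑ v ∈ Finset.Icc 1 n, ((if v ≡ b [MOD m] then (1 : ℝ) else 0) - 1 / (m : ℝ)) * lg v +
        ((if (n + 1) ≡ b [MOD m] then (1 : ℝ) else 0) - 1 / (m : ℝ)) * Real.log ((n : ℝ) + 1) -
        ((((Finset.Icc 1 n).filter (fun v => v ≡ b [MOD m])).card : ℝ) + (if (n + 1) ≡ b [MOD m] then (1 : ℝ) else 0) -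
          ((n : ℝ) + 1) / m) * Real.log ((n : ℝ) + 1) =
        (∑ v ∈ Finset.Icc 1 n, ((if v ≡ b [MOD m] then (1 : ℝ) else 0) - 1 / (m : ℝ)) * lg v - θ * Real.log n) -
          θ * (Real.log ((n : ℝ) + 1) - Real.log n) := by
      rw [hθd]; ring
    rw [key]
    have h2 : |θ * (Real.log ((n : ℝ) + 1) - Real.log n)| ≤ 1 * (Real.log ((n : ℝ) + 1) - Real.log n) := by
      rw [abs_mul, abs_of_nonneg (sub_nonneg.2 hl)]
      exact mul_le_mul_of_nonneg_right hθ (sub_nonneg.2 hl)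
    refine (abs_sub _ _).trans ?_
    linarith

open Classical in
theorem APL (f : ℕ → ℝ) (hf : f = on1 ∨ f = lg) (Y m b : ℕ) (hm : 1 ≤ m) :
    |∑ v ∈ (Finset.Icc 1 Y).filter (fun v => v ≡ b [MOD m]), f v - (∑ v ∈ Finset.Icc 1 Y, f v) / m| ≤
      2 * (1 + Real.log Y) := by
  have hm0 : (0 : ℝ) < m := by exact_mod_cast hm
  have hY : 0 ≤ Real.log Y := Real.log_natCast_nonneg Y
  have e : ∑ v ∈ (Finset.Icc 1 Y).filter (fun v => v ≡ b [MOD m]), f v - (∑ v ∈ Finset.Icc 1 Y, f v) / m =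
      ∑ v ∈ Finset.Icc 1 Y, ((if v ≡ b [MOD m] then (1 : ℝ) else 0) - 1 / (m : ℝ)) * f v := by
    rw [Finset.sum_filter, Finset.sum_div, ← Finset.sum_sub_distrib]
    refine Finset.sum_congr rfl fun v _ => ?_
    by_cases h : v ≡ b [MOD m]
    · rw [if_pos h, if_pos h]; ring
    · rw [if_neg h, if_neg h]; ring
  have hθ := APL_card Y m b hm
  rcases hf with hf | hf
  · have e2 : ∑ v ∈ (Finset.Icc 1 Y).filter (fun v => v ≡ b [MOD m]), f v - (∑ v ∈ Finset.Icc 1 Y, f v) / m =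
        (((Finset.Icc 1 Y).filter (fun v => v ≡ b [MOD m])).card : ℝ) - (Y : ℝ) / m := by
      rw [hf]
      simp [on1]
    rw [e2]
    linarith
  · rw [e, hf]
    have h1 := APL_log Y m b hm
    set θ : ℝ := (((Finset.Icc 1 Y).filter (fun v => v ≡ b [MOD m])).card : ℝ) - (Y : ℝ) / m with hθd
    have h2 : |θ * Real.log Y| ≤ 1 * Real.log Y := by
      rw [abs_mul, abs_of_nonneg hY]
      exact mul_le_mul_of_nonneg_right hθ hY
    have h3 := abs_le.1 h1
    have h4 := abs_le.1 h2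
    rw [abs_le]
    constructor <;> linarith [h3.1, h3.2, h4.1, h4.2]

end Pool.Agent.Lib.PX
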