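import Pool.Agent.Lib.MP_7b7e48_nt.PX.EQ1
import Pool.Agent.Lib.MP_7b7e48_nt.PX.HYP
import Pool.Agent.Lib.MP_7b7e48_nt.PX.APL

/-!
# BVs: small `u`

PROOF. Fix `q ∈ QQ`, `u ≤ U1`. If `q ∣ u` (impossible if `U1 < q`, otherwise both parts vanish or are handled trivially; here `U1 ≤ 2 N^(μ/3) < Q < q`). The condition `D1 ∣ u v ∧ u v = a mod D2` is empty (if `gcd(u, D2) > 1`) or one class of `v` modulo `e' D2`, `e' = D1/gcd(D1,u)` (coprime to `D2`, or empty if not: if `gcd(e', D2) > 1` the set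
is empty because `u v` is a unit modulo `D2`); together with `u v = r q` modulo `q` one class modulo `e' D2 q` (`q ∤ e' D2` because `q > N^μ > D1, D2`). By `APL` three times (`v` in the class modulo `e' D2 q`, modulo `e' D2`, and the multiples of `q` in the latter: a class modulo `e' D2 q`): with `F = ∑_{v ≤ X/u} f v`
the difference is `F/(e'D2q) - (1/(q-1)) (F/(e'D2) - F/(e'D2q)) = 0` plus an error `≤ 6 (1 + log X)`. Sum over `u ≤ U1` (`cfr_sum`) and `q ∈ QQ` (`#QQ ≤ Q`): `≤ Q U1 * 6 (1 + log X) ≤ N^(3/4)`.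
-/

set_option autoImplicit false

open Finset
open Pool.Agent.Lib.GT (Rough V)
open Pool.Agent.Lib.MP_45349e_nt.LS (lam)
open Pool.Agent.Lib.RG (RC LV rr SS PB sig)

namespace Pool.Agent.Lib.PX

open Pool.Agent.Lib.PQ (pw)

open Classical in
private noncomputable def BVs_S (s : Finset ℕ) (p : ℕ → Prop) (f : ℕ → ℝ) : ℝ := ∑ v ∈ s.filter p, f v

private theorem BVs_S_eq (s : Finset ℕ) (p : ℕ → Prop) [DecidablePred p] (f : ℕ → ℝ) : ∑ v ∈ s.filter p, f v = BVs_S s p f := by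
  unfold BVs_S
  exact Finset.sum_congr (by ext n; simp only [Finset.mem_filter]) fun _ _ => rfl

private theorem BVs_S_congr {s : Finset ℕ} {p p' : ℕ → Prop} (f : ℕ → ℝ) (h : ∀ v, (p v ↔ p' v)) : BVs_S s p f = BVs_S s p' f := by
  classical
  unfold BVs_S
  exact Finset.sum_congr (by ext n; simp only [Finset.mem_filter]; exact and_congr_right fun _ => h n) fun _ _ => rfl

private theorem BVs_S_not (s : Finset ℕ) (A P : ℕ → Prop) (f : ℕ → ℝ) :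
    BVs_S s (fun v => ¬ A v ∧ P v) f = BVs_S s P f - BVs_S s (fun v => A v ∧ P v) f := by
  classical
  have h := Finset.sum_filter_add_sum_filter_not (s.filter P) A f
  have h1 : ∑ x ∈ (s.filter P).filter A, f x = BVs_S s (fun v => A v ∧ P v) f := by
    unfold BVs_S
    exact Finset.sum_congr (by ext n; simp only [Finset.mem_filter]; tauto) fun _ _ => rfl
  have h2 : ∑ x ∈ (s.filter P).filter (fun x => ¬ A x), f x = BVs_S s (fun v => ¬ A v ∧ P v) f := by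
    unfold BVs_S
    exact Finset.sum_congr (by ext n; simp only [Finset.mem_filter]; tauto) fun _ _ => rfl
  have h3 : ∑ x ∈ s.filter P, f x = BVs_S s P f := BVs_S_eq s P f
  rw [h1, h2, h3] at h
  linarith

private theorem BVs_S_false (s : Finset ℕ) (p : ℕ → Prop) (f : ℕ → ℝ) (h : ∀ v, ¬ p v) : BVs_S s p f = 0 := by
  classical
  unfold BVs_S
  rw [Finset.filter_false_of_mem fun v _ => h v, Finset.sum_empty]

private theorem BVs_FD (D1 D2 a X : ℕ) (G : ℕ → ℝ) (A : ℕ → Prop) :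
    BVs_S (Finset.Icc 1 X) A (FD D1 D2 a G) = BVs_S (Finset.Icc 1 X) (fun n => A n ∧ (D1 ∣ n ∧ n ≡ a [MOD D2])) G := by
  classical
  unfold BVs_S
  rw [Finset.sum_filter, Finset.sum_filter]
  refine Finset.sum_congr rfl fun n _ => ?_
  unfold FD
  by_cases h1 : A n
  · by_cases h2 : D1 ∣ n ∧ n ≡ a [MOD D2]
    · rw [if_pos h1, if_pos h2, if_pos ⟨h1, h2⟩]
    · rw [if_pos h1, if_neg h2, if_neg fun h => h2 h.2]
  · rw [if_neg h1, if_neg fun h => h1 h.1]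

/-- the solutions of a linear congruence -/
private theorem BVs_lin (M u a : ℕ) (hM : 1 ≤ M) : (∀ v, ¬ u * v ≡ a [MOD M]) ∨ ∃ b, ∀ v, (u * v ≡ a [MOD M] ↔ v ≡ b [MOD M / M.gcd u]) := by
  by_cases h : ∃ v0, u * v0 ≡ a [MOD M]
  · obtain ⟨v0, h0⟩ := h
    refine Or.inr ⟨v0, fun v => ⟨fun h1 => Nat.ModEq.cancel_left_div_gcd hM (h1.trans h0.symm), fun h1 => ?_⟩⟩
    have hg : M.gcd u ∣ M := Nat.gcd_dvd_left _ _
    have hg' : M.gcd u ∣ u := Nat.gcd_dvd_right _ _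
    have h2 := (h1.mul_left' (M.gcd u)).mul_left (u / M.gcd u)
    rw [Nat.mul_div_cancel' hg, ← mul_assoc, ← mul_assoc, Nat.div_mul_cancel hg'] at h2
    exact h2.trans h0
  · push Not at h
    exact Or.inl h

private theorem BVs_inter (m m' b b' : ℕ) : (∀ v, ¬ (v ≡ b [MOD m] ∧ v ≡ b' [MOD m'])) ∨
    ∃ b'', ∀ v, (v ≡ b [MOD m] ∧ v ≡ b' [MOD m'] ↔ v ≡ b'' [MOD m.lcm m']) := by
  by_cases h : ∃ v0, v0 ≡ b [MOD m] ∧ v0 ≡ b' [MOD m']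
  · obtain ⟨v0, h1, h2⟩ := h
    refine Or.inr ⟨v0, fun v => ⟨fun h3 => ?_, fun h3 => ?_⟩⟩
    · have h4 := h3.1.trans h1.symm
      have h5 := h3.2.trans h2.symm
      rw [Nat.modEq_iff_dvd, Int.natCast_dvd] at h4 h5 ⊢
      exact Nat.lcm_dvd h4 h5
    · exact ⟨(h3.of_dvd (Nat.dvd_lcm_left _ _)).trans h1, (h3.of_dvd (Nat.dvd_lcm_right _ _)).trans h2⟩
  · push Not at h
    exact Or.inl fun v hv => h v hv.1 hv.2

/-- the condition modulo `D1`, `D2` is one class or empty -/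
private theorem BVs_cls (D1 D2 u a : ℕ) (h1 : 1 ≤ D1) (h2 : 1 ≤ D2) : (∀ v, ¬ (D1 ∣ u * v ∧ u * v ≡ a [MOD D2])) ∨
    ∃ m b, 1 ≤ m ∧ m ∣ D1 * D2 ∧ ∀ v, (D1 ∣ u * v ∧ u * v ≡ a [MOD D2] ↔ v ≡ b [MOD m]) := by
  rcases BVs_lin D1 u 0 h1 with h | ⟨b1, hb1⟩
  · exact Or.inl fun v hv => h v ((Nat.modEq_zero_iff_dvd).2 hv.1)
  rcases BVs_lin D2 u a h2 with h | ⟨b2, hb2⟩
  · exact Or.inl fun v hv => h v hv.2
  have d1 : D1 / D1.gcd u ∣ D1 := Nat.div_dvd_of_dvd (Nat.gcd_dvd_left _ _)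
  have d2 : D2 / D2.gcd u ∣ D2 := Nat.div_dvd_of_dvd (Nat.gcd_dvd_left _ _)
  rcases BVs_inter (D1 / D1.gcd u) (D2 / D2.gcd u) b1 b2 with h | ⟨b, hb⟩
  · refine Or.inl fun v hv => h v ⟨(hb1 v).1 ((Nat.modEq_zero_iff_dvd).2 hv.1), (hb2 v).1 hv.2⟩
  · refine Or.inr ⟨(D1 / D1.gcd u).lcm (D2 / D2.gcd u), b, ?_, ?_, fun v => ?_⟩
    · refine Nat.pos_of_ne_zero (Nat.lcm_ne_zero ?_ ?_)
      · exact (Nat.pos_of_dvd_of_pos d1 (by omega)).ne'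
      · exact (Nat.pos_of_dvd_of_pos d2 (by omega)).ne'
    · exact (Nat.lcm_dvd_mul _ _).trans (Nat.mul_dvd_mul d1 d2)
    · rw [← hb v, ← hb1 v, ← hb2 v, Nat.modEq_zero_iff_dvd]

/-- together with a class modulo the prime `q` -/
private theorem BVs_q {q m u b : ℕ} (hq : q.Prime) (hqu : ¬ q ∣ u) (hqm : ¬ q ∣ m) (r : ℕ) :
    ∃ b2, ∀ v, (u * v ≡ r [MOD q] ∧ v ≡ b [MOD m] ↔ v ≡ b2 [MOD m * q]) := by
  have hc : u.Coprime q := ((Nat.Prime.coprime_iff_not_dvd hq).2 hqu).symm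
  have hcm : m.Coprime q := ((Nat.Prime.coprime_iff_not_dvd hq).2 hqm).symm
  obtain ⟨y, -, hy⟩ := Nat.exists_mul_mod_eq_one_of_coprime hc hq.one_lt
  have hy' : u * y ≡ 1 [MOD q] := by
    unfold Nat.ModEq
    rw [hy, Nat.mod_eq_of_lt hq.one_lt]
  have h1 : ∀ v, (u * v ≡ r [MOD q] ↔ v ≡ y * r [MOD q]) := by
    intro v
    have h2 : u * (y * r) ≡ r [MOD q] := by
      have h3 := hy'.mul_right r
      rw [one_mul, mul_assoc] at h3
      exact h3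
    constructor
    · intro h
      exact Nat.ModEq.cancel_left_of_coprime (by rw [Nat.coprime_comm] at hc; exact hc) (h.trans h2.symm)
    · intro h
      exact (h.mul_left u).trans h2
  refine ⟨Nat.chineseRemainder hcm b (y * r), fun v => ?_⟩
  have h4 := (Nat.chineseRemainder hcm b (y * r)).2
  rw [h1 v, ← Nat.modEq_and_modEq_iff_modEq_mul hcm]
  constructor
  · intro h
    exact ⟨h.2.trans h4.1.symm, h.1.trans h4.2.symm⟩
  · intro h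
    exact ⟨h.2.trans h4.2, h.1.trans h4.1⟩

/-- the error for one `u` -/
private theorem BVs_err (f : ℕ → ℝ) (hf : f = on1 ∨ f = lg) (Y u q r D1 D2 a : ℕ) (hq : q.Prime) (hqu : ¬ q ∣ u) (h1 : 1 ≤ D1) (h2 : 1 ≤ D2)
    (hqD : ¬ q ∣ D1 * D2) :
    |BVs_S (Finset.Icc 1 Y) (fun v => u * v ≡ r [MOD q] ∧ (D1 ∣ u * v ∧ u * v ≡ a [MOD D2])) f -
      1 / ((q : ℝ) - 1) * BVs_S (Finset.Icc 1 Y) (fun v => ¬ q ∣ u * v ∧ (D1 ∣ u * v ∧ u * v ≡ a [MOD D2])) f| ≤ 6 * (1 + Real.log Y) := by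
  classical
  have hY : 0 ≤ Real.log Y := Real.log_natCast_nonneg _
  have hq2 : (2 : ℝ) ≤ q := by exact_mod_cast hq.two_le
  rcases BVs_cls D1 D2 u a h1 h2 with h | ⟨m, b, hm1, hmd, hm⟩
  · rw [BVs_S_false _ _ _ (fun v hv => h v hv.2), BVs_S_false _ _ _ (fun v hv => h v hv.2)]
    rw [mul_zero, sub_zero, abs_zero]
    linarith
  · have hqm : ¬ q ∣ m := fun h => hqD (h.trans hmd)
    obtain ⟨b2, hb2⟩ := BVs_q (b := b) hq hqu hqm r
    obtain ⟨b3, hb3⟩ := BVs_q (b := b) hq hqu hqm 0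
    have e1 : BVs_S (Finset.Icc 1 Y) (fun v => u * v ≡ r [MOD q] ∧ (D1 ∣ u * v ∧ u * v ≡ a [MOD D2])) f =
        BVs_S (Finset.Icc 1 Y) (fun v => v ≡ b2 [MOD m * q]) f :=
      BVs_S_congr f fun v => by rw [hm v, hb2 v]
    have e2 : BVs_S (Finset.Icc 1 Y) (fun v => ¬ q ∣ u * v ∧ (D1 ∣ u * v ∧ u * v ≡ a [MOD D2])) f =
        BVs_S (Finset.Icc 1 Y) (fun v => v ≡ b [MOD m]) f - BVs_S (Finset.Icc 1 Y) (fun v => v ≡ b3 [MOD m * q]) f := by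
      rw [BVs_S_not]
      have e3 : BVs_S (Finset.Icc 1 Y) (fun v => D1 ∣ u * v ∧ u * v ≡ a [MOD D2]) f = BVs_S (Finset.Icc 1 Y) (fun v => v ≡ b [MOD m]) f :=
        BVs_S_congr f fun v => hm v
      have e4 : BVs_S (Finset.Icc 1 Y) (fun v => q ∣ u * v ∧ (D1 ∣ u * v ∧ u * v ≡ a [MOD D2])) f =
          BVs_S (Finset.Icc 1 Y) (fun v => v ≡ b3 [MOD m * q]) f :=
        BVs_S_congr f fun v => by rw [hm v, ← hb3 v, Nat.modEq_zero_iff_dvd]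
      rw [e3, e4]
    rw [e1, e2]
    have hA1 := APL f hf Y (m * q) b2 (Nat.mul_pos hm1 hq.pos)
    have hA2 := APL f hf Y m b hm1
    have hA3 := APL f hf Y (m * q) b3 (Nat.mul_pos hm1 hq.pos)
    rw [BVs_S_eq] at hA1 hA2 hA3
    obtain ⟨F, hF⟩ : ∃ F, F = ∑ v ∈ Finset.Icc 1 Y, f v := ⟨_, rfl⟩
    rw [← hF] at hA1 hA2 hA3
    obtain ⟨S1, hS1⟩ : ∃ S1, S1 = BVs_S (Finset.Icc 1 Y) (fun v => v ≡ b2 [MOD m * q]) f := ⟨_, rfl⟩
    obtain ⟨S2, hS2⟩ : ∃ S2, S2 = BVs_S (Finset.Icc 1 Y) (fun v => v ≡ b [MOD m]) f := ⟨_, rfl⟩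
    obtain ⟨S3, hS3⟩ : ∃ S3, S3 = BVs_S (Finset.Icc 1 Y) (fun v => v ≡ b3 [MOD m * q]) f := ⟨_, rfl⟩
    rw [← hS1] at hA1 ⊢
    rw [← hS2] at hA2 ⊢
    rw [← hS3] at hA3 ⊢
    have hm0 : (0 : ℝ) < m := by exact_mod_cast hm1
    have hq1 : (0 : ℝ) < (q : ℝ) - 1 := by linarith
    have hid : S1 - 1 / ((q : ℝ) - 1) * (S2 - S3) = (S1 - F / ((m * q : ℕ) : ℝ)) -
        1 / ((q : ℝ) - 1) * ((S2 - F / m) - (S3 - F / ((m * q : ℕ) : ℝ))) := by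
      push_cast
      field_simp
      ring
    rw [hid]
    have hinv : 0 ≤ 1 / ((q : ℝ) - 1) := by positivity
    have hinv1 : 1 / ((q : ℝ) - 1) ≤ 1 := by
      rw [div_le_one hq1]
      linarith
    have hB : |(S2 - F / m) - (S3 - F / ((m * q : ℕ) : ℝ))| ≤ 4 * (1 + Real.log Y) := by
      refine (abs_sub _ _).trans ?_
      linarith
    have hC : |1 / ((q : ℝ) - 1) * ((S2 - F / m) - (S3 - F / ((m * q : ℕ) : ℝ)))| ≤ 4 * (1 + Real.log Y) := by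
      rw [abs_mul, abs_of_nonneg hinv]
      calc 1 / ((q : ℝ) - 1) * |(S2 - F / m) - (S3 - F / ((m * q : ℕ) : ℝ))| ≤ 1 * |(S2 - F / m) - (S3 - F / ((m * q : ℕ) : ℝ))| :=
            mul_le_mul_of_nonneg_right hinv1 (abs_nonneg _)
        _ ≤ _ := by rw [one_mul]; exact hB
    refine (abs_sub _ _).trans ?_
    linarith

private theorem BVs_EQ (c f : ℕ → ℝ) (U U' X q r D1 D2 a : ℕ) : EQ (FD D1 D2 a (cfr c f U U')) X q r =
    ∑ u ∈ Finset.Ioc U U', c u * (BVs_S (Finset.Icc 1 (X / u)) (fun v => u * v ≡ r [MOD q] ∧ (D1 ∣ u * v ∧ u * v ≡ a [MOD D2])) f -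
      1 / ((q : ℝ) - 1) * BVs_S (Finset.Icc 1 (X / u)) (fun v => ¬ q ∣ u * v ∧ (D1 ∣ u * v ∧ u * v ≡ a [MOD D2])) f) := by
  have key : ∀ A : ℕ → Prop, BVs_S (Finset.Icc 1 X) A (FD D1 D2 a (cfr c f U U')) =
      ∑ u ∈ Finset.Ioc U U', c u * BVs_S (Finset.Icc 1 (X / u)) (fun v => A (u * v) ∧ (D1 ∣ u * v ∧ u * v ≡ a [MOD D2])) f := by
    intro A
    have h1 := cfr_sum c f U U' X (fun n => A n ∧ (D1 ∣ n ∧ n ≡ a [MOD D2]))
    rw [BVs_S_eq] at h1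
    rw [BVs_FD, h1]
    refine Finset.sum_congr rfl fun u _ => ?_
    rw [BVs_S_eq]
  unfold EQ
  rw [BVs_S_eq, BVs_S_eq, key (fun n => n ≡ r [MOD q]), key (fun n => ¬ q ∣ n), Finset.mul_sum, ← Finset.sum_sub_distrib]
  exact Finset.sum_congr rfl fun u _ => by ring

theorem BVs (μ : ℝ) (hμ : 0 < μ) (hμ1 : μ ≤ 1 / 10) : ∃ N0 : ℕ, ∀ N : ℕ, N0 ≤ N → ∀ c f : ℕ → ℝ,
    (∀ n, |c n| ≤ 1) → (f = on1 ∨ f = lg) → ∀ (Q : ℕ) (QQ : Finset ℕ) (r : ℕ → ℕ) (X D1 D2 a U1 : ℕ),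
    QS N μ Q QQ → (∀ q ∈ QQ, ¬ q ∣ r q) → (X : ℝ) ≤ (N : ℝ) ^ (1 + μ / 100) → 1 ≤ D1 →
    (D1 : ℝ) ≤ (N : ℝ) ^ (μ / 100) → 1 ≤ D2 → (D2 : ℝ) ≤ (N : ℝ) ^ (μ / 100) → a.Coprime D2 →
    (U1 : ℝ) ≤ 2 * (N : ℝ) ^ (μ / 3) →
    ∑ q ∈ QQ, |EQ (FD D1 D2 a (cfr c f 0 U1)) X q (r q)| ≤ (N : ℝ) ^ ((3 : ℝ) / 4) := by
  have t1 : ∀ᶠ N : ℕ in Filter.atTop, (102 : ℝ) ≤ (N : ℝ) ^ ((1 : ℝ) / 8) :=
    ((tendsto_rpow_atTop (by norm_num)).comp tendsto_natCast_atTop_atTop).eventually_ge_atTop 102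
  have t2 : ∀ᶠ N : ℕ in Filter.atTop, (3 : ℝ) ≤ (N : ℝ) ^ (2 * μ / 3) :=
    ((tendsto_rpow_atTop (by positivity)).comp tendsto_natCast_atTop_atTop).eventually_ge_atTop 3
  obtain ⟨N0, hN0⟩ := Filter.eventually_atTop.1 (t1.and (t2.and (Filter.eventually_ge_atTop 2)))
  refine ⟨N0, ?_⟩
  intro N hN c f hc hf Q QQ r X D1 D2 a U1 hQS _ hX hD1 hD1N hD2 hD2N _ hU1
  obtain ⟨g1, g2, g3⟩ := hN0 N hN
  have hN1 : (1 : ℝ) < N := by exact_mod_cast (by omega : 1 < N)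
  have hNpos : (0 : ℝ) < N := by linarith
  have hlogN : 0 ≤ Real.log N := Real.log_nonneg hN1.le
  have hX' : (X : ℝ) ≤ (N : ℝ) ^ (2 : ℝ) := hX.trans (Real.rpow_le_rpow_of_exponent_le hN1.le (by linarith))
  have hlogX : Real.log X ≤ 2 * Real.log N := by
    rcases Nat.eq_zero_or_pos X with h0 | h0
    · rw [h0, Nat.cast_zero, Real.log_zero]
      linarith
    · have h1 : (0 : ℝ) < X := by exact_mod_cast h0
      have h2 := Real.log_le_log h1 hX'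
      rwa [Real.log_rpow hNpos] at h2
  have hQ0 : 0 < Q := by
    have h1 : (0 : ℝ) < Q := lt_of_lt_of_le (Real.rpow_pos_of_pos hNpos μ) hQS.low
    exact_mod_cast h1
  -- one modulus
  have hone : ∀ q ∈ QQ, |EQ (FD D1 D2 a (cfr c f 0 U1)) X q (r q)| ≤ (U1 : ℝ) * (6 * (1 + 2 * Real.log N)) := by
    intro q hq
    obtain ⟨hqp, hQq, -, -⟩ := hQS.mem q hq
    have hqN : (N : ℝ) ^ μ < q := lt_of_le_of_lt hQS.low (by exact_mod_cast hQq)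
    have hsm : (N : ℝ) ^ (μ / 100) ≤ (N : ℝ) ^ μ := Real.rpow_le_rpow_of_exponent_le hN1.le (by linarith)
    have hnd : ∀ D : ℕ, 1 ≤ D → (D : ℝ) ≤ (N : ℝ) ^ (μ / 100) → ¬ q ∣ D := by
      intro D hD hDN h
      have h1 := Nat.le_of_dvd hD h
      have h2 : (q : ℝ) ≤ D := by exact_mod_cast h1
      linarith
    have hqD : ¬ q ∣ D1 * D2 := by
      intro h
      rcases hqp.dvd_mul.1 h with h | h
      · exact hnd D1 hD1 hD1N h
      · exact hnd D2 hD2 hD2N h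
    rw [BVs_EQ]
    refine (Finset.abs_sum_le_sum_abs _ _).trans ?_
    have hterm : ∀ u ∈ Finset.Ioc 0 U1, |c u * (BVs_S (Finset.Icc 1 (X / u)) (fun v => u * v ≡ r q [MOD q] ∧ (D1 ∣ u * v ∧ u * v ≡ a [MOD D2])) f -
      1 / ((q : ℝ) - 1) * BVs_S (Finset.Icc 1 (X / u)) (fun v => ¬ q ∣ u * v ∧ (D1 ∣ u * v ∧ u * v ≡ a [MOD D2])) f)| ≤
        6 * (1 + 2 * Real.log N) := by
      intro u hu
      rw [Finset.mem_Ioc] at hu
      have hqu : ¬ q ∣ u := by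
        intro h
        have h1 := Nat.le_of_dvd hu.1 h
        have h2 : (q : ℝ) ≤ U1 := by exact_mod_cast h1.trans hu.2
        have h3 : (N : ℝ) ^ μ = (N : ℝ) ^ (μ / 3) * (N : ℝ) ^ (2 * μ / 3) := by
          rw [← Real.rpow_add hNpos]
          congr 1
          ring
        have h4 : 0 < (N : ℝ) ^ (μ / 3) := Real.rpow_pos_of_pos hNpos _
        nlinarith
      rw [abs_mul]
      have h1 := BVs_err f hf (X / u) u q (r q) D1 D2 a hqp hqu hD1 hD2 hqD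
      have h2 : Real.log ((X / u : ℕ) : ℝ) ≤ Real.log X := by
        rcases Nat.eq_zero_or_pos (X / u) with h0 | h0
        · rw [h0, Nat.cast_zero, Real.log_zero]
          exact Real.log_natCast_nonneg _
        · exact Real.log_le_log (by exact_mod_cast h0) (by exact_mod_cast Nat.div_le_self _ _)
      calc |c u| * _ ≤ 1 * _ := mul_le_mul_of_nonneg_right (hc u) (abs_nonneg _)
        _ ≤ 6 * (1 + Real.log ((X / u : ℕ) : ℝ)) := by rw [one_mul]; exact h1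
        _ ≤ _ := by linarith
    refine (Finset.sum_le_sum hterm).trans (le_of_eq ?_)
    rw [Finset.sum_const, Nat.card_Ioc, nsmul_eq_mul, Nat.sub_zero]
  have hcard : (QQ.card : ℝ) ≤ Q := by
    have h1 : QQ ⊆ Finset.Ioc Q (2 * Q) := fun q hq => Finset.mem_Ioc.2 ⟨(hQS.mem q hq).2.1, (hQS.mem q hq).2.2.1⟩
    have h2 := Finset.card_le_card h1
    rw [Nat.card_Ioc] at h2
    have h3 : QQ.card ≤ Q := by omega
    exact_mod_cast h3
  have hL : 1 + 2 * Real.log N ≤ 17 * (N : ℝ) ^ ((1 : ℝ) / 8) := by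
    have h1 := Real.log_le_rpow_div hNpos.le (show (0 : ℝ) < 1 / 8 by norm_num)
    have h2 : (N : ℝ) ^ ((1 : ℝ) / 8) / (1 / 8) = 8 * (N : ℝ) ^ ((1 : ℝ) / 8) := by ring
    rw [h2] at h1
    linarith
  have hL0 : 0 ≤ 1 + 2 * Real.log N := by linarith
  calc ∑ q ∈ QQ, |EQ (FD D1 D2 a (cfr c f 0 U1)) X q (r q)| ≤ ∑ q ∈ QQ, (U1 : ℝ) * (6 * (1 + 2 * Real.log N)) := Finset.sum_le_sum hone
    _ = QQ.card * ((U1 : ℝ) * (6 * (1 + 2 * Real.log N))) := by rw [Finset.sum_const, nsmul_eq_mul]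
    _ ≤ Q * ((2 * (N : ℝ) ^ (μ / 3)) * (6 * (17 * (N : ℝ) ^ ((1 : ℝ) / 8)))) := by
        refine mul_le_mul hcard ?_ (by positivity) (Nat.cast_nonneg _)
        exact mul_le_mul hU1 (by linarith) (by positivity) (by positivity)
    _ = (2 * (Q : ℝ)) * (N : ℝ) ^ (μ / 3) * (102 * (N : ℝ) ^ ((1 : ℝ) / 8)) := by ring
    _ ≤ (N : ℝ) ^ (1 / 2 - μ) * (N : ℝ) ^ (μ / 3) * ((N : ℝ) ^ ((1 : ℝ) / 8) * (N : ℝ) ^ ((1 : ℝ) / 8)) := by
        refine mul_le_mul (mul_le_mul_of_nonneg_right hQS.upp (by positivity)) ?_ (by positivity) (by positivity)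
        exact mul_le_mul_of_nonneg_right g1 (by positivity)
    _ = (N : ℝ) ^ ((1 / 2 - μ) + μ / 3 + (1 / 8 + 1 / 8)) := by
        rw [Real.rpow_add hNpos, Real.rpow_add hNpos, Real.rpow_add hNpos]
    _ ≤ (N : ℝ) ^ ((3 : ℝ) / 4) := Real.rpow_le_rpow_of_exponent_le hN1.le (by linarith)

end Pool.Agent.Lib.PX
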