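import Pool.Agent.Lib.MP_7b7e48_nt.PX.BVm
import Pool.Agent.Lib.MP_7b7e48_nt.PX.BVs
import Pool.Agent.Lib.MP_7b7e48_nt.PX.BVl

/-!
# BVc: `c * 1` and `c * log` in progressions to prime moduli, power saving

PROOF. `U1 = ⌈N^(μ/3)⌉`, `U2 = ⌊N^(1-μ/3)⌋`. Put `X' = max X U2` in `cf_split` (for `n ≤ X`: `cf c f n = cfr 0 U1 + cfr U1 U2 + cfr U2 X'`, and `cfr c f U2 X' n = cfr c f U2 X n` for `n ≤ X`, also if `X < U2`: both are `0`). `FD` and `EQ` are additive (`EQadd`, `EQcongr`). Add `BVs`, `BVm`, `BVl`: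
`N^(3/4) + N^(1-μ/9) + N^(1-μ/2) ≤ N^(1-μ/10)` for large `N`.
-/

set_option autoImplicit false

open Finset
open Pool.Agent.Lib.GT (Rough V)
open Pool.Agent.Lib.MP_45349e_nt.LS (lam)
open Pool.Agent.Lib.RG (RC LV rr SS PB sig)

namespace Pool.Agent.Lib.PX

open Pool.Agent.Lib.PQ (pw)

private theorem BVc_pow (μ : ℝ) (hμ : 0 < μ) : ∃ n : ℕ, ∀ N : ℕ, n ≤ N → (3 : ℝ) ≤ (N : ℝ) ^ (μ / 90) := by
  have h1 : Filter.Tendsto (fun N : ℕ => (N : ℝ) ^ (μ / 90)) Filter.atTop Filter.atTop :=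
    (tendsto_rpow_atTop (by positivity)).comp tendsto_natCast_atTop_atTop
  exact Filter.eventually_atTop.mp (h1.eventually_ge_atTop 3)

private theorem BVc_ext (c f : ℕ → ℝ) (U X X' n : ℕ) (hn0 : 1 ≤ n) (hn : n ≤ X) (hX : X ≤ X') :
    cfr c f U X' n = cfr c f U X n := by
  unfold cfr
  refine Finset.sum_congr ?_ fun _ _ => rfl
  ext u
  simp only [Finset.mem_filter, Nat.mem_divisors]
  constructor
  · rintro ⟨⟨h1, h2⟩, h3, -⟩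
    exact ⟨⟨h1, h2⟩, h3, (Nat.le_of_dvd hn0 h1).trans hn⟩
  · rintro ⟨h1, h3, h4⟩
    exact ⟨h1, h3, h4.trans hX⟩

theorem BVc (μ : ℝ) (hμ : 0 < μ) (hμ1 : μ ≤ 1 / 10) : ∃ N0 : ℕ, ∀ N : ℕ, N0 ≤ N → ∀ c f : ℕ → ℝ,
    RC N c → (f = on1 ∨ f = lg) → ∀ (Q : ℕ) (QQ : Finset ℕ) (r : ℕ → ℕ) (X D1 D2 a : ℕ),
    QS N μ Q QQ → (∀ q ∈ QQ, ¬ q ∣ r q) → (X : ℝ) ≤ (N : ℝ) ^ (1 + μ / 100) → 1 ≤ D1 →
    (D1 : ℝ) ≤ (N : ℝ) ^ (μ / 100) → 1 ≤ D2 → (D2 : ℝ) ≤ (N : ℝ) ^ (μ / 100) → D2.Coprime N → a.Coprime D2 →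
    ∑ q ∈ QQ, |EQ (FD D1 D2 a (cf c f)) X q (r q)| ≤ (N : ℝ) ^ (1 - μ / 10) := by
  obtain ⟨n1, h1⟩ := BVm μ hμ hμ1
  obtain ⟨n2, h2⟩ := BVs μ hμ hμ1
  obtain ⟨n3, h3⟩ := BVl μ hμ hμ1
  obtain ⟨n4, h4⟩ := BVc_pow μ hμ
  refine ⟨n1 + n2 + n3 + n4 + 1, ?_⟩
  intro N hN c f hc hf Q QQ r X D1 D2 a hQ hr hX hD1 hD1' hD2 hD2' hcop hac
  have hc1 : ∀ n, |c n| ≤ 1 := by
    intro n
    by_cases h : n.Coprime N
    · rcases hc.val n h with h5 | h5 <;> rw [h5] <;> norm_num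
    · rw [hc.zero n h]; norm_num
  have hNR : (1 : ℝ) ≤ N := by exact_mod_cast (by omega : 1 ≤ N)
  have hN0 : (0 : ℝ) < N := by linarith
  have hbig := h4 N (by omega)
  obtain ⟨U1, hU1⟩ : ∃ U : ℕ, U = ⌈(N : ℝ) ^ (μ / 3)⌉₊ := ⟨_, rfl⟩
  obtain ⟨U2, hU2⟩ : ∃ U : ℕ, U = ⌊(N : ℝ) ^ (1 - μ / 3)⌋₊ := ⟨_, rfl⟩
  have a1 : (N : ℝ) ^ (μ / 3) ≤ U1 := by rw [hU1]; exact Nat.le_ceil _
  have a2 : (U1 : ℝ) ≤ 2 * (N : ℝ) ^ (μ / 3) := by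
    have h5 : (U1 : ℝ) < (N : ℝ) ^ (μ / 3) + 1 := by rw [hU1]; exact Nat.ceil_lt_add_one (by positivity)
    have h6 : (1 : ℝ) ≤ (N : ℝ) ^ (μ / 3) := Real.one_le_rpow hNR (by positivity)
    linarith
  have a3 : (U2 : ℝ) ≤ (N : ℝ) ^ (1 - μ / 3) := by rw [hU2]; exact Nat.floor_le (by positivity)
  have a4 : (N : ℝ) ^ (1 - μ / 3) ≤ 2 * U2 := by
    have h5 : (N : ℝ) ^ (1 - μ / 3) < U2 + 1 := by rw [hU2]; exact Nat.lt_floor_add_one _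
    have h6 : (1 : ℝ) ≤ (N : ℝ) ^ (1 - μ / 3) := Real.one_le_rpow hNR (by linarith)
    have h7 : 1 ≤ U2 := by rw [hU2]; exact Nat.le_floor (by exact_mod_cast h6)
    have h8 : (1 : ℝ) ≤ U2 := by exact_mod_cast h7
    linarith
  have a5 : U1 ≤ U2 := by
    rw [hU2]
    refine Nat.le_floor (a2.trans ?_)
    have h5 : (N : ℝ) ^ (1 - μ / 3) = (N : ℝ) ^ (μ / 3) * (N : ℝ) ^ (1 - 2 * μ / 3) := by
      rw [← Real.rpow_add hN0]; congr 1; ring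
    have h6 : (N : ℝ) ^ (μ / 90) ≤ (N : ℝ) ^ (1 - 2 * μ / 3) := Real.rpow_le_rpow_of_exponent_le hNR (by linarith)
    have h7 : (0 : ℝ) < (N : ℝ) ^ (μ / 3) := by positivity
    rw [h5]
    nlinarith
  have key : ∀ q ∈ QQ, |EQ (FD D1 D2 a (cf c f)) X q (r q)| ≤
      |EQ (FD D1 D2 a (cfr c f 0 U1)) X q (r q)| + (|EQ (FD D1 D2 a (cfr c f U1 U2)) X q (r q)| +
        |EQ (FD D1 D2 a (cfr c f U2 X)) X q (r q)|) := by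
    intro q _
    have e1 : EQ (FD D1 D2 a (cf c f)) X q (r q) = EQ (fun n => FD D1 D2 a (cfr c f 0 U1) n +
        (FD D1 D2 a (cfr c f U1 U2) n + FD D1 D2 a (cfr c f U2 X) n)) X q (r q) := by
      refine EQcongr _ _ X q (r q) fun n hn => ?_
      rw [Finset.mem_Icc] at hn
      have e2 := cf_split c f U1 U2 (max X U2) n a5 (hn.2.trans (le_max_left _ _)) (le_max_right _ _)
      rw [BVc_ext c f U2 X (max X U2) n hn.1 hn.2 (le_max_left _ _)] at e2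
      unfold FD
      by_cases h : D1 ∣ n ∧ n ≡ a [MOD D2]
      · simp only [if_pos h]
        rw [e2]; ring
      · simp only [if_neg h]
        ring
    rw [e1, EQadd, EQadd (FD D1 D2 a (cfr c f U1 U2))]
    exact (abs_add_le _ _).trans (add_le_add le_rfl (abs_add_le _ _))
  refine (Finset.sum_le_sum key).trans ?_
  rw [Finset.sum_add_distrib, Finset.sum_add_distrib]
  have b1 := h1 N (by omega) c f hc1 hf Q QQ r X D1 D2 a U1 U2 hQ hr hX hD1 hD1' hD2 hD2' hac a1 a3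
  have b2 := h2 N (by omega) c f hc1 hf Q QQ r X D1 D2 a U1 hQ hr hX hD1 hD1' hD2 hD2' hac a2
  have b3 := h3 N (by omega) c f hc hf Q QQ r X D1 D2 a U2 hQ hr hX hD1 hD1' hD2 hD2' hcop hac a4
  have c1 : (N : ℝ) ^ ((3 : ℝ) / 4) ≤ (N : ℝ) ^ (1 - μ / 9) := Real.rpow_le_rpow_of_exponent_le hNR (by linarith)
  have c2 : (N : ℝ) ^ (1 - μ / 2) ≤ (N : ℝ) ^ (1 - μ / 9) := Real.rpow_le_rpow_of_exponent_le hNR (by linarith)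
  have c3 : (N : ℝ) ^ (1 - μ / 10) = (N : ℝ) ^ (1 - μ / 9) * (N : ℝ) ^ (μ / 90) := by
    rw [← Real.rpow_add hN0]; congr 1; ring
  have c4 : (0 : ℝ) < (N : ℝ) ^ (1 - μ / 9) := by positivity
  rw [c3]
  nlinarith

end Pool.Agent.Lib.PX
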