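import Pool.Agent.Lib.MP_7b7e48_nt.PX.Defs
import Pool.Agent.Lib.MP_7b7e48_nt.RG.A3

/-!
# RHO: elementary properties of `rho = c * log = Λ * (1 * c)`

PROOF. `log m = ∑_{d ∣ m} Λ(d)` (`ArithmeticFunction.vonMangoldt_sum`), so `rho c n = ∑_{u ∣ n} c u ∑_{d ∣ n/u} Λ d = ∑_{d ∣ n} Λ d * rr c (n/d)` (`rho_eq`). `rr c m ≥ 0` (`RG.rr_nonneg`), `rr c 1 = c 1 = 1` (`c 1 = c 1 ^ 2 = ±1`); the term `d = n` gives
`vM_le_rho`. `rho_le`: `|c u| ≤ 1`, `0 ≤ log (n/u) ≤ log n`. `rho_prime`: `n ≠ 1` since `rho c 1 = 0`. If `n` is not prime then every `d ∣ n` with `Λ d ≠ 0` is a prime `p` (`n` squarefree), and `m = n/p > 1` has a prime factor `q`, `m = q m'` with `q ∤ m'`,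
`rr c m = (1 + c q) rr c m' = 0` (the divisors of `q m'` are the `d` and the `q d`, `d ∣ m'`). So `rho c n = 0`.
-/

set_option autoImplicit false

open Finset
open Pool.Agent.Lib.GT (Rough V)
open Pool.Agent.Lib.MP_45349e_nt.LS (lam)
open Pool.Agent.Lib.RG (RC LV rr SS PB sig)

namespace Pool.Agent.Lib.PX

open Pool.Agent.Lib.PQ (pw)

private theorem rho_c1 {N : ℕ} {c : ℕ → ℝ} (hc : RC N c) : c 1 = 1 := by
  have h1 := hc.mul 1 1
  rw [mul_one] at h1
  rcases hc.val 1 (Nat.coprime_one_left N) with h | h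
  · exact h
  · rw [h] at h1
    norm_num at h1

private theorem rho_abs {N : ℕ} {c : ℕ → ℝ} (hc : RC N c) (n : ℕ) : |c n| ≤ 1 := by
  by_cases h : n.Coprime N
  · rcases hc.val n h with h1 | h1
    · rw [h1, abs_one]
    · rw [h1, abs_neg, abs_one]
  · rw [hc.zero n h, abs_zero]
    exact zero_le_one

private noncomputable def rhof (c : ℕ → ℝ) : ArithmeticFunction ℝ :=
  ⟨fun n => if n = 0 then 0 else c n, if_pos rfl⟩

private theorem rhof_mult {N : ℕ} {c : ℕ → ℝ} (hc : RC N c) : (rhof c).IsMultiplicative := by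
  rw [ArithmeticFunction.IsMultiplicative.iff_ne_zero]
  constructor
  · change (if (1 : ℕ) = 0 then (0 : ℝ) else c 1) = 1
    rw [if_neg one_ne_zero, rho_c1 hc]
  · intro m n hm hn _
    change (if m * n = 0 then (0 : ℝ) else c (m * n)) =
      (if m = 0 then (0 : ℝ) else c m) * (if n = 0 then (0 : ℝ) else c n)
    rw [if_neg (mul_ne_zero hm hn), if_neg hm, if_neg hn, hc.mul]

private theorem rhof_rr (c : ℕ → ℝ) (n : ℕ) :
    (rhof c * (ArithmeticFunction.zeta : ArithmeticFunction ℝ)) n = rr c n := by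
  rw [ArithmeticFunction.coe_mul_zeta_apply]
  unfold rr
  refine Finset.sum_congr rfl fun d hd => ?_
  change (if d = 0 then (0 : ℝ) else c d) = c d
  rw [if_neg]
  exact (Nat.pos_of_mem_divisors hd).ne'

private theorem rho_rr_mul {N : ℕ} {c : ℕ → ℝ} (hc : RC N c) {m n : ℕ} (h : m.Coprime n) :
    rr c (m * n) = rr c m * rr c n := by
  have h1 : (rhof c * (ArithmeticFunction.zeta : ArithmeticFunction ℝ)).IsMultiplicative :=
    (rhof_mult hc).mul ArithmeticFunction.isMultiplicative_zeta.natCast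
  rw [← rhof_rr, ← rhof_rr, ← rhof_rr, h1.map_mul_of_coprime h]

private theorem rho_dd {n u : ℕ} (hn : n ≠ 0) (hu : u ∣ n) :
    (n / u).divisors = n.divisors.filter (fun d => u * d ∣ n) := by
  ext d
  have hu0 : u ≠ 0 := fun h => hn (by rw [h] at hu; exact Nat.eq_zero_of_zero_dvd hu)
  have h0 : n / u ≠ 0 := (Nat.div_pos (Nat.le_of_dvd (Nat.pos_of_ne_zero hn) hu)
    (Nat.pos_of_ne_zero hu0)).ne'
  rw [Nat.mem_divisors, Finset.mem_filter, Nat.mem_divisors, Nat.dvd_div_iff_mul_dvd hu]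
  constructor
  · rintro ⟨h1, _⟩
    exact ⟨⟨(Dvd.intro_left u rfl).trans h1, hn⟩, h1⟩
  · rintro ⟨_, h1⟩
    exact ⟨h1, h0⟩

theorem rho_eq (c : ℕ → ℝ) (n : ℕ) : rho c n = ∑ d ∈ n.divisors, ArithmeticFunction.vonMangoldt d * rr c (n / d) := by
  classical
  unfold rho cf lg
  rcases Nat.eq_zero_or_pos n with h0 | h0
  · subst h0
    simp
  have h1 : ∀ u ∈ n.divisors, c u * Real.log ((n / u : ℕ) : ℝ) =
      ∑ d ∈ n.divisors, if u * d ∣ n then c u * ArithmeticFunction.vonMangoldt d else 0 := by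
    intro u hu
    rw [← ArithmeticFunction.vonMangoldt_sum, rho_dd h0.ne' (Nat.dvd_of_mem_divisors hu),
      Finset.mul_sum, Finset.sum_filter]
  have h2 : ∀ d ∈ n.divisors, ArithmeticFunction.vonMangoldt d * rr c (n / d) =
      ∑ u ∈ n.divisors, if u * d ∣ n then c u * ArithmeticFunction.vonMangoldt d else 0 := by
    intro d hd
    unfold rr
    rw [rho_dd h0.ne' (Nat.dvd_of_mem_divisors hd), Finset.mul_sum, Finset.sum_filter]
    refine Finset.sum_congr rfl fun u _ => ?_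
    rw [mul_comm d u, mul_comm (c u)]
  rw [Finset.sum_congr rfl h1, Finset.sum_congr rfl h2, Finset.sum_comm]

theorem rho_nonneg {N : ℕ} {c : ℕ → ℝ} (hc : RC N c) (n : ℕ) : 0 ≤ rho c n := by
  rw [rho_eq]
  exact Finset.sum_nonneg fun d _ =>
    mul_nonneg ArithmeticFunction.vonMangoldt_nonneg (Pool.Agent.Lib.RG.rr_nonneg N c hc _)

theorem vM_le_rho {N : ℕ} {c : ℕ → ℝ} (hc : RC N c) (n : ℕ) : ArithmeticFunction.vonMangoldt n ≤ rho c n := by
  rcases Nat.eq_zero_or_pos n with h0 | h0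
  · subst h0
    have h1 := rho_nonneg hc 0
    rw [ArithmeticFunction.map_zero]
    exact h1
  · rw [rho_eq]
    have h1 := Finset.single_le_sum (s := n.divisors)
      (f := fun d => ArithmeticFunction.vonMangoldt d * rr c (n / d))
      (fun d _ => mul_nonneg ArithmeticFunction.vonMangoldt_nonneg
        (Pool.Agent.Lib.RG.rr_nonneg N c hc _))
      (Nat.mem_divisors_self n h0.ne')
    have h2 : rr c (n / n) = 1 := by
      rw [Nat.div_self h0]
      unfold rr
      rw [Nat.divisors_one, Finset.sum_singleton, rho_c1 hc]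
    simp only [h2, mul_one] at h1
    exact h1

theorem rho_le {N : ℕ} {c : ℕ → ℝ} (hc : RC N c) (n : ℕ) : rho c n ≤ n.divisors.card * Real.log n := by
  unfold rho cf lg
  rw [← nsmul_eq_mul]
  refine Finset.sum_le_card_nsmul _ _ _ ?_
  intro u hu
  have h0 : 0 < n := Nat.pos_of_ne_zero (Nat.mem_divisors.mp hu).2
  have hun := Nat.dvd_of_mem_divisors hu
  have h1 : 0 < n / u := Nat.div_pos (Nat.le_of_dvd h0 hun) (Nat.pos_of_mem_divisors hu)
  have h2 : Real.log ((n / u : ℕ) : ℝ) ≤ Real.log n := by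
    apply Real.log_le_log (by exact_mod_cast h1)
    exact_mod_cast Nat.div_le_self n u
  have h3 : 0 ≤ Real.log ((n / u : ℕ) : ℝ) := Real.log_natCast_nonneg _
  have h4 := (abs_le.mp (rho_abs hc u)).2
  calc c u * Real.log ((n / u : ℕ) : ℝ) ≤ 1 * Real.log ((n / u : ℕ) : ℝ) :=
        mul_le_mul_of_nonneg_right h4 h3
    _ ≤ Real.log n := by rw [one_mul]; exact h2

theorem rr_le {N : ℕ} {c : ℕ → ℝ} (hc : RC N c) (n : ℕ) : rr c n ≤ n.divisors.card := by
  unfold rr
  have h1 := Finset.sum_le_card_nsmul n.divisors c 1 fun u _ => (abs_le.mp (rho_abs hc u)).2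
  rw [nsmul_eq_mul, mul_one] at h1
  exact h1

theorem rho_prime {N : ℕ} {c : ℕ → ℝ} (hc : RC N c) (n : ℕ) (hn : n.Coprime N) (hs : Squarefree n)
    (hq : ∀ q : ℕ, q.Prime → q ∣ n → c q = -1) (h0 : 0 < rho c n) : n.Prime := by
  rw [rho_eq] at h0
  obtain ⟨d, hd, h1⟩ := Finset.exists_lt_of_sum_lt (s := n.divisors) (f := fun _ => (0 : ℝ))
    (g := fun d => ArithmeticFunction.vonMangoldt d * rr c (n / d))
    (by rw [Finset.sum_const_zero]; exact h0)
  have hdn := Nat.dvd_of_mem_divisors hd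
  have h2 : ArithmeticFunction.vonMangoldt d ≠ 0 := fun h => by
    rw [h, zero_mul] at h1; exact lt_irrefl _ h1
  have h3 : rr c (n / d) ≠ 0 := fun h => by
    rw [h, mul_zero] at h1; exact lt_irrefl _ h1
  have h4 : IsPrimePow d := ArithmeticFunction.vonMangoldt_ne_zero_iff.mp h2
  have h5 : Squarefree d := hs.squarefree_of_dvd hdn
  have h6 : d.Prime := by
    rw [isPrimePow_nat_iff] at h4
    obtain ⟨p, k, hp, hk, hpk⟩ := h4
    have h7 : k = 1 := by
      by_contra hne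
      have h8 : p * p ∣ d := by
        rw [← hpk, ← sq]
        exact pow_dvd_pow p (by omega)
      have h9 := h5 p h8
      rw [Nat.isUnit_iff] at h9
      exact hp.one_lt.ne' h9
    rw [← hpk, h7, pow_one]
    exact hp
  by_cases hm : n / d = 1
  · have h7 : n = d := by
      have := Nat.div_mul_cancel hdn
      rw [hm, one_mul] at this
      exact this.symm
    rw [h7]; exact h6
  · exfalso
    obtain ⟨q, hqp, hqd⟩ := Nat.exists_prime_and_dvd hm
    obtain ⟨m, hm2⟩ := hqd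
    have hnd : n / d ∣ n := Nat.div_dvd_of_dvd hdn
    have h7 : Squarefree (n / d) := hs.squarefree_of_dvd hnd
    have h8 : q.Coprime m := by
      rw [hm2] at h7
      exact Nat.coprime_of_squarefree_mul h7
    have h9 : q ∣ n := (Dvd.intro m hm2.symm).trans hnd
    have h10 : rr c q = 0 := by
      unfold rr
      rw [hqp.sum_divisors, rho_c1 hc, hq q hqp h9]
      norm_num
    apply h3
    rw [hm2, rho_rr_mul hc h8, h10, zero_mul]

end Pool.Agent.Lib.PX
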