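import Pool.Agent.Lib.MP_7b7e48_nt.PX.Defs
import Pool.Agent.Lib.MP_7b7e48_nt.PL.B6l

/-!
# XSL: existence and size of `x`

PROOF. `PL.B6l 20`: `PPl 20 N` has at least `pl N 20/log N > 0` elements. For `K ∈ PPl 20 N`: `pl N 20/2 < K ≤ pl N 20 ≤ (log N)^20`, `K` prime, `K ∤ N`, `PL.sz_pl`. `x = 6 K N`.
-/

set_option autoImplicit false

open Finset
open Pool.Agent.Lib.GT (Rough V)
open Pool.Agent.Lib.MP_45349e_nt.LS (lam)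
open Pool.Agent.Lib.RG (RC LV rr SS PB sig)

namespace Pool.Agent.Lib.PX

open Pool.Agent.Lib.PQ (pw)

theorem XSex : ∃ N0 : ℕ, ∀ N : ℕ, N0 ≤ N → ∃ x K : ℕ, XS N x K := by
  obtain ⟨N1, h1⟩ := PL.sz_pl 20 (by norm_num) 1 1 one_pos
  obtain ⟨N2, h2⟩ := PL.B6l 20 (by norm_num)
  refine ⟨N1 + N2, fun N hN => ?_⟩
  obtain ⟨a1, -, -, -, a5⟩ := h1 N (by omega)
  have b := h2 N (by omega)
  have a1' : (1 : ℝ) ≤ PL.pl N 20 := by exact_mod_cast a1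
  have hpos : (0 : ℝ) < (PL.PPl 20 N).card := lt_of_lt_of_le (div_pos (by linarith) (by linarith)) b
  have hc : 0 < (PL.PPl 20 N).card := by exact_mod_cast hpos
  obtain ⟨K, hK⟩ := Finset.card_pos.1 hc
  exact ⟨6 * K * N, K, ⟨hK, rfl⟩⟩

private theorem XSL_mem {N K : ℕ} (h : K ∈ PL.PPl 20 N) :
    K.Prime ∧ ¬ K ∣ N ∧ K ≤ PL.pl N 20 ∧ PL.pl N 20 ≤ 2 * K := by
  unfold PL.PPl at h
  obtain ⟨h1, h2, h3⟩ := Finset.mem_filter.1 h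
  obtain ⟨h4, h5⟩ := Finset.mem_Ioc.1 h1
  exact ⟨h2, h3, h5, by omega⟩

theorem XSsz : ∃ N0 : ℕ, ∀ N : ℕ, N0 ≤ N → ∀ x K : ℕ, XS N x K → K.Prime ∧ ¬ K ∣ N ∧ 6 ∣ x ∧ K ∣ x ∧ N ∣ x ∧
    Real.log N ^ 20 / 5 ≤ K ∧ (K : ℝ) ≤ Real.log N ^ 20 ∧ (N : ℝ) * Real.log N ^ 20 ≤ x ∧
    (x : ℝ) ≤ 6 * N * Real.log N ^ 20 ∧ N ≤ x ∧ x ≤ N ^ 2 := by
  obtain ⟨N1, h1⟩ := PL.sz_pl 20 (by norm_num) 1 1 one_pos
  obtain ⟨N2, h2⟩ := PL.sz_log 20 6 1 one_pos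
  refine ⟨N1 + N2 + 1, fun N hN x K hx => ?_⟩
  obtain ⟨-, a2, a3, -, a5⟩ := h1 N (by omega)
  have b := h2 N (by omega)
  rw [Real.rpow_one] at b
  obtain ⟨c1, c2, c3, c4⟩ := XSL_mem hx.mem
  have c3' : (K : ℝ) ≤ PL.pl N 20 := by exact_mod_cast c3
  have c4' : (PL.pl N 20 : ℝ) ≤ 2 * K := by exact_mod_cast c4
  have hN0 : (0 : ℝ) ≤ N := Nat.cast_nonneg N
  have hxr : (x : ℝ) = 6 * K * N := by
    rw [hx.eq]
    push_cast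
    ring
  have hL : (0 : ℝ) ≤ Real.log N ^ 20 := by positivity
  have hK : (K : ℝ) ≤ Real.log N ^ 20 := c3'.trans a2
  have hK2 : Real.log N ^ 20 ≤ 4 * K := by linarith
  refine ⟨c1, c2, ⟨K * N, by rw [hx.eq]; ring⟩, ⟨6 * N, by rw [hx.eq]; ring⟩, ⟨6 * K, by rw [hx.eq]; ring⟩,
    by linarith, hK, ?_, ?_, ?_, ?_⟩
  · rw [hxr]
    nlinarith
  · rw [hxr]
    nlinarith
  · rw [hx.eq]
    have : 1 ≤ 6 * K := by
      have := c1.pos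
      omega
    calc N = 1 * N := (one_mul N).symm
      _ ≤ 6 * K * N := Nat.mul_le_mul_right N this
  · rw [hx.eq, pow_two]
    refine Nat.mul_le_mul_right N ?_
    have : ((6 * K : ℕ) : ℝ) ≤ (N : ℝ) := by
      push_cast
      linarith
    exact_mod_cast this

theorem XSpw (e : ℝ) (he : 0 < e) : ∃ N0 : ℕ, ∀ N : ℕ, N0 ≤ N → ∀ x K : ℕ, XS N x K →
    (x : ℝ) ≤ (N : ℝ) ^ (1 + e) ∧ (K : ℝ) < (N : ℝ) ^ e := by
  obtain ⟨N1, h1⟩ := PL.sz_pl 20 (by norm_num) 1 1 one_pos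
  obtain ⟨N2, h2⟩ := PL.sz_log 20 6 e he
  refine ⟨N1 + N2 + 1, fun N hN x K hx => ?_⟩
  obtain ⟨-, a2, a3, -, a5⟩ := h1 N (by omega)
  have b := h2 N (by omega)
  obtain ⟨c1, c2, c3, c4⟩ := XSL_mem hx.mem
  have c3' : (K : ℝ) ≤ PL.pl N 20 := by exact_mod_cast c3
  have hN1 : (0 : ℝ) < N := by
    have : 0 < N := by omega
    exact_mod_cast this
  have hxr : (x : ℝ) = 6 * K * N := by
    rw [hx.eq]
    push_cast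
    ring
  have hL : (1 : ℝ) ≤ Real.log N ^ 20 := one_le_pow₀ a5
  have hK : (K : ℝ) ≤ Real.log N ^ 20 := c3'.trans a2
  refine ⟨?_, by linarith⟩
  rw [hxr, Real.rpow_add hN1, Real.rpow_one, mul_comm]
  exact mul_le_mul_of_nonneg_left (by linarith) hN1.le

end Pool.Agent.Lib.PX
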