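import Pool.Agent.Lib.MP_7b7e48_nt.PX.SSU
import Pool.Agent.Lib.MP_7b7e48_nt.PX.BVc
import Pool.Agent.Lib.MP_7b7e48_nt.PX.XSL
import Pool.Agent.Lib.MP_7b7e48_nt.PX.RHO

/-!
# A2B: the integers with a large rare divisor, in progressions

PROOF. `Y = pw N (1/2 + μ/2)`, `X = x - 1`, `q ∤ x`. `a2 c Y n = ∑_{n₁ k = n, k > Y} rr c k`. `∑_{n ≤ X, n = x (q)} a2 = (1/(q-1)) ∑_{n ≤ X, q ∤ n} a2 + EQ(a2)`. MAIN: `∑_{n ≤ X} a2 c Y n = ∑_{n₁ ≤ X/Y} ∑_{Y < k ≤ X/n₁} rr c k ≤ ∑_{n₁ ≤ X/Y} SS c (X/n₁) ≤ 2 L X (1 + log X)` (`SSU`, `X/n₁ ≥ Y`), times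
`1/(q-1) ≤ 2/q`: `≤ 8 x L log N/q`. ERROR: split `n₁ ≤ M` and `n₁ > M`, `M = ⌈N^(7μ/100)⌉`. (a) `n₁ ≤ M`: `EQ` of `n ↦ ∑_{n₁ k = n, k > Y} rr c k` for fixed `n₁` is `EQ (rr c) (X/n₁) q (r) - EQ (rr c) Y q r` with `r = x n₁^(-1)` modulo `q` (a unit; `n₁ < q`; if `X/n₁ ≤ Y` it is empty): `BVc` with
`f = on1` (`cf c on1 = rr c`), `D1 = D2 = 1`: `≤ 2 N^(1-μ/10)` for every `n₁`, total `≤ 4 N^(1-3μ/100)`. (b) `n₁ > M`: `EQ1` and `BV.type2` (as in `BVm`): `α = 1`, `l = n₁ ∈ (M, X/Y]`, `β k = rr c k` for `k > Y`, else `0`; `Lα = 1`, `Lβ = N^(μ/1000)` (`rr ≤ τ ≤ C k^(μ/4000)`, and `k ≤ X ≤ N²`), `X/Y ≤ N^(1/2)`: `C (log)^3 N^(μ/2000) √X (√X/Q + N^(1/4) + √(X/M) + 2Q) ≤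
N^(1 - μ/50)`. (The sum over `q ∈ QQ` is part of `BV.LA Q (2Q)`.) Total `≤ N^(1-μ/60)`.
-/

set_option autoImplicit false

open Finset
open Pool.Agent.Lib.GT (Rough V)
open Pool.Agent.Lib.MP_45349e_nt.LS (lam)
open Pool.Agent.Lib.RG (RC LV rr SS PB sig)

namespace Pool.Agent.Lib.PX

open Pool.Agent.Lib.PQ (pw)

open Classical in
/-- the part of `a2` which belongs to the cofactor `m` -/
private noncomputable def hm (c : ℕ → ℝ) (Y m n : ℕ) : ℝ := if m ∣ n ∧ Y < n / m then rr c (n / m) else 0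

open Classical in
private lemma a2_eq (c : ℕ → ℝ) (Y n : ℕ) :
    a2 c Y n = ∑ m ∈ n.divisors, if Y < n / m then rr c (n / m) else 0 := by
  unfold a2
  rw [Finset.sum_filter]
  exact (Nat.sum_div_divisors n (fun k => if Y < k then rr c k else 0)).symm

open Classical in
private lemma a2_split (c : ℕ → ℝ) (Y X M n : ℕ) (hY : 1 ≤ Y) (hn : n ∈ Finset.Icc 1 X) :
    a2 c Y n = ∑ m ∈ Finset.Icc 1 M, hm c Y m n + ∑ m ∈ Finset.Ioc M (X / Y), hm c Y m n := by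
  rw [Finset.mem_Icc] at hn
  have hdisj : Disjoint (Finset.Icc 1 M) (Finset.Ioc M (X / Y)) := by
    rw [Finset.disjoint_left]
    intro m h1 h2
    rw [Finset.mem_Icc] at h1
    rw [Finset.mem_Ioc] at h2
    omega
  rw [← Finset.sum_union hdisj, a2_eq, ← Finset.sum_filter]
  unfold hm
  rw [← Finset.sum_filter]
  refine Finset.sum_congr ?_ fun _ _ => rfl
  ext m
  simp only [Finset.mem_filter, Nat.mem_divisors, Finset.mem_union, Finset.mem_Icc, Finset.mem_Ioc]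
  constructor
  · rintro ⟨⟨h1, h2⟩, h3⟩
    have hm0 : 0 < m := Nat.pos_of_dvd_of_pos h1 (by omega)
    have h4 : m ≤ X / Y := by
      rw [Nat.le_div_iff_mul_le (by omega)]
      have h5 : (n / m) * m ≤ n := Nat.div_mul_le_self n m
      nlinarith
    refine ⟨?_, h1, h3⟩
    by_cases h6 : m ≤ M
    · exact Or.inl ⟨hm0, h6⟩
    · exact Or.inr ⟨by omega, h4⟩
  · rintro ⟨_, h1, h3⟩
    exact ⟨⟨h1, by omega⟩, h3⟩

private lemma EQ_sum {ι : Type*} (s : Finset ι) (F : ι → ℕ → ℝ) (X q a : ℕ) :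
    EQ (fun n => ∑ i ∈ s, F i n) X q a = ∑ i ∈ s, EQ (F i) X q a := by
  unfold EQ
  rw [Finset.sum_comm, Finset.sum_comm (s := (Finset.Icc 1 X).filter (fun n => ¬ q ∣ n)), Finset.mul_sum,
    ← Finset.sum_sub_distrib]

open Classical in
/-- the terms `v > Y` -/
private lemma tail_sum (g : ℕ → ℝ) (Y Z : ℕ) (h : Y ≤ Z) :
    ∑ v ∈ Finset.Icc 1 Z, (if Y < v then g v else 0) = ∑ v ∈ Finset.Icc 1 Z, g v - ∑ v ∈ Finset.Icc 1 Y, g v := by
  rw [← Finset.sum_filter, eq_sub_iff_add_eq, ← Finset.sum_union]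
  · refine Finset.sum_congr ?_ fun _ _ => rfl
    ext v
    simp only [Finset.mem_union, Finset.mem_filter, Finset.mem_Icc]
    omega
  · rw [Finset.disjoint_left]
    intro v h1 h2
    rw [Finset.mem_filter] at h1
    rw [Finset.mem_Icc] at h2
    omega

open Classical in
private lemma hm_sum (c : ℕ → ℝ) (Y X m : ℕ) (hm0 : 0 < m) (P : ℕ → Prop) [DecidablePred P] :
    ∑ n ∈ (Finset.Icc 1 X).filter P, hm c Y m n =
      ∑ v ∈ Finset.Icc 1 (X / m), if Y < v then (if P (m * v) then rr c v else 0) else 0 := by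
  have h1 : ∑ n ∈ (Finset.Icc 1 X).filter P, hm c Y m n =
      ∑ n ∈ (Finset.Icc 1 X).filter (fun n => m ∣ n), if Y < n / m then (if P n then rr c (n / m) else 0) else 0 := by
    rw [Finset.sum_filter, Finset.sum_filter]
    refine Finset.sum_congr rfl fun n _ => ?_
    unfold hm
    by_cases hP : P n <;> by_cases hd : m ∣ n <;> by_cases hY : Y < n / m <;> simp [hP, hd, hY]
  rw [h1, BVm_mult _ m X hm0]
  refine Finset.sum_congr rfl fun v _ => ?_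
  rw [Nat.mul_div_cancel_left _ hm0]

open Classical in
/-- the error of one cofactor -/
private lemma EQ_hm (c : ℕ → ℝ) (Y X m q x r : ℕ) (hm0 : 0 < m) (hq : q.Prime) (hqm : ¬ q ∣ m)
    (hr : m * r ≡ x [MOD q]) :
    |EQ (hm c Y m) X q x| ≤ |EQ (rr c) (X / m) q r| + |EQ (rr c) Y q r| := by
  have hcop : Nat.Coprime m q := (Nat.Coprime.symm ((Nat.Prime.coprime_iff_not_dvd hq).2 hqm))
  have e1 : ∀ v : ℕ, (m * v ≡ x [MOD q]) ↔ (v ≡ r [MOD q]) := by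
    intro v
    constructor
    · intro h
      exact Nat.ModEq.cancel_left_of_coprime (by rw [Nat.gcd_comm]; exact hcop) (h.trans hr.symm)
    · intro h
      exact (h.mul_left m).trans hr
  have e2 : ∀ v : ℕ, (¬ q ∣ m * v) ↔ ¬ q ∣ v := by
    intro v
    rw [hq.dvd_mul]
    tauto
  have h1 : EQ (hm c Y m) X q x = ∑ v ∈ Finset.Icc 1 (X / m), (if Y < v then (if v ≡ r [MOD q] then rr c v else 0) else 0) -
      1 / ((q : ℝ) - 1) * ∑ v ∈ Finset.Icc 1 (X / m), (if Y < v then (if ¬ q ∣ v then rr c v else 0) else 0) := by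
    unfold EQ
    rw [hm_sum c Y X m hm0, hm_sum c Y X m hm0]
    simp only [e1, e2]
  rw [h1]
  by_cases hYX : Y ≤ X / m
  · rw [tail_sum _ Y _ hYX, tail_sum _ Y _ hYX, ← Finset.sum_filter, ← Finset.sum_filter, ← Finset.sum_filter,
      ← Finset.sum_filter]
    have h2 : EQ (rr c) (X / m) q r - EQ (rr c) Y q r =
      ∑ v ∈ (Finset.Icc 1 (X / m)).filter (fun v => v ≡ r [MOD q]), rr c v -
        ∑ v ∈ (Finset.Icc 1 Y).filter (fun v => v ≡ r [MOD q]), rr c v -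
      1 / ((q : ℝ) - 1) * (∑ v ∈ (Finset.Icc 1 (X / m)).filter (fun v => ¬ q ∣ v), rr c v -
        ∑ v ∈ (Finset.Icc 1 Y).filter (fun v => ¬ q ∣ v), rr c v) := by
      unfold EQ
      ring
    rw [← h2]
    exact abs_sub _ _
  · have h3 : ∀ g : ℕ → ℝ, ∑ v ∈ Finset.Icc 1 (X / m), (if Y < v then g v else 0) = 0 := by
      intro g
      refine Finset.sum_eq_zero fun v hv => ?_
      rw [Finset.mem_Icc] at hv
      rw [if_neg (by omega)]
    rw [h3, h3]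
    simp only [mul_zero, sub_zero, abs_zero]
    positivity

private lemma inv_exists (q m x : ℕ) (hq : q.Prime) (hqm : ¬ q ∣ m) (hqx : ¬ q ∣ x) :
    ∃ r : ℕ, m * r ≡ x [MOD q] ∧ ¬ q ∣ r := by
  have : Fact q.Prime := ⟨hq⟩
  refine ⟨((x : ZMod q) * (m : ZMod q)⁻¹).val, ?_, ?_⟩
  · rw [← ZMod.natCast_eq_natCast_iff]
    push_cast
    rw [ZMod.natCast_zmod_val]
    have hm' : (m : ZMod q) ≠ 0 := by
      rwa [Ne, ZMod.natCast_eq_zero_iff]
    field_simp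
  · rw [← ZMod.natCast_eq_zero_iff, ZMod.natCast_zmod_val]
    have hm' : (m : ZMod q) ≠ 0 := by
      rwa [Ne, ZMod.natCast_eq_zero_iff]
    have hx' : (x : ZMod q) ≠ 0 := by
      rwa [Ne, ZMod.natCast_eq_zero_iff]
    exact mul_ne_zero hx' (inv_ne_zero hm')

private lemma FD11 (a : ℕ) (G : ℕ → ℝ) : FD 1 1 a G = G := by
  funext n
  unfold FD
  rw [if_pos ⟨one_dvd _, Nat.modEq_one⟩]

private lemma cf_on1 (c : ℕ → ℝ) : cf c on1 = rr c := by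
  funext n
  unfold cf on1 rr
  simp

private lemma harm (n : ℕ) : ∑ a ∈ Finset.Icc 1 n, (1 : ℝ) / a ≤ 1 + Real.log n := by
  have h := harmonic_le_one_add_log n
  rw [harmonic_eq_sum_Icc] at h
  push_cast at h
  simpa using h

open Classical in
private lemma main_sum (c : ℕ → ℝ) (N X Y : ℕ) (L : ℝ) (hc : RC N c) (hL : 0 ≤ L)
    (hS : ∀ y : ℕ, Y < y → SS c y ≤ 2 * (L * y)) (hX : 1 ≤ X) :
    ∑ n ∈ Finset.Icc 1 X, a2 c Y n ≤ 2 * L * X * (1 + Real.log X) := by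
  have h1 : ∑ n ∈ Finset.Icc 1 X, a2 c Y n = ∑ m ∈ Finset.Icc 1 X, ∑ n ∈ Finset.Icc 1 X, hm c Y m n := by
    rw [Finset.sum_comm]
    refine Finset.sum_congr rfl fun n hn => ?_
    rw [a2_eq, ← Finset.sum_filter]
    unfold hm
    rw [← Finset.sum_filter]
    refine Finset.sum_congr ?_ fun _ _ => rfl
    ext m
    rw [Finset.mem_Icc] at hn
    simp only [Finset.mem_filter, Nat.mem_divisors, Finset.mem_Icc]
    constructor
    · rintro ⟨⟨h1, h2⟩, h3⟩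
      exact ⟨⟨Nat.pos_of_dvd_of_pos h1 (by omega), (Nat.le_of_dvd (by omega) h1).trans hn.2⟩, h1, h3⟩
    · rintro ⟨_, h1, h3⟩
      exact ⟨⟨h1, by omega⟩, h3⟩
  rw [h1]
  have h2 : ∀ m ∈ Finset.Icc 1 X, ∑ n ∈ Finset.Icc 1 X, hm c Y m n ≤ 2 * L * X * (1 / (m : ℝ)) := by
    intro m hm
    rw [Finset.mem_Icc] at hm
    have hm0 : 0 < m := by omega
    have hmr : (0 : ℝ) < m := by exact_mod_cast hm0
    have h3 := hm_sum c Y X m hm0 (fun _ => True)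
    simp only [Finset.filter_true, if_true] at h3
    rw [h3]
    by_cases hYm : Y < X / m
    · calc ∑ v ∈ Finset.Icc 1 (X / m), (if Y < v then rr c v else 0) ≤ ∑ v ∈ Finset.Icc 1 (X / m), rr c v := by
            refine Finset.sum_le_sum fun v _ => ?_
            split_ifs
            · exact le_rfl
            · exact Pool.Agent.Lib.RG.rr_nonneg N c hc v
        _ = SS c (X / m) := rfl
        _ ≤ 2 * (L * (X / m : ℕ)) := hS _ hYm
        _ ≤ 2 * (L * ((X : ℝ) / m)) := by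
            have : ((X / m : ℕ) : ℝ) ≤ (X : ℝ) / m := Nat.cast_div_le
            gcongr
        _ = 2 * L * X * (1 / (m : ℝ)) := by ring
    · rw [Finset.sum_eq_zero]
      · positivity
      · intro v hv
        rw [Finset.mem_Icc] at hv
        rw [if_neg (by omega)]
  refine (Finset.sum_le_sum h2).trans ?_
  rw [← Finset.mul_sum]
  exact mul_le_mul_of_nonneg_left (harm X) (by positivity)

open Classical in
/-- the second factor of the bilinear form -/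
private noncomputable def bt (c : ℕ → ℝ) (Y v : ℕ) : ℂ := if Y < v then (rr c v : ℂ) else 0

open Classical in
private lemma type2_id (c : ℕ → ℝ) (Y X M M2 : ℕ) {d : ℕ} (ψ : DirichletCharacter ℂ d) :
    ∑ n ∈ Finset.Icc 1 X, ((∑ l ∈ Finset.Ioc M M2, hm c Y l n : ℝ) : ℂ) * ψ (n : ZMod d) =
      ∑ l ∈ Finset.Ioc M M2, ∑ v ∈ Finset.Icc 1 (X / l), (fun _ : ℕ => (1 : ℂ)) l * bt c Y v *
        ψ (l : ZMod d) * ψ (v : ZMod d) := by
  have h1 : ∀ n ∈ Finset.Icc 1 X, ((∑ l ∈ Finset.Ioc M M2, hm c Y l n : ℝ) : ℂ) * ψ (n : ZMod d) =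
      ∑ l ∈ Finset.Ioc M M2, if l ∣ n then bt c Y (n / l) * ψ (n : ZMod d) else 0 := by
    intro n _
    push_cast
    rw [Finset.sum_mul]
    refine Finset.sum_congr rfl fun l _ => ?_
    unfold hm bt
    by_cases hd : l ∣ n <;> by_cases hY : Y < n / l <;> simp [hd, hY]
  rw [Finset.sum_congr rfl h1, Finset.sum_comm]
  refine Finset.sum_congr rfl fun l hl => ?_
  rw [Finset.mem_Ioc] at hl
  have hl0 : 0 < l := by omega
  rw [← Finset.sum_filter, BVm_mult _ l X hl0]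
  refine Finset.sum_congr rfl fun v _ => ?_
  rw [Nat.mul_div_cancel_left _ hl0]
  push_cast
  rw [map_mul]
  ring

private lemma rp2 (N : ℝ) (hN : 1 ≤ N) (a b : ℝ) (h : a ≤ b) : N ^ a ≤ N ^ b :=
  Real.rpow_le_rpow_of_exponent_le hN h

/-- the numerical part of the bilinear estimate -/
private lemma num2 (μ : ℝ) (hμ : 0 < μ) (hμ1 : μ ≤ 1 / 10) (N X Y Q M M2 : ℝ) (hN : 1 ≤ N)
    (hX0 : 0 < X) (hX : X ≤ N ^ (1 + μ / 100)) (hQ : N ^ μ ≤ Q) (hQ2 : 2 * Q ≤ N ^ (1 / 2 - μ))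
    (hM : N ^ (7 * μ / 100) ≤ M) (hY : N ^ (1 / 2 + μ / 2) / 2 ≤ Y) (hM2' : M2 ≤ X / Y) :
    √X * (√X / Q + √M2 + √(X / M) + 2 * Q) ≤ 5 * N ^ (1 - μ / 40) := by
  have hN0 : 0 < N := by linarith
  have hsx : √X ≤ N ^ (1 / 2 + μ / 200) := by
    rw [Real.sqrt_eq_rpow]
    calc X ^ (1 / 2 : ℝ) ≤ (N ^ (1 + μ / 100)) ^ (1 / 2 : ℝ) := Real.rpow_le_rpow hX0.le hX (by norm_num)
      _ = N ^ (1 / 2 + μ / 200) := by
        rw [← Real.rpow_mul hN0.le]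
        congr 1
        ring
  have hpY : 0 < Y := lt_of_lt_of_le (by positivity) hY
  have hpM : 0 < M := lt_of_lt_of_le (Real.rpow_pos_of_pos hN0 _) hM
  have hpQ : 0 < Q := lt_of_lt_of_le (Real.rpow_pos_of_pos hN0 _) hQ
  have hsU : √M2 ≤ 2 * N ^ (1 / 4 : ℝ) := by
    rw [Real.sqrt_le_left (by positivity)]
    have h1 : X / Y ≤ 2 * N ^ (1 / 2 : ℝ) := by
      rw [div_le_iff₀ hpY]
      have h2 : X ≤ N ^ (1 / 2 : ℝ) * N ^ (1 / 2 + μ / 2) := by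
        rw [← Real.rpow_add hN0]
        exact hX.trans (rp2 N hN _ _ (by linarith))
      have h3 : 0 < N ^ (1 / 2 : ℝ) := Real.rpow_pos_of_pos hN0 _
      nlinarith
    have h4 : (2 * N ^ (1 / 4 : ℝ)) ^ 2 = 4 * N ^ (1 / 2 : ℝ) := by
      rw [mul_pow, ← Real.rpow_natCast (N ^ (1 / 4 : ℝ)) 2, ← Real.rpow_mul hN0.le]
      norm_num
    rw [h4]
    have h3 : 0 < N ^ (1 / 2 : ℝ) := Real.rpow_pos_of_pos hN0 _
    linarith
  have hsxU : √(X / M) ≤ N ^ (1 / 2 + μ / 200 - 7 * μ / 200) := by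
    rw [Real.sqrt_eq_rpow]
    have h1 : X / M ≤ N ^ (1 + μ / 100 - 7 * μ / 100) := by
      rw [div_le_iff₀ hpM]
      calc X ≤ N ^ (1 + μ / 100) := hX
        _ = N ^ (1 + μ / 100 - 7 * μ / 100) * N ^ (7 * μ / 100) := by
          rw [← Real.rpow_add hN0]
          congr 1
          ring
        _ ≤ N ^ (1 + μ / 100 - 7 * μ / 100) * M := by gcongr
    calc (X / M) ^ (1 / 2 : ℝ) ≤ (N ^ (1 + μ / 100 - 7 * μ / 100)) ^ (1 / 2 : ℝ) :=
          Real.rpow_le_rpow (by positivity) h1 (by norm_num)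
      _ = N ^ (1 / 2 + μ / 200 - 7 * μ / 200) := by
        rw [← Real.rpow_mul hN0.le]
        congr 1
        ring
  have hsxQ : √X / Q ≤ N ^ (1 / 2 + μ / 200 - μ) := by
    rw [div_le_iff₀ hpQ]
    calc √X ≤ N ^ (1 / 2 + μ / 200) := hsx
      _ = N ^ (1 / 2 + μ / 200 - μ) * N ^ μ := by
        rw [← Real.rpow_add hN0]
        congr 1
        ring
      _ ≤ _ := by gcongr
  have hsum : √X / Q + √M2 + √(X / M) + 2 * Q ≤ 5 * N ^ (1 / 2 + μ / 200 - 7 * μ / 200) := by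
    have e1 := rp2 N hN (1 / 2 + μ / 200 - μ) (1 / 2 + μ / 200 - 7 * μ / 200) (by linarith)
    have e2 := rp2 N hN (1 / 4) (1 / 2 + μ / 200 - 7 * μ / 200) (by linarith)
    have e3 := rp2 N hN (1 / 2 - μ) (1 / 2 + μ / 200 - 7 * μ / 200) (by linarith)
    linarith
  have hnn : 0 ≤ √X / Q + √M2 + √(X / M) + 2 * Q := by positivity
  calc √X * (√X / Q + √M2 + √(X / M) + 2 * Q)
      ≤ N ^ (1 / 2 + μ / 200) * (5 * N ^ (1 / 2 + μ / 200 - 7 * μ / 200)) := by gcongr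
    _ = 5 * N ^ ((1 / 2 + μ / 200) + (1 / 2 + μ / 200 - 7 * μ / 200)) := by
        rw [Real.rpow_add hN0 (1 / 2 + μ / 200)]
        ring
    _ = 5 * N ^ (1 - μ / 40) := by
        congr 2
        ring

open Classical in
theorem A2B (μ : ℝ) (hμ : 0 < μ) (hμ1 : μ ≤ 1 / 10) : ∃ N0 : ℕ, ∀ N : ℕ, N0 ≤ N → ∀ (c : ℕ → ℝ) (L : ℝ), RC N c → LV N c L →
    (N : ℝ) ^ (-(μ / 100)) ≤ L → ∀ x K : ℕ, XS N x K → ∀ (Q : ℕ) (QQ : Finset ℕ), QS N μ Q QQ →
    ∑ q ∈ QQ, ∑ n ∈ (Finset.Icc 1 (x - 1)).filter (fun n => n ≡ x [MOD q]), a2 c (pw N (1 / 2 + μ / 2)) n ≤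
      8 * (x * L * Real.log N) * ∑ q ∈ QQ, 1 / (q : ℝ) + (N : ℝ) ^ (1 - μ / 60) := by
  obtain ⟨Ct, hCt, hty⟩ := BV.type2
  obtain ⟨Cd, hCd, hdiv⟩ := Pool.Agent.Lib.RG.divisor_bound (μ / 4000) (by positivity)
  obtain ⟨N1, hN1⟩ := SSU μ hμ
  obtain ⟨N2, hN2⟩ := BVc μ hμ hμ1
  obtain ⟨N3, hN3⟩ := XSsz
  obtain ⟨N4, hN4⟩ := XSpw (μ / 100) (by positivity)
  obtain ⟨N5, _, hN5⟩ := BVm_log (10 * Ct * Cd) 3 (μ / 200) (by positivity)
  obtain ⟨N6, _, hN6⟩ := BVm_log 8 0 (μ / 75) (by positivity)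
  obtain ⟨N7, _, hN7⟩ := BVm_log 6 0 μ (by positivity)
  obtain ⟨N8, _, hN8⟩ := BVm_log 2 0 (93 * μ / 100) (by positivity)
  refine ⟨max 8 (max N1 (max N2 (max N3 (max N4 (max N5 (max N6 (max N7 N8))))))), ?_⟩
  intro N hN c L hc hL hLlow x K hxs Q QQ hQS
  simp only [max_le_iff] at hN
  obtain ⟨hN8', hNN1, hNN2, hNN3, hNN4, hNN5, hNN6, hNN7, hNN8⟩ := hN
  have hNr : (1 : ℝ) ≤ N := by exact_mod_cast (by omega : 1 ≤ N)
  have hNpos : (0 : ℝ) < N := by linarith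
  have hL0 : 0 ≤ L := hL.1
  have hlogN : 2 ≤ Real.log N := by
    have h1 : (8 : ℝ) ≤ N := by exact_mod_cast hN8'
    have h2 : Real.log 8 ≤ Real.log N := Real.log_le_log (by norm_num) h1
    have h3 : Real.log 8 = 3 * Real.log 2 := by
      rw [show (8 : ℝ) = 2 ^ 3 by norm_num, Real.log_pow]
      norm_num
    linarith [Real.log_two_gt_d9]
  obtain ⟨hKp, _, _, _, _, _, _, _, _, hNx, hx2⟩ := hN3 N hNN3 x K hxs
  obtain ⟨hxN, hKN⟩ := hN4 N hNN4 x K hxs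
  have h6 : (6 : ℝ) ≤ (N : ℝ) ^ μ := by simpa using hN7 N hNN7
  have h2p : (2 : ℝ) ≤ (N : ℝ) ^ (93 * μ / 100) := by simpa using hN8 N hNN8
  have h8p : (8 : ℝ) ≤ (N : ℝ) ^ (μ / 75) := by simpa using hN6 N hNN6
  set X : ℕ := x - 1 with hX
  set Y : ℕ := pw N (1 / 2 + μ / 2) with hY
  have hXx : X ≤ x := by omega
  have hX1 : 1 ≤ X := by omega
  have hXr : (X : ℝ) ≤ (N : ℝ) ^ (1 + μ / 100) := le_trans (by exact_mod_cast hXx) hxN
  have hXpos : (0 : ℝ) < X := by exact_mod_cast hX1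
  -- the level Y
  have hYt : (1 : ℝ) ≤ (N : ℝ) ^ (1 / 2 + μ / 2) := Real.one_le_rpow hNr (by positivity)
  have hYup : (Y : ℝ) ≤ (N : ℝ) ^ (1 / 2 + μ / 2) := Nat.floor_le (by positivity)
  have hYlt : (N : ℝ) ^ (1 / 2 + μ / 2) < Y + 1 := Nat.lt_floor_add_one _
  have hY1 : 1 ≤ Y := by
    rw [hY]
    unfold pw
    rw [Nat.one_le_floor_iff]
    exact hYt
  have hY1r : (1 : ℝ) ≤ Y := by exact_mod_cast hY1
  have hYhalf : (N : ℝ) ^ (1 / 2 + μ / 2) / 2 ≤ Y := by linarith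
  have hS : ∀ y : ℕ, Y < y → SS c y ≤ 2 * (L * y) := by
    intro y hy
    refine hN1 N hNN1 c L hc hL hLlow y ?_
    have h1 : (Y : ℝ) + 1 ≤ y := by exact_mod_cast hy
    have h2 := rp2 N hNr (1 / 2 + μ / 4) (1 / 2 + μ / 2) (by linarith)
    linarith
  -- the cofactor bound M
  obtain ⟨M, hM⟩ : ∃ M : ℕ, M = ⌈(N : ℝ) ^ (7 * μ / 100)⌉₊ := ⟨_, rfl⟩
  have hMlow : (N : ℝ) ^ (7 * μ / 100) ≤ M := by rw [hM]; exact Nat.le_ceil _
  have hMt : (1 : ℝ) ≤ (N : ℝ) ^ (7 * μ / 100) := Real.one_le_rpow hNr (by positivity)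
  have hMup : (M : ℝ) ≤ 2 * (N : ℝ) ^ (7 * μ / 100) := by
    rw [hM]
    have := Nat.ceil_lt_add_one (show (0 : ℝ) ≤ (N : ℝ) ^ (7 * μ / 100) by positivity)
    linarith
  have hM1 : 1 ≤ M := by
    have h1 : (1 : ℝ) ≤ M := hMt.trans hMlow
    exact_mod_cast h1
  have hMQ : M ≤ Q := by
    have h1 : (M : ℝ) ≤ Q := by
      calc (M : ℝ) ≤ 2 * (N : ℝ) ^ (7 * μ / 100) := hMup
        _ ≤ (N : ℝ) ^ (93 * μ / 100) * (N : ℝ) ^ (7 * μ / 100) := by gcongr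
        _ = (N : ℝ) ^ μ := by
          rw [← Real.rpow_add hNpos]
          congr 1
          ring
        _ ≤ Q := hQS.low
    exact_mod_cast h1
  have hQ1 : 1 ≤ Q := hM1.trans hMQ
  -- q does not divide x
  have hqx : ∀ q ∈ QQ, ¬ q ∣ x := by
    intro q hq hdx
    obtain ⟨hqp, hQq, _, hqN⟩ := hQS.mem q hq
    have hQqr : (Q : ℝ) < q := by exact_mod_cast hQq
    rw [hxs.eq, hqp.dvd_mul, hqp.dvd_mul] at hdx
    rcases hdx with (h | h) | h
    · have h1 : q ≤ 6 := Nat.le_of_dvd (by norm_num) h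
      have h2 : (q : ℝ) ≤ 6 := by exact_mod_cast h1
      linarith [hQS.low]
    · have h1 : q = K := (Nat.prime_dvd_prime_iff_eq hqp hKp).1 h
      have h2 := rp2 N hNr (μ / 100) μ (by linarith)
      rw [h1] at hQqr
      linarith [hQS.low]
    · exact hqN h
  have hqm : ∀ q ∈ QQ, ∀ m ∈ Finset.Icc 1 M, ¬ q ∣ m := by
    intro q hq m hm hd
    rw [Finset.mem_Icc] at hm
    have h1 := Nat.le_of_dvd (by omega) hd
    have h2 := (hQS.mem q hq).2.1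
    omega
  -- the residues
  have hres : ∀ m q : ℕ, ∃ r : ℕ, q ∈ QQ → m ∈ Finset.Icc 1 M → m * r ≡ x [MOD q] ∧ ¬ q ∣ r := by
    intro m q
    by_cases h : q ∈ QQ ∧ m ∈ Finset.Icc 1 M
    · obtain ⟨r, h1, h2⟩ := inv_exists q m x (hQS.mem q h.1).1 (hqm q h.1 m h.2) (hqx q h.1)
      exact ⟨r, fun _ _ => ⟨h1, h2⟩⟩
    · exact ⟨0, fun h1 h2 => absurd ⟨h1, h2⟩ h⟩
  choose r hr using hres
  -- part (a)
  have hYN : (Y : ℝ) ≤ (N : ℝ) ^ (1 + μ / 100) := hYup.trans (rp2 N hNr _ _ (by linarith))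
  have hone : (1 : ℝ) ≤ (N : ℝ) ^ (μ / 100) := Real.one_le_rpow hNr (by positivity)
  have hBV : ∀ (X0 : ℕ), (X0 : ℝ) ≤ (N : ℝ) ^ (1 + μ / 100) → ∀ m ∈ Finset.Icc 1 M,
      ∑ q ∈ QQ, |EQ (rr c) X0 q (r m q)| ≤ (N : ℝ) ^ (1 - μ / 10) := by
    intro X0 hX0 m hm
    have h1 := hN2 N hNN2 c on1 hc (Or.inl rfl) Q QQ (r m) X0 1 1 0 hQS (fun q hq => (hr m q hq hm).2) hX0
      le_rfl (by simpa using hone) le_rfl (by simpa using hone) (Nat.coprime_one_left N) (Nat.coprime_one_right 0)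
    rwa [FD11, cf_on1] at h1
  have hpa : ∀ m ∈ Finset.Icc 1 M, ∑ q ∈ QQ, |EQ (hm c Y m) X q x| ≤ 2 * (N : ℝ) ^ (1 - μ / 10) := by
    intro m hmM
    have hm0 : 0 < m := by
      rw [Finset.mem_Icc] at hmM
      omega
    have h1 : ∑ q ∈ QQ, |EQ (hm c Y m) X q x| ≤
        ∑ q ∈ QQ, (|EQ (rr c) (X / m) q (r m q)| + |EQ (rr c) Y q (r m q)|) :=
      Finset.sum_le_sum fun q hq =>
        EQ_hm c Y X m q x (r m q) hm0 (hQS.mem q hq).1 (hqm q hq m hmM) (hr m q hq hmM).1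
    rw [Finset.sum_add_distrib] at h1
    have h2 : ((X / m : ℕ) : ℝ) ≤ (N : ℝ) ^ (1 + μ / 100) :=
      le_trans (by exact_mod_cast Nat.div_le_self X m) hXr
    have h3 := hBV (X / m) h2 m hmM
    have h4 := hBV Y hYN m hmM
    linarith
  -- part (b)
  set G : ℕ → ℝ := fun n => ∑ l ∈ Finset.Ioc M (X / Y), hm c Y l n with hG
  have h2QX : 2 * Q ≤ X := by
    have h1 : (2 * (Q : ℝ)) ≤ (N : ℝ) ^ (1 / 2 : ℝ) := hQS.upp.trans (rp2 N hNr _ _ (by linarith))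
    have h2 : (2 * (Q : ℝ)) ^ 2 ≤ (N : ℝ) := by
      calc (2 * (Q : ℝ)) ^ 2 ≤ ((N : ℝ) ^ (1 / 2 : ℝ)) ^ 2 := by gcongr
        _ = (N : ℝ) := by
          rw [← Real.rpow_natCast, ← Real.rpow_mul hNpos.le]
          norm_num
    have h3 : (2 * Q) ^ 2 ≤ N := by exact_mod_cast h2
    have h4 : 2 * Q + 1 ≤ (2 * Q) ^ 2 := by nlinarith
    omega
  have hlogX : Real.log X ≤ 101 / 100 * Real.log N := by
    have h2 := Real.log_le_log hXpos hXr
    rw [Real.log_rpow hNpos] at h2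
    exact h2.trans (mul_le_mul_of_nonneg_right (by linarith) (by linarith))
  have hlogX0 : 0 ≤ Real.log X := Real.log_natCast_nonneg X
  have hLb : ∀ n : ℕ, 1 ≤ n → n ≤ X → ‖bt c Y n‖ ≤ Cd * (N : ℝ) ^ (μ / 2000) := by
    intro n hn1 hnX
    have hrr : rr c n ≤ Cd * (N : ℝ) ^ (μ / 2000) := by
      have h1 := rr_le hc n
      have h2 := hdiv n hn1
      have h3 : (n : ℝ) ^ (μ / 4000) ≤ (N : ℝ) ^ (μ / 2000) := by
        have h4 : (n : ℝ) ≤ (N : ℝ) ^ (2 : ℝ) := by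
          have h5 : (n : ℝ) ≤ X := by exact_mod_cast hnX
          exact h5.trans (hXr.trans (rp2 N hNr _ _ (by linarith)))
        calc (n : ℝ) ^ (μ / 4000) ≤ ((N : ℝ) ^ (2 : ℝ)) ^ (μ / 4000) :=
              Real.rpow_le_rpow (Nat.cast_nonneg n) h4 (by positivity)
          _ = (N : ℝ) ^ (μ / 2000) := by
            rw [← Real.rpow_mul hNpos.le]
            congr 1
            ring
      calc rr c n ≤ n.divisors.card := h1
        _ ≤ Cd * (n : ℝ) ^ (μ / 4000) := h2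
        _ ≤ _ := by gcongr
    unfold bt
    split_ifs
    · rw [Complex.norm_real, Real.norm_eq_abs, abs_of_nonneg (Pool.Agent.Lib.RG.rr_nonneg N c hc n)]
      exact hrr
    · rw [norm_zero]
      positivity
  have hpb : ∑ q ∈ QQ, |EQ G X q x| ≤
      Ct * (1 + Real.log X) ^ 3 * √(1 * (Cd * (N : ℝ) ^ (μ / 2000)) ^ 2) * √(X : ℝ) *
        (√(X : ℝ) / Q + √((X / Y : ℕ) : ℝ) + √((X : ℝ) / M) + (2 * Q : ℕ)) := by
    refine (BVm_red G X hQS (fun _ => x) hqx).trans ?_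
    have h1 := hty X (2 * Q) Q M (X / Y) 1 ((Cd * (N : ℝ) ^ (μ / 2000)) ^ 2) (fun _ => 1) (bt c Y)
      (fun l => X / l + 1) hQ1 hM1 (Nat.div_le_self X Y) h2QX (by norm_num) (by positivity) ?_ ?_
    · refine le_trans (le_of_eq ?_) h1
      congr 1
      funext d ψ
      rw [hG, type2_id c Y X M (X / Y) ψ]
      congr 1
      refine Finset.sum_congr rfl fun l hl => ?_
      refine Finset.sum_congr ?_ fun _ _ => rfl
      ext n
      rw [Finset.mem_filter, Finset.mem_Icc]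
      omega
    · intro M' _ _
      simp only [norm_one, one_pow, Finset.sum_const, Nat.card_Ioc, nsmul_eq_mul, mul_one, one_mul]
      rw [show 2 * M' - M' = M' by omega]
    · intro n' hn'
      have h2 : ∀ n ∈ Finset.Icc 1 n', ‖bt c Y n‖ ^ 2 ≤ (Cd * (N : ℝ) ^ (μ / 2000)) ^ 2 := by
        intro n hn
        rw [Finset.mem_Icc] at hn
        exact pow_le_pow_left₀ (norm_nonneg _) (hLb n hn.1 (hn.2.trans hn')) 2
      refine (Finset.sum_le_card_nsmul _ _ _ h2).trans ?_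
      rw [Nat.card_Icc, nsmul_eq_mul, show n' + 1 - 1 = n' by omega, mul_comm]
  have hpb2 : ∑ q ∈ QQ, |EQ G X q x| ≤ 1 / 2 * (N : ℝ) ^ (1 - μ / 60) := by
    refine hpb.trans ?_
    have h1 := num2 μ hμ hμ1 N X Y Q M ((X / Y : ℕ) : ℝ) hNr hXpos hXr hQS.low hQS.upp hMlow hYhalf
      Nat.cast_div_le
    have h2 : 1 + Real.log X ≤ 1 + 2 * Real.log N := by linarith
    have h5 := hN5 N hNN5
    rw [one_mul, Real.sqrt_sq (by positivity)]
    push_cast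
    calc Ct * (1 + Real.log X) ^ 3 * (Cd * (N : ℝ) ^ (μ / 2000)) * √(X : ℝ) *
          (√(X : ℝ) / Q + √((X / Y : ℕ) : ℝ) + √((X : ℝ) / M) + 2 * Q)
        = Ct * Cd * (1 + Real.log X) ^ 3 * (N : ℝ) ^ (μ / 2000) * (√(X : ℝ) *
          (√(X : ℝ) / Q + √((X / Y : ℕ) : ℝ) + √((X : ℝ) / M) + 2 * Q)) := by ring
      _ ≤ Ct * Cd * (1 + 2 * Real.log N) ^ 3 * (N : ℝ) ^ (μ / 2000) * (5 * (N : ℝ) ^ (1 - μ / 40)) := by
          gcongr
      _ = 1 / 2 * ((10 * Ct * Cd) * (1 + 2 * Real.log N) ^ 3) * ((N : ℝ) ^ (μ / 2000) * (N : ℝ) ^ (1 - μ / 40)) := by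
          ring
      _ ≤ 1 / 2 * (N : ℝ) ^ (μ / 200) * ((N : ℝ) ^ (μ / 2000) * (N : ℝ) ^ (1 - μ / 40)) := by
          gcongr
      _ = 1 / 2 * (N : ℝ) ^ (μ / 200 + (μ / 2000 + (1 - μ / 40))) := by
          rw [Real.rpow_add hNpos, Real.rpow_add hNpos]
          ring
      _ ≤ 1 / 2 * (N : ℝ) ^ (1 - μ / 60) := by
          have := rp2 N hNr (μ / 200 + (μ / 2000 + (1 - μ / 40))) (1 - μ / 60) (by linarith)
          linarith
  have hpa2 : ∑ m ∈ Finset.Icc 1 M, ∑ q ∈ QQ, |EQ (hm c Y m) X q x| ≤ 1 / 2 * (N : ℝ) ^ (1 - μ / 60) := by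
    refine (Finset.sum_le_card_nsmul _ _ _ hpa).trans ?_
    rw [Nat.card_Icc, nsmul_eq_mul, show M + 1 - 1 = M by omega]
    calc (M : ℝ) * (2 * (N : ℝ) ^ (1 - μ / 10)) ≤ (2 * (N : ℝ) ^ (7 * μ / 100)) * (2 * (N : ℝ) ^ (1 - μ / 10)) := by
          gcongr
      _ = 1 / 2 * 8 * ((N : ℝ) ^ (7 * μ / 100) * (N : ℝ) ^ (1 - μ / 10)) := by ring
      _ ≤ 1 / 2 * (N : ℝ) ^ (μ / 75) * ((N : ℝ) ^ (7 * μ / 100) * (N : ℝ) ^ (1 - μ / 10)) := by
          gcongr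
      _ = 1 / 2 * (N : ℝ) ^ (1 - μ / 60) := by
          rw [← Real.rpow_add hNpos, mul_assoc, ← Real.rpow_add hNpos]
          congr 2
          ring
  -- the splitting of the errors
  have hEQ : ∀ q ∈ QQ, |EQ (a2 c Y) X q x| ≤ ∑ m ∈ Finset.Icc 1 M, |EQ (hm c Y m) X q x| + |EQ G X q x| := by
    intro q _
    rw [EQcongr (a2 c Y) (fun n => (fun n => ∑ m ∈ Finset.Icc 1 M, hm c Y m n) n + G n) X q x
      (fun n hn => a2_split c Y X M n hY1 hn), EQadd, EQ_sum]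
    refine (abs_add_le _ _).trans ?_
    exact add_le_add (Finset.abs_sum_le_sum_abs _ _) le_rfl
  have hEQsum : ∑ q ∈ QQ, |EQ (a2 c Y) X q x| ≤ (N : ℝ) ^ (1 - μ / 60) := by
    refine (Finset.sum_le_sum hEQ).trans ?_
    rw [Finset.sum_add_distrib, Finset.sum_comm]
    linarith
  -- the main term
  have hmain := main_sum c N X Y L hc hL0 hS hX1
  have ha20 : ∀ n, 0 ≤ a2 c Y n := by
    intro n
    unfold a2
    exact Finset.sum_nonneg fun k _ => Pool.Agent.Lib.RG.rr_nonneg N c hc k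
  have hmain2 : ∑ n ∈ Finset.Icc 1 X, a2 c Y n ≤ 4 * (x * L * Real.log N) := by
    refine hmain.trans ?_
    have h1 : 1 + Real.log X ≤ 2 * Real.log N := by linarith
    have h2 : (X : ℝ) ≤ x := by exact_mod_cast hXx
    calc 2 * L * X * (1 + Real.log X) ≤ 2 * L * x * (2 * Real.log N) := by gcongr
      _ = _ := by ring
  have hstep : ∀ q ∈ QQ, ∑ n ∈ (Finset.Icc 1 X).filter (fun n => n ≡ x [MOD q]), a2 c Y n ≤
      8 * (x * L * Real.log N) * (1 / (q : ℝ)) + |EQ (a2 c Y) X q x| := by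
    intro q hq
    have hqp := (hQS.mem q hq).1
    have hq2 : (2 : ℝ) ≤ q := by exact_mod_cast hqp.two_le
    have h1 : ∑ n ∈ (Finset.Icc 1 X).filter (fun n => n ≡ x [MOD q]), a2 c Y n =
        EQ (a2 c Y) X q x + 1 / ((q : ℝ) - 1) * ∑ n ∈ (Finset.Icc 1 X).filter (fun n => ¬ q ∣ n), a2 c Y n := by
      unfold EQ
      ring
    have h2 : ∑ n ∈ (Finset.Icc 1 X).filter (fun n => ¬ q ∣ n), a2 c Y n ≤ 4 * (x * L * Real.log N) :=
      (Finset.sum_le_sum_of_subset_of_nonneg (Finset.filter_subset _ _) fun n _ _ => ha20 n).trans hmain2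
    have h3 : 1 / ((q : ℝ) - 1) ≤ 2 * (1 / (q : ℝ)) := by
      rw [mul_one_div, div_le_div_iff₀ (by linarith) (by linarith)]
      linarith
    have h4 : 0 ≤ 1 / ((q : ℝ) - 1) := by
      apply one_div_nonneg.2
      linarith
    have h5 : 0 ≤ 4 * (x * L * Real.log N) := by positivity
    rw [h1]
    have h6 : 1 / ((q : ℝ) - 1) * ∑ n ∈ (Finset.Icc 1 X).filter (fun n => ¬ q ∣ n), a2 c Y n ≤
        2 * (1 / (q : ℝ)) * (4 * (x * L * Real.log N)) := by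
      calc _ ≤ 1 / ((q : ℝ) - 1) * (4 * (x * L * Real.log N)) := mul_le_mul_of_nonneg_left h2 h4
        _ ≤ _ := mul_le_mul_of_nonneg_right h3 h5
    have h7 := le_abs_self (EQ (a2 c Y) X q x)
    linarith
  refine (Finset.sum_le_sum hstep).trans ?_
  rw [Finset.sum_add_distrib, ← Finset.mul_sum]
  linarith

end Pool.Agent.Lib.PX
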