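import Pool.Agent.Lib.MP_7b7e48_nt.PX.EQ1
import Pool.Agent.Lib.MP_7b7e48_nt.PX.HYP
import Pool.Agent.Lib.BV.Ty2

/-!
# BVm: the middle range, large sieve

PROOF. `EQ1`, and `∑_{q ∈ QQ} (1/φ(q)) PS q (..) ≤ BV.LA Q (2Q) (..)` (nonnegative terms). `∑_{n ≤ X} FD D1 D2 a (cfr c f U1 U2) n ψ n = ∑_{U1 < u ≤ U2} ∑_{v ≤ X/u, D1 ∣ u v, u v = a mod D2} c u f v ψ u ψ v`. Split according to `(e, a₁)`, `e = gcd(D1, u)`, `a₁ = u mod D2`: then
`D1 ∣ u v` iff `D1/e ∣ v`, and `u v = a` iff `a₁ v = a` modulo `D2`: at most `D1 D2` pairs. For each pair `BV.type2` with `X' = max X N`, `b l = X/l + 1`.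
-/

set_option autoImplicit false

open Finset
open Pool.Agent.Lib.GT (Rough V)
open Pool.Agent.Lib.MP_45349e_nt.LS (lam)
open Pool.Agent.Lib.RG (RC LV rr SS PB sig)

namespace Pool.Agent.Lib.PX

open Pool.Agent.Lib.PQ (pw)

/-- passage from the errors modulo the primes of `QQ` to the large sieve average -/
theorem BVm_red (F : ℕ → ℝ) (X : ℕ) {N : ℕ} {μ : ℝ} {Q : ℕ} {QQ : Finset ℕ} (h : QS N μ Q QQ) (r : ℕ → ℕ)
    (hr : ∀ q ∈ QQ, ¬ q ∣ r q) :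
    ∑ q ∈ QQ, |EQ F X q (r q)| ≤
      BV.LA Q (2 * Q) (fun d ψ => ‖∑ n ∈ Finset.Icc 1 X, (F n : ℂ) * ψ (n : ZMod d)‖) := by
  unfold BV.LA
  have hsub : QQ ⊆ Finset.Ioc Q (2 * Q) := fun q hq => by
    have := h.mem q hq
    simp only [Finset.mem_Ioc]
    exact ⟨this.2.1, this.2.2.1⟩
  refine (Finset.sum_le_sum fun q hq => EQ1 F X q (r q) (h.mem q hq).1 (hr q hq)).trans ?_
  exact Finset.sum_le_sum_of_subset_of_nonneg hsub fun d _ _ =>
    mul_nonneg (by positivity) (BV.PS_nonneg fun _ => norm_nonneg _)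

/-- the sum over the multiples of `u` -/
theorem BVm_mult {M : Type*} [AddCommMonoid M] (g : ℕ → M) (u X : ℕ) (hu : 0 < u) :
    ∑ n ∈ (Finset.Icc 1 X).filter (fun n => u ∣ n), g n = ∑ v ∈ Finset.Icc 1 (X / u), g (u * v) := by
  refine Finset.sum_nbij' (fun n => n / u) (fun v => u * v) ?_ ?_ ?_ ?_ ?_
  · intro n hn
    rw [Finset.mem_filter, Finset.mem_Icc] at hn
    obtain ⟨⟨h1, h2⟩, k, rfl⟩ := hn
    rw [Finset.mem_Icc, Nat.mul_div_cancel_left _ hu]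
    constructor
    · rcases Nat.eq_zero_or_pos k with h | h
      · subst h; omega
      · exact h
    · rw [Nat.le_div_iff_mul_le hu]
      linarith [mul_comm u k]
  · intro v hv
    rw [Finset.mem_Icc, Nat.le_div_iff_mul_le hu] at hv
    rw [Finset.mem_filter, Finset.mem_Icc]
    refine ⟨⟨Nat.mul_pos hu hv.1, by linarith [mul_comm u v, hv.2]⟩, dvd_mul_right _ _⟩
  · intro n hn
    rw [Finset.mem_filter] at hn
    exact Nat.mul_div_cancel' hn.2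
  · intro v _
    exact Nat.mul_div_cancel_left _ hu
  · intro n hn
    rw [Finset.mem_filter] at hn
    rw [Nat.mul_div_cancel' hn.2]

open Classical in
/-- the first factor -/
noncomputable def BVm_al (c : ℕ → ℝ) (D1 D2 : ℕ) (t : ℕ × ℕ) (l : ℕ) : ℂ :=
  if Nat.gcd D1 l = t.1 ∧ l % D2 = t.2 then (c l : ℂ) else 0

open Classical in
/-- the second factor -/
noncomputable def BVm_be (f : ℕ → ℝ) (D1 D2 a : ℕ) (t : ℕ × ℕ) (v : ℕ) : ℂ :=
  if D1 / t.1 ∣ v ∧ t.2 * v ≡ a [MOD D2] then (f v : ℂ) else 0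

open Classical in
private lemma key (c f : ℕ → ℝ) (D1 D2 a : ℕ) (hD1 : 1 ≤ D1) (hD2 : 1 ≤ D2) (l v : ℕ) :
    ∑ t ∈ D1.divisors ×ˢ Finset.range D2, BVm_al c D1 D2 t l * BVm_be f D1 D2 a t v =
      if D1 ∣ l * v ∧ l * v ≡ a [MOD D2] then (c l : ℂ) * (f v : ℂ) else 0 := by
  have hg : 0 < Nat.gcd D1 l := Nat.gcd_pos_of_pos_left _ hD1
  have hmem : (Nat.gcd D1 l, l % D2) ∈ D1.divisors ×ˢ Finset.range D2 := by
    rw [Finset.mem_product, Nat.mem_divisors, Finset.mem_range]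
    exact ⟨⟨Nat.gcd_dvd_left _ _, by omega⟩, Nat.mod_lt _ (by omega)⟩
  rw [Finset.sum_eq_single_of_mem _ hmem]
  · unfold BVm_al BVm_be
    rw [if_pos ⟨rfl, rfl⟩]
    have h1 : (D1 / Nat.gcd D1 l ∣ v) ↔ D1 ∣ l * v := by
      constructor
      · intro h
        have h2 : D1 = Nat.gcd D1 l * (D1 / Nat.gcd D1 l) := (Nat.mul_div_cancel' (Nat.gcd_dvd_left _ _)).symm
        rw [h2]
        exact mul_dvd_mul (Nat.gcd_dvd_right _ _) h
      · intro h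
        have h3 : Nat.Coprime (D1 / Nat.gcd D1 l) (l / Nat.gcd D1 l) := Nat.coprime_div_gcd_div_gcd hg
        have h4 : D1 / Nat.gcd D1 l ∣ (l / Nat.gcd D1 l) * v := by
          obtain ⟨k, hk⟩ := h
          refine ⟨k, ?_⟩
          have h5 : D1 = Nat.gcd D1 l * (D1 / Nat.gcd D1 l) := (Nat.mul_div_cancel' (Nat.gcd_dvd_left _ _)).symm
          have h6 : l = Nat.gcd D1 l * (l / Nat.gcd D1 l) := (Nat.mul_div_cancel' (Nat.gcd_dvd_right _ _)).symm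
          apply Nat.eq_of_mul_eq_mul_left hg
          calc Nat.gcd D1 l * ((l / Nat.gcd D1 l) * v) = (Nat.gcd D1 l * (l / Nat.gcd D1 l)) * v := by ring
            _ = l * v := by rw [← h6]
            _ = D1 * k := hk
            _ = (Nat.gcd D1 l * (D1 / Nat.gcd D1 l)) * k := by rw [← h5]
            _ = Nat.gcd D1 l * (D1 / Nat.gcd D1 l * k) := by ring
        exact h3.dvd_of_dvd_mul_left h4
    have h2 : ((l % D2) * v ≡ a [MOD D2]) ↔ l * v ≡ a [MOD D2] := by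
      have h3 : (l % D2) * v ≡ l * v [MOD D2] := (Nat.mod_modEq l D2).mul_right v
      exact ⟨fun h => h3.symm.trans h, fun h => h3.trans h⟩
    by_cases hc : D1 ∣ l * v ∧ l * v ≡ a [MOD D2]
    · rw [if_pos ⟨h1.2 hc.1, h2.2 hc.2⟩, if_pos hc]
    · rw [if_neg hc, if_neg fun h => hc ⟨h1.1 h.1, h2.1 h.2⟩, mul_zero]
  · intro t _ ht
    unfold BVm_al
    rw [if_neg, zero_mul]
    intro h
    exact ht (Prod.ext h.1.symm h.2.symm)

open Classical in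
private lemma decomp (c f : ℕ → ℝ) (X D1 D2 a U1 U2 : ℕ) (hD1 : 1 ≤ D1) (hD2 : 1 ≤ D2) {d : ℕ}
    (ψ : DirichletCharacter ℂ d) :
    ∑ n ∈ Finset.Icc 1 X, (FD D1 D2 a (cfr c f U1 U2) n : ℂ) * ψ (n : ZMod d) =
      ∑ t ∈ D1.divisors ×ˢ Finset.range D2, ∑ l ∈ Finset.Ioc U1 U2, ∑ v ∈ Finset.Icc 1 (X / l),
        BVm_al c D1 D2 t l * BVm_be f D1 D2 a t v * ψ (l : ZMod d) * ψ (v : ZMod d) := by
  have h1 : ∀ n ∈ Finset.Icc 1 X, (FD D1 D2 a (cfr c f U1 U2) n : ℂ) * ψ (n : ZMod d) =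
      ∑ u ∈ Finset.Ioc U1 U2, if u ∣ n then
        (if D1 ∣ n ∧ n ≡ a [MOD D2] then (c u : ℂ) * (f (n / u) : ℂ) * ψ (n : ZMod d) else 0) else 0 := by
    intro n hn
    rw [Finset.mem_Icc] at hn
    unfold FD cfr
    by_cases hp : D1 ∣ n ∧ n ≡ a [MOD D2]
    · rw [if_pos hp]
      push_cast
      rw [Finset.sum_mul]
      simp only [if_pos hp]
      rw [← Finset.sum_filter]
      refine Finset.sum_congr ?_ fun _ _ => rfl
      ext u
      simp only [Finset.mem_filter, Nat.mem_divisors, Finset.mem_Ioc]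
      constructor
      · rintro ⟨⟨h1, h2⟩, h3⟩
        exact ⟨h3, h1⟩
      · rintro ⟨h3, h1⟩
        exact ⟨⟨h1, by omega⟩, h3⟩
    · rw [if_neg hp]
      simp [hp]
  rw [Finset.sum_congr rfl h1, Finset.sum_comm]
  have h2 : ∀ u ∈ Finset.Ioc U1 U2, (∑ n ∈ Finset.Icc 1 X, if u ∣ n then
        (if D1 ∣ n ∧ n ≡ a [MOD D2] then (c u : ℂ) * (f (n / u) : ℂ) * ψ (n : ZMod d) else 0) else 0) =
      ∑ v ∈ Finset.Icc 1 (X / u), ∑ t ∈ D1.divisors ×ˢ Finset.range D2,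
        BVm_al c D1 D2 t u * BVm_be f D1 D2 a t v * ψ (u : ZMod d) * ψ (v : ZMod d) := by
    intro u hu
    rw [Finset.mem_Ioc] at hu
    have hu0 : 0 < u := by omega
    rw [← Finset.sum_filter, BVm_mult _ u X hu0]
    refine Finset.sum_congr rfl fun v _ => ?_
    rw [Nat.mul_div_cancel_left _ hu0, ← Finset.sum_mul, ← Finset.sum_mul, key c f D1 D2 a hD1 hD2 u v]
    split_ifs
    · push_cast
      rw [map_mul]
      ring
    · simp
  rw [Finset.sum_congr rfl h2]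
  rw [Finset.sum_comm' (s := D1.divisors ×ˢ Finset.range D2) (t := fun _ => Finset.Ioc U1 U2)
    (t' := Finset.Ioc U1 U2) (s' := fun _ => D1.divisors ×ˢ Finset.range D2) (by intro x y; tauto)]
  refine Finset.sum_congr rfl fun u _ => ?_
  exact Finset.sum_comm

/-- asymptotics: a power of the logarithm is smaller than any power -/
theorem BVm_log (C : ℝ) (k : ℕ) (e : ℝ) (he : 0 < e) : ∃ N0 : ℕ, 2 ≤ N0 ∧ ∀ N : ℕ, N0 ≤ N →
    C * (1 + 2 * Real.log N) ^ k ≤ (N : ℝ) ^ e := by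
  have h1 := (isLittleO_log_rpow_rpow_atTop (k : ℝ) he).bound (c := 1 / (|C| * 3 ^ k + 1)) (by positivity)
  have h2 := tendsto_natCast_atTop_atTop (R := ℝ) |>.eventually h1
  obtain ⟨N1, hN1⟩ := Filter.eventually_atTop.1 h2
  refine ⟨max N1 3, by omega, fun N hN => ?_⟩
  have hN3 : 3 ≤ N := by omega
  have h3 := hN1 N (by omega)
  have hlog : 1 ≤ Real.log N := by
    rw [Real.le_log_iff_exp_le (by positivity)]
    have : (3 : ℝ) ≤ N := by exact_mod_cast hN3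
    linarith [Real.exp_one_lt_d9]
  rw [Real.rpow_natCast, Real.norm_of_nonneg (pow_nonneg (by linarith) k),
    Real.norm_of_nonneg (Real.rpow_nonneg (Nat.cast_nonneg N) e)] at h3
  have hK : 0 < |C| * 3 ^ k + 1 := by positivity
  calc C * (1 + 2 * Real.log N) ^ k ≤ |C| * (3 * Real.log N) ^ k := by
        refine mul_le_mul (le_abs_self C) (pow_le_pow_left₀ (by positivity) (by linarith) k) (by positivity)
          (abs_nonneg C)
    _ = |C| * 3 ^ k * Real.log N ^ k := by rw [mul_pow]; ring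
    _ ≤ (|C| * 3 ^ k + 1) * Real.log N ^ k := by
        refine mul_le_mul_of_nonneg_right (by linarith) (by positivity)
    _ ≤ (|C| * 3 ^ k + 1) * (1 / (|C| * 3 ^ k + 1) * (N : ℝ) ^ e) := by gcongr
    _ = (N : ℝ) ^ e := by field_simp

private lemma rp (N : ℝ) (hN : 1 ≤ N) (a b : ℝ) (h : a ≤ b) : N ^ a ≤ N ^ b :=
  Real.rpow_le_rpow_of_exponent_le hN h

/-- the numerical part -/
private lemma fin_num (μ : ℝ) (hμ : 0 < μ) (hμ1 : μ ≤ 1 / 10) (N x D1 D2 Q U1 U2 : ℝ) (hN : 1 ≤ N)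
    (hx0 : 0 < x) (hx : x ≤ N ^ (1 + μ / 100)) (hD10 : 0 ≤ D1) (hD20 : 0 ≤ D2) (hD1 : D1 ≤ N ^ (μ / 100))
    (hD2 : D2 ≤ N ^ (μ / 100)) (hQ : N ^ μ ≤ Q) (hQ2 : 2 * Q ≤ N ^ (1 / 2 - μ)) (hU1 : N ^ (μ / 3) ≤ U1)
    (hU20 : 0 ≤ U2) (hU2 : U2 ≤ N ^ (1 - μ / 3)) :
    D1 * D2 * (√x * (√x / Q + √U2 + √(x / U1) + 2 * Q)) ≤ 4 * N ^ (1 - μ / 8) := by
  have hN0 : 0 < N := by linarith
  have hsx : √x ≤ N ^ (1 / 2 + μ / 200) := by
    rw [Real.sqrt_eq_rpow]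
    calc x ^ (1 / 2 : ℝ) ≤ (N ^ (1 + μ / 100)) ^ (1 / 2 : ℝ) := Real.rpow_le_rpow hx0.le hx (by norm_num)
      _ = N ^ (1 / 2 + μ / 200) := by
        rw [← Real.rpow_mul hN0.le]
        congr 1
        ring
  have hsU : √U2 ≤ N ^ (1 / 2 - μ / 6) := by
    rw [Real.sqrt_eq_rpow]
    calc U2 ^ (1 / 2 : ℝ) ≤ (N ^ (1 - μ / 3)) ^ (1 / 2 : ℝ) := Real.rpow_le_rpow hU20 hU2 (by norm_num)
      _ = N ^ (1 / 2 - μ / 6) := by
        rw [← Real.rpow_mul hN0.le]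
        congr 1
        ring
  have hpU : 0 < U1 := lt_of_lt_of_le (Real.rpow_pos_of_pos hN0 _) hU1
  have hpQ : 0 < Q := lt_of_lt_of_le (Real.rpow_pos_of_pos hN0 _) hQ
  have hsxU : √(x / U1) ≤ N ^ (1 / 2 + μ / 200 - μ / 6) := by
    rw [Real.sqrt_eq_rpow]
    have h1 : x / U1 ≤ N ^ (1 + μ / 100 - μ / 3) := by
      rw [div_le_iff₀ hpU]
      calc x ≤ N ^ (1 + μ / 100) := hx
        _ = N ^ (1 + μ / 100 - μ / 3) * N ^ (μ / 3) := by
          rw [← Real.rpow_add hN0]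
          congr 1
          ring
        _ ≤ N ^ (1 + μ / 100 - μ / 3) * U1 := by gcongr
    calc (x / U1) ^ (1 / 2 : ℝ) ≤ (N ^ (1 + μ / 100 - μ / 3)) ^ (1 / 2 : ℝ) :=
          Real.rpow_le_rpow (by positivity) h1 (by norm_num)
      _ = N ^ (1 / 2 + μ / 200 - μ / 6) := by
        rw [← Real.rpow_mul hN0.le]
        congr 1
        ring
  have hsxQ : √x / Q ≤ N ^ (1 / 2 + μ / 200 - μ) := by
    rw [div_le_iff₀ hpQ]
    calc √x ≤ N ^ (1 / 2 + μ / 200) := hsx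
      _ = N ^ (1 / 2 + μ / 200 - μ) * N ^ μ := by
        rw [← Real.rpow_add hN0]
        congr 1
        ring
      _ ≤ _ := by gcongr
  have hDD : D1 * D2 ≤ N ^ (μ / 50) := by
    calc D1 * D2 ≤ N ^ (μ / 100) * N ^ (μ / 100) := by gcongr
      _ = N ^ (μ / 50) := by
        rw [← Real.rpow_add hN0]
        congr 1
        ring
  have hsum : √x / Q + √U2 + √(x / U1) + 2 * Q ≤ 4 * N ^ (1 / 2 + μ / 200 - μ / 6) := by
    have e1 := rp N hN (1 / 2 + μ / 200 - μ) (1 / 2 + μ / 200 - μ / 6) (by linarith)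
    have e2 := rp N hN (1 / 2 - μ / 6) (1 / 2 + μ / 200 - μ / 6) (by linarith)
    have e3 := rp N hN (1 / 2 - μ) (1 / 2 + μ / 200 - μ / 6) (by linarith)
    linarith
  have hnn : 0 ≤ √x / Q + √U2 + √(x / U1) + 2 * Q := by positivity
  calc D1 * D2 * (√x * (√x / Q + √U2 + √(x / U1) + 2 * Q))
      ≤ N ^ (μ / 50) * (N ^ (1 / 2 + μ / 200) * (4 * N ^ (1 / 2 + μ / 200 - μ / 6))) := by
        gcongr
    _ = 4 * N ^ (μ / 50 + (1 / 2 + μ / 200) + (1 / 2 + μ / 200 - μ / 6)) := by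
        rw [Real.rpow_add hN0 (μ / 50 + (1 / 2 + μ / 200)), Real.rpow_add hN0 (μ / 50)]
        ring
    _ ≤ 4 * N ^ (1 - μ / 8) := by
        have := rp N hN (μ / 50 + (1 / 2 + μ / 200) + (1 / 2 + μ / 200 - μ / 6)) (1 - μ / 8) (by linarith)
        linarith

theorem BVm (μ : ℝ) (hμ : 0 < μ) (hμ1 : μ ≤ 1 / 10) : ∃ N0 : ℕ, ∀ N : ℕ, N0 ≤ N → ∀ c f : ℕ → ℝ,
    (∀ n, |c n| ≤ 1) → (f = on1 ∨ f = lg) → ∀ (Q : ℕ) (QQ : Finset ℕ) (r : ℕ → ℕ) (X D1 D2 a U1 U2 : ℕ),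
    QS N μ Q QQ → (∀ q ∈ QQ, ¬ q ∣ r q) → (X : ℝ) ≤ (N : ℝ) ^ (1 + μ / 100) → 1 ≤ D1 →
    (D1 : ℝ) ≤ (N : ℝ) ^ (μ / 100) → 1 ≤ D2 → (D2 : ℝ) ≤ (N : ℝ) ^ (μ / 100) → a.Coprime D2 →
    (N : ℝ) ^ (μ / 3) ≤ U1 → (U2 : ℝ) ≤ (N : ℝ) ^ (1 - μ / 3) →
    ∑ q ∈ QQ, |EQ (FD D1 D2 a (cfr c f U1 U2)) X q (r q)| ≤ (N : ℝ) ^ (1 - μ / 9) := by
  classical
  obtain ⟨C, hC, hty⟩ := BV.type2
  obtain ⟨N0, hN02, hN0⟩ := BVm_log (4 * C) 4 (μ / 72) (by positivity)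
  refine ⟨N0, fun N hN c f hc hf Q QQ r X D1 D2 a U1 U2 hQS hr hX hD1 hD1N hD2 hD2N _ hU1 hU2 => ?_⟩
  have hN2 : 2 ≤ N := hN02.trans hN
  have hNr : (1 : ℝ) ≤ N := by exact_mod_cast (by omega : 1 ≤ N)
  have hNpos : (0 : ℝ) < N := by linarith
  have hlogN : 0 ≤ Real.log N := Real.log_natCast_nonneg N
  set X' : ℕ := max X N with hX'
  have hXX' : X ≤ X' := le_max_left _ _
  have hNX' : N ≤ X' := le_max_right _ _
  have hX'r : (X' : ℝ) ≤ (N : ℝ) ^ (1 + μ / 100) := by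
    rw [hX', Nat.cast_max]
    refine max_le hX ?_
    calc (N : ℝ) = (N : ℝ) ^ (1 : ℝ) := (Real.rpow_one _).symm
      _ ≤ _ := rp N hNr _ _ (by linarith)
  have hX'pos : (0 : ℝ) < X' := by
    have : 0 < X' := by omega
    exact_mod_cast this
  have hlogX : Real.log X' ≤ 2 * Real.log N := by
    have h1 : (X' : ℝ) ≤ (N : ℝ) ^ (2 : ℝ) := hX'r.trans (rp N hNr _ _ (by linarith))
    have h2 := Real.log_le_log hX'pos h1
    rwa [Real.log_rpow hNpos] at h2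
  have hlogX0 : 0 ≤ Real.log X' := Real.log_natCast_nonneg X'
  have hQ1 : 1 ≤ Q := by
    have h1 : (1 : ℝ) ≤ Q := (Real.one_le_rpow hNr hμ.le).trans hQS.low
    exact_mod_cast h1
  have hU11 : 1 ≤ U1 := by
    have h1 : (1 : ℝ) ≤ U1 := (Real.one_le_rpow hNr (by positivity)).trans hU1
    exact_mod_cast h1
  have hU2X : U2 ≤ X' := by
    have h1 : (U2 : ℝ) ≤ N := hU2.trans (by
      calc (N : ℝ) ^ (1 - μ / 3) ≤ (N : ℝ) ^ (1 : ℝ) := rp N hNr _ _ (by linarith)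
        _ = N := Real.rpow_one _)
    have h2 : U2 ≤ N := by exact_mod_cast h1
    omega
  have hQX : 2 * Q ≤ X' := by
    have h1 : (2 * (Q : ℝ)) ≤ N := hQS.upp.trans (by
      calc (N : ℝ) ^ (1 / 2 - μ) ≤ (N : ℝ) ^ (1 : ℝ) := rp N hNr _ _ (by linarith)
        _ = N := Real.rpow_one _)
    have h2 : 2 * Q ≤ N := by exact_mod_cast h1
    omega
  have hf1 : ∀ n ∈ Finset.Icc 1 X', |f n| ≤ 1 + Real.log X' := by
    intro n hn
    rw [Finset.mem_Icc] at hn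
    rcases hf with h | h
    · rw [h]
      unfold on1
      rw [abs_one]
      linarith
    · rw [h]
      unfold lg
      rw [abs_of_nonneg (Real.log_natCast_nonneg n)]
      have : Real.log n ≤ Real.log X' := Real.log_le_log (by exact_mod_cast hn.1) (by exact_mod_cast hn.2)
      linarith
  have hα : ∀ t : ℕ × ℕ, ∀ M, U1 ≤ M → M ≤ X' → ∑ l ∈ Finset.Ioc M (2 * M), ‖BVm_al c D1 D2 t l‖ ^ 2 ≤
      (1 : ℝ) * M := by
    intro t M _ _
    have h1 : ∀ l ∈ Finset.Ioc M (2 * M), ‖BVm_al c D1 D2 t l‖ ^ 2 ≤ (1 : ℝ) := by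
      intro l _
      have h2 : ‖BVm_al c D1 D2 t l‖ ≤ 1 := by
        unfold BVm_al
        split_ifs
        · rw [Complex.norm_real, Real.norm_eq_abs]
          exact hc l
        · simp
      exact pow_le_one₀ (norm_nonneg _) h2
    refine (Finset.sum_le_card_nsmul _ _ _ h1).trans ?_
    rw [Nat.card_Ioc, nsmul_eq_mul, show 2 * M - M = M by omega]
    linarith
  have hβ : ∀ t : ℕ × ℕ, ∀ M, M ≤ X' → ∑ n ∈ Finset.Icc 1 M, ‖BVm_be f D1 D2 a t n‖ ^ 2 ≤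
      (1 + Real.log X') ^ 2 * M := by
    intro t M hM
    have h1 : ∀ n ∈ Finset.Icc 1 M, ‖BVm_be f D1 D2 a t n‖ ^ 2 ≤ (1 + Real.log X') ^ 2 := by
      intro n hn
      have h2 : ‖BVm_be f D1 D2 a t n‖ ≤ 1 + Real.log X' := by
        unfold BVm_be
        split_ifs
        · rw [Complex.norm_real, Real.norm_eq_abs]
          refine hf1 n ?_
          rw [Finset.mem_Icc] at hn ⊢
          omega
        · rw [norm_zero]
          linarith
      exact pow_le_pow_left₀ (norm_nonneg _) h2 2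
    refine (Finset.sum_le_card_nsmul _ _ _ h1).trans ?_
    rw [Nat.card_Icc, nsmul_eq_mul, show M + 1 - 1 = M by omega, mul_comm]
  have hmain : ∀ t ∈ D1.divisors ×ˢ Finset.range D2,
      BV.LA Q (2 * Q) (fun d ψ => ‖∑ l ∈ Finset.Ioc U1 U2, ∑ v ∈ Finset.Icc 1 (X / l),
        BVm_al c D1 D2 t l * BVm_be f D1 D2 a t v * ψ (l : ZMod d) * ψ (v : ZMod d)‖) ≤
      C * (1 + Real.log X') ^ 3 * √(1 * (1 + Real.log X') ^ 2) * √X' *
        (√X' / Q + √U2 + √((X' : ℝ) / U1) + (2 * Q : ℕ)) := by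
    intro t _
    have h1 := hty X' (2 * Q) Q U1 U2 1 ((1 + Real.log X') ^ 2) (BVm_al c D1 D2 t) (BVm_be f D1 D2 a t)
      (fun l => X / l + 1) hQ1 hU11 hU2X hQX (by norm_num) (by positivity) (hα t) (hβ t)
    refine le_trans (le_of_eq ?_) h1
    congr 1
    funext d ψ
    congr 1
    refine Finset.sum_congr rfl fun l hl => ?_
    refine Finset.sum_congr ?_ fun _ _ => rfl
    ext n
    rw [Finset.mem_filter, Finset.mem_Icc, Finset.mem_Icc]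
    have h2 : X / l ≤ X' / l := Nat.div_le_div_right hXX'
    omega
  have hstep : ∑ q ∈ QQ, |EQ (FD D1 D2 a (cfr c f U1 U2)) X q (r q)| ≤
      ∑ t ∈ D1.divisors ×ˢ Finset.range D2,
        C * (1 + Real.log X') ^ 3 * √(1 * (1 + Real.log X') ^ 2) * √X' *
        (√X' / Q + √U2 + √((X' : ℝ) / U1) + (2 * Q : ℕ)) := by
    refine (BVm_red _ X hQS r hr).trans ?_
    refine le_trans ?_ (Finset.sum_le_sum hmain)
    rw [← BV.LA_sum]
    refine BV.LA_mono fun d _ ψ _ => ?_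
    rw [decomp c f X D1 D2 a U1 U2 hD1 hD2 ψ]
    exact norm_sum_le _ _
  refine hstep.trans ?_
  rw [Finset.sum_const, nsmul_eq_mul, Finset.card_product, Finset.card_range, one_mul,
    Real.sqrt_sq (by positivity)]
  push_cast
  set W : ℝ := √(X' : ℝ) * (√(X' : ℝ) / Q + √(U2 : ℝ) + √((X' : ℝ) / U1) + 2 * Q) with hW
  have hW0 : 0 ≤ W := by positivity
  have hnum := fin_num μ hμ hμ1 N X' D1 D2 Q U1 U2 hNr hX'pos hX'r (by positivity) (by positivity) hD1N hD2N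
    hQS.low hQS.upp hU1 (by positivity) hU2
  have hcard : (D1.divisors.card : ℝ) ≤ D1 := by exact_mod_cast Nat.card_divisors_le_self D1
  calc (D1.divisors.card : ℝ) * (D2 : ℝ) * (C * (1 + Real.log X') ^ 3 * (1 + Real.log X') * √(X' : ℝ) *
        (√(X' : ℝ) / Q + √(U2 : ℝ) + √((X' : ℝ) / U1) + 2 * Q))
      = C * (1 + Real.log X') ^ 4 * ((D1.divisors.card : ℝ) * (D2 : ℝ) * W) := by rw [hW]; ring
    _ ≤ C * (1 + 2 * Real.log N) ^ 4 * ((D1 : ℝ) * D2 * W) := by gcongr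
    _ ≤ C * (1 + 2 * Real.log N) ^ 4 * (4 * (N : ℝ) ^ (1 - μ / 8)) := by gcongr
    _ = (4 * C * (1 + 2 * Real.log N) ^ 4) * (N : ℝ) ^ (1 - μ / 8) := by ring
    _ ≤ (N : ℝ) ^ (μ / 72) * (N : ℝ) ^ (1 - μ / 8) := by
        have := hN0 N hN
        gcongr
    _ = (N : ℝ) ^ (1 - μ / 9) := by
        rw [← Real.rpow_add hNpos]
        congr 1
        ring

end Pool.Agent.Lib.PX
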