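import Pool.Agent.Lib.MP_7b7e48_nt.PX.E1c
import Pool.Agent.Lib.MP_7b7e48_nt.PL.F3l
import Pool.Agent.Lib.MP_7b7e48_nt.PL.C9l
import Pool.Agent.Lib.MP_7b7e48_nt.PL.N1
import Pool.Agent.Lib.MP_7b7e48_nt.PL.FINl

/-!
# CLM: the theorem for every `N`, one multiple

PROOF. `E1c e`: `c'`, `J₁`, `B`. `SPV.spv`: `β`. `PL.F3l β (A + 2) B`: `k, S, E, J₂`. `J = J₁ + J₂`, `C = max (E + 1) 21`. Let `N` be large, `t = -(-1)^i`.
CASE 1: there is `χ` modulo `N`, `χ ≠ 1`, `χ² = 1`, with `LV N (Re χ) L`, `L < (log N)^(-B)`. `E1c` with `s = (-1)^i`: `x = 6 K N`, `k' = 6 K ≤ 6 (log N)^20 ≤ (log N)^C`; `p ∈ GX` gives `GoodL A J N i k' p` (`lam b = (-1)^i` iff `Ω(b) = i` modulo `2`; the prime factors of `b` are `> pw N c' ≥ (log N)^A`).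
CASE 2: no such `χ`. By `F3l` no `P` with `PSl k E N P` satisfies `HPl` for `t`. As in `PL/FINl.lean` (`FINl_core`, `FINl_pigeon`: copy them): the set `G` of the good primes in `QQl E N` has `≥ #QQl/k ≥ N (log N)^(E-1)/(4k)` elements (`PL.C9l`), each with a multiple `r ≤ 2 (log N)^E`, so one `r = k'` belongs to `≥ N/(20 k log N) ≥ N^(1-e)` of them, `k' ≤ 2 (log N)^E ≤ (log N)^C`,
and `p + b = k' N`, `p, b > N`, `p < k' N`.
-/

set_option autoImplicit false

open Finset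
open Pool.Agent.Lib.GT (Rough V)
open Pool.Agent.Lib.MP_45349e_nt.LS (lam)
open Pool.Agent.Lib.RG (RC LV rr SS PB sig)

namespace Pool.Agent.Lib.PX

open Pool.Agent.Lib.PQ (pw)

/-- the good primes for the modulus `M` -/
private theorem CLM_core {k S E J A M : ℕ} (hM : 2 ≤ M) (hA : A + 2 ≤ S) (hlog : 2 ≤ Real.log M) (i : ℕ)
    (hF : ∀ P : Finset ℕ, PL.PSl k E M P → ¬ PL.HPl M (PL.Bl E M) (PL.pl M S / 2) J P (-(-1) ^ i)) :
    ∃ G : Finset ℕ, G ⊆ PL.QQl E M ∧ ((PL.QQl E M).card : ℝ) / k ≤ G.card ∧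
      ∀ p ∈ G, ∃ b r : ℕ, M < b ∧ p + b = r * M ∧ 1 ≤ r ∧ (r : ℝ) ≤ 2 * Real.log M ^ E ∧
        ArithmeticFunction.cardFactors b ≤ J ∧ ArithmeticFunction.cardFactors b % 2 = i % 2 ∧
        ∀ q : ℕ, q.Prime → q ∣ b → Real.log M ^ A < q := by
  classical
  have hM0 : (0 : ℝ) < M := by exact_mod_cast (by omega : 0 < M)
  set G : Finset ℕ := (PL.QQl E M).filter fun p => ∃ b : ℕ, M < b ∧ b ≤ PL.Bl E M ∧ Rough (PL.pl M S / 2) b ∧
    ArithmeticFunction.cardFactors b ≤ J ∧ M ∣ p + b ∧ lam b ≠ -(-1) ^ i with hG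
  have hGs : G ⊆ PL.QQl E M := filter_subset _ _
  refine ⟨G, hGs, ?_, ?_⟩
  · by_contra hcon
    push Not at hcon
    refine hF (PL.QQl E M \ G) ⟨sdiff_subset, ?_⟩ ?_
    · rw [card_sdiff_of_subset hGs, Nat.cast_sub (card_le_card hGs)]
      have : (1 - 1 / (k : ℝ)) * (PL.QQl E M).card = (PL.QQl E M).card - (PL.QQl E M).card / k := by ring
      rw [this]
      linarith
    · intro p hp b hb1 hb2 hr hO hd
      by_contra hl
      rw [mem_sdiff] at hp
      exact hp.2 (mem_filter.mpr ⟨hp.1, b, hb1, hb2, hr, hO, hd, hl⟩)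
  · intro p hp
    rw [hG, mem_filter] at hp
    obtain ⟨hp1, b, hb1, hb2, hr, hO, hd, hl⟩ := hp
    unfold PL.QQl at hp1
    rw [mem_filter, mem_Ioc] at hp1
    obtain ⟨r, hr'⟩ := hd
    have hB : ((PL.Bl E M : ℕ) : ℝ) ≤ (M : ℝ) * Real.log M ^ E := Nat.floor_le (by positivity)
    have hr1 : 1 ≤ r := by
      rcases Nat.eq_zero_or_pos r with h0 | h0
      · rw [h0, mul_zero] at hr'; omega
      · exact h0
    refine ⟨b, r, hb1, by rw [hr', mul_comm], hr1, ?_, hO, ?_, ?_⟩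
    · have e1 : (r : ℝ) * M ≤ (2 * Real.log M ^ E) * M := by
        have : ((p + b : ℕ) : ℝ) = (M : ℝ) * r := by rw [hr']; push_cast; ring
        push_cast at this
        have h1 : (p : ℝ) ≤ PL.Bl E M := by exact_mod_cast hp1.1.2
        have h2 : (b : ℝ) ≤ PL.Bl E M := by exact_mod_cast hb2
        nlinarith
      exact le_of_mul_le_mul_right e1 hM0
    · have e1 : lam b = (-1) ^ (ArithmeticFunction.cardFactors b) := rfl
      rw [e1] at hl
      rcases Nat.even_or_odd (ArithmeticFunction.cardFactors b) with h1 | h1 <;>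
        rcases Nat.even_or_odd i with h2 | h2
      · rw [Nat.even_iff] at h1 h2; omega
      · rw [h1.neg_one_pow, h2.neg_one_pow] at hl
        norm_num at hl
      · rw [h1.neg_one_pow, h2.neg_one_pow] at hl
        norm_num at hl
      · rw [Nat.odd_iff] at h1 h2; omega
    · intro q hq1 hq2
      have h1 := hr q hq1 hq2
      have h2 : Real.log M ^ S < PL.pl M S + 1 := Nat.lt_floor_add_one _
      have h3 : PL.pl M S + 1 ≤ 2 * q := by omega
      have h4 : ((PL.pl M S : ℕ) : ℝ) + 1 ≤ 2 * q := by exact_mod_cast h3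
      have h5 : Real.log M ^ (A + 2) ≤ Real.log M ^ S := pow_le_pow_right₀ (by linarith) hA
      have h6 : Real.log M ^ (A + 2) = Real.log M ^ A * Real.log M ^ 2 := pow_add _ _ _
      have h7 : (4 : ℝ) ≤ Real.log M ^ 2 := by nlinarith
      have h8 : 0 < Real.log M ^ A := by positivity
      nlinarith

/-- one value of `r` has many good primes -/
private theorem CLM_pigeon {G : Finset ℕ} {R : ℕ} (f : ℕ → ℕ) (hf : ∀ p ∈ G, f p ∈ Finset.Icc 1 R)
    (hR : 1 ≤ R) :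
    ∃ r ∈ Finset.Icc 1 R, G.card ≤ R * (G.filter fun p => f p = r).card := by
  classical
  by_contra hcon
  push Not at hcon
  have hR : (Finset.Icc 1 R).Nonempty := ⟨1, mem_Icc.mpr ⟨le_rfl, hR⟩⟩
  have h1 : G.card = ∑ r ∈ Finset.Icc 1 R, (G.filter fun p => f p = r).card :=
    Finset.card_eq_sum_card_fiberwise hf
  have h2 : R * G.card = ∑ r ∈ Finset.Icc 1 R, R * (G.filter fun p => f p = r).card := by
    rw [← mul_sum, ← h1]
  have h3 : ∑ r ∈ Finset.Icc 1 R, R * (G.filter fun p => f p = r).card < ∑ _r ∈ Finset.Icc 1 R, G.card :=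
    sum_lt_sum_of_nonempty hR fun r hr => hcon r hr
  rw [sum_const, Nat.card_Icc, smul_eq_mul, Nat.add_sub_cancel, ← h2] at h3
  exact lt_irrefl _ h3

open Classical in
theorem CLM (A : ℕ) (e : ℝ) (he : 0 < e) : ∃ C J N0 : ℕ, ∀ N : ℕ, N0 ≤ N → ∀ i : ℕ, ∃ k' : ℕ, 1 ≤ k' ∧
    (k' : ℝ) ≤ Real.log N ^ C ∧
    (N : ℝ) ^ (1 - e) ≤ (((Finset.range (k' * N)).filter (PL.GoodL A J N i k')).card : ℝ) := by
  classical
  obtain ⟨c', J₁, B, n1, hc', h1⟩ := E1c e he
  obtain ⟨β, hβ, hβ1, hs⟩ := SPV.spv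
  obtain ⟨k, S, E, J₂, hk, hS, hE, n2, h2⟩ := PL.F3l β hβ hβ1 hs (A + 2) B
  obtain ⟨n3, h3⟩ := PL.C9l E (by omega) (1 / 2) (by norm_num)
  obtain ⟨n4, h4⟩ := PL.sz_log A 1 c' hc'
  obtain ⟨n5, h5⟩ := PL.sz_log 1 (8 * k) e he
  obtain ⟨n6, h6⟩ := PL.sz_log 1 1 1 one_pos
  obtain ⟨n7, h7⟩ := PL.sz_logpow 20 6
  obtain ⟨n8, h8⟩ := PL.sz_logpow E 2
  obtain ⟨n9, h9⟩ := PL.sz_logpow 0 4
  obtain ⟨C, hC⟩ : ∃ C : ℕ, C = E + 22 := ⟨_, rfl⟩
  refine ⟨C, J₁ + J₂, n1 + n2 + n3 + n4 + n5 + n6 + n7 + n8 + n9 + 3, fun N hN i => ?_⟩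
  haveI : NeZero N := ⟨by omega⟩
  have hN0 : (0 : ℝ) < N := by exact_mod_cast (by omega : 0 < N)
  have hkr : (160 : ℝ) ≤ k := by exact_mod_cast hk
  obtain ⟨l, hl⟩ : ∃ l : ℝ, l = Real.log N := ⟨_, rfl⟩
  have hl4 : 4 ≤ l := by
    have := h9 N (by omega)
    rw [hl]
    simpa using this
  have hl0 : 0 < l := by linarith
  have hl1 : 1 ≤ l := by linarith
  have hsg : ((-1 : ℝ) ^ i = 1 ∨ (-1 : ℝ) ^ i = -1) := by
    rcases Nat.even_or_odd i with h | h
    · left; rw [h.neg_one_pow]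
    · right; rw [h.neg_one_pow]
  by_cases hex : ∃ χ : DirichletCharacter ℂ N, χ ≠ 1 ∧ χ ^ 2 = 1 ∧ ∃ L : ℝ,
      LV N (fun n => (χ (n : ZMod N)).re) L ∧ L < (Real.log N ^ B)⁻¹
  · obtain ⟨χ, hχ1, hχ2, L, hL, hLB⟩ := hex
    obtain ⟨x, K, hX, hG⟩ := h1 N (by omega) χ hχ1 hχ2 L hL hLB ((-1) ^ i) hsg
    have hKm := hX.mem
    unfold PL.PPl at hKm
    rw [mem_filter, mem_Ioc] at hKm
    have hx := hX.eq
    have hK1 : 1 ≤ K := hKm.2.1.one_lt.le
    have hK20 : (K : ℝ) ≤ l ^ 20 := by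
      have a1 : (K : ℝ) ≤ PL.pl N 20 := by exact_mod_cast hKm.1.2
      have a2 : ((PL.pl N 20 : ℕ) : ℝ) ≤ Real.log N ^ 20 := Nat.floor_le (pow_nonneg (Real.log_natCast_nonneg N) _)
      rw [← hl] at a2
      linarith
    refine ⟨6 * K, by omega, ?_, ?_⟩
    · have a1 := h7 N (by omega)
      rw [← hl] at a1 ⊢
      push_cast
      calc (6 : ℝ) * K ≤ 6 * l ^ 20 := by linarith
        _ ≤ l ^ (20 + 1) := a1
        _ ≤ l ^ C := pow_le_pow_right₀ hl1 (by omega)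
    · refine hG.trans ?_
      refine Nat.cast_le.mpr (card_le_card ?_)
      intro p hp
      unfold GX at hp
      rw [mem_filter, mem_range] at hp
      obtain ⟨hp1, hp2, hp3, b, hb1, hb2, hb3, hb4, hb5⟩ := hp
      rw [mem_filter, mem_range]
      refine ⟨by rw [← hx]; exact hp1, hp2, hp3, b, hb1, by rw [← hx]; exact hb2, by omega, ?_, ?_⟩
      · have e1 : lam b = (-1) ^ (ArithmeticFunction.cardFactors b) := rfl
        rw [e1] at hb5
        rcases Nat.even_or_odd (ArithmeticFunction.cardFactors b) with g1 | g1 <;>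
          rcases Nat.even_or_odd i with g2 | g2
        · rw [Nat.even_iff] at g1 g2; omega
        · rw [g1.neg_one_pow, g2.neg_one_pow] at hb5
          norm_num at hb5
        · rw [g1.neg_one_pow, g2.neg_one_pow] at hb5
          norm_num at hb5
        · rw [Nat.odd_iff] at g1 g2; omega
      · intro q hq1 hq2
        have a1 := hb3 q hq1 hq2
        have a2 : (N : ℝ) ^ c' < pw N c' + 1 := Nat.lt_floor_add_one _
        have a3 : ((pw N c' : ℕ) : ℝ) + 1 ≤ q := by exact_mod_cast a1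
        have a4 := h4 N (by omega)
        linarith
  · have hneg : (-(-1 : ℝ) ^ i = 1 ∨ -(-1 : ℝ) ^ i = -1) := by
      rcases hsg with h | h
      · right; rw [h]
      · left; rw [h]; norm_num
    have hF : ∀ P : Finset ℕ, PL.PSl k E N P → ¬ PL.HPl N (PL.Bl E N) (PL.pl N S / 2) J₂ P (-(-1) ^ i) := by
      intro P hP hH
      exact hex (h2 N (by omega) P hP _ hneg hH)
    obtain ⟨G, hG1, hG2, hG3⟩ := CLM_core (A := A) (i := i) (M := N) (by omega) (by omega)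
      (by rw [← hl]; linarith) hF
    have e4 : (N : ℝ) * l ^ E / 2 ≤ PL.Bl E N := by
      have g4 : (N : ℝ) * Real.log N ^ E < PL.Bl E N + 1 := Nat.lt_floor_add_one _
      rw [← hl] at g4
      have g6 : (2 : ℝ) ≤ N := by exact_mod_cast (by omega : 2 ≤ N)
      have g7 : (1 : ℝ) ≤ l ^ E := one_le_pow₀ hl1
      nlinarith
    have e5 : (N : ℝ) * l ^ E / (4 * k * l) ≤ G.card := by
      refine le_trans ?_ hG2
      have g6 : (N : ℝ) * l ^ E / (4 * k * l) = (1 - 1 / 2) * ((N : ℝ) * l ^ E / 2 / l) / k := by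
        field_simp
        norm_num
      rw [g6]
      refine div_le_div_of_nonneg_right ?_ (by positivity)
      have g7 := h3 N (by omega)
      rw [← hl] at g7
      refine le_trans ?_ g7
      exact mul_le_mul_of_nonneg_left (div_le_div_of_nonneg_right e4 hl0.le) (by norm_num)
    choose! b r hb1 hbs hr1 hr2 hO1 hO2 hq using hG3
    rw [← hl] at hr2
    obtain ⟨W, hW⟩ : ∃ W : ℕ, W = ⌊2 * l ^ E⌋₊ := ⟨_, rfl⟩
    have hW1 : (W : ℝ) ≤ 2 * l ^ E := by rw [hW]; exact Nat.floor_le (by positivity)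
    have hW2 : 1 ≤ W := by
      rw [hW]
      refine Nat.le_floor ?_
      have : (1 : ℝ) ≤ l ^ E := one_le_pow₀ hl1
      push_cast
      linarith
    obtain ⟨K0, hK0, hcard⟩ := CLM_pigeon (R := W) r
      (fun p hp => mem_Icc.mpr ⟨hr1 p hp, by rw [hW]; exact Nat.le_floor (hr2 p hp)⟩) hW2
    rw [mem_Icc] at hK0
    refine ⟨K0, hK0.1, ?_, ?_⟩
    · have a1 := h8 N (by omega)
      rw [← hl] at a1 ⊢
      have a2 : (K0 : ℝ) ≤ W := by exact_mod_cast hK0.2
      calc (K0 : ℝ) ≤ 2 * l ^ E := a2.trans hW1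
        _ ≤ l ^ (E + 1) := a1
        _ ≤ l ^ C := pow_le_pow_right₀ hl1 (by omega)
    · have hsub : (G.filter fun p => r p = K0) ⊆ (Finset.range (K0 * N)).filter (PL.GoodL A (J₁ + J₂) N i K0) := by
        intro p hp
        rw [mem_filter] at hp
        obtain ⟨hp1, hp2⟩ := hp
        have g4 := hG1 hp1
        unfold PL.QQl at g4
        rw [mem_filter, mem_Ioc] at g4
        have g5 := hbs p hp1
        have g6 := hb1 p hp1
        rw [hp2] at g5
        rw [mem_filter, mem_range]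
        refine ⟨by omega, g4.2, g4.1.1, b p, g6, g5, (hO1 p hp1).trans (by omega), hO2 p hp1, hq p hp1⟩
      refine le_trans ?_ (Nat.cast_le.mpr (card_le_card hsub))
      have g4 : (G.card : ℝ) ≤ (2 * l ^ E) * ((G.filter fun p => r p = K0).card : ℝ) := by
        calc (G.card : ℝ) ≤ ((W * (G.filter fun p => r p = K0).card : ℕ) : ℝ) := by exact_mod_cast hcard
          _ = (W : ℝ) * ((G.filter fun p => r p = K0).card : ℝ) := by push_cast; rfl
          _ ≤ _ := mul_le_mul_of_nonneg_right hW1 (Nat.cast_nonneg _)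
      have g5 : (2 * l ^ E) * ((N : ℝ) / (8 * k * l)) ≤ (2 * l ^ E) * ((G.filter fun p => r p = K0).card : ℝ) := by
        refine le_trans (le_of_eq ?_) (e5.trans g4)
        field_simp
        norm_num
      have g6 := le_of_mul_le_mul_left g5 (by positivity)
      refine le_trans ?_ g6
      have g7 := h5 N (by omega)
      rw [pow_one, ← hl] at g7
      rw [le_div_iff₀ (by positivity)]
      calc (N : ℝ) ^ (1 - e) * (8 * k * l) ≤ (N : ℝ) ^ (1 - e) * (N : ℝ) ^ e :=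
            mul_le_mul_of_nonneg_left g7 (by positivity)
        _ = N := by rw [← Real.rpow_add hN0, sub_add_cancel, Real.rpow_one]

end Pool.Agent.Lib.PX
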