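import Pool.Agent.Lib.MP_7b7e48_nt.PX.XSL

/-!
# CN1: the bad events, no modulus

PROOF. `z = pw N c'`. Counting `n < x`: `K ∣ n`: `≤ x/K ≤ 5 x (log N)^(-20)`. `¬ n.Coprime N` for `n ∈ Sft`: a common prime `p` is `≥ 5`, `≠ K` (`K ∤ N`), `p ∣ n`, so `p > z`; `N` has at most `2/c' + 1` prime factors `> z`, each with `≤ x/p ≤ x/z` multiples. `p² ∣ n`, `p > z`: `≤ ∑_{p > z} x/p² ≤ x/z`. `n ≤ N` or `x - n ≤ N`:
`≤ 2 N + 2 ≤ 2 x (log N)^(-20) + 2`. `Rar c z n`: `≤ ∑_{z < q ≤ x, c q = 1} x/q ≤ x sig c z (N²) ≤ x (log N)^(-12)` (`x ≤ N²`); the same for `x - n` (the map `n ↦ x - n`). The sum is `≤ x (log N)^(-9)` for large `N`.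
-/

set_option autoImplicit false

open Finset
open Pool.Agent.Lib.GT (Rough V)
open Pool.Agent.Lib.MP_45349e_nt.LS (lam)
open Pool.Agent.Lib.RG (RC LV rr SS PB sig)

namespace Pool.Agent.Lib.PX

open Pool.Agent.Lib.PQ (pw)

private theorem CN1_mul (x d : ℕ) : (((Finset.Icc 1 (x - 1)).filter (fun n => d ∣ n)).card : ℝ) ≤
    (x : ℝ) / d := by
  have h1 : Finset.Icc 1 (x - 1) = Finset.Ioc 0 (x - 1) := by
    ext n
    simp only [Finset.mem_Icc, Finset.mem_Ioc]
    omega
  rw [h1, Nat.Ioc_filter_dvd_card_eq_div]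
  have h2 : (((x - 1) / d : ℕ) : ℝ) ≤ ((x - 1 : ℕ) : ℝ) / d := Nat.cast_div_le
  refine h2.trans ?_
  have h3 : ((x - 1 : ℕ) : ℝ) ≤ x := by exact_mod_cast Nat.sub_le x 1
  exact div_le_div_of_nonneg_right h3 (Nat.cast_nonneg d)

private theorem CN1_sq (z x : ℕ) (hz : 1 ≤ z) :
    ∑ i ∈ Finset.Ioc z x, ((i : ℝ) ^ 2)⁻¹ ≤ (z : ℝ)⁻¹ := by
  rcases le_total z x with h | h
  · have h1 := sum_Ioc_inv_sq_le_sub (α := ℝ) (k := z) (n := x) (by omega) h
    have h2 : (0 : ℝ) ≤ (x : ℝ)⁻¹ := by positivity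
    linarith
  · rw [Finset.Ioc_eq_empty_of_le h, Finset.sum_empty]
    positivity

private theorem CN1_pf (d : ℕ) (hd : d ≠ 0) : (d.primeFactors.card : ℝ) ≤ 2 * Real.log d := by
  have h1 : 2 ^ d.primeFactors.card ≤ ∏ p ∈ d.primeFactors, p := by
    rw [← Finset.prod_const]
    exact Finset.prod_le_prod' fun p hp => (Nat.prime_of_mem_primeFactors hp).two_le
  have h2 : 2 ^ d.primeFactors.card ≤ d :=
    h1.trans (Nat.le_of_dvd (Nat.pos_of_ne_zero hd) (Nat.prod_primeFactors_dvd d))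
  have h3 : (2 : ℝ) ^ d.primeFactors.card ≤ d := by exact_mod_cast h2
  have h4 := Real.log_le_log (by positivity) h3
  rw [Real.log_pow] at h4
  have h5 := Real.log_two_gt_d9
  have h6 : (0 : ℝ) ≤ (d.primeFactors.card : ℝ) := Nat.cast_nonneg _
  nlinarith

open Classical in
/-- the integers `< x` with a rare prime factor `> z` -/
private theorem CN1_rar (c : ℕ → ℝ) (z x T : ℕ) (hx : x ≤ T) :
    (((Finset.Icc 1 (x - 1)).filter (fun n => Rar c z n)).card : ℝ) ≤ x * sig c z T := by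
  have hsub : (Finset.Icc 1 (x - 1)).filter (fun n => Rar c z n) ⊆
      ((Finset.range (T + 1)).filter (fun q => q.Prime ∧ z < q ∧ c q = 1)).biUnion
        (fun q => (Finset.Icc 1 (x - 1)).filter (fun n => q ∣ n)) := by
    intro n hn
    obtain ⟨hn1, q, hq1, hq2, hq3, hq4⟩ := Finset.mem_filter.1 hn
    have hn2 := Finset.mem_Icc.1 hn1
    have hqn : q ≤ n := Nat.le_of_dvd (by omega) hq4
    refine Finset.mem_biUnion.2 ⟨q, Finset.mem_filter.2 ⟨Finset.mem_range.2 (by omega), hq1, hq2, hq3⟩, ?_⟩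
    exact Finset.mem_filter.2 ⟨hn1, hq4⟩
  have h1 : (((Finset.Icc 1 (x - 1)).filter (fun n => Rar c z n)).card : ℝ) ≤
      ∑ q ∈ (Finset.range (T + 1)).filter (fun q => q.Prime ∧ z < q ∧ c q = 1),
        (((Finset.Icc 1 (x - 1)).filter (fun n => q ∣ n)).card : ℝ) := by
    have := (Finset.card_le_card hsub).trans Finset.card_biUnion_le
    exact_mod_cast this
  refine h1.trans ?_
  unfold RG.sig
  rw [Finset.mul_sum]
  refine Finset.sum_le_sum fun q _ => ?_
  rw [mul_one_div]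
  exact CN1_mul x q

open Classical in
theorem CN1 (c' : ℝ) (hc : 0 < c') (hc1 : c' ≤ 1 / 100) : ∃ N0 : ℕ, ∀ N : ℕ, N0 ≤ N → ∀ c : ℕ → ℝ, RC N c →
    sig c (pw N c') (N ^ 2) ≤ (Real.log N ^ 12)⁻¹ → ∀ x K : ℕ, XS N x K →
    (((Sft x (pw N c') K).filter (fun n => Bdn N x (pw N c') K n ∨ Rar c (pw N c') n ∨
      Rar c (pw N c') (x - n))).card : ℝ) ≤ x / Real.log N ^ 9 := by
  obtain ⟨N1, hN1⟩ := XSsz
  obtain ⟨N2, hN2⟩ := PL.sz_log 13 4 c' hc
  obtain ⟨N3, hN3⟩ := PL.sz_pl 1 le_rfl 2 c' hc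
  refine ⟨max (max N1 N2) (max N3 1), fun N hN c hRC hsig x K hXS => ?_⟩
  obtain ⟨hKp, hKN, h6x, hKx, hNx, hKlo, hKhi, hxlo, hxhi, hxN, hxN2⟩ :=
    hN1 N (((le_max_left _ _).trans (le_max_left _ _)).trans hN) x K hXS
  have g2 := hN2 N (((le_max_right _ _).trans (le_max_left _ _)).trans hN)
  obtain ⟨g31, g32, -, -, -⟩ := hN3 N (((le_max_left _ _).trans (le_max_right _ _)).trans hN)
  have hNpos : 1 ≤ N := ((le_max_right _ _).trans (le_max_right _ _)).trans hN
  obtain ⟨l, hl⟩ : ∃ l : ℝ, l = Real.log N := ⟨_, rfl⟩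
  rw [pow_one] at g32
  rw [← hl] at g2 g32 hKlo hKhi hxlo hxhi hsig ⊢
  have hl2 : 2 ≤ l := by
    have : (2 : ℝ) ≤ (PL.pl N 1 : ℝ) := by exact_mod_cast g31
    linarith
  obtain ⟨z, hz⟩ : ∃ z : ℕ, z = pw N c' := ⟨_, rfl⟩
  rw [← hz] at hsig ⊢
  have hl13 : 1 ≤ l ^ 13 := one_le_pow₀ (by linarith)
  have hz1 : (N : ℝ) ^ c' < z + 1 := by
    rw [hz]
    exact Nat.lt_floor_add_one _
  have hz3 : 3 * l ^ 13 ≤ z := by linarith
  have hzpos : (0 : ℝ) < z := by linarith
  have hz1' : 1 ≤ z := by exact_mod_cast hzpos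
  have hx0 : (0 : ℝ) ≤ x := Nat.cast_nonneg x
  have hl0 : 0 < l := by linarith
  -- the seven sets
  have hsub : (Sft x z K).filter (fun n => Bdn N x z K n ∨ Rar c z n ∨ Rar c z (x - n)) ⊆
      (Finset.Icc 1 (x - 1)).filter (fun n => K ∣ n) ∪
      ((N.primeFactors.filter (fun p => z < p)).biUnion
        (fun p => (Finset.Icc 1 (x - 1)).filter (fun n => p ∣ n)) ∪
      ((Finset.Ioc z x).biUnion (fun p => (Finset.Icc 1 (x - 1)).filter (fun n => p ^ 2 ∣ n)) ∪
      (Finset.Icc 1 N ∪ (Finset.Ico (x - N) x ∪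
      ((Finset.Icc 1 (x - 1)).filter (fun n => Rar c z n) ∪
      ((Finset.Icc 1 (x - 1)).filter (fun n => Rar c z n)).image (fun m => x - m)))))) := by
    intro n hn
    obtain ⟨hnS, hcase⟩ := Finset.mem_filter.1 hn
    unfold Sft at hnS
    obtain ⟨hn1, hn6, hnp⟩ := Finset.mem_filter.1 hnS
    have hn2 := Finset.mem_Icc.1 hn1
    simp only [Finset.mem_union]
    rcases hcase with hB | hR | hR
    · rcases hB with h | h | h | h | h
      · exact Or.inl (Finset.mem_filter.2 ⟨hn1, h⟩)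
      · right; left
        obtain ⟨p, hp, hpn, hpN⟩ := Nat.Prime.not_coprime_iff_dvd.1 h
        have hp5 : 5 ≤ p := by
          have hp2 : p ≠ 2 := by
            rintro rfl
            have := Nat.Coprime.coprime_dvd_left hpn hn6
            norm_num at this
          have hp3 : p ≠ 3 := by
            rintro rfl
            have := Nat.Coprime.coprime_dvd_left hpn hn6
            norm_num at this
          have hp4 : p ≠ 4 := by
            rintro rfl
            norm_num at hp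
          have := hp.two_le
          omega
        have hpK : p ≠ K := by
          rintro rfl
          exact hKN hpN
        have hpz : z < p := by
          by_contra hcon
          exact hnp p hp hp5 (by omega) hpK (Dvd.dvd.mul_right hpn _)
        refine Finset.mem_biUnion.2 ⟨p, Finset.mem_filter.2 ⟨?_, hpz⟩, Finset.mem_filter.2 ⟨hn1, hpn⟩⟩
        exact Nat.mem_primeFactors.2 ⟨hp, hpN, by omega⟩
      · right; right; left
        obtain ⟨p, hp, hpz, hpn⟩ := h
        have h1 : p ^ 2 ≤ n := Nat.le_of_dvd (by omega) hpn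
        have h2 : p ≤ p ^ 2 := Nat.le_self_pow (by norm_num) p
        exact Finset.mem_biUnion.2 ⟨p, Finset.mem_Ioc.2 ⟨hpz, by omega⟩, Finset.mem_filter.2 ⟨hn1, hpn⟩⟩
      · right; right; right; left
        exact Finset.mem_Icc.2 ⟨hn2.1, h⟩
      · right; right; right; right; left
        exact Finset.mem_Ico.2 ⟨by omega, by omega⟩
    · right; right; right; right; right; left
      exact Finset.mem_filter.2 ⟨hn1, hR⟩
    · right; right; right; right; right; right
      refine Finset.mem_image.2 ⟨x - n, Finset.mem_filter.2 ⟨Finset.mem_Icc.2 ⟨by omega, by omega⟩, hR⟩, by omega⟩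
  have c1 : (((Finset.Icc 1 (x - 1)).filter (fun n => K ∣ n)).card : ℝ) ≤ x * (5 / l ^ 20) := by
    refine (CN1_mul x K).trans ?_
    have hKpos : (0 : ℝ) < K := by exact_mod_cast hKp.pos
    rw [div_le_iff₀ hKpos]
    have h1 : 1 ≤ 5 / l ^ 20 * K := by
      rw [div_mul_eq_mul_div, le_div_iff₀ (by positivity)]
      linarith
    calc (x : ℝ) = x * 1 := (mul_one _).symm
      _ ≤ x * (5 / l ^ 20 * K) := mul_le_mul_of_nonneg_left h1 hx0
      _ = x * (5 / l ^ 20) * K := by ring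
  have c2 : ((((N.primeFactors.filter (fun p => z < p)).biUnion
        (fun p => (Finset.Icc 1 (x - 1)).filter (fun n => p ∣ n))).card : ℕ) : ℝ) ≤ x * (2 * l / z) := by
    have h1 : ((((N.primeFactors.filter (fun p => z < p)).biUnion
        (fun p => (Finset.Icc 1 (x - 1)).filter (fun n => p ∣ n))).card : ℕ) : ℝ) ≤
        ∑ p ∈ N.primeFactors.filter (fun p => z < p),
          (((Finset.Icc 1 (x - 1)).filter (fun n => p ∣ n)).card : ℝ) := by
      exact_mod_cast Finset.card_biUnion_le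
    refine h1.trans ?_
    have h2 : ∀ p ∈ N.primeFactors.filter (fun p => z < p),
        (((Finset.Icc 1 (x - 1)).filter (fun n => p ∣ n)).card : ℝ) ≤ x / z := by
      intro p hp
      refine (CN1_mul x p).trans ?_
      have hzp : (z : ℝ) ≤ p := by
        exact_mod_cast (Finset.mem_filter.1 hp).2.le
      exact div_le_div_of_nonneg_left hx0 hzpos hzp
    refine (Finset.sum_le_card_nsmul _ _ _ h2).trans ?_
    rw [nsmul_eq_mul]
    have h3 : ((N.primeFactors.filter (fun p => z < p)).card : ℝ) ≤ 2 * l := by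
      rw [hl]
      refine le_trans ?_ (CN1_pf N (by omega))
      exact_mod_cast Finset.card_filter_le _ _
    calc ((N.primeFactors.filter (fun p => z < p)).card : ℝ) * ((x : ℝ) / z)
        ≤ 2 * l * ((x : ℝ) / z) := mul_le_mul_of_nonneg_right h3 (by positivity)
      _ = x * (2 * l / z) := by ring
  have c3 : ((((Finset.Ioc z x).biUnion (fun p => (Finset.Icc 1 (x - 1)).filter (fun n => p ^ 2 ∣ n))).card : ℕ) : ℝ)
      ≤ x * (1 / z) := by
    have h1 : ((((Finset.Ioc z x).biUnion (fun p => (Finset.Icc 1 (x - 1)).filter (fun n => p ^ 2 ∣ n))).card : ℕ) : ℝ) ≤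
        ∑ p ∈ Finset.Ioc z x, (((Finset.Icc 1 (x - 1)).filter (fun n => p ^ 2 ∣ n)).card : ℝ) := by
      exact_mod_cast Finset.card_biUnion_le
    refine h1.trans ?_
    calc ∑ p ∈ Finset.Ioc z x, (((Finset.Icc 1 (x - 1)).filter (fun n => p ^ 2 ∣ n)).card : ℝ)
        ≤ ∑ p ∈ Finset.Ioc z x, (x : ℝ) * ((p : ℝ) ^ 2)⁻¹ := by
          refine Finset.sum_le_sum fun p _ => ?_
          refine (CN1_mul x (p ^ 2)).trans (le_of_eq ?_)
          push_cast
          rw [div_eq_mul_inv]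
      _ = x * ∑ p ∈ Finset.Ioc z x, ((p : ℝ) ^ 2)⁻¹ := by rw [Finset.mul_sum]
      _ ≤ x * (1 / z) := by
          refine mul_le_mul_of_nonneg_left ?_ hx0
          rw [one_div]
          exact CN1_sq z x hz1'
  have hN20 : (N : ℝ) ≤ x * (1 / l ^ 20) := by
    rw [mul_one_div, le_div_iff₀ (by positivity)]
    exact hxlo
  have c4 : ((Finset.Icc 1 N).card : ℝ) ≤ x * (1 / l ^ 20) := by
    rw [Nat.card_Icc]
    simpa using hN20
  have c5 : ((Finset.Ico (x - N) x).card : ℝ) ≤ x * (1 / l ^ 20) := by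
    rw [Nat.card_Ico]
    have h1 : x - (x - N) = N := by omega
    rw [h1]
    exact hN20
  have c6 : (((Finset.Icc 1 (x - 1)).filter (fun n => Rar c z n)).card : ℝ) ≤ x * (1 / l ^ 12) := by
    refine (CN1_rar c z x (N ^ 2) hxN2).trans ?_
    refine mul_le_mul_of_nonneg_left ?_ hx0
    rw [one_div]
    exact hsig
  have c7 : ((((Finset.Icc 1 (x - 1)).filter (fun n => Rar c z n)).image (fun m => x - m)).card : ℝ) ≤
      x * (1 / l ^ 12) := by
    refine le_trans ?_ c6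
    exact_mod_cast Finset.card_image_le
  have htot := Finset.card_le_card hsub
  have hu : ∀ A B : Finset ℕ, ((A ∪ B).card : ℝ) ≤ A.card + B.card := by
    intro A B
    exact_mod_cast Finset.card_union_le A B
  have htot' : (((Sft x z K).filter (fun n => Bdn N x z K n ∨ Rar c z n ∨ Rar c z (x - n))).card : ℝ) ≤
      x * (5 / l ^ 20) + (x * (2 * l / z) + (x * (1 / z) + (x * (1 / l ^ 20) + (x * (1 / l ^ 20) +
        (x * (1 / l ^ 12) + x * (1 / l ^ 12)))))) := by
    refine (Nat.cast_le.2 htot).trans ?_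
    refine (hu _ _).trans (add_le_add c1 ?_)
    refine (hu _ _).trans (add_le_add c2 ?_)
    refine (hu _ _).trans (add_le_add c3 ?_)
    refine (hu _ _).trans (add_le_add c4 ?_)
    refine (hu _ _).trans (add_le_add c5 ?_)
    exact (hu _ _).trans (add_le_add c6 c7)
  refine htot'.trans ?_
  have hA : 1 / (z : ℝ) ≤ 1 / (3 * l ^ 13) := one_div_le_one_div_of_le (by positivity) hz3
  have hkey : 5 / l ^ 20 + (2 * l / z + (1 / z + (1 / l ^ 20 + (1 / l ^ 20 + (1 / l ^ 12 + 1 / l ^ 12))))) ≤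
      1 / l ^ 9 := by
    have e1 : 2 * l / (z : ℝ) ≤ 2 * l / (3 * l ^ 13) := by
      rw [div_eq_mul_one_div (2 * l) (z : ℝ), div_eq_mul_one_div (2 * l) (3 * l ^ 13)]
      exact mul_le_mul_of_nonneg_left hA (by linarith)
    have e2 : 2 * l / (3 * l ^ 13) ≤ 1 / l ^ 12 := by
      rw [div_le_div_iff₀ (by positivity) (by positivity)]
      have : 0 < l ^ 13 := by positivity
      nlinarith
    have e3 : 1 / (3 * l ^ 13) ≤ 1 / l ^ 12 := by
      apply one_div_le_one_div_of_le (by positivity)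
      have h12 : 0 < l ^ 12 := by positivity
      have : l ^ 13 = l ^ 12 * l := by ring
      nlinarith
    have h8 : (256 : ℝ) ≤ l ^ 8 := by
      calc (256 : ℝ) = 2 ^ 8 := by norm_num
        _ ≤ l ^ 8 := pow_le_pow_left₀ (by norm_num) hl2 8
    have h3 : (8 : ℝ) ≤ l ^ 3 := by
      calc (8 : ℝ) = 2 ^ 3 := by norm_num
        _ ≤ l ^ 3 := pow_le_pow_left₀ (by norm_num) hl2 3
    have e4 : 1 / l ^ 20 ≤ 1 / 256 * (1 / l ^ 12) := by
      rw [show (1 : ℝ) / 256 * (1 / l ^ 12) = 1 / (256 * l ^ 12) by rw [one_div_mul_one_div]]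
      apply one_div_le_one_div_of_le (by positivity)
      have h12 : 0 < l ^ 12 := by positivity
      have : l ^ 20 = l ^ 8 * l ^ 12 := by ring
      rw [this]
      exact mul_le_mul_of_nonneg_right h8 h12.le
    have e5 : 1 / l ^ 12 ≤ 1 / 8 * (1 / l ^ 9) := by
      rw [show (1 : ℝ) / 8 * (1 / l ^ 9) = 1 / (8 * l ^ 9) by rw [one_div_mul_one_div]]
      apply one_div_le_one_div_of_le (by positivity)
      have h9 : 0 < l ^ 9 := by positivity
      have : l ^ 12 = l ^ 3 * l ^ 9 := by ring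
      rw [this]
      exact mul_le_mul_of_nonneg_right h3 h9.le
    have h5 : 5 / l ^ 20 = 5 * (1 / l ^ 20) := by ring
    have h12 : 0 < 1 / l ^ 12 := by positivity
    rw [h5]
    linarith
  calc (x : ℝ) * (5 / l ^ 20) + (x * (2 * l / z) + (x * (1 / z) + (x * (1 / l ^ 20) + (x * (1 / l ^ 20) +
        (x * (1 / l ^ 12) + x * (1 / l ^ 12))))))
      = x * (5 / l ^ 20 + (2 * l / z + (1 / z + (1 / l ^ 20 + (1 / l ^ 20 + (1 / l ^ 12 + 1 / l ^ 12)))))) := by ring
    _ ≤ x * (1 / l ^ 9) := mul_le_mul_of_nonneg_left hkey hx0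
    _ = x / l ^ 9 := by ring

end Pool.Agent.Lib.PX
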