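import Pool.Agent.Lib.MP_7b7e48_nt.PX.Defs

/-!
# CNV: an auxiliary convolution

`D1 D2` squarefree. PROOF. `CNVa`: `∑_{e ∣ D1 D2, e ∣ u} kk D1 e = ∏_{p ∣ D1 D2, p ∣ u} (1 + k p)`, `k p = p - 1` for `p ∣ D1`, `k p = -1` for `p ∣ D2` (`p ∤ D1`): it is `0` if some `p ∣ D2` divides `u`, otherwise `∏_{p ∣ gcd(D1,u)} p = gcd(D1,u)`.
`CNVb`: insert `CNVa`, exchange, `u = e w`, `c (e w) = c e * c w`. `CNVc`: `∑_{e ∣ D1 D2} ∏_{p ∣ e} (k p c p/p) = ∏_{p ∣ D1} (1 + (p-1) c p/p) ∏_{p ∣ D2} (1 - c p/p)` (`c e = ∏_{p ∣ e} c p`), and `p * gg c p = 1 + (p-1) c p/p`, `p * h2 c p = 1 - c p/p`.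
`CNVd`: `|k p c p/p| ≤ 1`, the product over `p ∣ D1 D2` of `1 + 1`.
-/

set_option autoImplicit false

open Finset
open Pool.Agent.Lib.GT (Rough V)
open Pool.Agent.Lib.MP_45349e_nt.LS (lam)
open Pool.Agent.Lib.RG (RC LV rr SS PB sig)

namespace Pool.Agent.Lib.PX

open Pool.Agent.Lib.PQ (pw)

private theorem CNV_sum (f : ℕ → ℝ) {D : ℕ} (hD : Squarefree D) :
    ∑ e ∈ D.divisors, ∏ p ∈ e.primeFactors, f p = ∏ p ∈ D.primeFactors, (1 + f p) := by
  have h := (ArithmeticFunction.IsMultiplicative.prodPrimeFactors f).prodPrimeFactors_one_add_of_squarefree hD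
  have h1 : ∀ d ∈ D.divisors, ArithmeticFunction.prodPrimeFactors f d = ∏ p ∈ d.primeFactors, f p := by
    intro d hd
    exact ArithmeticFunction.prodPrimeFactors_apply (Nat.pos_of_mem_divisors hd).ne'
  rw [sum_congr rfl h1] at h
  rw [← h]
  refine prod_congr rfl fun p hp => ?_
  have hp' := Nat.prime_of_mem_primeFactors hp
  rw [ArithmeticFunction.prodPrimeFactors_apply hp'.ne_zero, hp'.primeFactors, prod_singleton]

private noncomputable def CNV_k (D1 p : ℕ) : ℝ := if p ∣ D1 then (p : ℝ) - 1 else -1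

private theorem CNV_kk (D1 e : ℕ) : kk D1 e = ∏ p ∈ e.primeFactors, CNV_k D1 p := rfl

private theorem CNV_c1 {N : ℕ} {c : ℕ → ℝ} (hc : RC N c) : c 1 = 1 := by
  have h1 := hc.mul 1 1
  rw [mul_one] at h1
  rcases hc.val 1 (Nat.coprime_one_left N) with h | h
  · exact h
  · rw [h] at h1
    norm_num at h1

private theorem CNV_cprod {N : ℕ} {c : ℕ → ℝ} (hc : RC N c) (s : Finset ℕ) :
    c (∏ p ∈ s, p) = ∏ p ∈ s, c p := by
  classical
  induction s using Finset.induction_on with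
  | empty => rw [prod_empty, prod_empty, CNV_c1 hc]
  | insert a s ha ih => rw [prod_insert ha, prod_insert ha, hc.mul, ih]

private theorem CNV_term {N : ℕ} {c : ℕ → ℝ} (hc : RC N c) (D1 : ℕ) {e : ℕ} (he : Squarefree e) :
    kk D1 e * c e / e = ∏ p ∈ e.primeFactors, (CNV_k D1 p * c p / p) := by
  have h0 : ∏ p ∈ e.primeFactors, p = e := Nat.prod_primeFactors_of_squarefree he
  have h1 : c e = ∏ p ∈ e.primeFactors, c p := by
    conv_lhs => rw [← h0]
    exact CNV_cprod hc _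
  have h2 : (e : ℝ) = ∏ p ∈ e.primeFactors, (p : ℝ) := by
    conv_lhs => rw [← h0]
    exact Nat.cast_prod _ _
  rw [CNV_kk, h1, h2, prod_div_distrib, prod_mul_distrib]

theorem CNVa (D1 D2 u : ℕ) (hs : Squarefree (D1 * D2)) (hu : 1 ≤ u) :
    ∑ e ∈ (D1 * D2).divisors.filter (fun e => e ∣ u), kk D1 e =
      if u.Coprime D2 then ((Nat.gcd D1 u : ℕ) : ℝ) else 0 := by
  have hD0 : D1 * D2 ≠ 0 := hs.ne_zero
  have hgs : Squarefree (Nat.gcd (D1 * D2) u) := hs.squarefree_of_dvd (Nat.gcd_dvd_left _ _)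
  have h1 : (D1 * D2).divisors.filter (fun e => e ∣ u) = (Nat.gcd (D1 * D2) u).divisors := by
    ext e
    rw [mem_filter, Nat.mem_divisors, Nat.mem_divisors, Nat.dvd_gcd_iff]
    constructor
    · rintro ⟨⟨h, _⟩, h2⟩
      exact ⟨⟨h, h2⟩, hgs.ne_zero⟩
    · rintro ⟨⟨h, h2⟩, _⟩
      exact ⟨⟨h, hD0⟩, h2⟩
  rw [h1]
  have h2 : ∑ e ∈ (Nat.gcd (D1 * D2) u).divisors, kk D1 e =
      ∏ p ∈ (Nat.gcd (D1 * D2) u).primeFactors, (1 + CNV_k D1 p) := CNV_sum (CNV_k D1) hgs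
  rw [h2]
  split_ifs with hco
  · have h3 : Nat.gcd (D1 * D2) u = Nat.gcd D1 u := Nat.Coprime.gcd_mul_right_cancel D1 hco.symm
    have h4 : ∀ p ∈ (Nat.gcd (D1 * D2) u).primeFactors, (1 + CNV_k D1 p) = (p : ℝ) := by
      intro p hp
      rw [h3] at hp
      have h5 : p ∣ D1 := (Nat.dvd_of_mem_primeFactors hp).trans (Nat.gcd_dvd_left _ _)
      unfold CNV_k
      rw [if_pos h5]
      ring
    rw [prod_congr rfl h4, ← Nat.cast_prod, Nat.prod_primeFactors_of_squarefree hgs, h3]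
  · obtain ⟨p, hp, hpu, hp2⟩ := Nat.Prime.not_coprime_iff_dvd.1 hco
    have h5 : ¬ p ∣ D1 := by
      intro h
      exact Nat.Prime.not_coprime_iff_dvd.2 ⟨p, hp, h, hp2⟩ (Nat.coprime_of_squarefree_mul hs)
    refine prod_eq_zero (i := p) ?_ ?_
    · rw [Nat.mem_primeFactors]
      exact ⟨hp, Nat.dvd_gcd (hp2.mul_left D1) hpu, hgs.ne_zero⟩
    · unfold CNV_k
      rw [if_neg h5]
      ring

private theorem CNV_mult (U : ℕ) {e : ℕ} (he : 1 ≤ e) (g : ℕ → ℝ) :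
    ∑ u ∈ (Finset.Icc 1 U).filter (fun u => e ∣ u), g u = ∑ w ∈ Finset.Icc 1 (U / e), g (e * w) := by
  symm
  refine sum_bij (fun w _ => e * w) ?_ ?_ ?_ ?_
  · intro w hw
    rw [mem_Icc] at hw
    rw [mem_filter, mem_Icc]
    refine ⟨⟨Nat.mul_pos he hw.1, ?_⟩, dvd_mul_right e w⟩
    rw [mul_comm]
    exact (Nat.le_div_iff_mul_le he).1 hw.2
  · intro a _ b _ h
    exact Nat.eq_of_mul_eq_mul_left he h
  · intro u hu
    rw [mem_filter, mem_Icc] at hu
    obtain ⟨w, rfl⟩ := hu.2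
    refine ⟨w, ?_, rfl⟩
    rw [mem_Icc]
    refine ⟨Nat.pos_of_ne_zero ?_, ?_⟩
    · rintro rfl
      have := hu.1.1
      omega
    · rw [Nat.le_div_iff_mul_le he, mul_comm]
      exact hu.1.2
  · intro w _
    rfl

theorem CNVb {N : ℕ} {c : ℕ → ℝ} (hc : RC N c) (D1 D2 U : ℕ) (hs : Squarefree (D1 * D2)) (F : ℕ → ℝ) :
    ∑ u ∈ (Finset.Icc 1 U).filter (fun u => u.Coprime D2), c u / u * ((Nat.gcd D1 u : ℕ) : ℝ) * F u =
      ∑ e ∈ (D1 * D2).divisors, kk D1 e * c e / e * ∑ w ∈ Finset.Icc 1 (U / e), c w / w * F (e * w) := by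
  have h1 : ∑ u ∈ (Finset.Icc 1 U).filter (fun u => u.Coprime D2), c u / u * ((Nat.gcd D1 u : ℕ) : ℝ) * F u =
      ∑ u ∈ Finset.Icc 1 U, ∑ e ∈ (D1 * D2).divisors, if e ∣ u then c u / u * kk D1 e * F u else 0 := by
    rw [sum_filter]
    refine sum_congr rfl fun u hu => ?_
    rw [mem_Icc] at hu
    have h2 := CNVa D1 D2 u hs hu.1
    rw [← sum_filter, ← sum_mul, ← mul_sum, h2]
    split_ifs with h
    · rfl
    · ring
  rw [h1, sum_comm]
  refine sum_congr rfl fun e he => ?_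
  have he1 : 1 ≤ e := Nat.pos_of_mem_divisors he
  rw [← sum_filter, CNV_mult U he1, mul_sum]
  refine sum_congr rfl fun w hw => ?_
  rw [mem_Icc] at hw
  have h3 : (e : ℝ) ≠ 0 := by
    have : e ≠ 0 := by omega
    exact_mod_cast this
  have h4 : (w : ℝ) ≠ 0 := by
    have : w ≠ 0 := by omega
    exact_mod_cast this
  rw [hc.mul]
  push_cast
  field_simp

theorem CNVc {N : ℕ} {c : ℕ → ℝ} (hc : RC N c) (D1 D2 : ℕ) (hs : Squarefree (D1 * D2)) :
    ∑ e ∈ (D1 * D2).divisors, kk D1 e * c e / e = (D1 * D2 : ℕ) * EV c D1 D2 := by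
  have hco := Nat.coprime_of_squarefree_mul hs
  have hs1 : Squarefree D1 := hs.squarefree_of_dvd (dvd_mul_right _ _)
  have hs2 : Squarefree D2 := hs.squarefree_of_dvd (dvd_mul_left _ _)
  have h1 : ∀ e ∈ (D1 * D2).divisors, kk D1 e * c e / e = ∏ p ∈ e.primeFactors, (CNV_k D1 p * c p / p) :=
    fun e he => CNV_term hc D1 (hs.squarefree_of_dvd (Nat.dvd_of_mem_divisors he))
  rw [sum_congr rfl h1, CNV_sum _ hs, hco.primeFactors_mul, prod_union hco.disjoint_primeFactors]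
  have hD : ((D1 * D2 : ℕ) : ℝ) = (∏ p ∈ D1.primeFactors, (p : ℝ)) * ∏ p ∈ D2.primeFactors, (p : ℝ) := by
    rw [← Nat.cast_prod, ← Nat.cast_prod, Nat.prod_primeFactors_of_squarefree hs1,
      Nat.prod_primeFactors_of_squarefree hs2, Nat.cast_mul]
  unfold EV
  rw [hD]
  have h3 : ∏ p ∈ D1.primeFactors, (1 + CNV_k D1 p * c p / p) =
      (∏ p ∈ D1.primeFactors, (p : ℝ)) * ∏ p ∈ D1.primeFactors, gg c p := by
    rw [← prod_mul_distrib]
    refine prod_congr rfl fun p hp => ?_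
    have hp0 : (p : ℝ) ≠ 0 := by exact_mod_cast (Nat.prime_of_mem_primeFactors hp).ne_zero
    unfold CNV_k gg
    rw [if_pos (Nat.dvd_of_mem_primeFactors hp)]
    field_simp
    ring
  have h4 : ∏ p ∈ D2.primeFactors, (1 + CNV_k D1 p * c p / p) =
      (∏ p ∈ D2.primeFactors, (p : ℝ)) * ∏ p ∈ D2.primeFactors, h2 c p := by
    rw [← prod_mul_distrib]
    refine prod_congr rfl fun p hp => ?_
    have hpp := Nat.prime_of_mem_primeFactors hp
    have hp0 : (p : ℝ) ≠ 0 := by exact_mod_cast hpp.ne_zero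
    have h5 : ¬ p ∣ D1 := by
      intro h
      exact Nat.Prime.not_coprime_iff_dvd.2 ⟨p, hpp, h, Nat.dvd_of_mem_primeFactors hp⟩ hco
    unfold CNV_k h2
    rw [if_neg h5]
    field_simp
    ring
  rw [h3, h4]
  ring

theorem CNVd {N : ℕ} {c : ℕ → ℝ} (hc : RC N c) (D1 D2 : ℕ) (hs : Squarefree (D1 * D2)) :
    ∑ e ∈ (D1 * D2).divisors, |kk D1 e * c e / e| ≤ 2 ^ (D1 * D2).primeFactors.card := by
  have h1 : ∀ e ∈ (D1 * D2).divisors, |kk D1 e * c e / e| =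
      ∏ p ∈ e.primeFactors, |CNV_k D1 p * c p / p| := by
    intro e he
    rw [CNV_term hc D1 (hs.squarefree_of_dvd (Nat.dvd_of_mem_divisors he)), abs_prod]
  rw [sum_congr rfl h1, CNV_sum _ hs]
  refine (prod_le_prod (fun p _ => by positivity) (g := fun _ => (2 : ℝ)) fun p hp => ?_).trans
    (le_of_eq (prod_const _))
  have hpp := Nat.prime_of_mem_primeFactors hp
  have hp1 : (1 : ℝ) ≤ p := by exact_mod_cast hpp.one_lt.le
  have hc1 : |c p| ≤ 1 := by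
    by_cases h : p.Coprime N
    · rcases hc.val p h with h2 | h2
      · rw [h2, abs_one]
      · rw [h2, abs_neg, abs_one]
    · rw [hc.zero p h, abs_zero]
      exact zero_le_one
  have hk : |CNV_k D1 p| ≤ p := by
    unfold CNV_k
    split_ifs
    · rw [abs_of_nonneg (by linarith)]
      linarith
    · rw [abs_neg, abs_one]
      exact hp1
  have h3 : |CNV_k D1 p * c p / p| ≤ 1 := by
    rw [abs_div, abs_mul, Nat.abs_cast, div_le_one (by linarith)]
    calc |CNV_k D1 p| * |c p| ≤ p * 1 := mul_le_mul hk hc1 (abs_nonneg _) (by linarith)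
      _ = p := mul_one _
  linarith

end Pool.Agent.Lib.PX
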