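import Pool.Agent.Lib.MP_7b7e48_nt.PX.XSL
import Pool.Agent.Lib.MP_7b7e48_nt.PL.N1

/-!
# CNq: the bad events with a modulus, trivial part

PROOF. `z = pw N c'`, `q ∈ QQ`, `q ∤ x` (`q ∤ N`, `q > N^μ > 6 K`). For `m` coprime to `q` (all `m` below are: `m ∣ n` or `m ∣ (x-n)/q`..; if `q ∣ m ∣ n` then `q ∣ x`), the number of `n < x`, `n = x` modulo `q`, `m ∣ n` is `≤ x/(q m) + 1`. `K ∣ n`: `≤ x/(qK) + 1`. `¬ n.Coprime N`: a common prime `p > z` (see `CN1`), at most `2/c' + 1` of them,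
each `≤ x/(q z) + 1`. `p² ∣ n`, `z < p ≤ √x`: `≤ x/(q z) + √x`. `n ≤ N`, `x - n ≤ N`: `≤ 2 (N/q + 1)`. A rare `q₁ ∣ n` with `q q₁ ≤ x`: `≤ ∑_{q₁} (x/(q q₁) + 1) ≤ 2 (x/q) sig`. A rare `q₂ > z` dividing `(x - n)/q`: `(x-n)/q ≤ x/q` is a multiple of `q₂`: `≤ ∑ x/(q q₂) ≤ (x/q) sig`. Sum over `q ∈ QQ`: the terms with `1/q` give
`≤ (x/(log N)^9) ∑ 1/q`, the others `≤ #QQ (√x + 2/c' + 5) ≤ N^(1/2-μ) * N^(1/2+μ/4) ≤ N^(1-μ/2)`.
-/

set_option autoImplicit false

open Finset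
open Pool.Agent.Lib.GT (Rough V)
open Pool.Agent.Lib.MP_45349e_nt.LS (lam)
open Pool.Agent.Lib.RG (RC LV rr SS PB sig)

namespace Pool.Agent.Lib.PX

open Pool.Agent.Lib.PQ (pw)

private theorem cq_tend : Filter.Tendsto (fun N : ℕ => Real.log N) Filter.atTop Filter.atTop :=
  Real.tendsto_log_atTop.comp tendsto_natCast_atTop_atTop

/-- a set of congruent integers -/
private theorem cq_class {X M : ℕ} (S : Finset ℕ) (h1 : ∀ n ∈ S, n ≤ X)
    (h2 : ∀ n ∈ S, ∀ m ∈ S, n ≡ m [MOD M]) : (S.card : ℝ) ≤ X / M + 1 := by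
  have h3 : S.card ≤ (Finset.range (X / M + 1)).card := by
    refine Finset.card_le_card_of_injOn (fun n => n / M) ?_ ?_
    · intro n hn
      have := Nat.div_le_div_right (c := M) (h1 n hn)
      simp only [Finset.coe_range, Set.mem_Iio]
      omega
    · intro n hn m hm h
      simp only at h
      have h4 := h2 n hn m hm
      unfold Nat.ModEq at h4
      rw [← Nat.div_add_mod n M, ← Nat.div_add_mod m M, h, h4]
  rw [Finset.card_range] at h3
  have h4 : ((X / M : ℕ) : ℝ) ≤ X / M := Nat.cast_div_le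
  have h5 : (S.card : ℝ) ≤ ((X / M + 1 : ℕ) : ℝ) := by exact_mod_cast h3
  push_cast at h5
  linarith

/-- a set of integers `n < x` with `M ∣ x - n ≤ X` -/
private theorem cq_mult {x X M : ℕ} (hM : 1 ≤ M) (S : Finset ℕ) (h1 : ∀ n ∈ S, n < x ∧ x - n ≤ X ∧ M ∣ x - n) :
    (S.card : ℝ) ≤ X / M := by
  have h3 : S.card ≤ (Finset.Icc 1 (X / M)).card := by
    refine Finset.card_le_card_of_injOn (fun n => (x - n) / M) ?_ ?_
    · intro n hn
      obtain ⟨a1, a2, a3⟩ := h1 n hn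
      rw [Finset.coe_Icc]
      refine ⟨?_, Nat.div_le_div_right a2⟩
      exact Nat.div_pos (Nat.le_of_dvd (by omega) a3) hM
    · intro n hn m hm h
      simp only at h
      obtain ⟨a1, a2, a3⟩ := h1 n hn
      obtain ⟨b1, b2, b3⟩ := h1 m hm
      have h4 : x - n = x - m := by
        rw [← Nat.div_mul_cancel a3, ← Nat.div_mul_cancel b3, h]
      omega
  rw [Nat.card_Icc, Nat.add_sub_cancel] at h3
  have h4 : ((X / M : ℕ) : ℝ) ≤ X / M := Nat.cast_div_le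
  have h5 : (S.card : ℝ) ≤ ((X / M : ℕ) : ℝ) := by exact_mod_cast h3
  linarith

private theorem cq_cls {x q m : ℕ} (hco : q.Coprime m) :
    ((((Finset.Icc 1 (x - 1)).filter (fun n => n ≡ x [MOD q])).filter (fun n => m ∣ n)).card : ℝ) ≤
      x / q * (1 / m) + 1 := by
  have h := cq_class (X := x) (M := q * m) (((Finset.Icc 1 (x - 1)).filter (fun n => n ≡ x [MOD q])).filter
    (fun n => m ∣ n)) (fun n hn => by
      rw [Finset.mem_filter, Finset.mem_filter, Finset.mem_Icc] at hn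
      omega) (fun n hn k hk => by
      rw [Finset.mem_filter, Finset.mem_filter, Finset.mem_Icc] at hn hk
      rw [← Nat.modEq_and_modEq_iff_modEq_mul hco]
      refine ⟨hn.1.2.trans hk.1.2.symm, ?_⟩
      exact ((Nat.modEq_zero_iff_dvd.2 hn.2).trans (Nat.modEq_zero_iff_dvd.2 hk.2).symm))
  refine h.trans (le_of_eq ?_)
  push_cast
  rw [div_mul_eq_mul_div, mul_one_div, div_div, mul_comm (m : ℝ)]

private theorem cq_pf (d : ℕ) (hd : d ≠ 0) : (d.primeFactors.card : ℝ) ≤ 2 * Real.log d := by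
  have h1 : 2 ^ d.primeFactors.card ≤ d := by
    calc 2 ^ d.primeFactors.card = ∏ _p ∈ d.primeFactors, 2 := by rw [Finset.prod_const]
      _ ≤ ∏ p ∈ d.primeFactors, p := Finset.prod_le_prod' fun p hp => (Nat.prime_of_mem_primeFactors hp).two_le
      _ ≤ d := Nat.le_of_dvd (by omega) (Nat.prod_primeFactors_dvd d)
  have h2 : ((2 : ℝ)) ^ d.primeFactors.card ≤ d := by exact_mod_cast h1
  have h3 := Real.log_le_log (by positivity) h2
  rw [Real.log_pow] at h3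
  have h4 : (1 : ℝ) / 2 ≤ Real.log 2 := by
    have := Real.log_two_gt_d9
    linarith
  have h5 : (0 : ℝ) ≤ d.primeFactors.card := Nat.cast_nonneg _
  nlinarith

private theorem cq_sq (z s : ℕ) (hz : 1 ≤ z) : ∑ m ∈ Finset.Ioc z s, 1 / (m : ℝ) ^ 2 ≤ 1 / (z : ℝ) := by
  by_cases h : z ≤ s
  · have h1 := sum_Ioc_inv_sq_le_sub (α := ℝ) (show z ≠ 0 by omega) h
    have h2 : (0 : ℝ) ≤ (s : ℝ)⁻¹ := by positivity
    simp only [one_div]
    linarith
  · rw [Finset.Ioc_eq_empty (by omega), Finset.sum_empty]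
    positivity

open Classical in
/-- the count for one modulus -/
private theorem cq_one {N x z K q : ℕ} {c : ℕ → ℝ} (hN : 1 ≤ N) (hz : 1 ≤ z) (hK : K.Prime) (hKN : ¬ K ∣ N)
    (hxN : x ≤ N ^ 2) (hNx : N ≤ x) (hq : q.Prime) (hqx : ¬ q ∣ x) (hqN : ¬ q ∣ N) (hKq : q.Coprime K) :
    ((((Sft x z K).filter (fun n => n ≡ x [MOD q] ∧ (Bdn N x z K n ∨
      (∃ q₁ : ℕ, q₁.Prime ∧ z < q₁ ∧ c q₁ = 1 ∧ q₁ ∣ n ∧ q * q₁ ≤ x) ∨
      Rar c z ((x - n) / q)))).card : ℝ)) ≤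
      x / q * (1 / K + (2 * Real.log N + 1) * (1 / z) + 2 * (N / x) + 3 * sig c z (N ^ 2)) +
        (Real.sqrt x + 2 * Real.log N + 2) := by
  have hq0 : 0 < q := hq.pos
  have hx0 : 0 < x := by omega
  have hlN : 0 ≤ Real.log N := Real.log_natCast_nonneg N
  obtain ⟨S0, hS0⟩ : ∃ S0 : Finset ℕ, S0 = (Finset.Icc 1 (x - 1)).filter (fun n => n ≡ x [MOD q]) := ⟨_, rfl⟩
  have hmem : ∀ n, n ∈ S0 ↔ (1 ≤ n ∧ n ≤ x - 1) ∧ n ≡ x [MOD q] := by
    intro n
    rw [hS0, Finset.mem_filter, Finset.mem_Icc]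
  have hqn : ∀ n ∈ S0, ¬ q ∣ n := by
    intro n hn h
    exact hqx (((hmem n).1 hn).2.dvd_iff (dvd_refl q) |>.1 h)
  have hqd : ∀ n ∈ S0, q ∣ x - n := by
    intro n hn
    have h1 := (hmem n).1 hn
    exact (Nat.modEq_iff_dvd' (by omega)).1 h1.2
  -- pieces
  obtain ⟨A1, hA1⟩ : ∃ A1 : Finset ℕ, A1 = S0.filter (fun n => K ∣ n) := ⟨_, rfl⟩
  obtain ⟨A2, hA2⟩ : ∃ A2 : Finset ℕ, A2 = (N.primeFactors.filter (fun p => z < p)).biUnion
    (fun p => S0.filter (fun n => p ∣ n)) := ⟨_, rfl⟩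
  obtain ⟨A3, hA3⟩ : ∃ A3 : Finset ℕ, A3 = ((Finset.Ioc z (Nat.sqrt x)).filter (fun p => p.Prime ∧ p ≠ q)).biUnion
    (fun p => S0.filter (fun n => p ^ 2 ∣ n)) := ⟨_, rfl⟩
  obtain ⟨A4, hA4⟩ : ∃ A4 : Finset ℕ, A4 = S0.filter (fun n => n ≤ N) := ⟨_, rfl⟩
  obtain ⟨A5, hA5⟩ : ∃ A5 : Finset ℕ, A5 = S0.filter (fun n => x - n ≤ N) := ⟨_, rfl⟩
  obtain ⟨T, hT⟩ : ∃ T : Finset ℕ, T = (Finset.range (N ^ 2 + 1)).filter
    (fun q => q.Prime ∧ z < q ∧ c q = 1) := ⟨_, rfl⟩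
  obtain ⟨A6, hA6⟩ : ∃ A6 : Finset ℕ, A6 = (T.filter (fun p => p ≠ q ∧ q * p ≤ x)).biUnion
    (fun p => S0.filter (fun n => p ∣ n)) := ⟨_, rfl⟩
  obtain ⟨A7, hA7⟩ : ∃ A7 : Finset ℕ, A7 = T.biUnion
    (fun p => S0.filter (fun n => p ∣ (x - n) / q)) := ⟨_, rfl⟩
  have hsig : sig c z (N ^ 2) = ∑ p ∈ T, 1 / (p : ℝ) := by
    rw [hT]
    rfl
  have hsub : ((Sft x z K).filter (fun n => n ≡ x [MOD q] ∧ (Bdn N x z K n ∨
      (∃ q₁ : ℕ, q₁.Prime ∧ z < q₁ ∧ c q₁ = 1 ∧ q₁ ∣ n ∧ q * q₁ ≤ x) ∨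
      Rar c z ((x - n) / q)))) ⊆ A1 ∪ (A2 ∪ (A3 ∪ (A4 ∪ (A5 ∪ (A6 ∪ A7))))) := by
    intro n hn
    rw [Finset.mem_filter] at hn
    obtain ⟨hn1, hn2, hn3⟩ := hn
    unfold Sft at hn1
    rw [Finset.mem_filter, Finset.mem_Icc] at hn1
    obtain ⟨hn1, hn6, hnP⟩ := hn1
    have hnS : n ∈ S0 := (hmem n).2 ⟨hn1, hn2⟩
    simp only [Finset.mem_union]
    rcases hn3 with h | h | h
    · unfold Bdn at h
      rcases h with h | h | h | h | h
      · left
        rw [hA1, Finset.mem_filter]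
        exact ⟨hnS, h⟩
      · right; left
        rw [Nat.Prime.not_coprime_iff_dvd] at h
        obtain ⟨p, hp, hpn, hpN⟩ := h
        rw [hA2, Finset.mem_biUnion]
        refine ⟨p, ?_, ?_⟩
        · rw [Finset.mem_filter, Nat.mem_primeFactors]
          refine ⟨⟨hp, hpN, by omega⟩, ?_⟩
          by_contra hpz
          have hp5 : 5 ≤ p := by
            by_contra h5
            have hp2 := hp.two_le
            have h6 : p ∣ 6 := by
              have h7 : p = 2 ∨ p = 3 ∨ p = 4 := by omega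
              rcases h7 with h7 | h7 | h7
              · rw [h7]; norm_num
              · rw [h7]; norm_num
              · rw [h7] at hp
                exact absurd hp (by norm_num)
            have h8 := Nat.dvd_gcd hpn h6
            rw [hn6] at h8
            have := Nat.le_of_dvd one_pos h8
            omega
          refine hnP p hp hp5 (by omega) ?_ (Dvd.dvd.mul_right hpn _)
          rintro rfl
          exact hKN hpN
        · rw [Finset.mem_filter]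
          exact ⟨hnS, hpn⟩
      · right; right; left
        obtain ⟨p, hp, hpz, hpn⟩ := h
        rw [hA3, Finset.mem_biUnion]
        refine ⟨p, ?_, ?_⟩
        · rw [Finset.mem_filter, Finset.mem_Ioc]
          refine ⟨⟨hpz, ?_⟩, hp, ?_⟩
          · rw [Nat.le_sqrt']
            have := Nat.le_of_dvd (by omega) hpn
            omega
          · rintro rfl
            exact hqn n hnS ((dvd_pow_self p two_ne_zero).trans hpn)
        · rw [Finset.mem_filter]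
          exact ⟨hnS, hpn⟩
      · right; right; right; left
        rw [hA4, Finset.mem_filter]
        exact ⟨hnS, h⟩
      · right; right; right; right; left
        rw [hA5, Finset.mem_filter]
        exact ⟨hnS, h⟩
    · right; right; right; right; right; left
      obtain ⟨p, hp, hpz, hpc, hpn, hpx⟩ := h
      rw [hA6, Finset.mem_biUnion]
      refine ⟨p, ?_, ?_⟩
      · rw [Finset.mem_filter, hT, Finset.mem_filter, Finset.mem_range]
        refine ⟨⟨?_, hp, hpz, hpc⟩, ?_, hpx⟩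
        · have := Nat.le_of_dvd (by omega) hpn
          omega
        · rintro rfl
          exact hqn n hnS hpn
      · rw [Finset.mem_filter]
        exact ⟨hnS, hpn⟩
    · right; right; right; right; right; right
      obtain ⟨p, hp, hpz, hpc, hpn⟩ := h
      rw [hA7, Finset.mem_biUnion]
      refine ⟨p, ?_, ?_⟩
      · rw [hT, Finset.mem_filter, Finset.mem_range]
        refine ⟨?_, hp, hpz, hpc⟩
        have h1 : 0 < (x - n) / q := Nat.div_pos (Nat.le_of_dvd (by omega) (hqd n hnS)) hq0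
        have h2 := Nat.le_of_dvd h1 hpn
        have h3 := Nat.div_le_self (x - n) q
        omega
      · rw [Finset.mem_filter]
        exact ⟨hnS, hpn⟩
  have hxq : (0 : ℝ) ≤ (x : ℝ) / q := by positivity
  -- bounds
  have b1 : (A1.card : ℝ) ≤ x / q * (1 / K) + 1 := by
    rw [hA1, hS0]
    exact cq_cls hKq
  have b2 : (A2.card : ℝ) ≤ 2 * Real.log N * (x / q * (1 / z) + 1) := by
    have h1 : (A2.card : ℝ) ≤ ∑ p ∈ N.primeFactors.filter (fun p => z < p), ((S0.filter (fun n => p ∣ n)).card : ℝ) := by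
      rw [hA2]
      exact_mod_cast Finset.card_biUnion_le
    refine h1.trans ?_
    have h2 : ∀ p ∈ N.primeFactors.filter (fun p => z < p), ((S0.filter (fun n => p ∣ n)).card : ℝ) ≤
        x / q * (1 / z) + 1 := by
      intro p hp
      rw [Finset.mem_filter, Nat.mem_primeFactors] at hp
      have h3 : q.Coprime p := (Nat.coprime_primes hq hp.1.1).2 (by
        rintro rfl
        exact hqN hp.1.2.1)
      rw [hS0]
      refine (cq_cls h3).trans ?_
      have h4 : (1 : ℝ) / p ≤ 1 / z := by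
        have h5 : (z : ℝ) ≤ p := by exact_mod_cast hp.2.le
        have h6 : (0 : ℝ) < z := by exact_mod_cast hz
        exact one_div_le_one_div_of_le h6 h5
      have := mul_le_mul_of_nonneg_left h4 hxq
      linarith
    refine (Finset.sum_le_card_nsmul _ _ _ h2).trans ?_
    rw [nsmul_eq_mul]
    refine mul_le_mul_of_nonneg_right ?_ (by positivity)
    refine le_trans ?_ (cq_pf N (by omega))
    exact_mod_cast Finset.card_filter_le _ _
  have b3 : (A3.card : ℝ) ≤ x / q * (1 / z) + Real.sqrt x := by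
    have h1 : (A3.card : ℝ) ≤ ∑ p ∈ (Finset.Ioc z (Nat.sqrt x)).filter (fun p => p.Prime ∧ p ≠ q),
        ((S0.filter (fun n => p ^ 2 ∣ n)).card : ℝ) := by
      rw [hA3]
      exact_mod_cast Finset.card_biUnion_le
    refine h1.trans ?_
    have h2 : ∀ p ∈ (Finset.Ioc z (Nat.sqrt x)).filter (fun p => p.Prime ∧ p ≠ q),
        ((S0.filter (fun n => p ^ 2 ∣ n)).card : ℝ) ≤ x / q * (1 / (p : ℝ) ^ 2) + 1 := by
      intro p hp
      rw [Finset.mem_filter, Finset.mem_Ioc] at hp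
      have h3 : q.Coprime (p ^ 2) := Nat.Coprime.pow_right 2 ((Nat.coprime_primes hq hp.2.1).2 (Ne.symm hp.2.2))
      rw [hS0]
      refine (cq_cls h3).trans (le_of_eq ?_)
      push_cast
      ring
    refine (Finset.sum_le_sum h2).trans ?_
    refine (Finset.sum_le_sum_of_subset_of_nonneg (Finset.filter_subset _ _) (fun p _ _ => by positivity)).trans ?_
    rw [Finset.sum_add_distrib, ← Finset.mul_sum, Finset.sum_const, Nat.card_Ioc, nsmul_eq_mul, mul_one]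
    have h4 := mul_le_mul_of_nonneg_left (cq_sq z (Nat.sqrt x) hz) hxq
    have h5 : ((Nat.sqrt x - z : ℕ) : ℝ) ≤ Real.sqrt x := by
      refine le_trans ?_ (Real.nat_sqrt_le_real_sqrt)
      exact_mod_cast Nat.sub_le _ _
    linarith
  have b4 : (A4.card : ℝ) ≤ N / q + 1 := by
    rw [hA4]
    refine cq_class _ (fun n hn => (Finset.mem_filter.1 hn).2) (fun n hn m hm => ?_)
    rw [Finset.mem_filter, hmem] at hn hm
    exact hn.1.2.trans hm.1.2.symm
  have b5 : (A5.card : ℝ) ≤ N / q := by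
    rw [hA5]
    refine cq_mult hq0 _ (x := x) (fun n hn => ?_)
    rw [Finset.mem_filter] at hn
    have h1 := (hmem n).1 hn.1
    exact ⟨by omega, hn.2, hqd n hn.1⟩
  have b6 : (A6.card : ℝ) ≤ x / q * (2 * sig c z (N ^ 2)) := by
    have h1 : (A6.card : ℝ) ≤ ∑ p ∈ T.filter (fun p => p ≠ q ∧ q * p ≤ x),
        ((S0.filter (fun n => p ∣ n)).card : ℝ) := by
      rw [hA6]
      exact_mod_cast Finset.card_biUnion_le
    refine h1.trans ?_
    have h2 : ∀ p ∈ T.filter (fun p => p ≠ q ∧ q * p ≤ x),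
        ((S0.filter (fun n => p ∣ n)).card : ℝ) ≤ x / q * 2 * (1 / (p : ℝ)) := by
      intro p hp
      rw [Finset.mem_filter, hT, Finset.mem_filter] at hp
      have h3 : q.Coprime p := (Nat.coprime_primes hq hp.1.2.1).2 (Ne.symm hp.2.1)
      rw [hS0]
      refine (cq_cls h3).trans ?_
      have h4 : (1 : ℝ) ≤ x / q * (1 / p) := by
        have hp0 : (0 : ℝ) < p := by exact_mod_cast hp.1.2.1.pos
        have hq0' : (0 : ℝ) < q := by exact_mod_cast hq0
        rw [div_mul_eq_mul_div, mul_one_div, div_div, le_div_iff₀ (by positivity), one_mul]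
        have : ((q * p : ℕ) : ℝ) ≤ x := by exact_mod_cast hp.2.2
        push_cast at this
        linarith
      linarith
    refine (Finset.sum_le_sum h2).trans ?_
    refine (Finset.sum_le_sum_of_subset_of_nonneg (Finset.filter_subset _ _) (fun p _ _ => by positivity)).trans ?_
    rw [← Finset.mul_sum, ← hsig, mul_assoc]
  have b7 : (A7.card : ℝ) ≤ x / q * sig c z (N ^ 2) := by
    have h1 : (A7.card : ℝ) ≤ ∑ p ∈ T, ((S0.filter (fun n => p ∣ (x - n) / q)).card : ℝ) := by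
      rw [hA7]
      exact_mod_cast Finset.card_biUnion_le
    refine h1.trans ?_
    have h2 : ∀ p ∈ T, ((S0.filter (fun n => p ∣ (x - n) / q)).card : ℝ) ≤ x / q * (1 / (p : ℝ)) := by
      intro p hp
      rw [hT, Finset.mem_filter] at hp
      have hp0 := hp.2.1.pos
      have h3 := cq_mult (x := x) (X := x) (M := q * p) (Nat.mul_pos hq0 hp0)
        (S0.filter (fun n => p ∣ (x - n) / q)) (fun n hn => by
          rw [Finset.mem_filter] at hn
          have h4 := (hmem n).1 hn.1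
          refine ⟨by omega, Nat.sub_le _ _, ?_⟩
          obtain ⟨m, hm⟩ := hn.2
          obtain ⟨k, hk⟩ := hqd n hn.1
          rw [hk, Nat.mul_div_cancel_left _ hq0] at hm
          rw [hk, hm]
          exact ⟨m, by ring⟩)
      refine h3.trans (le_of_eq ?_)
      push_cast
      rw [div_mul_eq_mul_div, mul_one_div, div_div, mul_comm (p : ℝ)]
    refine (Finset.sum_le_sum h2).trans ?_
    rw [← Finset.mul_sum, ← hsig]
  have hcard : ((((Sft x z K).filter (fun n => n ≡ x [MOD q] ∧ (Bdn N x z K n ∨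
      (∃ q₁ : ℕ, q₁.Prime ∧ z < q₁ ∧ c q₁ = 1 ∧ q₁ ∣ n ∧ q * q₁ ≤ x) ∨
      Rar c z ((x - n) / q)))).card : ℝ)) ≤
      A1.card + (A2.card + (A3.card + (A4.card + (A5.card + (A6.card + A7.card))))) := by
    have h1 := Finset.card_le_card hsub
    have h2 : (A1 ∪ (A2 ∪ (A3 ∪ (A4 ∪ (A5 ∪ (A6 ∪ A7)))))).card ≤
        A1.card + (A2.card + (A3.card + (A4.card + (A5.card + (A6.card + A7.card))))) := by
      refine (Finset.card_union_le _ _).trans (Nat.add_le_add_left ?_ _)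
      refine (Finset.card_union_le _ _).trans (Nat.add_le_add_left ?_ _)
      refine (Finset.card_union_le _ _).trans (Nat.add_le_add_left ?_ _)
      refine (Finset.card_union_le _ _).trans (Nat.add_le_add_left ?_ _)
      refine (Finset.card_union_le _ _).trans (Nat.add_le_add_left ?_ _)
      exact Finset.card_union_le _ _
    exact_mod_cast h1.trans h2
  refine hcard.trans ?_
  have e1 : (N : ℝ) / q = x / q * (N / x) := by
    have hx0' : (x : ℝ) ≠ 0 := by positivity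
    field_simp
  rw [e1] at b4 b5
  have e2 : x / q * (1 / (K : ℝ) + (2 * Real.log N + 1) * (1 / z) + 2 * (N / x) + 3 * sig c z (N ^ 2)) +
        (Real.sqrt x + 2 * Real.log N + 2) = (x / q * (1 / K) + 1) + (2 * Real.log N * (x / q * (1 / z) + 1) +
        ((x / q * (1 / z) + Real.sqrt x) + ((x / q * (N / x) + 1) + (x / q * (N / x) +
        (x / q * (2 * sig c z (N ^ 2)) + x / q * sig c z (N ^ 2)))))) := by
    ring
  rw [e2]
  linarith

open Classical in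
theorem CNq (μ c' : ℝ) (hμ : 0 < μ) (hμ1 : μ ≤ 1 / 10) (hc : 0 < c') (hc1 : c' ≤ 1 / 100) : ∃ N0 : ℕ, ∀ N : ℕ, N0 ≤ N →
    ∀ c : ℕ → ℝ, RC N c → sig c (pw N c') (N ^ 2) ≤ (Real.log N ^ 12)⁻¹ → ∀ x K : ℕ, XS N x K →
    ∀ (Q : ℕ) (QQ : Finset ℕ), QS N μ Q QQ →
    ∑ q ∈ QQ, (((Sft x (pw N c') K).filter (fun n => n ≡ x [MOD q] ∧ (Bdn N x (pw N c') K n ∨
      (∃ q₁ : ℕ, q₁.Prime ∧ pw N c' < q₁ ∧ c q₁ = 1 ∧ q₁ ∣ n ∧ q * q₁ ≤ x) ∨
      Rar c (pw N c') ((x - n) / q)))).card : ℝ) ≤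
      x / Real.log N ^ 9 * (∑ q ∈ QQ, 1 / (q : ℝ)) + (N : ℝ) ^ (1 - μ / 2) := by
  obtain ⟨N1, h1⟩ := XSsz
  obtain ⟨N2, h2⟩ := XSpw (μ / 2) (by positivity)
  obtain ⟨N3, h3⟩ := XSpw μ hμ
  obtain ⟨N4, h4⟩ := PL.sz_log 13 12 c' hc
  obtain ⟨N5, h5⟩ := PL.sz_log 1 4 (1 / 2) (by norm_num)
  obtain ⟨N6, h6⟩ := PL.sz_log 0 6 μ hμ
  obtain ⟨N8, h8⟩ := Filter.eventually_atTop.1 (cq_tend.eventually_ge_atTop (4 : ℝ))
  refine ⟨N1 + N2 + N3 + N4 + N5 + N6 + N8 + 2, fun N hN c hcR hsig x K hx Q QQ hQ => ?_⟩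
  replace h1 := h1 N (by omega) x K hx
  replace h2 := h2 N (by omega) x K hx
  replace h3 := h3 N (by omega) x K hx
  replace h4 := h4 N (by omega)
  replace h5 := h5 N (by omega)
  replace h6 := h6 N (by omega)
  replace h8 := h8 N (by omega)
  obtain ⟨hKp, hKN, h6x, hKx, hNx, hKlow, -, hxlow, -, hNlex, hxN⟩ := h1
  have hN1 : (1 : ℝ) ≤ N := by
    have : 1 ≤ N := by omega
    exact_mod_cast this
  have hN0 : (0 : ℝ) < N := by linarith
  obtain ⟨ℓ, hℓ⟩ : ∃ ℓ : ℝ, ℓ = Real.log N := ⟨_, rfl⟩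
  rw [← hℓ] at h4 h5 h8 hKlow hxlow hsig ⊢
  rw [pow_zero, mul_one] at h6
  rw [pow_one] at h5
  have hℓ0 : 0 < ℓ := by linarith
  obtain ⟨z, hz⟩ : ∃ z : ℕ, z = pw N c' := ⟨_, rfl⟩
  rw [← hz] at hsig ⊢
  have hzf : (N : ℝ) ^ c' < (z : ℝ) + 1 := by
    rw [hz]
    exact Nat.lt_floor_add_one _
  have hp13 : (1 : ℝ) ≤ ℓ ^ 13 := one_le_pow₀ (by linarith)
  have hzlow : 6 * ℓ ^ 13 ≤ z := by linarith
  have hz1 : 1 ≤ z := by
    have : (1 : ℝ) ≤ z := by linarith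
    exact_mod_cast this
  have hz0 : (0 : ℝ) < z := by exact_mod_cast hz1
  -- one modulus
  have hE : 1 / (K : ℝ) + (2 * ℓ + 1) * (1 / z) + 2 * (N / x) + 3 * sig c z (N ^ 2) ≤ 1 / ℓ ^ 9 := by
    have hx0 : (0 : ℝ) < x := by
      have : 0 < x := by omega
      exact_mod_cast this
    have k1 : 1 / (K : ℝ) ≤ 5 / ℓ ^ 12 := by
      have hK0 : (0 : ℝ) < K := by exact_mod_cast hKp.pos
      rw [div_le_div_iff₀ hK0 (by positivity)]
      have : ℓ ^ 12 ≤ ℓ ^ 20 := pow_le_pow_right₀ (by linarith) (by norm_num)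
      linarith
    have k2 : (2 * ℓ + 1) * (1 / (z : ℝ)) ≤ 1 / ℓ ^ 12 := by
      rw [mul_one_div, div_le_div_iff₀ hz0 (by positivity), one_mul]
      calc (2 * ℓ + 1) * ℓ ^ 12 ≤ (3 * ℓ) * ℓ ^ 12 := mul_le_mul_of_nonneg_right (by linarith) (by positivity)
        _ = 3 * ℓ ^ 13 := by ring
        _ ≤ z := by linarith
    have k3 : (N : ℝ) / x ≤ 1 / ℓ ^ 12 := by
      rw [div_le_div_iff₀ hx0 (by positivity), one_mul]
      refine le_trans ?_ hxlow
      exact mul_le_mul_of_nonneg_left (pow_le_pow_right₀ (by linarith) (by norm_num)) hN0.le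
    have k4 : (ℓ ^ 12)⁻¹ = 1 / ℓ ^ 12 := by rw [one_div]
    rw [k4] at hsig
    have k5 : (11 : ℝ) / ℓ ^ 12 ≤ 1 / ℓ ^ 9 := by
      rw [div_le_div_iff₀ (by positivity) (by positivity)]
      have : (4 : ℝ) ^ 3 ≤ ℓ ^ 3 := pow_le_pow_left₀ (by norm_num) h8 3
      calc (11 : ℝ) * ℓ ^ 9 ≤ ℓ ^ 3 * ℓ ^ 9 := mul_le_mul_of_nonneg_right (by linarith) (by positivity)
        _ = 1 * ℓ ^ 12 := by ring
    have k6 : (11 : ℝ) / ℓ ^ 12 = 5 / ℓ ^ 12 + 1 / ℓ ^ 12 + 2 * (1 / ℓ ^ 12) + 3 * (1 / ℓ ^ 12) := by ring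
    linarith
  have hone : ∀ q ∈ QQ, ((((Sft x z K).filter (fun n => n ≡ x [MOD q] ∧ (Bdn N x z K n ∨
      (∃ q₁ : ℕ, q₁.Prime ∧ z < q₁ ∧ c q₁ = 1 ∧ q₁ ∣ n ∧ q * q₁ ≤ x) ∨
      Rar c z ((x - n) / q)))).card : ℝ)) ≤ x / ℓ ^ 9 * (1 / (q : ℝ)) + 2 * (N : ℝ) ^ (1 / 2 + μ / 4) := by
    intro q hq
    obtain ⟨hqp, hqQ, -, hqN⟩ := hQ.mem q hq
    have hqr : (N : ℝ) ^ μ < q := by
      have : (Q : ℝ) < q := by exact_mod_cast hqQ
      linarith [hQ.low]
    have hKq' : K < q := by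
      have : (K : ℝ) < q := h3.2.trans hqr
      exact_mod_cast this
    have h6q : 6 < q := by
      have : (6 : ℝ) < q := lt_of_le_of_lt h6 hqr
      exact_mod_cast this
    have hqK : q.Coprime K := (Nat.coprime_primes hqp hKp).2 (by omega)
    have hqx : ¬ q ∣ x := by
      rw [hx.eq]
      intro h
      rcases (Nat.Prime.dvd_mul hqp).1 h with h | h
      · rcases (Nat.Prime.dvd_mul hqp).1 h with h | h
        · have := Nat.le_of_dvd (by norm_num) h
          omega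
        · have := Nat.le_of_dvd hKp.pos h
          omega
      · exact hqN h
    have hb := cq_one (c := c) (z := z) (by omega : 1 ≤ N) hz1 hKp hKN hxN hNlex hqp hqx hqN hqK
    rw [← hℓ] at hb
    refine hb.trans ?_
    have hxq : (0 : ℝ) ≤ (x : ℝ) / q := by positivity
    have e1 := mul_le_mul_of_nonneg_left hE hxq
    have e2 : (x : ℝ) / q * (1 / ℓ ^ 9) = x / ℓ ^ 9 * (1 / (q : ℝ)) := by ring
    have e3 : Real.sqrt x ≤ (N : ℝ) ^ (1 / 2 + μ / 4) := by
      rw [Real.sqrt_eq_rpow]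
      calc (x : ℝ) ^ ((1 : ℝ) / 2) ≤ ((N : ℝ) ^ (1 + μ / 2)) ^ ((1 : ℝ) / 2) :=
            Real.rpow_le_rpow (Nat.cast_nonneg x) h2.1 (by norm_num)
        _ = (N : ℝ) ^ (1 / 2 + μ / 4) := by
            rw [← Real.rpow_mul hN0.le]
            congr 1
            ring
    have e4 : 2 * ℓ + 2 ≤ (N : ℝ) ^ (1 / 2 + μ / 4) := by
      have : (N : ℝ) ^ ((1 : ℝ) / 2) ≤ (N : ℝ) ^ (1 / 2 + μ / 4) :=
        Real.rpow_le_rpow_of_exponent_le hN1 (by linarith)
      linarith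
    linarith
  refine (Finset.sum_le_sum hone).trans ?_
  rw [Finset.sum_add_distrib, ← Finset.mul_sum, Finset.sum_const, nsmul_eq_mul]
  have hcQ : (QQ.card : ℝ) ≤ Q := by
    have h1 : QQ ⊆ Finset.Ioc Q (2 * Q) := by
      intro q hq
      obtain ⟨-, h1, h2, -⟩ := hQ.mem q hq
      rw [Finset.mem_Ioc]
      exact ⟨h1, h2⟩
    have h2 := Finset.card_le_card h1
    rw [Nat.card_Ioc] at h2
    have h3 : QQ.card ≤ Q := by omega
    exact_mod_cast h3
  have hlast : (QQ.card : ℝ) * (2 * (N : ℝ) ^ (1 / 2 + μ / 4)) ≤ (N : ℝ) ^ (1 - μ / 2) := by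
    calc (QQ.card : ℝ) * (2 * (N : ℝ) ^ (1 / 2 + μ / 4)) ≤ Q * (2 * (N : ℝ) ^ (1 / 2 + μ / 4)) :=
          mul_le_mul_of_nonneg_right hcQ (by positivity)
      _ = (2 * (Q : ℝ)) * (N : ℝ) ^ (1 / 2 + μ / 4) := by ring
      _ ≤ (N : ℝ) ^ (1 / 2 - μ) * (N : ℝ) ^ (1 / 2 + μ / 4) :=
          mul_le_mul_of_nonneg_right hQ.upp (by positivity)
      _ = (N : ℝ) ^ (1 / 2 - μ + (1 / 2 + μ / 4)) := (Real.rpow_add hN0 _ _).symm
      _ ≤ (N : ℝ) ^ (1 - μ / 2) := Real.rpow_le_rpow_of_exponent_le hN1 (by linarith)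
  linarith

end Pool.Agent.Lib.PX
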