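import Pool.Agent.Lib.MP_7b7e48_nt.PX.A2B

/-!
# CNr: the bad events with a modulus, large rare prime factor of `n`

PROOF. Let `n` be counted, `q₁` prime, `c q₁ = 1`, `q₁ ∣ n`, `x < q q₁`. Then `q₁ > x/q ≥ x/(2Q) ≥ N^(1/2+μ) > Y = pw N (1/2 + μ/2)`, so `a2 c Y n ≥ rr c q₁ = 1 + c q₁ = 2 ≥ 1` (all terms are `≥ 0`, `RG.rr_nonneg`). So the count is at most the left side of `A2B`, and `8 L log N ≤ (log N)^(-9)`.
-/

set_option autoImplicit false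

open Finset
open Pool.Agent.Lib.GT (Rough V)
open Pool.Agent.Lib.MP_45349e_nt.LS (lam)
open Pool.Agent.Lib.RG (RC LV rr SS PB sig)

namespace Pool.Agent.Lib.PX

open Pool.Agent.Lib.PQ (pw)

private theorem CNr_one (N : ℕ) (c : ℕ → ℝ) (hc : RC N c) : c 1 = 1 := by
  have h1 : c 1 = c 1 * c 1 := by
    have := hc.mul 1 1
    simpa using this
  rcases hc.val 1 (Nat.coprime_one_left N) with h | h
  · exact h
  · rw [h] at h1
    norm_num at h1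

private theorem CNr_a2_nonneg (N : ℕ) (c : ℕ → ℝ) (hc : RC N c) (Y n : ℕ) : 0 ≤ a2 c Y n := by
  classical
  unfold a2
  exact Finset.sum_nonneg fun k _ => RG.rr_nonneg N c hc k

private theorem CNr_a2_ge (N : ℕ) (c : ℕ → ℝ) (hc : RC N c) (Y n q₁ : ℕ) (hn : n ≠ 0) (hq : q₁.Prime)
    (hcq : c q₁ = 1) (hqn : q₁ ∣ n) (hY : Y < q₁) : 1 ≤ a2 c Y n := by
  classical
  unfold a2
  have hmem : q₁ ∈ n.divisors.filter (fun k => Y < k) :=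
    Finset.mem_filter.2 ⟨Nat.mem_divisors.2 ⟨hqn, hn⟩, hY⟩
  have h1 : rr c q₁ ≤ ∑ k ∈ n.divisors.filter (fun k => Y < k), rr c k :=
    Finset.single_le_sum (f := fun k => rr c k) (fun k _ => RG.rr_nonneg N c hc k) hmem
  refine le_trans ?_ h1
  unfold RG.rr
  rw [Nat.Prime.sum_divisors hq, hcq, CNr_one N c hc]
  norm_num

open Classical in
theorem CNr (μ : ℝ) (hμ : 0 < μ) (hμ1 : μ ≤ 1 / 10) : ∃ N0 : ℕ, ∀ N : ℕ, N0 ≤ N →
    ∀ (c : ℕ → ℝ) (L : ℝ), RC N c → LV N c L → (N : ℝ) ^ (-(μ / 100)) ≤ L → L ≤ (Real.log N ^ 30)⁻¹ →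
    ∀ x K : ℕ, XS N x K → ∀ (Q : ℕ) (QQ : Finset ℕ), QS N μ Q QQ →
    ∑ q ∈ QQ, (((Finset.Icc 1 (x - 1)).filter (fun n => n ≡ x [MOD q] ∧
      ∃ q₁ : ℕ, q₁.Prime ∧ c q₁ = 1 ∧ q₁ ∣ n ∧ x < q * q₁)).card : ℝ) ≤
      x / Real.log N ^ 9 * (∑ q ∈ QQ, 1 / (q : ℝ)) + (N : ℝ) ^ (1 - μ / 60) := by
  obtain ⟨N1, hN1⟩ := XSsz
  obtain ⟨N2, hN2⟩ := A2B μ hμ hμ1
  obtain ⟨N3, hN3⟩ := PL.sz_pl 1 le_rfl 2 1 one_pos
  refine ⟨max (max N1 N2) (max N3 1), fun N hN c L hRC hLV hLlo hLhi x K hXS Q QQ hQS => ?_⟩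
  obtain ⟨-, -, -, -, -, -, -, -, -, hxN, -⟩ :=
    hN1 N (((le_max_left _ _).trans (le_max_left _ _)).trans hN) x K hXS
  have g2 := hN2 N (((le_max_right _ _).trans (le_max_left _ _)).trans hN) c L hRC hLV hLlo x K hXS Q QQ hQS
  obtain ⟨g31, g32, -, -, -⟩ := hN3 N (((le_max_left _ _).trans (le_max_right _ _)).trans hN)
  have hNpos : 1 ≤ N := ((le_max_right _ _).trans (le_max_right _ _)).trans hN
  have hN1' : (1 : ℝ) ≤ N := by exact_mod_cast hNpos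
  have hN0 : (0 : ℝ) < N := by linarith
  rw [pow_one] at g32
  obtain ⟨l, hl⟩ : ∃ l : ℝ, l = Real.log N := ⟨_, rfl⟩
  rw [← hl] at g2 g32 hLhi ⊢
  have hl2 : 2 ≤ l := by
    have : (2 : ℝ) ≤ (PL.pl N 1 : ℝ) := by exact_mod_cast g31
    linarith
  have hl0 : 0 < l := by linarith
  have hx0 : (0 : ℝ) ≤ x := Nat.cast_nonneg x
  have hS0 : 0 ≤ ∑ q ∈ QQ, 1 / (q : ℝ) := Finset.sum_nonneg fun q _ => by positivity
  have step1 : ∑ q ∈ QQ, (((Finset.Icc 1 (x - 1)).filter (fun n => n ≡ x [MOD q] ∧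
      ∃ q₁ : ℕ, q₁.Prime ∧ c q₁ = 1 ∧ q₁ ∣ n ∧ x < q * q₁)).card : ℝ) ≤
      ∑ q ∈ QQ, ∑ n ∈ (Finset.Icc 1 (x - 1)).filter (fun n => n ≡ x [MOD q]),
        a2 c (pw N (1 / 2 + μ / 2)) n := by
    refine Finset.sum_le_sum fun q hq => ?_
    obtain ⟨hqp, hqQ, hq2Q, -⟩ := hQS.mem q hq
    have hsub : (Finset.Icc 1 (x - 1)).filter (fun n => n ≡ x [MOD q] ∧
        ∃ q₁ : ℕ, q₁.Prime ∧ c q₁ = 1 ∧ q₁ ∣ n ∧ x < q * q₁) ⊆
        (Finset.Icc 1 (x - 1)).filter (fun n => n ≡ x [MOD q]) := by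
      intro n hn
      obtain ⟨h1, h2, -⟩ := Finset.mem_filter.1 hn
      exact Finset.mem_filter.2 ⟨h1, h2⟩
    refine le_trans ?_ (Finset.sum_le_sum_of_subset_of_nonneg hsub fun n _ _ => CNr_a2_nonneg N c hRC _ n)
    have hone : ∀ n ∈ (Finset.Icc 1 (x - 1)).filter (fun n => n ≡ x [MOD q] ∧
        ∃ q₁ : ℕ, q₁.Prime ∧ c q₁ = 1 ∧ q₁ ∣ n ∧ x < q * q₁), (1 : ℝ) ≤ a2 c (pw N (1 / 2 + μ / 2)) n := by
      intro n hn
      obtain ⟨h1, -, q₁, hq1, hcq, hqn, hxq⟩ := Finset.mem_filter.1 hn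
      have hn1 := (Finset.mem_Icc.1 h1).1
      refine CNr_a2_ge N c hRC _ n q₁ (by omega) hq1 hcq hqn ?_
      -- `N < N ^ (1/2 - μ) * q₁`
      have e1 : (q : ℝ) ≤ (N : ℝ) ^ (1 / 2 - μ) := by
        have : (q : ℝ) ≤ 2 * (Q : ℝ) := by exact_mod_cast hq2Q
        exact this.trans hQS.upp
      have e2 : (N : ℝ) < (N : ℝ) ^ (1 / 2 - μ) * q₁ := by
        have h3 : (N : ℝ) ≤ x := by exact_mod_cast hxN
        have h4 : (x : ℝ) < (q : ℝ) * q₁ := by exact_mod_cast hxq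
        have h5 : (q : ℝ) * q₁ ≤ (N : ℝ) ^ (1 / 2 - μ) * q₁ :=
          mul_le_mul_of_nonneg_right e1 (Nat.cast_nonneg q₁)
        linarith
      have e3 : (N : ℝ) ^ (1 / 2 + μ) < q₁ := by
        have h6 : (N : ℝ) = (N : ℝ) ^ (1 / 2 - μ) * (N : ℝ) ^ (1 / 2 + μ) := by
          rw [← Real.rpow_add hN0]
          norm_num
        have h7 : 0 < (N : ℝ) ^ (1 / 2 - μ) := Real.rpow_pos_of_pos hN0 _
        have h8 : (N : ℝ) ^ (1 / 2 - μ) * (N : ℝ) ^ (1 / 2 + μ) < (N : ℝ) ^ (1 / 2 - μ) * q₁ := by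
          rw [← h6]
          exact e2
        exact lt_of_mul_lt_mul_left h8 h7.le
      have e4 : (N : ℝ) ^ (1 / 2 + μ / 2) ≤ (N : ℝ) ^ (1 / 2 + μ) :=
        Real.rpow_le_rpow_of_exponent_le hN1' (by linarith)
      have e5 : ((pw N (1 / 2 + μ / 2) : ℕ) : ℝ) ≤ (N : ℝ) ^ (1 / 2 + μ / 2) := by
        unfold PQ.pw
        exact Nat.floor_le (Real.rpow_nonneg hN0.le _)
      have e6 : ((pw N (1 / 2 + μ / 2) : ℕ) : ℝ) < q₁ := by linarith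
      exact_mod_cast e6
    have h2 := Finset.sum_le_sum hone
    rw [Finset.sum_const, nsmul_eq_mul, mul_one] at h2
    exact h2
  refine step1.trans (g2.trans ?_)
  have hLl : 8 * (L * l) ≤ 1 / l ^ 9 := by
    have h1 : L * l ≤ (l ^ 30)⁻¹ * l := mul_le_mul_of_nonneg_right hLhi hl0.le
    have h2 : 8 * ((l ^ 30)⁻¹ * l) ≤ 1 / l ^ 9 := by
      have h20 : (8 : ℝ) ≤ l ^ 20 := by
        calc (8 : ℝ) ≤ 2 ^ 20 := by norm_num
          _ ≤ l ^ 20 := pow_le_pow_left₀ (by norm_num) hl2 20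
      have h30 : (l ^ 30)⁻¹ * l = (l ^ 29)⁻¹ := by
        rw [show l ^ 30 = l ^ 29 * l by ring, mul_inv, mul_assoc, inv_mul_cancel₀ hl0.ne', mul_one]
      rw [h30, ← div_eq_mul_inv, div_le_div_iff₀ (by positivity) (by positivity), one_mul]
      have h9 : 0 < l ^ 9 := by positivity
      calc 8 * l ^ 9 ≤ l ^ 20 * l ^ 9 := mul_le_mul_of_nonneg_right h20 h9.le
        _ = l ^ 29 := by ring
    linarith
  have h3 : 8 * (x * L * l) * ∑ q ∈ QQ, 1 / (q : ℝ) ≤ x / l ^ 9 * ∑ q ∈ QQ, 1 / (q : ℝ) := by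
    refine mul_le_mul_of_nonneg_right ?_ hS0
    calc 8 * (x * L * l) = x * (8 * (L * l)) := by ring
      _ ≤ x * (1 / l ^ 9) := mul_le_mul_of_nonneg_left hLl hx0
      _ = x / l ^ 9 := by ring
  linarith

end Pool.Agent.Lib.PX
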