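import Pool.Agent.Lib.MP_7b7e48_nt.PL.Defs
import Pool.Agent.Lib.BV.Defs

/-!
# PX: the exceptional case of THEOREM PBL. Definitions.

`c` is a real character modulo `N` with a very small `L(1, c)`. `rho c = c * log = Λ * (1 * c)` replaces the von Mangoldt function on the integers without small prime factors: the primes `q > N^c'` with
`c q = 1` (RARE primes) have a tiny sum of reciprocals. `x = 6 K N` is the number which is represented, `K` a prime of size `(log N)^20`.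
Text: `/team-store/PX_PROOF.md`.
-/

set_option autoImplicit false

open Finset
open Pool.Agent.Lib.GT (Rough V)
open Pool.Agent.Lib.MP_45349e_nt.LS (lam)
open Pool.Agent.Lib.RG (RC LV rr SS PB sig)

namespace Pool.Agent.Lib.PX

open Pool.Agent.Lib.PQ (pw)

/-- the Dirichlet convolution `c * f` -/
noncomputable def cf (c f : ℕ → ℝ) (n : ℕ) : ℝ := ∑ u ∈ n.divisors, c u * f (n / u)

open Classical in
/-- the part `U < u ≤ U'` of the Dirichlet convolution `c * f` -/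
noncomputable def cfr (c f : ℕ → ℝ) (U U' n : ℕ) : ℝ :=
  ∑ u ∈ n.divisors.filter (fun u => U < u ∧ u ≤ U'), c u * f (n / u)

/-- the constant function `1` -/
noncomputable def on1 (_v : ℕ) : ℝ := 1

/-- the logarithm -/
noncomputable def lg (v : ℕ) : ℝ := Real.log v

/-- `c * log` -/
noncomputable def rho (c : ℕ → ℝ) (n : ℕ) : ℝ := cf c lg n

/-- density of the multiples of `p` with the weight `rho` -/
noncomputable def gg (c : ℕ → ℝ) (p : ℕ) : ℝ := (1 + c p - c p / p) / p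

/-- density of a unit class modulo `p` with the weight `rho` -/
noncomputable def h2 (c : ℕ → ℝ) (p : ℕ) : ℝ := (1 - c p / p) / p

open Classical in
/-- density of the condition `p ∣ n (x - n)` -/
noncomputable def hh (c : ℕ → ℝ) (x p : ℕ) : ℝ := gg c p + if p ∣ x then 0 else h2 c p

open Classical in
/-- the sum of `w` over the `n < x` with `D1 ∣ n` and `n = x` modulo `D2` -/
noncomputable def WW (w : ℕ → ℝ) (x D1 D2 : ℕ) : ℝ :=
  ∑ n ∈ (Finset.Icc 1 (x - 1)).filter (fun n => D1 ∣ n ∧ n ≡ x [MOD D2]), w n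

/-- the expected value of `WW`, relative to the total mass -/
noncomputable def EV (c : ℕ → ℝ) (D1 D2 : ℕ) : ℝ :=
  (∏ p ∈ D1.primeFactors, gg c p) * ∏ p ∈ D2.primeFactors, h2 c p

/-- the truncated series for the mean value of `rho` -/
noncomputable def L1 (N : ℕ) (c : ℕ → ℝ) (x : ℕ) : ℝ :=
  ∑ w ∈ Finset.Icc 1 (pw N (3 / 4)), c w / w * (Real.log ((x : ℝ) / (w : ℝ)) - 1)

/-- coefficients of an auxiliary convolution -/
noncomputable def kk (D1 e : ℕ) : ℝ := ∏ p ∈ e.primeFactors, (if p ∣ D1 then (p : ℝ) - 1 else -1)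

open Classical in
/-- the sifted set -/
noncomputable def Sft (x z K : ℕ) : Finset ℕ := (Finset.Icc 1 (x - 1)).filter fun n =>
  n.Coprime 6 ∧ ∀ p : ℕ, p.Prime → 5 ≤ p → p ≤ z → p ≠ K → ¬ p ∣ n * (x - n)

/-- `n` has a rare prime factor `> z` -/
def Rar (c : ℕ → ℝ) (z n : ℕ) : Prop := ∃ q : ℕ, q.Prime ∧ z < q ∧ c q = 1 ∧ q ∣ n

/-- the trivial bad events -/
def Bdn (N x z K n : ℕ) : Prop :=
  K ∣ n ∨ ¬ n.Coprime N ∨ (∃ p : ℕ, p.Prime ∧ z < p ∧ p ^ 2 ∣ n) ∨ n ≤ N ∨ x - n ≤ N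

/-- `x = 6 K N`, `K` a prime between `(log N)^20 / 2` and `(log N)^20` which does not divide `N` -/
structure XS (N x K : ℕ) : Prop where
  mem : K ∈ PL.PPl 20 N
  eq : x = 6 * K * N

open Classical in
/-- the primes `p` of the good representations `x = p + b` -/
noncomputable def GX (N x z J : ℕ) (s : ℝ) : Finset ℕ := (Finset.range x).filter fun p =>
  p.Prime ∧ N < p ∧ ∃ b : ℕ, N < b ∧ p + b = x ∧ Rough z b ∧ ArithmeticFunction.cardFactors b ≤ J ∧ lam b = s

/-- the assumptions in the exceptional case -/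
structure Ex (N : ℕ) (c : ℕ → ℝ) (L : ℝ) (B : ℕ) (e : ℝ) : Prop where
  rc : RC N c
  lv : LV N c L
  upp : L < (Real.log N ^ B)⁻¹
  low : (N : ℝ) ^ (-e) ≤ L

/-- a set of prime moduli in `(Q, 2 Q]` -/
structure QS (N : ℕ) (μ : ℝ) (Q : ℕ) (QQ : Finset ℕ) : Prop where
  low : (N : ℝ) ^ μ ≤ Q
  upp : 2 * (Q : ℝ) ≤ (N : ℝ) ^ (1 / 2 - μ)
  mem : ∀ q ∈ QQ, q.Prime ∧ Q < q ∧ q ≤ 2 * Q ∧ ¬ q ∣ N

open Classical in
/-- the error of `F` in the class `a` modulo the prime `q` -/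
noncomputable def EQ (F : ℕ → ℝ) (X q a : ℕ) : ℝ :=
  ∑ n ∈ (Finset.Icc 1 X).filter (fun n => n ≡ a [MOD q]), F n -
    1 / ((q : ℝ) - 1) * ∑ n ∈ (Finset.Icc 1 X).filter (fun n => ¬ q ∣ n), F n

open Classical in
/-- `G` restricted to the multiples of `D1` in the class `a` modulo `D2` -/
noncomputable def FD (D1 D2 a : ℕ) (G : ℕ → ℝ) (n : ℕ) : ℝ := if D1 ∣ n ∧ n ≡ a [MOD D2] then G n else 0

open Classical in
/-- `∑ rr c k` over the divisors `k > Y` of `n` -/
noncomputable def a2 (c : ℕ → ℝ) (Y n : ℕ) : ℝ := ∑ k ∈ n.divisors.filter (fun k => Y < k), rr c k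

/-- the sub Polya-Vinogradov bound for `c` -/
def Spc (N : ℕ) (β : ℝ) (c : ℕ → ℝ) : Prop :=
  ∀ y : ℕ, (N : ℝ) ^ (1 / 2 - β) ≤ y → |∑ n ∈ Finset.Icc 1 y, c n| ≤ y * (N : ℝ) ^ (-β)

end Pool.Agent.Lib.PX
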