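import Pool.Agent.Lib.MP_7b7e48_nt.PX.Defs
import Pool.Agent.Lib.MP_7b7e48_nt.PQ.S2m
import Pool.Agent.Lib.MP_7b7e48_nt.RG.A3

/-!
# E0x: the rare primes have a small sum of reciprocals

PROOF. `j = ⌈1/c1⌉ + 1`, `B = j (A + 3)`. Let `σ` be the sum, `z = pw N c1`, `T = N²`. `σ^j = ∑` over the `j`-tuples of rare primes in `(z, T]` of `∏ 1/q_i`; the product `n = ∏ q_i` satisfies `N^(3/4) < (z+1)^j ≤ n ≤ T^j = N^(2j)`, comes from at most `j!` tuples, and `rr c n ≥ 1` (all divisors `d` of `n` have `c d = 1`). So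
`σ^j ≤ j! ∑_{N^(3/4) < n ≤ N^(2j)} rr c n/n`. By `SSU`-type bound `SS c y ≤ 2 L y` for `y ≥ N^(3/4)` (`RG.SS_asymp`: `SS c y ≤ L y + C √y N^(13/50) ≤ 2 L y` as `y^(-1/2) N^(13/50) ≤ N^(-0.115)` and `L ≥ N^(-1/20)`) and partial summation `∑_{W < n ≤ T^j} rr c n/n ≤ SS(T^j)/T^j + ∑_{W < n ≤ T^j} SS(n)/(n(n+1)) ≤ 2L + 2L log (T^j) ≤
L (2 + 4 j log N)`. So `σ^j ≤ j! (2 + 4j log N) (log N)^(-B) ≤ (log N)^(-B+2)` and `(B - 2)/j ≥ A + 1`: `σ ≤ (log N)^(-A)`.
-/

set_option autoImplicit false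

open Finset
open Pool.Agent.Lib.GT (Rough V)
open Pool.Agent.Lib.MP_45349e_nt.LS (lam)
open Pool.Agent.Lib.RG (RC LV rr SS PB sig)

namespace Pool.Agent.Lib.PX

open Pool.Agent.Lib.PQ (pw)

/-- `u`-tuples with the same product are permutations of each other -/
private theorem E0x_perm {u : ℕ} (f g : Fin u → ℕ) (hf : ∀ i, (f i).Prime) (hg : ∀ i, (g i).Prime)
    (h : ∏ i, f i = ∏ i, g i) : (List.ofFn g).Perm (List.ofFn f) := by
  have h1 : (List.ofFn g).prod = ∏ i, f i := by rw [List.prod_ofFn, h]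
  have h2 : (List.ofFn f).prod = ∏ i, f i := by rw [List.prod_ofFn]
  have h3 := Nat.primeFactorsList_unique h1 (by
    intro p hp
    rw [List.mem_ofFn] at hp
    obtain ⟨i, rfl⟩ := hp
    exact hg i)
  have h4 := Nat.primeFactorsList_unique h2 (by
    intro p hp
    rw [List.mem_ofFn] at hp
    obtain ⟨i, rfl⟩ := hp
    exact hf i)
  exact h3.trans h4.symm

open Classical in
private theorem E0x_count {u : ℕ} (Q : Finset ℕ) (hQ : ∀ l ∈ Q, l.Prime) (n : ℕ) :
    ((Fintype.piFinset (fun _ : Fin u => Q)).filter (fun g => ∏ i, g i = n)).card ≤ u.factorial := by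
  rcases ((Fintype.piFinset (fun _ : Fin u => Q)).filter (fun g => ∏ i, g i = n)).eq_empty_or_nonempty with h0 | ⟨f, hf⟩
  · rw [h0, card_empty]
    exact Nat.zero_le _
  rw [mem_filter, Fintype.mem_piFinset] at hf
  have h1 : ((Fintype.piFinset (fun _ : Fin u => Q)).filter (fun g => ∏ i, g i = n)).card ≤
      ((List.ofFn f).permutations.toFinset).card := by
    refine card_le_card_of_injOn (fun g => List.ofFn g) ?_ ?_
    · intro g hg
      rw [mem_coe, mem_filter, Fintype.mem_piFinset] at hg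
      rw [mem_coe, List.mem_toFinset, List.mem_permutations]
      exact E0x_perm f g (fun i => hQ _ (hf.1 i)) (fun i => hQ _ (hg.1 i)) (hf.2.trans hg.2.symm)
    · intro g _ g' _ h
      exact List.ofFn_injective h
  refine h1.trans ((List.toFinset_card_le _).trans ?_)
  rw [List.length_permutations, List.length_ofFn]

private theorem E0x_one {N : ℕ} {c : ℕ → ℝ} (hc : RC N c) : c 1 = 1 := by
  have h1 := hc.mul 1 1
  rw [mul_one] at h1
  rcases hc.val 1 (Nat.coprime_one_left N) with h | h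
  · exact h
  · rw [h] at h1
    norm_num at h1

/-- all prime factors have `c p = 1`: then `c n = 1` -/
private theorem E0x_c1 {N : ℕ} {c : ℕ → ℝ} (hc : RC N c) (n : ℕ) (hn : n ≠ 0) :
    (∀ p : ℕ, p.Prime → p ∣ n → c p = 1) → c n = 1 := by
  induction n using Nat.recOnMul with
  | zero => exact absurd rfl hn
  | one => intro _; exact E0x_one hc
  | prime p hp => intro h; exact h p hp dvd_rfl
  | mul a b ha hb =>
    intro h
    have ha0 : a ≠ 0 := left_ne_zero_of_mul hn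
    have hb0 : b ≠ 0 := right_ne_zero_of_mul hn
    rw [hc.mul, ha ha0 fun p hp hd => h p hp (hd.mul_right b), hb hb0 fun p hp hd => h p hp (hd.mul_left a), one_mul]

private theorem E0x_rr {N : ℕ} {c : ℕ → ℝ} (hc : RC N c) (n : ℕ) (hn : n ≠ 0)
    (h : ∀ p : ℕ, p.Prime → p ∣ n → c p = 1) : 1 ≤ rr c n := by
  unfold rr
  have h1 : ∀ d ∈ n.divisors, c d = 1 := by
    intro d hd
    have h2 := Nat.dvd_of_mem_divisors hd
    exact E0x_c1 hc d (Nat.pos_of_mem_divisors hd).ne' fun p hp hpd => h p hp (hpd.trans h2)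
  rw [Finset.sum_congr rfl h1, Finset.sum_const, nsmul_eq_mul, mul_one]
  have h3 : 0 < n.divisors.card := Finset.card_pos.2 ⟨1, Nat.one_mem_divisors.2 hn⟩
  exact_mod_cast h3

private theorem E0x_harm (n : ℕ) : ∑ a ∈ Finset.Icc 1 n, (1 : ℝ) / a ≤ 1 + Real.log n := by
  have h := harmonic_le_one_add_log n
  rw [harmonic_eq_sum_Icc] at h
  push_cast at h
  refine le_trans (le_of_eq ?_) h
  exact Finset.sum_congr rfl fun a _ => one_div _

/-- partial summation -/
private theorem E0x_abel (c : ℕ → ℝ) (L : ℝ) (W : ℕ) (hW : 1 ≤ W) (h0 : 0 ≤ SS c W)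
    (hS : ∀ y : ℕ, W ≤ y → SS c y ≤ 2 * L * y) (y : ℕ) (hy : W ≤ y) :
    ∑ n ∈ Finset.Ioc W y, rr c n / n ≤ SS c y / y + 2 * L * ∑ n ∈ Finset.Ioc W y, 1 / (n : ℝ) := by
  induction y, hy using Nat.le_induction with
  | base =>
    rw [Finset.Ioc_self, Finset.sum_empty, Finset.sum_empty, mul_zero, add_zero]
    positivity
  | succ y hy ih =>
    rw [← Finset.insert_Ioc_right_eq_Ioc_add_one hy, Finset.sum_insert, Finset.sum_insert]
    · have h1 : SS c (y + 1) = SS c y + rr c (y + 1) := by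
        unfold SS
        rw [Finset.sum_Icc_succ_top (by omega)]
      have h2 := hS y hy
      have hy0 : (0 : ℝ) < y := by
        have : 0 < y := by omega
        exact_mod_cast this
      rw [h1]
      push_cast
      have h3 : SS c y / y ≤ SS c y / (y + 1) + 2 * L * (1 / (y + 1)) := by
        rw [← sub_nonneg]
        have h4 : SS c y / (y + 1) + 2 * L * (1 / (y + 1)) - SS c y / y = (2 * L * y - SS c y) / (y * (y + 1)) := by
          field_simp
          ring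
        rw [h4]
        apply div_nonneg
        · linarith
        · positivity
      have h5 : (SS c y + rr c (y + 1)) / ((y : ℝ) + 1) = SS c y / (y + 1) + rr c (y + 1) / (y + 1) := add_div _ _ _
      rw [h5]
      linarith
    · simp
    · simp

/-- the moment -/
private theorem E0x_moment {N : ℕ} {c : ℕ → ℝ} (hc : RC N c) (z T j W : ℕ) (hj : W < (z + 1) ^ j) :
    sig c z T ^ j ≤ j.factorial * ∑ n ∈ Finset.Ioc W (T ^ j), rr c n / n := by
  classical
  unfold sig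
  set S := (Finset.range (T + 1)).filter (fun q => q.Prime ∧ z < q ∧ c q = 1) with hS
  have hmem : ∀ q ∈ S, q ≤ T ∧ q.Prime ∧ z < q ∧ c q = 1 := by
    intro q hq
    rw [hS, Finset.mem_filter, Finset.mem_range] at hq
    exact ⟨by omega, hq.2⟩
  have h1 : (∑ q ∈ S, 1 / (q : ℝ)) ^ j = ∑ f ∈ Fintype.piFinset (fun _ : Fin j => S), 1 / ((∏ i, f i : ℕ) : ℝ) := by
    have h := prod_univ_sum (fun _ : Fin j => S) (fun _ l => 1 / (l : ℝ))
    rw [prod_const, card_univ, Fintype.card_fin] at h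
    rw [h]
    refine Finset.sum_congr rfl fun f _ => ?_
    rw [Nat.cast_prod, Finset.prod_div_distrib, Finset.prod_const_one]
  rw [h1]
  have hf : ∀ f ∈ Fintype.piFinset (fun _ : Fin j => S), ∏ i, f i ∈ Finset.Ioc W (T ^ j) := by
    intro f hf
    rw [Fintype.mem_piFinset] at hf
    rw [Finset.mem_Ioc]
    constructor
    · refine lt_of_lt_of_le hj ?_
      have h := Finset.pow_card_le_prod (univ : Finset (Fin j)) f (z + 1) fun i _ => (hmem _ (hf i)).2.2.1
      rwa [card_univ, Fintype.card_fin] at h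
    · have h := Finset.prod_le_pow_card (univ : Finset (Fin j)) f T fun i _ => (hmem _ (hf i)).1
      rwa [card_univ, Fintype.card_fin] at h
  rw [← Finset.sum_fiberwise_of_maps_to hf, Finset.mul_sum]
  refine Finset.sum_le_sum fun n hn => ?_
  rw [Finset.mem_Ioc] at hn
  have hn0 : (0 : ℝ) < n := by
    have : 0 < n := by omega
    exact_mod_cast this
  have h2 : ∀ f ∈ (Fintype.piFinset (fun _ : Fin j => S)).filter (fun f => ∏ i, f i = n),
      1 / ((∏ i, f i : ℕ) : ℝ) = 1 / (n : ℝ) := by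
    intro f hf
    rw [(Finset.mem_filter.1 hf).2]
  rw [Finset.sum_congr rfl h2, Finset.sum_const, nsmul_eq_mul]
  rcases ((Fintype.piFinset (fun _ : Fin j => S)).filter (fun g => ∏ i, g i = n)).eq_empty_or_nonempty with h0 | ⟨f, hf1⟩
  · rw [h0, card_empty, Nat.cast_zero, zero_mul]
    have := Pool.Agent.Lib.RG.rr_nonneg N c hc n
    positivity
  · rw [mem_filter, Fintype.mem_piFinset] at hf1
    have h3 : (1 : ℝ) ≤ rr c n := by
      refine E0x_rr hc n (by omega) fun p hp hpn => ?_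
      rw [← hf1.2] at hpn
      obtain ⟨i, -, hi⟩ := (Prime.dvd_finsetProd_iff hp.prime _).1 hpn
      obtain ⟨-, h4, -, h5⟩ := hmem _ (hf1.1 i)
      rw [(Nat.prime_dvd_prime_iff_eq hp h4).1 hi]
      exact h5
    have h4 : (((Fintype.piFinset (fun _ : Fin j => S)).filter (fun g => ∏ i, g i = n)).card : ℝ) ≤ j.factorial := by
      exact_mod_cast E0x_count S (fun l hl => (hmem l hl).2.1) n
    have h5 : (0 : ℝ) < j.factorial := by exact_mod_cast j.factorial_pos
    calc (((Fintype.piFinset (fun _ : Fin j => S)).filter (fun g => ∏ i, g i = n)).card : ℝ) * (1 / n)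
        ≤ j.factorial * (1 / n) := by gcongr
      _ ≤ j.factorial * (rr c n / n) := by gcongr

theorem E0x (c1 : ℝ) (hc1 : 0 < c1) (A : ℕ) : ∃ B N0 : ℕ, ∀ N : ℕ, N0 ≤ N → ∀ (c : ℕ → ℝ) (L : ℝ), RC N c → LV N c L →
    L < (Real.log N ^ B)⁻¹ → (N : ℝ) ^ (-(1 / 20 : ℝ)) ≤ L → sig c (pw N c1) (N ^ 2) ≤ (Real.log N ^ A)⁻¹ := by
  obtain ⟨C, hC, hSS⟩ := Pool.Agent.Lib.RG.SS_asymp
  set j : ℕ := ⌈1 / c1⌉₊ + 1 with hj
  have hj1 : 1 ≤ c1 * j := by
    have h1 : 1 / c1 ≤ (⌈1 / c1⌉₊ : ℝ) := Nat.le_ceil _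
    have h2 : (j : ℝ) = ⌈1 / c1⌉₊ + 1 := by rw [hj]; push_cast; rfl
    rw [h2]
    have h3 : 1 / c1 ≤ (⌈1 / c1⌉₊ : ℝ) + 1 := by linarith
    rw [div_le_iff₀ hc1] at h3
    linarith
  have hj0 : j ≠ 0 := by omega
  have hlog : Filter.Tendsto (fun N : ℕ => Real.log N) Filter.atTop Filter.atTop :=
    Real.tendsto_log_atTop.comp tendsto_natCast_atTop_atTop
  have hpw : Filter.Tendsto (fun N : ℕ => (N : ℝ) ^ (19 / 100 : ℝ)) Filter.atTop Filter.atTop :=
    (tendsto_rpow_atTop (by norm_num)).comp tendsto_natCast_atTop_atTop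
  have hev := (hlog.eventually_ge_atTop (j.factorial * (4 + 4 * j) + 1)).and ((hpw.eventually_ge_atTop C).and
      (Filter.eventually_ge_atTop 2))
  obtain ⟨N0, hN0⟩ := Filter.eventually_atTop.1 hev
  refine ⟨j * A + 2, N0, ?_⟩
  intro N hN c L hc hL hup hlow
  obtain ⟨hl, hNC, hN2⟩ := hN0 N hN
  have hN1 : (1 : ℝ) ≤ N := by
    have : 1 ≤ N := by omega
    exact_mod_cast this
  have hNp : (0 : ℝ) < N := by linarith
  have hfac : (1 : ℝ) ≤ j.factorial := by exact_mod_cast j.factorial_pos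
  have hl1 : 1 ≤ Real.log N := by
    have : (0 : ℝ) ≤ j.factorial * (4 + 4 * j) := by positivity
    linarith
  have hl0 : 0 < Real.log N := by linarith
  have hLp : 0 < L := lt_of_lt_of_le (by positivity) hlow
  -- the bound for SS
  have hS : ∀ y : ℕ, N ≤ y → SS c y ≤ 2 * L * y := by
    intro y hy
    have h1 := (abs_le.1 (hSS N hN2 c L hc hL y)).2
    have hyN : (N : ℝ) ≤ y := by exact_mod_cast hy
    have hy0 : (0 : ℝ) < y := by linarith
    have h2 : C * Real.sqrt y * (N : ℝ) ^ ((13 : ℝ) / 50) ≤ L * y := by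
      have h3 : (N : ℝ) ^ ((13 : ℝ) / 50) = (N : ℝ) ^ (-(1 / 20 : ℝ)) * ((N : ℝ) ^ (-(19 / 100 : ℝ)) * (N : ℝ) ^ (1 / 2 : ℝ)) := by
        rw [← Real.rpow_add hNp, ← Real.rpow_add hNp]
        norm_num
      have h4 : (N : ℝ) ^ (1 / 2 : ℝ) ≤ Real.sqrt y := by
        rw [← Real.sqrt_eq_rpow]
        exact Real.sqrt_le_sqrt hyN
      have h5 : C * (N : ℝ) ^ (-(19 / 100 : ℝ)) ≤ 1 := by
        rw [Real.rpow_neg hNp.le, ← div_eq_mul_inv, div_le_one (by positivity)]
        exact hNC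
      have h6 : Real.sqrt y * Real.sqrt y = y := Real.mul_self_sqrt hy0.le
      calc C * Real.sqrt y * (N : ℝ) ^ ((13 : ℝ) / 50)
          = (C * (N : ℝ) ^ (-(19 / 100 : ℝ))) * (N : ℝ) ^ (-(1 / 20 : ℝ)) * (Real.sqrt y * (N : ℝ) ^ (1 / 2 : ℝ)) := by
            rw [h3]; ring
        _ ≤ 1 * L * (Real.sqrt y * Real.sqrt y) := by gcongr
        _ = L * y := by rw [h6, one_mul]
    linarith
  have hSS0 : 0 ≤ SS c N := Finset.sum_nonneg fun n _ => Pool.Agent.Lib.RG.rr_nonneg N c hc n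
  have hz : N < (pw N c1 + 1) ^ j := by
    have h1 : (N : ℝ) ^ c1 < (pw N c1 : ℝ) + 1 := Nat.lt_floor_add_one _
    have h2 : (N : ℝ) ≤ ((N : ℝ) ^ c1) ^ j := by
      rw [← Real.rpow_natCast, ← Real.rpow_mul hNp.le]
      calc (N : ℝ) = (N : ℝ) ^ (1 : ℝ) := (Real.rpow_one _).symm
        _ ≤ (N : ℝ) ^ (c1 * j) := Real.rpow_le_rpow_of_exponent_le hN1 hj1
    have h3 : ((N : ℝ) ^ c1) ^ j < ((pw N c1 : ℝ) + 1) ^ j := by
      apply pow_lt_pow_left₀ h1 (by positivity) hj0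
    have h4 : (N : ℝ) < (((pw N c1 + 1) ^ j : ℕ) : ℝ) := by
      push_cast
      linarith
    exact_mod_cast h4
  have hle : N ≤ (N ^ 2) ^ j := by
    rw [← pow_mul]
    exact Nat.le_self_pow (by omega) N
  have hmom := E0x_moment hc (pw N c1) (N ^ 2) j N hz
  have hab := E0x_abel c L N (by omega) hSS0 hS ((N ^ 2) ^ j) hle
  have hY : (0 : ℝ) < (((N ^ 2) ^ j : ℕ) : ℝ) := by
    push_cast
    positivity
  have h1 : SS c ((N ^ 2) ^ j) / (((N ^ 2) ^ j : ℕ) : ℝ) ≤ 2 * L := by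
    rw [div_le_iff₀ hY]
    exact hS _ hle
  have h2 : ∑ n ∈ Finset.Ioc N ((N ^ 2) ^ j), 1 / (n : ℝ) ≤ 1 + 2 * j * Real.log N := by
    have h3 : ∑ n ∈ Finset.Ioc N ((N ^ 2) ^ j), 1 / (n : ℝ) ≤ ∑ n ∈ Finset.Icc 1 ((N ^ 2) ^ j), 1 / (n : ℝ) := by
      refine Finset.sum_le_sum_of_subset_of_nonneg ?_ fun n _ _ => by positivity
      intro n hn
      rw [Finset.mem_Ioc] at hn
      rw [Finset.mem_Icc]
      omega
    refine h3.trans ((E0x_harm _).trans (le_of_eq ?_))
    rw [← pow_mul]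
    push_cast
    rw [Real.log_pow]
    push_cast
    ring
  have h3 : ∑ n ∈ Finset.Ioc N ((N ^ 2) ^ j), rr c n / n ≤ L * (4 + 4 * j * Real.log N) := by
    have h4 : 2 * L * ∑ n ∈ Finset.Ioc N ((N ^ 2) ^ j), 1 / (n : ℝ) ≤ 2 * L * (1 + 2 * j * Real.log N) := by gcongr
    nlinarith
  have h4 : (j.factorial : ℝ) * (4 + 4 * j * Real.log N) ≤ Real.log N ^ 2 := by
    have h5 : (j.factorial : ℝ) * (4 + 4 * j * Real.log N) ≤ (j.factorial * (4 + 4 * j)) * Real.log N := by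
      have h6 : (4 : ℝ) + 4 * j * Real.log N ≤ (4 + 4 * j) * Real.log N := by nlinarith
      calc (j.factorial : ℝ) * (4 + 4 * j * Real.log N) ≤ j.factorial * ((4 + 4 * j) * Real.log N) := by gcongr
        _ = _ := by ring
    refine h5.trans ?_
    rw [sq]
    apply mul_le_mul_of_nonneg_right _ hl0.le
    linarith
  have h5 : sig c (pw N c1) (N ^ 2) ^ j ≤ ((Real.log N ^ A)⁻¹) ^ j := by
    calc sig c (pw N c1) (N ^ 2) ^ j ≤ j.factorial * ∑ n ∈ Finset.Ioc N ((N ^ 2) ^ j), rr c n / n := hmom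
      _ ≤ j.factorial * (L * (4 + 4 * j * Real.log N)) := by gcongr
      _ = L * (j.factorial * (4 + 4 * j * Real.log N)) := by ring
      _ ≤ (Real.log N ^ (j * A + 2))⁻¹ * Real.log N ^ 2 := by
        have : (0 : ℝ) ≤ j.factorial * (4 + 4 * j * Real.log N) := by positivity
        exact mul_le_mul hup.le h4 this (by positivity)
      _ = ((Real.log N ^ A)⁻¹) ^ j := by
        rw [pow_add, inv_pow, ← pow_mul, mul_comm A j]
        field_simp
  exact le_of_pow_le_pow_left₀ hj0 (by positivity) h5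

end Pool.Agent.Lib.PX
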