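import Pool.Agent.Lib.MP_7b7e48_nt.PX.RHO
import Pool.Agent.Lib.MP_7b7e48_nt.PX.XSL

/-!
# RHB: bounds on the sifted set

PROOF. Let `n ∈ Sft x z K`, `z = pw N c'`, `m = n` or `m = x - n`. A prime `p ∣ m` is `> z` or `= K` (`p = 2, 3`: `n` is coprime to `6` and `6 ∣ x`; `5 ≤ p ≤ z`, `p ≠ K`: excluded by `Sft`, `p ∣ n (x-n)`). `m ≤ x ≤ N² < (z+1)^(J+1)` for `J = ⌈2/c'⌉ + 1` (`N` large). So `m = K^a m'` with `m'` `z`-rough, `Ω(m') ≤ J`, `a ≤ log x/log K ≤ 2 log N`,
`τ(n) ≤ (a + 1) 2^J`, and `rho c n ≤ τ(n) log n ≤ (1 + 2 log N) 2^J 2 log N ≤ (log N)^3`. If `K ∤ n` then `K ∤ x - n` (`K ∣ x`), so `a = 0`.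
-/

set_option autoImplicit false

open Finset
open Pool.Agent.Lib.GT (Rough V)
open Pool.Agent.Lib.MP_45349e_nt.LS (lam)
open Pool.Agent.Lib.RG (RC LV rr SS PB sig)

namespace Pool.Agent.Lib.PX

open Pool.Agent.Lib.PQ (pw)

/-- a rough number below `(z + 1) ^ (J + 1)` has at most `J` prime factors and at most `2 ^ J` divisors -/
private theorem RHB_div {z J r : ℕ} (hr : 0 < r) (hro : ∀ p : ℕ, p.Prime → p ∣ r → z < p)
    (hrB : r < (z + 1) ^ (J + 1)) : ArithmeticFunction.cardFactors r ≤ J ∧ r.divisors.card ≤ 2 ^ J := by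
  rw [Nat.card_divisors hr.ne']
  have h0 : ArithmeticFunction.cardFactors r = ∑ p ∈ r.primeFactors, r.factorization p := by
    rw [ArithmeticFunction.cardFactors_eq_sum_factorization, Finsupp.sum, Nat.support_factorization]
  have h1 : (z + 1) ^ (∑ p ∈ r.primeFactors, r.factorization p) ≤ r := by
    conv_rhs => rw [← Nat.prod_factorization_pow_eq_self hr.ne']
    rw [← Finset.prod_pow_eq_pow_sum, Finsupp.prod, Nat.support_factorization]
    refine Finset.prod_le_prod' fun p hp => ?_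
    exact Nat.pow_le_pow_left
      (hro p (Nat.prime_of_mem_primeFactors hp) (Nat.dvd_of_mem_primeFactors hp)) _
  have h2 : ∑ p ∈ r.primeFactors, r.factorization p ≤ J := by
    by_contra hc
    have h3 : (z + 1) ^ (J + 1) ≤ (z + 1) ^ (∑ p ∈ r.primeFactors, r.factorization p) :=
      Nat.pow_le_pow_right (by omega) (by omega)
    omega
  refine ⟨h0 ▸ h2, ?_⟩
  calc ∏ p ∈ r.primeFactors, (r.factorization p + 1)
      ≤ ∏ p ∈ r.primeFactors, 2 ^ (r.factorization p) :=
        Finset.prod_le_prod' fun p _ => Nat.succ_le_of_lt (Nat.lt_two_pow_self)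
    _ = 2 ^ (∑ p ∈ r.primeFactors, r.factorization p) := Finset.prod_pow_eq_pow_sum _ _ _
    _ ≤ 2 ^ J := Nat.pow_le_pow_right (by norm_num) h2

theorem RHB (c' : ℝ) (hc : 0 < c') : ∃ J N0 : ℕ, ∀ N : ℕ, N0 ≤ N → ∀ c : ℕ → ℝ, RC N c →
    ∀ x K : ℕ, XS N x K → ∀ n ∈ Sft x (pw N c') K, rho c n ≤ Real.log N ^ 3 ∧
      (¬ K ∣ n → ArithmeticFunction.cardFactors n ≤ J ∧ ArithmeticFunction.cardFactors (x - n) ≤ J) := by
  classical
  obtain ⟨N1, hN1⟩ := XSsz
  set J : ℕ := ⌈2 / c'⌉₊ with hJ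
  have hcJ : 2 ≤ c' * ((J : ℝ) + 1) := by
    have h1 : 2 / c' ≤ (J : ℝ) := Nat.le_ceil _
    have h2 : 2 / c' ≤ (J : ℝ) + 1 := by linarith
    rw [div_le_iff₀ hc] at h2
    linarith
  have hlog : Filter.Tendsto (fun N : ℕ => Real.log N) Filter.atTop Filter.atTop :=
    Real.tendsto_log_atTop.comp tendsto_natCast_atTop_atTop
  have hev := (hlog.eventually_ge_atTop (6 * 2 ^ J)).and (Filter.eventually_ge_atTop (max N1 2))
  obtain ⟨N0, hN0⟩ := Filter.eventually_atTop.1 hev
  refine ⟨J, N0, ?_⟩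
  intro N hN c hrc x K hx n hn
  obtain ⟨hl, hN2⟩ := hN0 N hN
  have hN2' : 2 ≤ N := (le_max_right _ _).trans hN2
  obtain ⟨hKp, hKN, h6x, hKx, hNx, hK1, hK2, hx1, hx2, hNlx, hxN⟩ := hN1 N ((le_max_left _ _).trans hN2) x K hx
  have hNR : (1 : ℝ) ≤ N := by
    have : 1 ≤ N := by omega
    exact_mod_cast this
  have hNp : (0 : ℝ) < N := by linarith
  have h2J : (1 : ℝ) ≤ 2 ^ J := one_le_pow₀ (by norm_num)
  have hl6 : 6 ≤ Real.log N := by linarith
  have hl0 : 0 < Real.log N := by linarith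
  -- K is large
  have hK5 : (5 : ℝ) ≤ K := by
    have h1 : (6 : ℝ) ^ 20 ≤ Real.log N ^ 20 := pow_le_pow_left₀ (by norm_num) hl6 20
    have h2 : (25 : ℝ) ≤ 6 ^ 20 := by norm_num
    linarith
  have hlK : 1 ≤ Real.log K := by
    rw [Real.le_log_iff_exp_le (by linarith)]
    have := Real.exp_one_lt_d9
    linarith
  -- the bound for the size
  have hsize : x < (pw N c' + 1) ^ (J + 1) := by
    have h1 : (N : ℝ) ^ c' < (pw N c' : ℝ) + 1 := Nat.lt_floor_add_one _
    have h2 : (N : ℝ) ^ 2 ≤ ((N : ℝ) ^ c') ^ (J + 1) := by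
      rw [← Real.rpow_natCast ((N : ℝ) ^ c'), ← Real.rpow_mul hNp.le, ← Real.rpow_natCast (N : ℝ) 2]
      refine Real.rpow_le_rpow_of_exponent_le hNR ?_
      push_cast
      exact hcJ
    have h3 : ((N : ℝ) ^ c') ^ (J + 1) < ((pw N c' : ℝ) + 1) ^ (J + 1) :=
      pow_lt_pow_left₀ h1 (by positivity) (by omega)
    have h4 : (x : ℝ) ≤ (N : ℝ) ^ 2 := by exact_mod_cast hxN
    have h5 : (x : ℝ) < (((pw N c' + 1) ^ (J + 1) : ℕ) : ℝ) := by
      push_cast
      linarith
    exact_mod_cast h5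
  rw [Sft, Finset.mem_filter, Finset.mem_Icc] at hn
  obtain ⟨⟨hn1, hnx⟩, hn6, hns⟩ := hn
  have hx0 : 0 < x := by omega
  have hnltx : n < x := by omega
  -- prime factors of n
  have hpn : ∀ p : ℕ, p.Prime → p ∣ n → p ≠ K → pw N c' < p := by
    intro p hp hpd hpK
    by_contra hle
    have h5 : 5 ≤ p ∨ p < 5 := by omega
    rcases h5 with h5 | h5
    · exact hns p hp h5 (by omega) hpK (hpd.mul_right _)
    · have h23 : p ∣ 6 := by
        have h2 := hp.two_le
        interval_cases p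
        · norm_num
        · norm_num
        · exact absurd hp (by norm_num)
      have h1 : p ∣ Nat.gcd n 6 := Nat.dvd_gcd hpd h23
      rw [hn6] at h1
      exact hp.one_lt.ne' (Nat.dvd_one.1 h1)
  have hpx : ∀ p : ℕ, p.Prime → p ∣ x - n → p ≠ K → pw N c' < p := by
    intro p hp hpd hpK
    by_contra hle
    have h5 : 5 ≤ p ∨ p < 5 := by omega
    rcases h5 with h5 | h5
    · exact hns p hp h5 (by omega) hpK (hpd.mul_left _)
    · have h23 : p ∣ 6 := by
        have h2 := hp.two_le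
        interval_cases p
        · norm_num
        · norm_num
        · exact absurd hp (by norm_num)
      have h0 : p ∣ n := by
        have h1 : p ∣ x := h23.trans h6x
        have h2 : n = x - (x - n) := by omega
        rw [h2]
        exact Nat.dvd_sub h1 hpd
      have h1 : p ∣ Nat.gcd n 6 := Nat.dvd_gcd h0 h23
      rw [hn6] at h1
      exact hp.one_lt.ne' (Nat.dvd_one.1 h1)
  constructor
  · -- the bound for rho
    have hr := rho_le hrc n
    obtain ⟨a, m, hm, hnm⟩ := Nat.exists_eq_pow_mul_and_not_dvd (n := n) (by omega) K hKp.ne_one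
    have hm0 : 0 < m := Nat.pos_of_ne_zero fun h => hm (h ▸ dvd_zero K)
    have hmn : m ≤ n := by
      rw [hnm]
      exact Nat.le_mul_of_pos_left m (pow_pos hKp.pos a)
    have hcop : (K ^ a).Coprime m := Nat.Coprime.pow_left a ((Nat.Prime.coprime_iff_not_dvd hKp).2 hm)
    have hmd := (RHB_div (z := pw N c') (J := J) hm0 (fun p hp hpd => hpn p hp (by rw [hnm]; exact hpd.mul_left _)
      (fun h => hm (h ▸ hpd))) (by omega)).2
    have hcard : n.divisors.card ≤ (a + 1) * 2 ^ J := by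
      rw [hnm, Nat.Coprime.card_divisors_mul hcop, Nat.divisors_prime_pow hKp, Finset.card_map, Finset.card_range]
      exact Nat.mul_le_mul_left _ hmd
    have hlogn : Real.log n ≤ 2 * Real.log N := by
      have h1 : (n : ℝ) ≤ (N : ℝ) ^ 2 := by
        have : n ≤ N ^ 2 := by omega
        exact_mod_cast this
      have hn0 : (0 : ℝ) < n := by
        have : 0 < n := by omega
        exact_mod_cast this
      have h2 := Real.log_le_log hn0 h1
      rw [Real.log_pow] at h2
      exact_mod_cast h2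
    have hlogn0 : 0 ≤ Real.log n := Real.log_natCast_nonneg n
    have ha : (a : ℝ) ≤ 2 * Real.log N := by
      have h1 : ((K ^ a : ℕ) : ℝ) ≤ n := by
        have : K ^ a ≤ n := by
          rw [hnm]
          exact Nat.le_mul_of_pos_right _ hm0
        exact_mod_cast this
      have h2 := Real.log_le_log (by exact_mod_cast pow_pos hKp.pos a) h1
      push_cast at h2
      rw [Real.log_pow] at h2
      have h3 : (a : ℝ) ≤ a * Real.log K := le_mul_of_one_le_right (Nat.cast_nonneg a) hlK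
      linarith
    have hcardR : (n.divisors.card : ℝ) ≤ (a + 1) * 2 ^ J := by exact_mod_cast hcard
    calc rho c n ≤ n.divisors.card * Real.log n := hr
      _ ≤ ((a + 1) * 2 ^ J) * (2 * Real.log N) := by gcongr
      _ ≤ ((2 * Real.log N + 1) * 2 ^ J) * (2 * Real.log N) := by gcongr
      _ ≤ ((3 * Real.log N) * 2 ^ J) * (2 * Real.log N) := by gcongr; linarith
      _ = (6 * 2 ^ J) * Real.log N ^ 2 := by ring
      _ ≤ Real.log N * Real.log N ^ 2 := by gcongr
      _ = Real.log N ^ 3 := by ring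
  · intro hKn
    have hKx' : ¬ K ∣ x - n := by
      intro h
      apply hKn
      have h2 : n = x - (x - n) := by omega
      rw [h2]
      exact Nat.dvd_sub hKx h
    refine ⟨(RHB_div (z := pw N c') (J := J) (by omega) (fun p hp hpd => hpn p hp hpd (fun h => hKn (h ▸ hpd)))
      (by omega)).1, (RHB_div (z := pw N c') (J := J) (by omega) (fun p hp hpd => hpx p hp hpd (fun h => hKx' (h ▸ hpd)))
      (by omega)).1⟩

end Pool.Agent.Lib.PX
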