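import Pool.Agent.Lib.MP_7b7e48_nt.PX.RHO
import Pool.Agent.Lib.MP_7b7e48_nt.PX.XSL

/-!
# SGN: good `n` are primes, and the sign of `x - n`

PROOF. `SGa`: let `p` be a prime factor of `n`: `p ≥ 5` (`n` coprime to `6`), `p ≠ K` (`¬ K ∣ n`), so `p > z` by `Sft`; `p` is coprime to `N`, not rare, so `c p = -1` (`hc.val`). `n` is squarefree (`p² ∣ n` is excluded). `rho_prime`: `n` is prime, so `c n = -1`. `N < n`, `N < x - n` by `¬ Bdn`. `x - n`: a prime factor `p ≤ z`: `p = 2, 3`: `6 ∣ x`, so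
`p ∣ n`; `p = K`: `K ∣ x`, so `K ∣ n`; otherwise `Sft`. A common prime factor of `x - n` and `N` divides `x` and so `n`, against `n.Coprime N`. (`N ≥ 1`; `K` is prime by `PPl`.) `SGb`: `(N-1) n + (N t) = (x - n)` modulo `N`; periodicity: `c (x - n) = c ((N - 1) * n) = c (N-1) c n` because `(N-1) n = x - n` modulo `N`.
`SGc`: `lam` and `c` are completely multiplicative, every prime factor `p` of `b` has `p > z`, is coprime to `N` and not rare, so `c p = -1 = lam p`. Induction over the prime factors (`Nat.recOnMul` or `b.primeFactorsList`).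
-/

set_option autoImplicit false

open Finset
open Pool.Agent.Lib.GT (Rough V)
open Pool.Agent.Lib.MP_45349e_nt.LS (lam)
open Pool.Agent.Lib.RG (RC LV rr SS PB sig)

namespace Pool.Agent.Lib.PX

open Pool.Agent.Lib.PQ (pw)

private theorem SGN_one {N : ℕ} {c : ℕ → ℝ} (hc : RC N c) : c 1 = 1 := by
  have h1 : c 1 = c 1 * c 1 := by
    have := hc.mul 1 1
    simpa using this
  rcases hc.val 1 (Nat.coprime_one_left N) with h | h
  · exact h
  · rw [h] at h1
    norm_num at h1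

private theorem SGN_per {N : ℕ} {c : ℕ → ℝ} (hc : RC N c) (n k : ℕ) : c (n + N * k) = c n := by
  induction k with
  | zero => simp
  | succ k ih =>
    have : n + N * (k + 1) = (n + N * k) + N := by ring
    rw [this, hc.per, ih]

private theorem SGN_mod {N : ℕ} {c : ℕ → ℝ} (hc : RC N c) {a b : ℕ} (h : a ≡ b [MOD N]) : c a = c b := by
  have h1 : c a = c (a % N) := by
    conv_lhs => rw [← Nat.mod_add_div a N]
    exact SGN_per hc _ _
  have h2 : c b = c (b % N) := by
    conv_lhs => rw [← Nat.mod_add_div b N]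
    exact SGN_per hc _ _
  rw [h1, h2, h]

theorem SGa {N x K z : ℕ} {c : ℕ → ℝ} (hc : RC N c) (hN : 1 ≤ N) (hx : XS N x K) (n : ℕ) (hn : n ∈ Sft x z K)
    (h1 : ¬ Bdn N x z K n) (h2 : ¬ Rar c z n) (h3 : 0 < rho c n) :
    n.Prime ∧ c n = -1 ∧ N < n ∧ n < x ∧ Rough z (x - n) ∧ (x - n).Coprime N ∧ N < x - n := by
  classical
  obtain ⟨hnI, hn6, hS⟩ := by
    have := Finset.mem_filter.1 hn
    exact (⟨this.1, this.2.1, this.2.2⟩ : n ∈ Finset.Icc 1 (x - 1) ∧ n.Coprime 6 ∧
      ∀ p : ℕ, p.Prime → 5 ≤ p → p ≤ z → p ≠ K → ¬ p ∣ n * (x - n))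
  have hnI' := Finset.mem_Icc.1 hnI
  have hnx : n < x := by omega
  have hb1 : ¬ K ∣ n := fun h => h1 (Or.inl h)
  have hb2 : n.Coprime N := by
    by_contra h
    exact h1 (Or.inr (Or.inl h))
  have hb3 : ∀ p : ℕ, p.Prime → z < p → ¬ p ^ 2 ∣ n := fun p hp hzp hd =>
    h1 (Or.inr (Or.inr (Or.inl ⟨p, hp, hzp, hd⟩)))
  have hb4 : N < n := by
    by_contra h
    exact h1 (Or.inr (Or.inr (Or.inr (Or.inl (by omega)))))
  have hb5 : N < x - n := by
    by_contra h
    exact h1 (Or.inr (Or.inr (Or.inr (Or.inr (by omega)))))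
  have h2n : ¬ 2 ∣ n := by
    intro h
    have : 2 ∣ Nat.gcd n 6 := Nat.dvd_gcd h (by norm_num)
    rw [hn6] at this
    omega
  have h3n : ¬ 3 ∣ n := by
    intro h
    have : 3 ∣ Nat.gcd n 6 := Nat.dvd_gcd h (by norm_num)
    rw [hn6] at this
    omega
  have h5 : ∀ q : ℕ, q.Prime → q ≠ 2 → q ≠ 3 → 5 ≤ q := by
    intro q hq hq2 hq3
    have := hq.two_le
    by_contra h
    have h4 : q = 4 := by omega
    rw [h4] at hq
    exact absurd hq (by norm_num)
  have hz : ∀ q : ℕ, q.Prime → q ∣ n → z < q := by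
    intro q hq hqn
    by_contra h
    have hq5 : 5 ≤ q := h5 q hq (fun e => h2n (e ▸ hqn)) (fun e => h3n (e ▸ hqn))
    exact hS q hq hq5 (by omega) (fun e => hb1 (e ▸ hqn)) (dvd_mul_of_dvd_left hqn _)
  have hqc : ∀ q : ℕ, q.Prime → q ∣ n → c q = -1 := by
    intro q hq hqn
    rcases hc.val q (hb2.coprime_dvd_left hqn) with h | h
    · exact absurd ⟨q, hq, hz q hq hqn, h, hqn⟩ h2
    · exact h
  have hsq : Squarefree n := by
    rw [Nat.squarefree_iff_prime_squarefree]
    intro p hp hd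
    exact hb3 p hp (hz p hp ((dvd_mul_right p p).trans hd)) (by rwa [pow_two])
  have hpr : n.Prime := rho_prime hc n hb2 hsq hqc h3
  have hback : ∀ p : ℕ, p ∣ x → p ∣ x - n → p ∣ n := by
    intro p hp1 hp2
    have := Nat.dvd_sub hp1 hp2
    rwa [Nat.sub_sub_self hnx.le] at this
  have h6x : 6 ∣ x := by
    rw [hx.eq, mul_assoc]
    exact dvd_mul_right _ _
  have hKx : K ∣ x := by
    rw [hx.eq]
    exact dvd_mul_of_dvd_left (dvd_mul_left _ _) _
  have hNx : N ∣ x := by
    rw [hx.eq]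
    exact dvd_mul_left _ _
  refine ⟨hpr, hqc n hpr dvd_rfl, hb4, hnx, ?_, ?_, hb5⟩
  · intro p hp hpd
    by_contra h
    by_cases hp2 : p = 2
    · exact h2n (hp2 ▸ hback p (hp2 ▸ (dvd_trans (by norm_num) h6x)) hpd)
    by_cases hp3 : p = 3
    · exact h3n (hp3 ▸ hback p (hp3 ▸ (dvd_trans (by norm_num) h6x)) hpd)
    by_cases hpK : p = K
    · exact hb1 (hpK ▸ hback p (hpK ▸ hKx) hpd)
    exact hS p hp (h5 p hp hp2 hp3) (by omega) hpK (dvd_mul_of_dvd_right hpd _)
  · have hg1 : Nat.gcd (x - n) N ∣ n :=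
      hback _ ((Nat.gcd_dvd_right _ _).trans hNx) (Nat.gcd_dvd_left _ _)
    have hg2 : Nat.gcd (x - n) N ∣ Nat.gcd n N := Nat.dvd_gcd hg1 (Nat.gcd_dvd_right _ _)
    rw [hb2] at hg2
    exact Nat.dvd_one.1 hg2

theorem SGb {N : ℕ} {c : ℕ → ℝ} (hc : RC N c) (hN : 1 ≤ N) (x n : ℕ) (hx : N ∣ x) (hn : n < x) :
    c (x - n) = c (N - 1) * c n := by
  rw [← hc.mul]
  refine SGN_mod hc ?_
  have h1 : (x - n) + n ≡ (N - 1) * n + n [MOD N] := by
    have e1 : (x - n) + n = x := Nat.sub_add_cancel hn.le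
    have e2 : (N - 1) * n + n = N * n := by
      obtain ⟨m, rfl⟩ : ∃ m, N = m + 1 := ⟨N - 1, by omega⟩
      simp only [Nat.add_sub_cancel]
      ring
    rw [e1, e2]
    exact ((Nat.modEq_zero_iff_dvd).2 hx).trans ((Nat.modEq_zero_iff_dvd).2 (dvd_mul_right N n)).symm
  exact Nat.ModEq.add_right_cancel' n h1

theorem SGc {N : ℕ} {c : ℕ → ℝ} (hc : RC N c) (z b : ℕ) (h1 : 1 ≤ b) (h2 : Rough z b) (h3 : b.Coprime N)
    (h4 : ¬ Rar c z b) : lam b = c b := by
  induction b using Nat.strong_induction_on with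
  | _ b ih =>
    by_cases hb : b = 1
    · subst hb
      rw [SGN_one hc]
      simp [lam]
    · have hp : (Nat.minFac b).Prime := Nat.minFac_prime hb
      obtain ⟨m, hm⟩ := Nat.minFac_dvd b
      set p := Nat.minFac b with hpdef
      have hpb : p ∣ b := ⟨m, hm⟩
      have hmb : m ∣ b := ⟨p, by rw [hm]; ring⟩
      have hm0 : m ≠ 0 := by
        rintro rfl
        simp at hm
        omega
      have hmlt : m < b := by
        have h2p := hp.two_le
        have : 1 ≤ m := by omega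
        nlinarith
      have ihm : lam m = c m := ih m hmlt (by omega) (fun q hq hqm => h2 q hq (hqm.trans hmb))
        (h3.coprime_dvd_left hmb) (fun ⟨q, hq, hzq, hcq, hqm⟩ => h4 ⟨q, hq, hzq, hcq, hqm.trans hmb⟩)
      have hcp : c p = -1 := by
        rcases hc.val p (h3.coprime_dvd_left hpb) with h | h
        · exact absurd ⟨p, hp, h2 p hp hpb, h, hpb⟩ h4
        · exact h
      have hl : lam b = - lam m := by
        unfold lam
        rw [hm, ArithmeticFunction.cardFactors_mul hp.ne_zero hm0,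
          ArithmeticFunction.cardFactors_apply_prime hp, pow_add]
        ring
      rw [hl, ihm, hm, hc.mul, hcp]
      ring

end Pool.Agent.Lib.PX
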