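import Pool.Agent.Lib.MP_7b7e48_nt.PX.SQl
import Pool.Agent.Lib.MP_7b7e48_nt.PX.RHB
import Pool.Agent.Lib.MP_7b7e48_nt.PX.SGN
import Pool.Agent.Lib.MP_7b7e48_nt.PX.CNq
import Pool.Agent.Lib.MP_7b7e48_nt.PX.CNr
import Pool.Agent.Lib.MP_7b7e48_nt.PX.QEX

/-!
# FXr: the rare parity

PROOF. `c1`, `c3` from `SQl μ`; `J₀` from `RHB c'`, `J = J₀ + 1`. Let `Q`, `QQ` be as in the statement (all `q ∈ QQ` rare, `∑ 1/q ≥ N^(-μ/100)`), `S = ∑_{q ∈ QQ} 1/q`. `SQl`: `∑_q ∑_{n ∈ Sft, n = x (q)} rho c n ≥ c3 x S/(log N)^5 - N^(1-μ/20)`. The bad pairs `(q, n)` of `CNq` and `CNr` contribute at most `(log N)^3 (2 x S/(log N)^9 + 2 N^(1-μ/60))` (`RHB`).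
As `x S ≥ N^(1-μ/100)`, the good pairs have a sum `≥ x S/(log N)^6 ≥ N^(1-μ/90)`. GOOD: `n ∈ Sft`, `n = x` modulo `q`, `¬ Bdn`, no rare prime factor `> z` of `n` (a rare `q₁ ∣ n` has `q q₁ ≤ x` or `x < q q₁`), `¬ Rar c z ((x-n)/q)`, `rho c n > 0`. For a good pair `SGa` applies to `n`; `b = x - n = q b'`, `b'` is `z`-rough, coprime to `N`, `c b = c q c b' = c b'`,
`lam b' = c b'` (`SGc`), `lam b = lam q lam b' = - c b' = - c b = - c (N-1) c n = c (N-1)` (`SGb`, `c n = -1`); `Ω(b) ≤ J`. So `n ∈ GX`. Every `n` belongs to at most `Ω(x - n) ≤ J` values of `q`, `rho c n ≤ (log N)^3`: `#GX ≥ N^(1-μ/90)/(J (log N)^3) ≥ N^(1-μ/50)`.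
-/

set_option autoImplicit false

open Finset
open Pool.Agent.Lib.GT (Rough V)
open Pool.Agent.Lib.MP_45349e_nt.LS (lam)
open Pool.Agent.Lib.RG (RC LV rr SS PB sig)

namespace Pool.Agent.Lib.PX

open Pool.Agent.Lib.PQ (pw)

private theorem fx_tend : Filter.Tendsto (fun N : ℕ => Real.log N) Filter.atTop Filter.atTop :=
  Real.tendsto_log_atTop.comp tendsto_natCast_atTop_atTop

private theorem fx_lam {q b : ℕ} (hq : q.Prime) (hb : b ≠ 0) : lam (q * b) = - lam b := by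
  unfold Pool.Agent.Lib.MP_45349e_nt.LS.lam
  rw [ArithmeticFunction.cardFactors_mul hq.ne_zero hb, ArithmeticFunction.cardFactors_apply_prime hq, pow_add, pow_one]
  ring

open Classical in
/-- a good pair -/
private theorem fx_good {N x K z J q n : ℕ} {c : ℕ → ℝ} (hc : RC N c) (hN : 1 ≤ N) (hx : XS N x K) (hNx : N ∣ x)
    (hq : q.Prime) (hcq : c q = 1) (hn : n ∈ Sft x z K) (hnq : n ≡ x [MOD q])
    (h1 : ¬ Bdn N x z K n) (h2 : ¬ Rar c z n) (h3 : ¬ Rar c z ((x - n) / q)) (h0 : 0 < rho c n)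
    (hJ : ArithmeticFunction.cardFactors (x - n) ≤ J) :
    n ∈ GX N x z J (c (N - 1)) ∧ q ∣ x - n := by
  obtain ⟨k1, k2, k3, k4, k5, k6, k7⟩ := SGa hc hN hx n hn h1 h2 h0
  have k8 := SGb hc hN x n hNx k4
  rw [k2] at k8
  have hd : q ∣ x - n := (Nat.modEq_iff_dvd' (by omega)).1 hnq
  obtain ⟨b, hb⟩ := hd
  have hdiv : (x - n) / q = b := by
    rw [hb, Nat.mul_div_cancel_left _ hq.pos]
  rw [hdiv] at h3
  have hb0 : b ≠ 0 := by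
    rintro rfl
    rw [mul_zero] at hb
    omega
  have hbr : Rough z b := by
    intro p hp hpb
    refine k5 p hp ?_
    rw [hb]
    exact Dvd.dvd.mul_left hpb q
  have hbN : b.Coprime N := by
    rw [hb] at k6
    exact Nat.Coprime.coprime_mul_left k6
  have hlb := SGc hc z b (by omega) hbr hbN h3
  have hcb : c (x - n) = c b := by
    rw [hb, hc.mul, hcq, one_mul]
  have hlam : lam (x - n) = c (N - 1) := by
    rw [hb, fx_lam hq hb0, hlb, ← hcb, k8]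
    ring
  refine ⟨?_, ⟨b, hb⟩⟩
  unfold GX
  rw [Finset.mem_filter, Finset.mem_range]
  exact ⟨k4, k1, k3, x - n, k7, by omega, k5, hJ, hlam⟩

open Classical in
/-- counting the pairs -/
private theorem fx_count {N x z J : ℕ} {s : ℝ} (QQ : Finset ℕ) (hQ : ∀ q ∈ QQ, q.Prime) (G : ℕ → Finset ℕ)
    (hG : ∀ q ∈ QQ, ∀ n ∈ G q, n ∈ GX N x z J s ∧ q ∣ x - n) :
    ∑ q ∈ QQ, (G q).card ≤ J * (GX N x z J s).card := by
  have h1 : ∀ q ∈ QQ, (G q).card = ∑ n ∈ GX N x z J s, if n ∈ G q then 1 else 0 := by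
    intro q hq
    rw [← Finset.sum_filter, Finset.sum_const, smul_eq_mul, mul_one]
    congr 1
    ext n
    rw [Finset.mem_filter]
    exact ⟨fun h => ⟨(hG q hq n h).1, h⟩, fun h => h.2⟩
  rw [Finset.sum_congr rfl h1, Finset.sum_comm]
  have h2 : ∀ n ∈ GX N x z J s, ∑ q ∈ QQ, (if n ∈ G q then 1 else 0) ≤ J := by
    intro n hn
    rw [← Finset.sum_filter, Finset.sum_const, smul_eq_mul, mul_one]
    unfold GX at hn
    rw [Finset.mem_filter, Finset.mem_range] at hn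
    obtain ⟨hnx, -, -, b, hNb, hb, -, hbJ, -⟩ := hn
    have hbx : x - n = b := by omega
    have h3 : QQ.filter (fun q => n ∈ G q) ⊆ b.primeFactors := by
      intro q hq
      rw [Finset.mem_filter] at hq
      rw [Nat.mem_primeFactors]
      refine ⟨hQ q hq.1, ?_, by omega⟩
      rw [← hbx]
      exact (hG q hq.1 n hq.2).2
    refine (Finset.card_le_card h3).trans (le_trans ?_ hbJ)
    rw [ArithmeticFunction.cardFactors_apply]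
    exact List.toFinset_card_le _
  calc ∑ n ∈ GX N x z J s, ∑ q ∈ QQ, (if n ∈ G q then 1 else 0) ≤ ∑ n ∈ GX N x z J s, J := Finset.sum_le_sum h2
    _ = J * (GX N x z J s).card := by
      rw [Finset.sum_const, smul_eq_mul, mul_comm]

private theorem fx_num {ℓ c3 W G1 B1 B2 E1 E2 E3 E4 E5 J G P : ℝ} (hℓ : 1 ≤ ℓ) (hc3 : 0 < c3)
    (hℓ2 : 4 / c3 ≤ ℓ) (hW0 : 0 ≤ W) (hWl : E4 ≤ W)
    (hmain : c3 * W - E1 ≤ ℓ ^ 3 * (G1 + B1 + B2)) (hB1 : ℓ ^ 3 * B1 ≤ W / ℓ + ℓ ^ 3 * E2)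
    (hB2 : ℓ ^ 3 * B2 ≤ W / ℓ + ℓ ^ 3 * E3) (h1 : E1 ≤ ℓ ^ 3 * E3) (h2 : E2 ≤ E3)
    (h3 : 12 / c3 * (ℓ ^ 3 * E3) ≤ E4) (hG1 : G1 ≤ J * G) (hJ : 0 < J) (_hP : 0 ≤ P)
    (h4 : 4 * J / c3 * ℓ ^ 3 * P ≤ E4) (_h5 : 0 ≤ E5) : P ≤ G := by
  have hℓ0 : 0 < ℓ := by linarith
  have a1 : W / ℓ ≤ c3 / 4 * W := by
    rw [div_le_iff₀ hℓ0]
    rw [div_le_iff₀ hc3] at hℓ2
    nlinarith
  have a2 : ℓ ^ 3 * E2 ≤ ℓ ^ 3 * E3 := mul_le_mul_of_nonneg_left h2 (by positivity)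
  have a3 : 3 * (ℓ ^ 3 * E3) ≤ c3 / 4 * E4 := by
    have := mul_le_mul_of_nonneg_left h3 (show 0 ≤ c3 / 4 by positivity)
    have e : c3 / 4 * (12 / c3 * (ℓ ^ 3 * E3)) = 3 * (ℓ ^ 3 * E3) := by
      field_simp
      ring
    linarith
  have a4 : c3 / 4 * E4 ≤ c3 / 4 * W := mul_le_mul_of_nonneg_left hWl (by positivity)
  have a5 : c3 / 4 * E4 ≤ ℓ ^ 3 * G1 := by
    have e : ℓ ^ 3 * (G1 + B1 + B2) = ℓ ^ 3 * G1 + ℓ ^ 3 * B1 + ℓ ^ 3 * B2 := by ring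
    have e4 : 0 ≤ c3 / 4 * (W - E4) := mul_nonneg (by positivity) (by linarith)
    nlinarith
  have a6 : ℓ ^ 3 * G1 ≤ ℓ ^ 3 * (J * G) := mul_le_mul_of_nonneg_left hG1 (by positivity)
  have a7 : ℓ ^ 3 * J * P ≤ ℓ ^ 3 * J * G := by
    have := mul_le_mul_of_nonneg_left h4 (show 0 ≤ c3 / 4 by positivity)
    have e : c3 / 4 * (4 * J / c3 * ℓ ^ 3 * P) = ℓ ^ 3 * J * P := by
      field_simp
    calc ℓ ^ 3 * J * P ≤ c3 / 4 * E4 := by linarith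
      _ ≤ ℓ ^ 3 * (J * G) := a5.trans a6
      _ = ℓ ^ 3 * J * G := by ring
  exact le_of_mul_le_mul_left a7 (by positivity)

open Classical in
theorem FXr (μ : ℝ) (hμ : 0 < μ) (hμ1 : μ ≤ 1 / 10) : ∃ c1 : ℝ, 0 < c1 ∧ ∀ c' : ℝ, 0 < c' → c' ≤ c1 →
    ∃ J N0 : ℕ, ∀ N : ℕ, N0 ≤ N → ∀ (c : ℕ → ℝ) (L : ℝ), RC N c → LV N c L → (N : ℝ) ^ (-(μ / 100)) ≤ L →
    L ≤ (Real.log N ^ 30)⁻¹ → sig c (pw N c') (N ^ 2) ≤ (Real.log N ^ 12)⁻¹ →
    ∀ (Q : ℕ) (QQ : Finset ℕ), QS N μ Q QQ → (∀ q ∈ QQ, c q = 1) →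
    (N : ℝ) ^ (-(μ / 100)) ≤ ∑ q ∈ QQ, 1 / (q : ℝ) → ∀ x K : ℕ, XS N x K →
    (N : ℝ) ^ (1 - μ / 50) ≤ ((GX N x (pw N c') J (c (N - 1))).card : ℝ) := by
  obtain ⟨c1, c3, hc1, hc3, hSQ⟩ := SQl μ hμ hμ1
  refine ⟨min c1 (1 / 100), lt_min hc1 (by norm_num), fun c' hc' hcc => ?_⟩
  obtain ⟨J0, N1, hRHB⟩ := RHB c' hc'
  obtain ⟨J, hJdef⟩ : ∃ J : ℕ, J = J0 + 1 := ⟨_, rfl⟩
  obtain ⟨N2, hSQ⟩ := hSQ c' hc' (hcc.trans (min_le_left _ _))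
  obtain ⟨N3, hCq⟩ := CNq μ c' hμ hμ1 hc' (hcc.trans (min_le_right _ _))
  obtain ⟨N4, hCr⟩ := CNr μ hμ hμ1
  obtain ⟨N5, h5⟩ := XSsz
  obtain ⟨N6, h6⟩ := PL.sz_log 3 (12 / c3) (μ / 150) (by positivity)
  obtain ⟨N7, h7⟩ := PL.sz_log 3 (4 * J / c3) (μ / 100) (by positivity)
  obtain ⟨N8, h8⟩ := Filter.eventually_atTop.1 (fx_tend.eventually_ge_atTop (max 1 (4 / c3)))
  refine ⟨J, N1 + N2 + N3 + N4 + N5 + N6 + N7 + N8 + 2,
    fun N hN c L hcR hL hLl hLs hsig Q QQ hQ hQc hQS x K hx => ?_⟩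
  replace hRHB := hRHB N (by omega) c hcR x K hx
  replace hSQ := hSQ N (by omega) c L hcR hL hLs x K hx Q QQ hQ
  replace hCq := hCq N (by omega) c hcR hsig x K hx Q QQ hQ
  replace hCr := hCr N (by omega) c L hcR hL hLl hLs x K hx Q QQ hQ
  replace h5 := h5 N (by omega) x K hx
  replace h6 := h6 N (by omega)
  replace h7 := h7 N (by omega)
  replace h8 := h8 N (by omega)
  obtain ⟨hKp, hKN, -, hKx, hNx, -, -, hxlow, -, hNlex, -⟩ := h5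
  have hN1 : (1 : ℝ) ≤ N := by
    have : 1 ≤ N := by omega
    exact_mod_cast this
  have hN0 : (0 : ℝ) < N := by linarith
  obtain ⟨ℓ, hℓ⟩ : ∃ ℓ : ℝ, ℓ = Real.log N := ⟨_, rfl⟩
  obtain ⟨z, hz⟩ : ∃ z : ℕ, z = pw N c' := ⟨_, rfl⟩
  rw [← hℓ] at hRHB hSQ hCq hCr h6 h7 h8 hxlow
  rw [← hz] at hRHB hSQ hCq ⊢
  have hℓ1 : 1 ≤ ℓ := (le_max_left _ _).trans h8
  have hℓ2 : 4 / c3 ≤ ℓ := (le_max_right _ _).trans h8
  have hℓ0 : 0 < ℓ := by linarith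
  obtain ⟨S, hS⟩ : ∃ S : ℝ, S = ∑ q ∈ QQ, 1 / (q : ℝ) := ⟨_, rfl⟩
  rw [← hS] at hSQ hCq hCr hQS
  -- the pieces
  obtain ⟨B, hB⟩ : ∃ B : ℕ → Finset ℕ, B = fun q => (Sft x z K).filter (fun n => n ≡ x [MOD q] ∧ (Bdn N x z K n ∨
      (∃ q₁ : ℕ, q₁.Prime ∧ z < q₁ ∧ c q₁ = 1 ∧ q₁ ∣ n ∧ q * q₁ ≤ x) ∨
      Rar c z ((x - n) / q))) := ⟨_, rfl⟩
  obtain ⟨B', hB'⟩ : ∃ B' : ℕ → Finset ℕ, B' = fun q => (Finset.Icc 1 (x - 1)).filter (fun n => n ≡ x [MOD q] ∧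
      ∃ q₁ : ℕ, q₁.Prime ∧ c q₁ = 1 ∧ q₁ ∣ n ∧ x < q * q₁) := ⟨_, rfl⟩
  obtain ⟨G, hG⟩ : ∃ G : ℕ → Finset ℕ, G = fun q =>
    (((Sft x z K).filter (fun n => n ≡ x [MOD q])).filter (fun n => 0 < rho c n)) \ (B q ∪ B' q) := ⟨_, rfl⟩
  have hBq : ∑ q ∈ QQ, ((B q).card : ℝ) ≤ x / ℓ ^ 9 * S + (N : ℝ) ^ (1 - μ / 2) := by
    rw [hB]
    exact hCq
  have hBq' : ∑ q ∈ QQ, ((B' q).card : ℝ) ≤ x / ℓ ^ 9 * S + (N : ℝ) ^ (1 - μ / 60) := by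
    rw [hB']
    exact hCr
  have hone : ∀ q ∈ QQ, ∑ n ∈ (Sft x z K).filter (fun n => n ≡ x [MOD q]), rho c n ≤
      ℓ ^ 3 * ((G q).card + (B q).card + (B' q).card) := by
    intro q _
    have e1 : ∑ n ∈ (Sft x z K).filter (fun n => n ≡ x [MOD q]), rho c n =
        ∑ n ∈ ((Sft x z K).filter (fun n => n ≡ x [MOD q])).filter (fun n => 0 < rho c n), rho c n := by
      symm
      refine Finset.sum_filter_of_ne fun n _ h => ?_
      exact lt_of_le_of_ne (rho_nonneg hcR n) (Ne.symm h)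
    rw [e1]
    have e2 : ∀ n ∈ ((Sft x z K).filter (fun n => n ≡ x [MOD q])).filter (fun n => 0 < rho c n),
        rho c n ≤ ℓ ^ 3 := by
      intro n hn
      rw [Finset.mem_filter, Finset.mem_filter] at hn
      exact (hRHB n hn.1.1).1
    refine (Finset.sum_le_card_nsmul _ _ _ e2).trans ?_
    rw [nsmul_eq_mul, mul_comm]
    refine mul_le_mul_of_nonneg_left ?_ (by positivity)
    have e3 : (((Sft x z K).filter (fun n => n ≡ x [MOD q])).filter (fun n => 0 < rho c n)).card ≤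
        (G q).card + (B q).card + (B' q).card := by
      have e4 : ((Sft x z K).filter (fun n => n ≡ x [MOD q])).filter (fun n => 0 < rho c n) ⊆
          G q ∪ (B q ∪ B' q) := by
        intro n hn
        rw [Finset.mem_union]
        by_cases h : n ∈ B q ∪ B' q
        · exact Or.inr h
        · left
          rw [hG]
          exact Finset.mem_sdiff.2 ⟨hn, h⟩
      refine (Finset.card_le_card e4).trans ((Finset.card_union_le _ _).trans ?_)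
      have := Finset.card_union_le (B q) (B' q)
      omega
    exact_mod_cast e3
  have hgood : ∀ q ∈ QQ, ∀ n ∈ G q, n ∈ GX N x z J (c (N - 1)) ∧ q ∣ x - n := by
    intro q hq n hn
    rw [hG] at hn
    rw [Finset.mem_sdiff, Finset.mem_filter, Finset.mem_filter, Finset.mem_union, hB, hB', not_or] at hn
    simp only [Finset.mem_filter, not_and, not_or] at hn
    obtain ⟨⟨⟨hnS, hnq⟩, hn0⟩, hnB, hnB'⟩ := hn
    obtain ⟨k1, k2, k3⟩ := hnB hnS hnq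
    have hnI : n ∈ Finset.Icc 1 (x - 1) := by
      unfold Sft at hnS
      exact (Finset.mem_filter.1 hnS).1
    have k4 := hnB' hnI hnq
    have hrar : ¬ Rar c z n := by
      rintro ⟨p, hp, hpz, hpc, hpn⟩
      rcases Nat.lt_or_ge x (q * p) with h | h
      · exact k4 ⟨p, hp, hpc, hpn, h⟩
      · exact k2 ⟨p, hp, hpz, hpc, hpn, h⟩
    have hKn : ¬ K ∣ n := fun h => k1 (Or.inl h)
    refine fx_good hcR (by omega) hx hNx (hQ.mem q hq).1 (hQc q hq) hnS hnq k1 hrar k3 hn0 ?_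
    have := ((hRHB n hnS).2 hKn).2
    omega
  have hcount := fx_count QQ (fun q hq => (hQ.mem q hq).1) G hgood
  have hcount' : ∑ q ∈ QQ, ((G q).card : ℝ) ≤ J * ((GX N x z J (c (N - 1))).card : ℝ) := by
    exact_mod_cast hcount
  have hsumall : c3 * (x / ℓ ^ 5 * S) - (N : ℝ) ^ (1 - μ / 20) ≤ ℓ ^ 3 * (∑ q ∈ QQ, ((G q).card : ℝ) +
      ∑ q ∈ QQ, ((B q).card : ℝ) + ∑ q ∈ QQ, ((B' q).card : ℝ)) := by
    rw [← mul_assoc]
    refine hSQ.trans ((Finset.sum_le_sum hone).trans (le_of_eq ?_))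
    rw [← Finset.mul_sum, Finset.sum_add_distrib, Finset.sum_add_distrib]
  have hS0 : 0 ≤ S := (Real.rpow_nonneg hN0.le _).trans hQS
  have hx0 : (0 : ℝ) ≤ x := Nat.cast_nonneg x
  have hxN : (N : ℝ) ≤ x / ℓ ^ 5 := by
    rw [le_div_iff₀ (by positivity)]
    refine le_trans ?_ hxlow
    exact mul_le_mul_of_nonneg_left (pow_le_pow_right₀ hℓ1 (by norm_num)) hN0.le
  have hwid : ∀ E : ℝ, ℓ ^ 3 * (x / ℓ ^ 9 * S + E) = x / ℓ ^ 5 * S / ℓ + ℓ ^ 3 * E := by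
    intro E
    have : ℓ ≠ 0 := hℓ0.ne'
    field_simp
  refine fx_num hℓ1 hc3 hℓ2 (W := x / ℓ ^ 5 * S) (by positivity) (E4 := (N : ℝ) ^ (1 - μ / 100)) ?_ hsumall
    (E2 := (N : ℝ) ^ (1 - μ / 2)) (E3 := (N : ℝ) ^ (1 - μ / 60)) ?_ ?_ ?_ ?_ ?_ hcount' ?_ (by positivity) ?_ le_rfl
  · calc (N : ℝ) ^ (1 - μ / 100) = N * (N : ℝ) ^ (-(μ / 100)) := by
          rw [sub_eq_add_neg, Real.rpow_add hN0, Real.rpow_one]
      _ ≤ x / ℓ ^ 5 * S := mul_le_mul hxN hQS (by positivity) (by positivity)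
  · rw [← hwid]
    exact mul_le_mul_of_nonneg_left hBq (by positivity)
  · rw [← hwid]
    exact mul_le_mul_of_nonneg_left hBq' (by positivity)
  · have h1 : (N : ℝ) ^ (1 - μ / 20) ≤ (N : ℝ) ^ (1 - μ / 60) :=
      Real.rpow_le_rpow_of_exponent_le hN1 (by linarith)
    have h2 : (1 : ℝ) ≤ ℓ ^ 3 := one_le_pow₀ hℓ1
    have h3 : 0 ≤ (N : ℝ) ^ (1 - μ / 60) := by positivity
    nlinarith
  · exact Real.rpow_le_rpow_of_exponent_le hN1 (by linarith)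
  · calc 12 / c3 * (ℓ ^ 3 * (N : ℝ) ^ (1 - μ / 60)) = (12 / c3 * ℓ ^ 3) * (N : ℝ) ^ (1 - μ / 60) := by ring
      _ ≤ (N : ℝ) ^ (μ / 150) * (N : ℝ) ^ (1 - μ / 60) := mul_le_mul_of_nonneg_right h6 (by positivity)
      _ = (N : ℝ) ^ (1 - μ / 100) := by
          rw [← Real.rpow_add hN0]
          congr 1
          ring
  · rw [hJdef]
    positivity
  · calc 4 * (J : ℝ) / c3 * ℓ ^ 3 * (N : ℝ) ^ (1 - μ / 50) ≤ (N : ℝ) ^ (μ / 100) * (N : ℝ) ^ (1 - μ / 50) :=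
          mul_le_mul_of_nonneg_right h7 (by positivity)
      _ = (N : ℝ) ^ (1 - μ / 100) := by
          rw [← Real.rpow_add hN0]
          congr 1
          ring

end Pool.Agent.Lib.PX
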