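import Pool.Agent.Lib.MP_7b7e48_nt.PX.FXc
import Pool.Agent.Lib.MP_7b7e48_nt.PX.FXr
import Pool.Agent.Lib.MP_7b7e48_nt.PX.E0x
import Pool.Agent.Lib.MP_7b7e48_nt.PX.QEX
import Pool.Agent.Lib.MP_7b7e48_nt.SPV.D3
import Pool.Agent.Lib.MP_7b7e48_nt.RG.A2

/-!
# E1c: the exceptional case

PROOF. `SPV.spv` gives `β` with `PL.SPVB β`, `k = ⌈40/β⌉ + 160` (`PL.Par k β`), `μ = min (1/(1000k)) (min e (1/10))`. `c1` = minimum of the constants of `FXc` and `FXr μ` (and `1/100`), `c' = c1`; `J` = maximum of the two `J` (`GX` is monotone in `J`). `B ≥ 30` with `E0x c' 12` (the maximum of its `B` and `30`; `(log N)^(-B)` is decreasing in `B`). `L ≥ N^(-μ/200)`: by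
`RG.LV_char (μ/400)` there is `L'` with `LV` and `L' ≥ κ N^(-μ/400)`; `L = L'` because both are limits of the partial sums (`|L - L'| ≤ 4 PB/y` for all `y`). `RC` by `RG.RC_char`, `Spc` from `SPVB` (`χ` is real: the real part of the sum). `c (N-1) = ±1` (`N - 1` is coprime to `N`). For `s = -c (N-1)`: `FXc` (`x/(log N)^9 ≥ N ≥ N^(1-e)` by `XSsz`);
for `s = c (N-1)`: `QEX`, `FXr` (`1 - μ/50 ≥ 1 - e`). `x`, `K` from `XSex`.
-/

set_option autoImplicit false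

open Finset
open Pool.Agent.Lib.GT (Rough V)
open Pool.Agent.Lib.MP_45349e_nt.LS (lam)
open Pool.Agent.Lib.RG (RC LV rr SS PB sig)

namespace Pool.Agent.Lib.PX

open Pool.Agent.Lib.PQ (pw)

private theorem E1c_uniq {N : ℕ} {c : ℕ → ℝ} {L L' : ℝ} (h : LV N c L) (h' : LV N c L') : L = L' := by
  by_contra hne
  have hd : 0 < |L - L'| := abs_pos.2 (sub_ne_zero.2 hne)
  have hb : ∀ y : ℕ, 1 ≤ y → |L - L'| ≤ 4 * PB N / y := by
    intro y hy
    have h1 := h.2 y hy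
    have h2 := h'.2 y hy
    have h3 : |L - L'| ≤ |∑ a ∈ Finset.Icc 1 y, c a / a - L'| + |∑ a ∈ Finset.Icc 1 y, c a / a - L| := by
      have e : L - L' = (∑ a ∈ Finset.Icc 1 y, c a / a - L') - (∑ a ∈ Finset.Icc 1 y, c a / a - L) := by ring
      rw [e]
      exact abs_sub _ _
    have e2 : 4 * PB N / y = 2 * PB N / y + 2 * PB N / y := by ring
    rw [e2]
    linarith
  obtain ⟨y, hy⟩ := exists_nat_gt (4 * PB N / |L - L'|)
  have h1 := hb (y + 1) (by omega)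
  have hy1 : (0 : ℝ) < ((y + 1 : ℕ) : ℝ) := by positivity
  rw [le_div_iff₀ hy1] at h1
  rw [div_lt_iff₀ hd] at hy
  push_cast at h1
  nlinarith

private theorem E1c_tend (a κ : ℝ) (ha : 0 < a) (hκ : 0 < κ) : ∃ N0 : ℕ, ∀ N : ℕ, N0 ≤ N →
    (N : ℝ) ^ (-(2 * a)) ≤ κ * (N : ℝ) ^ (-a) := by
  have h := ((tendsto_rpow_atTop ha).comp tendsto_natCast_atTop_atTop).eventually_ge_atTop (1 / κ)
  obtain ⟨N1, hN1⟩ := Filter.eventually_atTop.1 h
  refine ⟨N1 + 1, fun N hN => ?_⟩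
  have h1 : 1 / κ ≤ (N : ℝ) ^ a := hN1 N (by omega)
  have hN0 : (0 : ℝ) < N := by
    have : 0 < N := by omega
    exact_mod_cast this
  have e : (N : ℝ) ^ (-(2 * a)) = (N : ℝ) ^ (-a) * (N : ℝ) ^ (-a) := by
    rw [← Real.rpow_add hN0]
    congr 1
    ring
  rw [e]
  refine mul_le_mul_of_nonneg_right ?_ (Real.rpow_nonneg hN0.le _)
  rw [Real.rpow_neg hN0.le]
  rw [div_le_iff₀ hκ] at h1
  have hp : 0 < (N : ℝ) ^ a := Real.rpow_pos_of_pos hN0 a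
  rw [inv_le_comm₀ hp hκ]
  rw [inv_eq_one_div, div_le_iff₀ hκ]
  exact h1

private theorem E1c_mono {N x z J J' : ℕ} {s : ℝ} (h : J ≤ J') : GX N x z J s ⊆ GX N x z J' s := by
  intro p hp
  classical
  unfold GX at hp ⊢
  obtain ⟨h1, h2, h3, b, h4, h5, h6, h7, h8⟩ := Finset.mem_filter.1 hp
  exact Finset.mem_filter.2 ⟨h1, h2, h3, b, h4, h5, h6, h7.trans h, h8⟩

theorem E1c (e : ℝ) (he : 0 < e) : ∃ (c' : ℝ) (J B N0 : ℕ), 0 < c' ∧ ∀ (N : ℕ) [NeZero N], N0 ≤ N →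
    ∀ χ : DirichletCharacter ℂ N, χ ≠ 1 → χ ^ 2 = 1 → ∀ L : ℝ, LV N (fun n => (χ (n : ZMod N)).re) L →
    L < (Real.log N ^ B)⁻¹ → ∀ s : ℝ, (s = 1 ∨ s = -1) →
    ∃ x K : ℕ, XS N x K ∧ (N : ℝ) ^ (1 - e) ≤ ((GX N x (pw N c') J s).card : ℝ) := by
  obtain ⟨β, hβ, hβ1, hspv⟩ := SPV.spv
  obtain ⟨k, hk⟩ : ∃ k : ℕ, k = ⌈40 / β⌉₊ + 160 := ⟨_, rfl⟩
  have hkr : 40 / β ≤ k := by
    rw [hk]
    push_cast
    have := Nat.le_ceil (40 / β)
    linarith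
  have hk0 : (0 : ℝ) < k := by
    have : 0 < k := by omega
    exact_mod_cast this
  have hP : PL.Par k β := ⟨hβ, hβ1, by
    rw [div_le_iff₀ hβ] at hkr
    linarith, hspv⟩
  obtain ⟨μ, hμd⟩ : ∃ μ : ℝ, μ = min (1 / (1000 * (k : ℝ))) (min e (1 / 10)) := ⟨_, rfl⟩
  have hμ : 0 < μ := by
    rw [hμd]
    refine lt_min (by positivity) (lt_min he (by norm_num))
  have hμk : μ ≤ 1 / (1000 * (k : ℝ)) := by
    rw [hμd]
    exact min_le_left _ _
  have hμe : μ ≤ e := by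
    rw [hμd]
    exact (min_le_right _ _).trans (min_le_left _ _)
  have hμ1 : μ ≤ 1 / 10 := by
    rw [hμd]
    exact (min_le_right _ _).trans (min_le_right _ _)
  obtain ⟨c1, hc1, F1⟩ := FXc
  obtain ⟨c2, hc2, F2⟩ := FXr μ hμ hμ1
  obtain ⟨c', hc'd⟩ : ∃ c' : ℝ, c' = min c1 c2 := ⟨_, rfl⟩
  have hc' : 0 < c' := by
    rw [hc'd]
    exact lt_min hc1 hc2
  obtain ⟨J1, N1, f1⟩ := F1 c' hc' (by rw [hc'd]; exact min_le_left _ _)
  obtain ⟨J2, N2, f2⟩ := F2 c' hc' (by rw [hc'd]; exact min_le_right _ _)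
  obtain ⟨B0, N3, e0⟩ := E0x c' hc' 12
  obtain ⟨κ, hκ, lv⟩ := RG.LV_char (μ / 400) (by positivity)
  obtain ⟨N4, q4⟩ := QEX hP μ hμ hμk
  obtain ⟨N5, xs⟩ := XSex
  obtain ⟨N6, sz⟩ := XSsz
  obtain ⟨N7, t7⟩ := E1c_tend (μ / 400) κ (by positivity) hκ
  obtain ⟨N8, t8⟩ := PL.sz_pl 20 (by norm_num) 1 1 one_pos
  obtain ⟨Q0, hQ0, hsp⟩ := hspv
  refine ⟨c', max J1 J2, max B0 30, N1 + N2 + N3 + N4 + N5 + N6 + N7 + N8 + Q0 + 2, hc', ?_⟩
  intro N _ hN χ hχ1 hχ2 L hL hLB s hs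
  have hRC : RC N (fun n => (χ (n : ZMod N)).re) := RG.RC_char N (by omega) χ hχ2 hχ1
  obtain ⟨c, hcd⟩ : ∃ c : ℕ → ℝ, c = fun n : ℕ => (χ (n : ZMod N)).re := ⟨_, rfl⟩
  rw [← hcd] at hL hRC
  obtain ⟨L', hL', hκL⟩ := lv N (by omega) χ hχ2 hχ1
  rw [← hcd] at hL'
  rw [← E1c_uniq hL hL'] at hκL
  have hNr : (1 : ℝ) ≤ N := by
    have : 1 ≤ N := by omega
    exact_mod_cast this
  have hN0 : (0 : ℝ) < N := by linarith
  have hlog : 1 ≤ Real.log N := (t8 N (by omega)).2.2.2.2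
  have hlow : (N : ℝ) ^ (-(μ / 200)) ≤ L := by
    have h := t7 N (by omega)
    have e2 : 2 * (μ / 400) = μ / 200 := by ring
    rw [e2] at h
    exact h.trans hκL
  have hlow1 : (N : ℝ) ^ (-(μ / 100)) ≤ L :=
    (Real.rpow_le_rpow_of_exponent_le hNr (by linarith)).trans hlow
  have hlow2 : (N : ℝ) ^ (-(1 / 20 : ℝ)) ≤ L :=
    (Real.rpow_le_rpow_of_exponent_le hNr (by linarith)).trans hlow
  have hpw : ∀ a : ℕ, a ≤ max B0 30 → (Real.log N ^ max B0 30)⁻¹ ≤ (Real.log N ^ a)⁻¹ := by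
    intro a ha
    exact inv_anti₀ (by positivity) (pow_le_pow_right₀ hlog ha)
  have hLB0 : L < (Real.log N ^ B0)⁻¹ := lt_of_lt_of_le hLB (hpw B0 (le_max_left _ _))
  have hL30 : L ≤ (Real.log N ^ 30)⁻¹ := (lt_of_lt_of_le hLB (hpw 30 (le_max_right _ _))).le
  have hsig := e0 N (by omega) c L hRC hL hLB0 hlow2
  obtain ⟨x, K, hx⟩ := xs N (by omega)
  have hsz := sz N (by omega) x K hx
  refine ⟨x, K, hx, ?_⟩
  have hval : c (N - 1) = 1 ∨ c (N - 1) = -1 := by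
    refine hRC.val _ ?_
    have h1 : 1 ≤ N := by omega
    have h2 : Nat.Coprime (N - 1) (N - 1 + 1) := by simp
    rwa [Nat.sub_add_cancel h1] at h2
  have hss : s = -(c (N - 1)) ∨ s = c (N - 1) := by
    rcases hs with h | h <;> rcases hval with h' | h' <;> rw [h, h'] <;> norm_num
  rcases hss with h | h
  · rw [h]
    have g := f1 N (by omega) c L hRC hL hL30 hsig x K hx
    have g2 : ((GX N x (pw N c') J1 (-(c (N - 1)))).card : ℝ) ≤
        ((GX N x (pw N c') (max J1 J2) (-(c (N - 1)))).card : ℝ) := by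
      exact_mod_cast Finset.card_le_card (E1c_mono (le_max_left _ _))
    refine le_trans ?_ (g.trans g2)
    have h9 : (0 : ℝ) < Real.log N ^ 9 := by positivity
    rw [le_div_iff₀ h9]
    have h1 : (N : ℝ) ^ (1 - e) ≤ N := by
      calc (N : ℝ) ^ (1 - e) ≤ (N : ℝ) ^ (1 : ℝ) := Real.rpow_le_rpow_of_exponent_le hNr (by linarith)
        _ = N := Real.rpow_one _
    have h2 : Real.log N ^ 9 ≤ Real.log N ^ 20 := pow_le_pow_right₀ hlog (by norm_num)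
    have h3 := hsz.2.2.2.2.2.2.2.1
    calc (N : ℝ) ^ (1 - e) * Real.log N ^ 9 ≤ N * Real.log N ^ 20 :=
          mul_le_mul h1 h2 h9.le hN0.le
      _ ≤ x := h3
  · rw [h]
    have hSpc : Spc N β c := by
      intro y hy
      have g := hsp N (by omega) inferInstance χ hχ1 y hy
      refine le_trans ?_ g
      have e1 : ∑ n ∈ Finset.Icc 1 y, c n = (∑ n ∈ Icc 1 y, χ ((n : ℕ) : ZMod N)).re := by
        rw [Complex.re_sum, hcd]
      rw [e1]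
      exact Complex.abs_re_le_norm _
    obtain ⟨Q, QQ, hQ, hQ1, hQ2⟩ := q4 N (by omega) c L hRC hL hlow hSpc
    have g := f2 N (by omega) c L hRC hL hlow1 hL30 hsig Q QQ hQ hQ1 hQ2 x K hx
    have g2 : ((GX N x (pw N c') J2 (c (N - 1))).card : ℝ) ≤
        ((GX N x (pw N c') (max J1 J2) (c (N - 1))).card : ℝ) := by
      exact_mod_cast Finset.card_le_card (E1c_mono (le_max_right _ _))
    refine le_trans ?_ (g.trans g2)
    exact Real.rpow_le_rpow_of_exponent_le hNr (by linarith)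

end Pool.Agent.Lib.PX
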