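import Pool.Agent.Lib.MP_7b7e48_nt.PX.Defs
import Pool.Agent.Lib.BV.PrimA

/-!
# EQ1: reduction to primitive characters for a prime modulus

PROOF. `BV.EE_le_chars` (`φ(q) = q - 1`; `n.Coprime q` iff `¬ q ∣ n`; `EQ` and `BV.EE` are the same up to this), and a character `χ ≠ 1` modulo a prime is primitive (its conductor divides `q` and is not `1`: `DirichletCharacter.conductor_dvd_level`, `conductor_eq_one_iff`), so the sum over `χ ≠ 1` is at most `BV.PS`.
-/

set_option autoImplicit false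

open Finset
open Pool.Agent.Lib.GT (Rough V)
open Pool.Agent.Lib.MP_45349e_nt.LS (lam)
open Pool.Agent.Lib.RG (RC LV rr SS PB sig)

namespace Pool.Agent.Lib.PX

open Pool.Agent.Lib.PQ (pw)

private theorem EQ_eq_EE (F : ℕ → ℝ) (X q a : ℕ) (hq : q.Prime) : EQ F X q a = BV.EE F X q a := by
  unfold EQ BV.EE
  have h1 : ((q.totient : ℕ) : ℝ) = (q : ℝ) - 1 := by
    rw [Nat.totient_prime hq, Nat.cast_sub hq.one_le, Nat.cast_one]
  have h2 : (Finset.Icc 1 X).filter (fun n => ¬ q ∣ n) = (Finset.Icc 1 X).filter (fun n => n.Coprime q) := by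
    ext n
    simp only [Finset.mem_filter]
    constructor
    · rintro ⟨h3, h4⟩
      exact ⟨h3, ((Nat.Prime.coprime_iff_not_dvd hq).2 h4).symm⟩
    · rintro ⟨h3, h4⟩
      exact ⟨h3, (Nat.Prime.coprime_iff_not_dvd hq).1 h4.symm⟩
  rw [h1, h2]

theorem EQ1 (F : ℕ → ℝ) (X q a : ℕ) (hq : q.Prime) (ha : ¬ q ∣ a) :
    |EQ F X q a| ≤ (1 / (q.totient : ℝ)) *
      BV.PS q (fun χ => ‖∑ n ∈ Finset.Icc 1 X, (F n : ℂ) * χ (n : ZMod q)‖) := by
  have : NeZero q := ⟨hq.ne_zero⟩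
  rw [EQ_eq_EE F X q a hq]
  refine (BV.EE_le_chars F X q a hq.one_le ((Nat.Prime.coprime_iff_not_dvd hq).2 ha).symm).trans ?_
  refine mul_le_mul_of_nonneg_left ?_ (by positivity)
  unfold BV.PS
  refine Finset.sum_le_sum_of_subset_of_nonneg ?_ (fun _ _ _ => norm_nonneg _)
  intro χ hχ
  simp only [Finset.mem_filter, Finset.mem_univ, true_and] at hχ ⊢
  have h1 : χ.conductor ∣ q := χ.conductor_dvd_level
  rcases (Nat.dvd_prime hq).1 h1 with h2 | h2
  · exact absurd (DirichletCharacter.eq_one_iff_conductor_eq_one.2 h2) hχ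
  · exact h2

theorem EQadd (F G : ℕ → ℝ) (X q a : ℕ) : EQ (fun n => F n + G n) X q a = EQ F X q a + EQ G X q a := by
  unfold EQ
  rw [Finset.sum_add_distrib, Finset.sum_add_distrib]
  ring

theorem EQcongr (F G : ℕ → ℝ) (X q a : ℕ) (h : ∀ n ∈ Finset.Icc 1 X, F n = G n) : EQ F X q a = EQ G X q a := by
  unfold EQ
  rw [Finset.sum_congr rfl (fun n hn => h n (Finset.mem_filter.1 hn).1)]
  congr 2
  exact Finset.sum_congr rfl (fun n hn => h n (Finset.mem_filter.1 hn).1)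

end Pool.Agent.Lib.PX
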