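import Pool.Agent.Lib.MP_7b7e48_nt.PX.CLM

/-!
# FIN3: the theorem for every `N`, many multiples

PROOF. `CLM A e`: `C', J`. For `u ≤ H ≤ N` apply it to `M = u N ≤ N²` (`M ≥ N ≥ N0`): `k'(u) ≤ (log M)^C' ≤ (2 log N)^C' =: V`. `K = k'(u) u`: if `GoodL A J M i k' p` then `GoodL A C N i (k' u) p` (`p, b > M ≥ N`, `p + b = k' M = (k' u) N`, `(log M)^A ≥ (log N)^A`, `J ≤ C`), the same `p < k' M = K N`, and `M^(1-e) ≥ N^(1-e)` (we may assume `e ≤ 1`: for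
`e > 1` use `e = 1`, `N^(1-e) ≤ 1 ≤ N^0`.. or monotonicity). Let `u` run through `1 ≤ u ≤ U = ⌊H/V⌋`: `K ≤ H`. The fibre of `u ↦ K` has at most `⌊V⌋` elements (`k'(u)` determines `u = K/k'`), so the number of `K` is `≥ ⌊H/V⌋/V ≥ H/(2V²) ≥ H/(log N)^C` with `C = 2C' + J + 2` (`H ≥ (log N)^C ≥ 2V`).
-/

set_option autoImplicit false

open Finset
open Pool.Agent.Lib.GT (Rough V)
open Pool.Agent.Lib.MP_45349e_nt.LS (lam)
open Pool.Agent.Lib.RG (RC LV rr SS PB sig)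

namespace Pool.Agent.Lib.PX

open Pool.Agent.Lib.PQ (pw)

private theorem FIN3_good {A J C N u i k' p : ℕ} (hJ : J ≤ C) (hu : 1 ≤ u) (hN : 1 ≤ N)
    (h : PL.GoodL A J (u * N) i k' p) : PL.GoodL A C N i (k' * u) p := by
  obtain ⟨hp, hMp, b, hMb, hpb, hO, hpar, hq⟩ := h
  have hNM : N ≤ u * N := Nat.le_mul_of_pos_left N hu
  refine ⟨hp, hNM.trans_lt hMp, b, hNM.trans_lt hMb, ?_, hO.trans hJ, hpar, ?_⟩
  · rw [hpb, mul_assoc]
  · intro q hq1 hq2
    refine lt_of_le_of_lt ?_ (hq q hq1 hq2)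
    exact pow_le_pow_left₀ (Real.log_nonneg (by exact_mod_cast hN))
      (Real.log_le_log (by exact_mod_cast hN) (by exact_mod_cast hNM)) A

open Classical in
private theorem FIN3_key {A C' J N1 : ℕ} {e : ℝ}
    (hC : ∀ N : ℕ, N1 ≤ N → ∀ i : ℕ, ∃ k' : ℕ, 1 ≤ k' ∧ (k' : ℝ) ≤ Real.log N ^ C' ∧
      (N : ℝ) ^ (1 - min e 1) ≤ (((Finset.range (k' * N)).filter (PL.GoodL A J N i k')).card : ℝ))
    {C N u : ℕ} (hJ : J ≤ C) (hN1 : N1 ≤ N) (hN : 1 ≤ N) (hu : 1 ≤ u) (huN : u ≤ N) (i : ℕ) :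
    ∃ k : ℕ, 1 ≤ k ∧ (k : ℝ) ≤ (2 * Real.log N) ^ C' ∧
      (N : ℝ) ^ (1 - e) ≤ (((Finset.range (k * u * N)).filter (PL.GoodL A C N i (k * u))).card : ℝ) := by
  have hNM : N ≤ u * N := Nat.le_mul_of_pos_left N hu
  have hNr : (1 : ℝ) ≤ N := by exact_mod_cast hN
  have hNMr : (N : ℝ) ≤ (u * N : ℕ) := by exact_mod_cast hNM
  obtain ⟨k, hk1, hk2, hk3⟩ := hC (u * N) (hN1.trans hNM) i
  refine ⟨k, hk1, hk2.trans ?_, ?_⟩
  · refine pow_le_pow_left₀ (Real.log_nonneg (hNr.trans hNMr)) ?_ C'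
    have h1 : ((u * N : ℕ) : ℝ) ≤ (N : ℝ) * N := by
      push_cast
      exact mul_le_mul_of_nonneg_right (by exact_mod_cast huN) (by linarith)
    have h2 := Real.log_le_log (by linarith) h1
    rw [Real.log_mul (by linarith) (by linarith)] at h2
    linarith
  · have h1 : (N : ℝ) ^ (1 - e) ≤ (N : ℝ) ^ (1 - min e 1) :=
      Real.rpow_le_rpow_of_exponent_le hNr (by linarith [min_le_left e 1])
    have h2 : (N : ℝ) ^ (1 - min e 1) ≤ ((u * N : ℕ) : ℝ) ^ (1 - min e 1) :=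
      Real.rpow_le_rpow (by linarith) hNMr (by linarith [min_le_right e 1])
    refine (h1.trans h2).trans (hk3.trans ?_)
    refine Nat.cast_le.2 (card_le_card ?_)
    intro p hp
    rw [mem_filter, mem_range] at hp ⊢
    rw [mul_assoc]
    exact ⟨hp.1, FIN3_good hJ hu hN hp.2⟩

open Classical in
theorem FIN3 (A : ℕ) (e : ℝ) (he : 0 < e) : ∃ C N0 : ℕ, ∀ N : ℕ, N0 ≤ N → ∀ H : ℕ, Real.log N ^ C ≤ H → H ≤ N →
    ∀ i : ℕ, (H : ℝ) / Real.log N ^ C ≤ (((Finset.Icc 1 H).filter fun K =>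
      (N : ℝ) ^ (1 - e) ≤ (((Finset.range (K * N)).filter (PL.GoodL A C N i K)).card : ℝ)).card : ℝ) := by
  obtain ⟨C', J, N1, hC⟩ := CLM A (min e 1) (lt_min he one_pos)
  obtain ⟨N2, hN2⟩ := exists_nat_ge (Real.exp (2 ^ (2 * C' + 1)))
  refine ⟨2 * C' + J + 2, max (max N1 N2) 2, ?_⟩
  intro N hN H hH1 hH2 i
  have hN1 : N1 ≤ N := ((le_max_left _ _).trans (le_max_left _ _)).trans hN
  have hNN2 : N2 ≤ N := ((le_max_right _ _).trans (le_max_left _ _)).trans hN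
  have hN3 : 2 ≤ N := (le_max_right _ _).trans hN
  have hNr : (0 : ℝ) < N := by
    have : 0 < N := by omega
    exact_mod_cast this
  have hl : (2 : ℝ) ^ (2 * C' + 1) ≤ Real.log N := by
    rw [Real.le_log_iff_exp_le hNr]
    exact hN2.trans (by exact_mod_cast hNN2)
  have hl1 : 1 ≤ Real.log N := le_trans (one_le_pow₀ (by norm_num)) hl
  set l : ℝ := Real.log N with hl_def
  set C : ℕ := 2 * C' + J + 2 with hC_def
  set V : ℝ := (2 * l) ^ C' with hV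
  have hV1 : 1 ≤ V := one_le_pow₀ (by linarith)
  have hCV : 2 * V ^ 2 ≤ l ^ C := by
    calc 2 * V ^ 2 = 2 ^ (2 * C' + 1) * l ^ (2 * C') := by
          rw [hV, mul_pow, mul_pow, ← pow_mul, ← pow_mul, mul_comm C' 2]
          ring
      _ ≤ l * l ^ (2 * C') := mul_le_mul_of_nonneg_right hl (by positivity)
      _ = l ^ (2 * C' + 1) := by ring
      _ ≤ _ := pow_le_pow_right₀ hl1 (by omega)
  have hHV : 2 * V ^ 2 ≤ H := hCV.trans hH1
  have hV0 : 0 < V := by linarith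
  have hH2V : 2 * V ≤ H := by nlinarith
  set U : ℕ := ⌊(H : ℝ) / V⌋₊ with hU
  have hUle : (U : ℝ) * V ≤ H := by
    have h1 : (U : ℝ) ≤ H / V := Nat.floor_le (by positivity)
    rwa [le_div_iff₀ hV0] at h1
  have hUlow : (H : ℝ) / (2 * V) ≤ U := by
    have h1 : (H : ℝ) / V < U + 1 := Nat.lt_floor_add_one _
    have h2 : 1 ≤ (H : ℝ) / (2 * V) := by
      rw [le_div_iff₀ (by linarith)]
      linarith
    have h3 : (H : ℝ) / V = 2 * (H / (2 * V)) := by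
      field_simp
    linarith
  have hUN : U ≤ N := by
    have h1 : (U : ℝ) ≤ H := by nlinarith [Nat.cast_nonneg (α := ℝ) U]
    have h2 : U ≤ H := by exact_mod_cast h1
    exact h2.trans hH2
  have hkey : ∀ u : ℕ, 1 ≤ u → u ≤ U → ∃ k : ℕ, 1 ≤ k ∧ (k : ℝ) ≤ V ∧
      (N : ℝ) ^ (1 - e) ≤ (((Finset.range (k * u * N)).filter (PL.GoodL A C N i (k * u))).card : ℝ) := by
    intro u hu1 hu2
    have h1 := min_le_left e 1
    obtain ⟨k, hk1, hk2, hk3⟩ := FIN3_key (e := min e 1) (C := C) (by rwa [min_assoc, min_self]) (by omega) hN1 (by omega) hu1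
      (hu2.trans hUN) i
    exact ⟨k, hk1, hk2, (Real.rpow_le_rpow_of_exponent_le (by exact_mod_cast (by omega : 1 ≤ N)) (by linarith)).trans hk3⟩
  choose! k hk using hkey
  set S : Finset ℕ := (Finset.Icc 1 H).filter fun K =>
      (N : ℝ) ^ (1 - e) ≤ (((Finset.range (K * N)).filter (PL.GoodL A C N i K)).card : ℝ) with hS
  have hmaps : ∀ u ∈ Finset.Icc 1 U, k u * u ∈ S := by
    intro u hu
    rw [mem_Icc] at hu
    obtain ⟨h1, h2, h3⟩ := hk u hu.1 hu.2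
    rw [hS, mem_filter, mem_Icc]
    refine ⟨⟨Nat.mul_pos h1 hu.1, ?_⟩, h3⟩
    have h4 : ((k u * u : ℕ) : ℝ) ≤ H := by
      push_cast
      have h5 : (u : ℝ) ≤ U := by exact_mod_cast hu.2
      calc (k u : ℝ) * u ≤ V * U := mul_le_mul h2 h5 (Nat.cast_nonneg _) hV0.le
        _ = U * V := mul_comm _ _
        _ ≤ H := hUle
    exact_mod_cast h4
  have hfib : ∀ K ∈ S, ((Finset.Icc 1 U).filter fun u => k u * u = K).card ≤ ⌊V⌋₊ := by
    intro K hK
    have h1 : ((Finset.Icc 1 U).filter fun u => k u * u = K).card ≤ (Finset.Icc 1 ⌊V⌋₊).card := by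
      refine card_le_card_of_injOn k ?_ ?_
      · intro u hu
        rw [mem_coe, mem_filter, mem_Icc] at hu
        obtain ⟨h1, h2, _⟩ := hk u hu.1.1 hu.1.2
        rw [mem_coe, mem_Icc]
        exact ⟨h1, Nat.le_floor h2⟩
      · intro u hu v hv huv
        rw [mem_coe, mem_filter, mem_Icc] at hu hv
        obtain ⟨h1, _, _⟩ := hk u hu.1.1 hu.1.2
        have h2 : k u * u = k u * v := by
          rw [hu.2, huv, hv.2]
        exact Nat.eq_of_mul_eq_mul_left h1 h2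
    rwa [Nat.card_Icc, Nat.add_sub_cancel] at h1
  have hcard := card_le_mul_card_image_of_maps_to hmaps ⌊V⌋₊ hfib
  rw [Nat.card_Icc, Nat.add_sub_cancel] at hcard
  have hcardr : (U : ℝ) ≤ V * (S.card : ℝ) := by
    have h1 : (U : ℝ) ≤ (⌊V⌋₊ : ℝ) * (S.card : ℝ) := by exact_mod_cast hcard
    exact h1.trans (mul_le_mul_of_nonneg_right (Nat.floor_le hV0.le) (Nat.cast_nonneg _))
  have h1 : (H : ℝ) / (2 * V) ≤ V * (S.card : ℝ) := hUlow.trans hcardr
  rw [div_le_iff₀ (by linarith)] at h1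
  rw [div_le_iff₀ (by positivity)]
  have h2 : (H : ℝ) ≤ S.card * (2 * V ^ 2) := by nlinarith
  exact h2.trans (mul_le_mul_of_nonneg_left hCV (Nat.cast_nonneg _))

end Pool.Agent.Lib.PX
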