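import Pool.Agent.Lib.MP_7b7e48_nt.PX.S1l
import Pool.Agent.Lib.MP_7b7e48_nt.PX.RHB
import Pool.Agent.Lib.MP_7b7e48_nt.PX.SGN
import Pool.Agent.Lib.MP_7b7e48_nt.PX.CN1

/-!
# FXc: the common parity

PROOF. `c1`, `c3` from `S1l`, `c' = min c1 (1/100)`-bounded; `J` from `RHB c'`. `∑_{n ∈ Sft} rho c n ≥ c3 x/(log N)^5`; the bad `n` (`CN1`) contribute `≤ (log N)^3 * x/(log N)^9`. So the `n ∈ Sft` with `¬ Bdn`, `¬ Rar c z n`, `¬ Rar c z (x - n)`, `rho c n > 0` have a sum `≥ x/(log N)^6`, and, each term being `≤ (log N)^3`, there are at least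
`x/(log N)^9` of them. Each is in `GX` with `b = x - n`: `SGa`, `lam b = c b = c (N-1) c n = - c (N-1)` (`SGc`, `SGb`), `Ω(b) ≤ J` (`RHB`, `¬ K ∣ n`).
-/

set_option autoImplicit false

open Finset
open Pool.Agent.Lib.GT (Rough V)
open Pool.Agent.Lib.MP_45349e_nt.LS (lam)
open Pool.Agent.Lib.RG (RC LV rr SS PB sig)

namespace Pool.Agent.Lib.PX

open Pool.Agent.Lib.PQ (pw)

/-- the counting step -/
private theorem FXc_count (S : Finset ℕ) (f : ℕ → ℝ) (P : ℕ → Prop) [DecidablePred P] (M : ℝ) (hM : 0 ≤ M)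
    (hf : ∀ n ∈ S, f n ≤ M) (G : Finset ℕ) (hG : ∀ n ∈ S, ¬ P n → 0 < f n → n ∈ G) :
    ∑ n ∈ S, f n ≤ ((S.filter P).card : ℝ) * M + (G.card : ℝ) * M := by
  classical
  rw [← Finset.sum_filter_add_sum_filter_not S P f]
  refine add_le_add ?_ ?_
  · refine (Finset.sum_le_card_nsmul _ _ M (fun n hn => hf n (Finset.mem_filter.1 hn).1)).trans ?_
    rw [nsmul_eq_mul]
  · rw [← Finset.sum_filter_add_sum_filter_not (S.filter fun n => ¬ P n) (fun n => 0 < f n) f]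
    have h1 : ∑ n ∈ (S.filter fun n => ¬ P n).filter (fun n => ¬ 0 < f n), f n ≤ 0 :=
      Finset.sum_nonpos (fun n hn => not_lt.1 (Finset.mem_filter.1 hn).2)
    have h2 : ∑ n ∈ (S.filter fun n => ¬ P n).filter (fun n => 0 < f n), f n ≤
        (((S.filter fun n => ¬ P n).filter (fun n => 0 < f n)).card : ℝ) * M := by
      refine (Finset.sum_le_card_nsmul _ _ M (fun n hn => hf n ?_)).trans ?_
      · exact (Finset.mem_filter.1 (Finset.mem_filter.1 hn).1).1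
      · rw [nsmul_eq_mul]
    have h3 : ((((S.filter fun n => ¬ P n).filter (fun n => 0 < f n)).card : ℕ) : ℝ) ≤ (G.card : ℝ) := by
      refine Nat.cast_le.2 (Finset.card_le_card ?_)
      intro n hn
      have h4 := Finset.mem_filter.1 hn
      have h5 := Finset.mem_filter.1 h4.1
      exact hG n h5.1 h5.2 h4.2
    have h6 := mul_le_mul_of_nonneg_right h3 hM
    linarith

theorem FXc : ∃ c1 : ℝ, 0 < c1 ∧ ∀ c' : ℝ, 0 < c' → c' ≤ c1 → ∃ J N0 : ℕ, ∀ N : ℕ, N0 ≤ N →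
    ∀ (c : ℕ → ℝ) (L : ℝ), RC N c → LV N c L → L ≤ (Real.log N ^ 30)⁻¹ →
    sig c (pw N c') (N ^ 2) ≤ (Real.log N ^ 12)⁻¹ → ∀ x K : ℕ, XS N x K →
    x / Real.log N ^ 9 ≤ ((GX N x (pw N c') J (-(c (N - 1)))).card : ℝ) := by
  classical
  obtain ⟨ca, c3, hca, hc3, hS⟩ := S1l
  refine ⟨min ca (1 / 100), lt_min hca (by norm_num), ?_⟩
  intro c' hc' hc1
  obtain ⟨J, N2, hR⟩ := RHB c' hc'
  obtain ⟨N1, hS1⟩ := hS c' hc' (hc1.trans (min_le_left _ _))
  obtain ⟨N3, hC⟩ := CN1 c' hc' (hc1.trans (min_le_right _ _))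
  have hlim : Filter.Tendsto (fun N : ℕ => Real.log N) Filter.atTop Filter.atTop :=
    Real.tendsto_log_atTop.comp tendsto_natCast_atTop_atTop
  obtain ⟨N4, hN4⟩ := Filter.eventually_atTop.1
    ((hlim.eventually_ge_atTop (2 / c3)).and (hlim.eventually_ge_atTop 1))
  refine ⟨J, max 1 (max N1 (max N2 (max N3 N4))), ?_⟩
  intro N hN c L hrc hlv hL hsig x K hx
  simp only [max_le_iff] at hN
  obtain ⟨hn0, hn1, hn2, hn3, hn4⟩ := hN
  obtain ⟨hl1, hl2⟩ := hN4 N hn4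
  have hs := hS1 N hn1 c L hrc hlv hL x K hx
  have hb := hC N hn3 c hrc hsig x K hx
  have hr := hR N hn2 c hrc x K hx
  set z := pw N c' with hz
  set K3 := Real.log N with hK3
  have hK0 : 0 < K3 := by linarith
  have hNx : N ∣ x := by
    rw [hx.eq]
    exact Dvd.intro_left _ rfl
  have hcount := FXc_count (Sft x z K) (rho c)
    (fun n => Bdn N x z K n ∨ Rar c z n ∨ Rar c z (x - n)) (K3 ^ 3) (by positivity)
    (fun n hn => (hr n hn).1) (GX N x z J (-(c (N - 1)))) (by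
      intro n hn hnb hpos
      push Not at hnb
      obtain ⟨h1, h2, h3⟩ := hnb
      obtain ⟨hp, hcn, hNn, hnx, hrough, hcop, hNb⟩ := SGa hrc hn0 hx n hn h1 h2 hpos
      have hK : ¬ K ∣ n := fun h => h1 (Or.inl h)
      refine Finset.mem_filter.2 ⟨Finset.mem_range.2 hnx, hp, hNn, x - n, hNb, by omega, hrough,
        ((hr n hn).2 hK).2, ?_⟩
      rw [SGc hrc z (x - n) (by omega) hrough hcop h3, SGb hrc hn0 x n hNx hnx, hcn]
      ring)
  have hx0 : (0 : ℝ) ≤ (x : ℝ) := Nat.cast_nonneg _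
  have h1 : c3 * (x / K3 ^ 5) ≤ (x / K3 ^ 9 + ((GX N x z J (-(c (N - 1)))).card : ℝ)) * K3 ^ 3 := by
    have h2 : (0 : ℝ) ≤ K3 ^ 3 := by positivity
    have h3 := mul_le_mul_of_nonneg_right hb h2
    have h4 : ((Finset.filter (fun n => Bdn N x z K n ∨ Rar c z n ∨ Rar c z (x - n)) (Sft x z K)).card : ℝ) * K3 ^ 3 ≤
      x / K3 ^ 9 * K3 ^ 3 := by
      refine le_trans (le_of_eq ?_) h3
      congr 2
    nlinarith
  have h5 : (2 : ℝ) ≤ c3 * K3 := by
    rw [div_le_iff₀ hc3] at hl1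
    linarith
  have h6 : (2 * (x / K3 ^ 9)) * K3 ^ 3 ≤ c3 * (x / K3 ^ 5) := by
    have h7 : c3 * (x / K3 ^ 5) = (c3 * K3 * (x / K3 ^ 9)) * K3 ^ 3 := by
      field_simp
    rw [h7]
    refine mul_le_mul_of_nonneg_right ?_ (by positivity)
    exact mul_le_mul_of_nonneg_right h5 (by positivity)
  have h8 : (2 * (x / K3 ^ 9)) ≤ (x / K3 ^ 9 + ((GX N x z J (-(c (N - 1)))).card : ℝ)) :=
    le_of_mul_le_mul_right (h6.trans h1) (by positivity)
  linarith

end Pool.Agent.Lib.PX
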