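import Pool.Agent.Lib.MP_7b7e48_nt.PX.WMN
import Pool.Agent.Lib.SW.SWFinal

/-!
# L1B: the truncated series is at least `1/4`

PROOF. `WMN` for `D1 = D2 = 1` (`EV = 1`): `∑_{n < x} rho c n ≤ x (L1 + L log N + 2 N^(-1/10))`. On the other hand `rho c n ≥ Λ n` (`vM_le_rho`) and `∑_{n < x} Λ n ≥ x/2` (`SW.pnt 1`, `x` large). So `L1 ≥ 1/2 - (log N)^(-1) - 2 N^(-1/10) ≥ 1/4`.
-/

set_option autoImplicit false

open Finset
open Pool.Agent.Lib.GT (Rough V)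
open Pool.Agent.Lib.MP_45349e_nt.LS (lam)
open Pool.Agent.Lib.RG (RC LV rr SS PB sig)

namespace Pool.Agent.Lib.PX

open Pool.Agent.Lib.PQ (pw)

private theorem L1B_WW (w : ℕ → ℝ) (x : ℕ) : WW w x 1 1 = ∑ n ∈ Finset.Icc 1 (x - 1), w n := by
  unfold WW
  refine Finset.sum_congr ?_ (fun _ _ => rfl)
  ext n
  simp [Nat.modEq_one]

private theorem L1B_EV (c : ℕ → ℝ) : EV c 1 1 = 1 := by
  unfold EV
  simp

/-- a lower bound for the sum of `Λ` -/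
private theorem L1B_vM (C : ℝ) (hC : 0 < C)
    (h2 : ∀ x : ℝ, 2 ≤ x → |∑ n ∈ Finset.Icc 1 ⌊x⌋₊, ArithmeticFunction.vonMangoldt n - x| ≤
      C * x / (Real.log x) ^ 1) (x : ℕ) (hx : 3 ≤ x) (hx2 : Real.exp (4 * C) ≤ ((x - 1 : ℕ) : ℝ)) :
    (x : ℝ) / 2 ≤ ∑ n ∈ Finset.Icc 1 (x - 1), ArithmeticFunction.vonMangoldt n := by
  have hy : ((x - 1 : ℕ) : ℝ) = (x : ℝ) - 1 := by
    rw [Nat.cast_sub (by omega), Nat.cast_one]
  have hx3 : (3 : ℝ) ≤ (x : ℝ) := by exact_mod_cast hx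
  have h3 := h2 ((x - 1 : ℕ) : ℝ) (by rw [hy]; linarith)
  rw [Nat.floor_natCast, pow_one] at h3
  have h4 : 4 * C ≤ Real.log ((x - 1 : ℕ) : ℝ) := by
    rw [Real.le_log_iff_exp_le (by rw [hy]; linarith)]
    exact hx2
  have h5 : C * ((x - 1 : ℕ) : ℝ) / Real.log ((x - 1 : ℕ) : ℝ) ≤ ((x - 1 : ℕ) : ℝ) / 4 := by
    rw [div_le_iff₀ (by linarith)]
    have h6 : (0 : ℝ) ≤ ((x - 1 : ℕ) : ℝ) := Nat.cast_nonneg _
    nlinarith
  have h7 := (abs_le.1 h3).1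
  rw [hy] at h5 h7
  linarith

theorem L1B : ∃ N0 : ℕ, ∀ N : ℕ, N0 ≤ N → ∀ (c : ℕ → ℝ) (L : ℝ), RC N c → LV N c L → L ≤ (Real.log N ^ 2)⁻¹ →
    ∀ x : ℕ, N ≤ x → x ≤ N ^ 2 → 1 / 4 ≤ L1 N c x := by
  obtain ⟨N1, h1⟩ := WMN
  obtain ⟨C, hC, h2⟩ := SW.pnt 1
  refine ⟨max N1 (max (⌈Real.exp (4 * C)⌉₊ + 3) (max (12 ^ 10) ⌈Real.exp 12⌉₊)), ?_⟩
  intro N hN c L hrc hlv hL x hx1 hx2
  have hN1 : N1 ≤ N := le_trans (le_max_left _ _) hN
  have hN2 : ⌈Real.exp (4 * C)⌉₊ + 3 ≤ N :=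
    le_trans (le_max_left _ _) (le_trans (le_max_right _ _) hN)
  have hN3 : 12 ^ 10 ≤ N :=
    le_trans (le_max_left _ _) (le_trans (le_max_right _ _) (le_trans (le_max_right _ _) hN))
  have hN4 : ⌈Real.exp 12⌉₊ ≤ N :=
    le_trans (le_max_right _ _) (le_trans (le_max_right _ _) (le_trans (le_max_right _ _) hN))
  have hNr : (12 : ℝ) ^ 10 ≤ (N : ℝ) := by exact_mod_cast hN3
  have hN0 : (0 : ℝ) < (N : ℝ) := lt_of_lt_of_le (by norm_num) hNr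
  have hN1' : (1 : ℝ) ≤ (N : ℝ) := le_trans (by norm_num) hNr
  -- the main term
  have h3 := h1 N hN1 c L hrc hlv x hx1 hx2 1 1 (by simp) (Nat.coprime_one_left x)
    (Nat.coprime_one_left N) (by
      rw [mul_one, Nat.cast_one]
      exact Real.one_le_rpow hN1' (by norm_num))
  rw [L1B_EV, L1B_WW, mul_one, mul_one, Nat.primeFactors_one, Finset.card_empty, pow_zero,
    Nat.cast_one, div_one, one_mul] at h3
  have h4 := (abs_le.1 h3).2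
  -- the sum of Λ
  have hxe : Real.exp (4 * C) ≤ ((x - 1 : ℕ) : ℝ) := by
    refine (Nat.le_ceil _).trans ?_
    exact_mod_cast (by omega : ⌈Real.exp (4 * C)⌉₊ ≤ x - 1)
  have h5 := L1B_vM C hC h2 x (by omega) hxe
  have h6 : ∑ n ∈ Finset.Icc 1 (x - 1), ArithmeticFunction.vonMangoldt n ≤
      ∑ n ∈ Finset.Icc 1 (x - 1), rho c n :=
    Finset.sum_le_sum (fun n _ => vM_le_rho hrc n)
  -- small terms
  have hlog : 12 ≤ Real.log N := by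
    rw [Real.le_log_iff_exp_le hN0]
    exact (Nat.le_ceil _).trans (by exact_mod_cast hN4)
  have h7 : L * Real.log N ≤ 1 / 12 := by
    have h8 : L * Real.log N ≤ (Real.log N ^ 2)⁻¹ * Real.log N :=
      mul_le_mul_of_nonneg_right hL (by linarith)
    have h9 : (Real.log N ^ 2)⁻¹ * Real.log N = (Real.log N)⁻¹ := by
      have : Real.log N ≠ 0 := by linarith
      field_simp
    rw [h9] at h8
    refine h8.trans ?_
    rw [one_div]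
    exact inv_anti₀ (by norm_num) hlog
  have h10 : (N : ℝ) ^ (-(1 / 10 : ℝ)) ≤ 1 / 12 := by
    rw [Real.rpow_neg hN0.le, one_div (12 : ℝ)]
    refine inv_anti₀ (by norm_num) ?_
    have h11 : ((12 : ℝ) ^ 10) ^ (1 / 10 : ℝ) ≤ (N : ℝ) ^ (1 / 10 : ℝ) :=
      Real.rpow_le_rpow (by norm_num) hNr (by norm_num)
    refine le_trans (le_of_eq ?_) h11
    rw [← Real.rpow_natCast (12 : ℝ) 10, ← Real.rpow_mul (by norm_num)]
    norm_num
  have h12 : (N : ℝ) ^ (-(1 / 6 : ℝ)) ≤ (N : ℝ) ^ (-(1 / 10 : ℝ)) :=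
    Real.rpow_le_rpow_of_exponent_le hN1' (by norm_num)
  have hx0 : (0 : ℝ) < (x : ℝ) := lt_of_lt_of_le hN0 (by exact_mod_cast hx1)
  have h13 : (x : ℝ) * (L * Real.log N + (N : ℝ) ^ (-(1 / 6 : ℝ)) + (N : ℝ) ^ (-(1 / 10 : ℝ))) ≤
      (x : ℝ) * (1 / 4) :=
    mul_le_mul_of_nonneg_left (by linarith) hx0.le
  have h14 : (x : ℝ) * (1 / 4) ≤ (x : ℝ) * L1 N c x := by linarith
  exact le_of_mul_le_mul_left h14 hx0

end Pool.Agent.Lib.PX
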