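import Pool.Agent.Lib.MP_7b7e48_nt.PX.Defs

/-!
# LFA: the sum of the logarithms

PROOF. `Y = (x-1)/u ≥ 1`, `Y < x/u ≤ Y + 1`. `∑_{v ≤ Y} log v` is between `Y log Y - Y + 1` and `Y log Y - Y + 1 + log Y` (integral comparison or induction), and `g(y) = y (log y - 1)` has derivative `log y`, so `|g(x/u) - g(Y)| ≤ log (x/u) ≤ log x`.
-/

set_option autoImplicit false

open Finset
open Pool.Agent.Lib.GT (Rough V)
open Pool.Agent.Lib.MP_45349e_nt.LS (lam)
open Pool.Agent.Lib.RG (RC LV rr SS PB sig)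

namespace Pool.Agent.Lib.PX

open Pool.Agent.Lib.PQ (pw)

private theorem LFA_g {a b : ℝ} (ha : 0 < a) (hab : a ≤ b) :
    (b - a) * Real.log a ≤ b * (Real.log b - 1) - a * (Real.log a - 1) ∧
    b * (Real.log b - 1) - a * (Real.log a - 1) ≤ (b - a) * Real.log b := by
  have hb : 0 < b := lt_of_lt_of_le ha hab
  have h1 : Real.log (b / a) ≤ b / a - 1 := Real.log_le_sub_one_of_pos (div_pos hb ha)
  have h2 : Real.log (a / b) ≤ a / b - 1 := Real.log_le_sub_one_of_pos (div_pos ha hb)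
  rw [Real.log_div hb.ne' ha.ne'] at h1
  rw [Real.log_div ha.ne' hb.ne'] at h2
  have h3 : a * (Real.log b - Real.log a) ≤ b - a := by
    have e : a * (b / a - 1) = b - a := by field_simp
    have := mul_le_mul_of_nonneg_left h1 ha.le
    rwa [e] at this
  have h4 : b * (Real.log a - Real.log b) ≤ a - b := by
    have e : b * (a / b - 1) = a - b := by field_simp
    have := mul_le_mul_of_nonneg_left h2 hb.le
    rwa [e] at this
  constructor
  · nlinarith [h3, h4]
  · nlinarith [h3, h4]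

private theorem LFA_s (Y : ℕ) (hY : 1 ≤ Y) :
    (Y : ℝ) * (Real.log Y - 1) ≤ ∑ v ∈ Finset.Icc 1 Y, lg v ∧
    ∑ v ∈ Finset.Icc 1 Y, lg v ≤ (Y : ℝ) * (Real.log Y - 1) + 1 + Real.log Y := by
  induction Y, hY using Nat.le_induction with
  | base =>
    simp [lg]
  | succ n hn ih =>
    rw [Finset.sum_Icc_succ_top (by omega)]
    have hn' : (0 : ℝ) < n := by exact_mod_cast (show 0 < n by omega)
    have h := LFA_g hn' (show (n : ℝ) ≤ n + 1 by linarith)
    have e : lg (n + 1) = Real.log ((n : ℝ) + 1) := by unfold lg; push_cast; rfl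
    rw [e]
    push_cast
    obtain ⟨h1, h2⟩ := h
    constructor
    · linarith [ih.1]
    · linarith [ih.2]

theorem LFA (x u : ℕ) (hu : 1 ≤ u) (hx : u < x) :
    |∑ v ∈ Finset.Icc 1 ((x - 1) / u), lg v - ((x : ℝ) / u) * (Real.log ((x : ℝ) / u) - 1)| ≤
      2 * Real.log x + 4 := by
  have hu0 : (0 : ℝ) < u := by exact_mod_cast hu
  have hx0 : (0 : ℝ) < x := by exact_mod_cast (show 0 < x by omega)
  set Y := (x - 1) / u with hYd
  have hY1 : 1 ≤ Y := by
    rw [hYd, Nat.le_div_iff_mul_le hu]; omega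
  have hY2 : Y * u ≤ x - 1 := Nat.div_mul_le_self _ _
  have hY3 : x - 1 < (Y + 1) * u := by
    rw [mul_comm]; exact Nat.lt_mul_div_succ (x - 1) hu
  have hYpos : (0 : ℝ) < Y := by exact_mod_cast hY1
  have hz1 : (Y : ℝ) ≤ (x : ℝ) / u := by
    rw [le_div_iff₀ hu0]
    exact_mod_cast (show Y * u ≤ x by omega)
  have hz2 : (x : ℝ) / u ≤ Y + 1 := by
    rw [div_le_iff₀ hu0]
    exact_mod_cast (show x ≤ (Y + 1) * u by omega)
  have hz0 : (0 : ℝ) < (x : ℝ) / u := div_pos hx0 hu0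
  have hz3 : (x : ℝ) / u ≤ x := div_le_self hx0.le (by exact_mod_cast hu)
  have hlz : Real.log ((x : ℝ) / u) ≤ Real.log x := Real.log_le_log hz0 hz3
  have hlY : 0 ≤ Real.log Y := Real.log_natCast_nonneg Y
  have hlY2 : Real.log Y ≤ Real.log ((x : ℝ) / u) := Real.log_le_log hYpos hz1
  obtain ⟨g1, g2⟩ := LFA_g hYpos hz1
  obtain ⟨s1, s2⟩ := LFA_s Y hY1
  have g3 : ((x : ℝ) / u - Y) * Real.log ((x : ℝ) / u) ≤ 1 * Real.log ((x : ℝ) / u) :=
    mul_le_mul_of_nonneg_right (by linarith) (by linarith)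
  have g4 : 0 ≤ ((x : ℝ) / u - Y) * Real.log Y := mul_nonneg (by linarith) hlY
  rw [abs_le]
  constructor
  · linarith
  · linarith

end Pool.Agent.Lib.PX
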