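import Pool.Agent.Lib.MP_7b7e48_nt.PX.Defs

/-!
# LOC: the condition `d ∣ n (x - n)` in terms of classes

PROOF. Let `n < x`. For a prime `p`: `n = x` modulo `p` iff `p ∣ x - n`. If `p ∤ x` at most one of `p ∣ n`, `p ∣ x - n` holds; if `p ∣ x` they are equivalent. So `1[p ∣ n (x-n)] = 1[p ∣ n] + 1[p ∤ x] 1[n = x mod p]`, and `∏_{p ∈ d}` of it is `∑_t ∏_{p ∈ d \ t} 1[p ∣ n] ∏_{p ∈ t} 1[n = x mod p]`, `t` the subsets of `d` without primes
dividing `x` (`Finset.prod_add`). `1[n coprime to 6] = ∑_{e ∣ 6} μ(e) 1[e ∣ n]`. The conditions `e ∣ n`, `p ∣ n` (`p ∈ d \ t`) together are `e ∏ p ∣ n` (pairwise coprime, `p ≥ 5`), and `n = x` modulo all `p ∈ t` iff `n = x` modulo `∏ p`.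
-/

set_option autoImplicit false

open Finset
open Pool.Agent.Lib.GT (Rough V)
open Pool.Agent.Lib.MP_45349e_nt.LS (lam)
open Pool.Agent.Lib.RG (RC LV rr SS PB sig)

namespace Pool.Agent.Lib.PX

open Pool.Agent.Lib.PQ (pw)

private theorem LOC_mu1 : ((ArithmeticFunction.moebius 1 : ℤ) : ℝ) = 1 := by
  rw [ArithmeticFunction.moebius_apply_one]
  norm_num

private theorem LOC_mu2 : ((ArithmeticFunction.moebius 2 : ℤ) : ℝ) = -1 := by
  rw [ArithmeticFunction.moebius_apply_prime Nat.prime_two]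
  norm_num

private theorem LOC_mu3 : ((ArithmeticFunction.moebius 3 : ℤ) : ℝ) = -1 := by
  rw [ArithmeticFunction.moebius_apply_prime Nat.prime_three]
  norm_num

private theorem LOC_mu6 : ((ArithmeticFunction.moebius 6 : ℤ) : ℝ) = 1 := by
  have h : ArithmeticFunction.moebius (2 * 3) = ArithmeticFunction.moebius 2 * ArithmeticFunction.moebius 3 :=
    ArithmeticFunction.isMultiplicative_moebius.map_mul_of_coprime (by norm_num)
  have h6 : (6 : ℕ) = 2 * 3 := rfl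
  rw [h6, h]
  push_cast
  rw [LOC_mu2, LOC_mu3]
  norm_num

private theorem LOC_div6 : Nat.divisors 6 = {1, 2, 3, 6} := by decide

/-- the indicator of a proposition -/
private noncomputable def LOC_I (P : Prop) : ℝ := by
  classical
  exact if P then 1 else 0

private theorem LOC_t {P : Prop} (h : P) : LOC_I P = 1 := by
  unfold LOC_I
  rw [if_pos h]

private theorem LOC_f {P : Prop} (h : ¬ P) : LOC_I P = 0 := by
  unfold LOC_I
  rw [if_neg h]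

private theorem LOC_if {P : Prop} {dP : Decidable P} (a : ℝ) : (if P then a else 0) = LOC_I P * a := by
  by_cases h : P
  · rw [if_pos h, LOC_t h, one_mul]
  · rw [if_neg h, LOC_f h, zero_mul]

private theorem LOC_and (P R : Prop) : LOC_I (P ∧ R) = LOC_I P * LOC_I R := by
  by_cases h : P
  · by_cases h' : R
    · rw [LOC_t h, LOC_t h', LOC_t ⟨h, h'⟩, one_mul]
    · rw [LOC_f h', LOC_f fun g => h' g.2, mul_zero]
  · rw [LOC_f h, LOC_f fun g => h g.1, zero_mul]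

private theorem LOC_iff {P R : Prop} (h : P ↔ R) : LOC_I P = LOC_I R := by
  rw [propext h]

private theorem LOC_six (n : ℕ) :
    ∑ e ∈ Nat.divisors 6, (ArithmeticFunction.moebius e : ℝ) * LOC_I (e ∣ n) = LOC_I (n.Coprime 6) := by
  rw [LOC_div6, Finset.sum_insert (by decide), Finset.sum_insert (by decide), Finset.sum_insert (by decide),
    Finset.sum_singleton, LOC_mu1, LOC_mu2, LOC_mu3, LOC_mu6]
  have h6 : 6 ∣ n ↔ 2 ∣ n ∧ 3 ∣ n := by omega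
  have hc : n.Coprime 6 ↔ ¬ 2 ∣ n ∧ ¬ 3 ∣ n := by
    have h : n.Coprime (2 * 3) ↔ n.Coprime 2 ∧ n.Coprime 3 := Nat.coprime_mul_iff_right
    have e6 : (6 : ℕ) = 2 * 3 := rfl
    rw [e6, h, Nat.coprime_comm, Nat.Prime.coprime_iff_not_dvd Nat.prime_two, Nat.coprime_comm (n := n) (m := 3),
      Nat.Prime.coprime_iff_not_dvd Nat.prime_three]
  rw [LOC_iff h6, LOC_iff hc, LOC_and, LOC_and, LOC_t (one_dvd n)]
  by_cases h2 : 2 ∣ n
  · by_cases h3 : 3 ∣ n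
    · rw [LOC_t h2, LOC_t h3, LOC_f (not_not.2 h2), LOC_f (not_not.2 h3)]
      norm_num
    · rw [LOC_t h2, LOC_f h3, LOC_f (not_not.2 h2), LOC_t h3]
      norm_num
  · by_cases h3 : 3 ∣ n
    · rw [LOC_f h2, LOC_t h3, LOC_t h2, LOC_f (not_not.2 h3)]
      norm_num
    · rw [LOC_f h2, LOC_f h3, LOC_t h2, LOC_t h3]
      norm_num

private theorem LOC_ind {ι : Type*} (s : Finset ι) (P : ι → Prop) :
    ∏ p ∈ s, LOC_I (P p) = LOC_I (∀ p ∈ s, P p) := by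
  by_cases h : ∀ p ∈ s, P p
  · rw [LOC_t h]
    exact Finset.prod_eq_one fun p hp => LOC_t (h p hp)
  · rw [LOC_f h]
    have h' : ∃ p, p ∈ s ∧ ¬ P p := by
      by_contra hc
      exact h fun p hp => by_contra fun hP => hc ⟨p, hp, hP⟩
    obtain ⟨p, hp, hP⟩ := h'
    exact Finset.prod_eq_zero hp (LOC_f hP)

private theorem LOC_cop (d : Finset ℕ) (hd : ∀ p ∈ d, p.Prime) (n : ℕ) :
    (∏ p ∈ d, p) ∣ n ↔ ∀ p ∈ d, p ∣ n := by
  constructor
  · intro h p hp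
    exact (Finset.dvd_prod_of_mem _ hp).trans h
  · intro h
    refine Finset.prod_primes_dvd n (fun p hp => (hd p hp).prime) h

private theorem LOC_modEq (t : Finset ℕ) (ht : ∀ p ∈ t, p.Prime) (n x : ℕ) (hn : n ≤ x) :
    n ≡ x [MOD ∏ p ∈ t, p] ↔ ∀ p ∈ t, n ≡ x [MOD p] := by
  rw [Nat.modEq_iff_dvd' hn, LOC_cop t ht]
  exact forall₂_congr fun p _ => (Nat.modEq_iff_dvd' hn).symm

private theorem LOC_e (d t : Finset ℕ) (hd : ∀ p ∈ d, p.Prime ∧ 5 ≤ p) (e n : ℕ) (he : e ∣ 6) :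
    (e * ∏ p ∈ d \ t, p) ∣ n ↔ e ∣ n ∧ ∀ p ∈ d \ t, p ∣ n := by
  have hd' : ∀ p ∈ d \ t, p.Prime := fun p hp => (hd p (Finset.mem_sdiff.1 hp).1).1
  rw [← LOC_cop _ hd']
  have hc : e.Coprime (∏ p ∈ d \ t, p) := by
    refine Nat.Coprime.prod_right fun p hp => ?_
    have h1 := hd p (Finset.mem_sdiff.1 hp).1
    refine Nat.Coprime.coprime_dvd_left he ?_
    rw [Nat.coprime_comm, Nat.Prime.coprime_iff_not_dvd h1.1]
    intro h
    have h2 : p ≤ 6 := Nat.le_of_dvd (by norm_num) h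
    have h3 := h1.2
    have h4 : p = 5 ∨ p = 6 := by omega
    rcases h4 with rfl | rfl
    · omega
    · exact absurd h1.1 (by norm_num)
  constructor
  · intro h
    exact ⟨(dvd_mul_right _ _).trans h, (dvd_mul_left _ _).trans h⟩
  · rintro ⟨h1, h2⟩
    exact hc.mul_dvd_of_dvd_of_dvd h1 h2

private theorem LOC_one (x n : ℕ) (hn : n ≤ x) {p : ℕ} (hp : p.Prime) :
    LOC_I (p ∣ n * (x - n)) = LOC_I (¬ p ∣ x ∧ n ≡ x [MOD p]) + LOC_I (p ∣ n) := by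
  rw [LOC_iff (and_congr_right fun _ => Nat.modEq_iff_dvd' hn)]
  by_cases h1 : p ∣ n
  · have h2 : p ∣ n * (x - n) := h1.mul_right _
    have h3 : ¬ (¬ p ∣ x ∧ p ∣ x - n) := by
      rintro ⟨h4, h5⟩
      apply h4
      have h6 : p ∣ (x - n) + n := dvd_add h5 h1
      rwa [Nat.sub_add_cancel hn] at h6
    rw [LOC_t h2, LOC_t h1, LOC_f h3, zero_add]
  · rw [LOC_f h1, add_zero]
    have h2 : p ∣ n * (x - n) ↔ p ∣ x - n := by
      rw [hp.dvd_mul]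
      tauto
    have h3 : (¬ p ∣ x ∧ p ∣ x - n) ↔ p ∣ x - n := by
      constructor
      · exact fun h => h.2
      · intro h
        refine ⟨fun h4 => h1 ?_, h⟩
        have h5 : p ∣ x - (x - n) := Nat.dvd_sub h4 h
        have h6 : x - (x - n) = n := by omega
        rwa [h6] at h5
    rw [LOC_iff h2, LOC_iff h3]

open Classical in
private theorem LOC_key (x : ℕ) (d : Finset ℕ) (hd : ∀ p ∈ d, p.Prime ∧ 5 ≤ p) (n : ℕ) (hn : n ≤ x) :
    LOC_I (n.Coprime 6 ∧ ∀ p ∈ d, p ∣ n * (x - n)) =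
      ∑ e ∈ Nat.divisors 6, (ArithmeticFunction.moebius e : ℝ) *
        ∑ t ∈ d.powerset.filter (fun t => ∀ p ∈ t, ¬ p ∣ x), LOC_I ((e * ∏ p ∈ d \ t, p) ∣ n ∧ n ≡ x [MOD ∏ p ∈ t, p]) := by
  have h2 : LOC_I (∀ p ∈ d, p ∣ n * (x - n)) =
      ∑ t ∈ d.powerset, (∏ p ∈ t, LOC_I (¬ p ∣ x ∧ n ≡ x [MOD p])) * ∏ p ∈ d \ t, LOC_I (p ∣ n) := by
    rw [← Finset.prod_add, ← LOC_ind]
    exact Finset.prod_congr rfl fun p hp => LOC_one x n hn (hd p hp).1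
  rw [LOC_and, h2, ← LOC_six, Finset.sum_mul]
  refine Finset.sum_congr rfl fun e he => ?_
  have he' : e ∣ 6 := Nat.dvd_of_mem_divisors he
  rw [mul_assoc, Finset.sum_filter, Finset.mul_sum]
  congr 1
  refine Finset.sum_congr rfl fun t ht => ?_
  have ht' : ∀ p ∈ t, p.Prime := fun p hp => (hd p (Finset.mem_powerset.1 ht hp)).1
  rw [LOC_if, LOC_ind, LOC_ind, LOC_iff (P := (e * ∏ p ∈ d \ t, p) ∣ n ∧ n ≡ x [MOD ∏ p ∈ t, p])
    (and_congr (LOC_e d t hd e n he') (LOC_modEq t ht' n x hn)), LOC_and, LOC_and,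
    LOC_iff (P := ∀ p ∈ t, ¬ p ∣ x ∧ n ≡ x [MOD p]) (R := (∀ p ∈ t, ¬ p ∣ x) ∧ ∀ p ∈ t, n ≡ x [MOD p])
    ⟨fun h => ⟨fun p hp => (h p hp).1, fun p hp => (h p hp).2⟩, fun h p hp => ⟨h.1 p hp, h.2 p hp⟩⟩, LOC_and]
  ring

open Classical in
theorem LOC (w : ℕ → ℝ) (x : ℕ) (d : Finset ℕ) (hd : ∀ p ∈ d, p.Prime ∧ 5 ≤ p) :
    ∑ n ∈ (Finset.Icc 1 (x - 1)).filter (fun n => n.Coprime 6 ∧ ∀ p ∈ d, p ∣ n * (x - n)), w n =
      ∑ e ∈ Nat.divisors 6, (ArithmeticFunction.moebius e : ℝ) *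
        ∑ t ∈ d.powerset.filter (fun t => ∀ p ∈ t, ¬ p ∣ x), WW w x (e * ∏ p ∈ d \ t, p) (∏ p ∈ t, p) := by
  have h1 : ∀ n ∈ Finset.Icc 1 (x - 1), LOC_I (n.Coprime 6 ∧ ∀ p ∈ d, p ∣ n * (x - n)) * w n =
      ∑ e ∈ Nat.divisors 6, (ArithmeticFunction.moebius e : ℝ) *
        ∑ t ∈ d.powerset.filter (fun t => ∀ p ∈ t, ¬ p ∣ x), LOC_I ((e * ∏ p ∈ d \ t, p) ∣ n ∧ n ≡ x [MOD ∏ p ∈ t, p]) * w n := by
    intro n hn
    rw [Finset.mem_Icc] at hn
    rw [LOC_key x d hd n (by omega), Finset.sum_mul]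
    refine Finset.sum_congr rfl fun e _ => ?_
    rw [mul_assoc, Finset.sum_mul]
  have h2 : ∀ n ∈ Finset.Icc 1 (x - 1), (if n.Coprime 6 ∧ ∀ p ∈ d, p ∣ n * (x - n) then w n else 0) =
      LOC_I (n.Coprime 6 ∧ ∀ p ∈ d, p ∣ n * (x - n)) * w n := fun n _ => LOC_if _
  rw [Finset.sum_filter, Finset.sum_congr rfl h2, Finset.sum_congr rfl h1, Finset.sum_comm]
  refine Finset.sum_congr rfl fun e _ => ?_
  rw [← Finset.mul_sum, Finset.sum_comm]
  congr 1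
  refine Finset.sum_congr rfl fun t _ => ?_
  unfold WW
  rw [Finset.sum_filter]
  exact Finset.sum_congr rfl fun n _ => (LOC_if _).symm

end Pool.Agent.Lib.PX
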