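import Pool.Agent.Lib.MP_7b7e48_nt.PX.Defs
import Pool.Agent.Lib.MP_7b7e48_nt.RG.A7

/-!
# PRH: the local densities

PROOF. `c p = 1`: `gg = (2 - 1/p)/p`, `h2 = (1 - 1/p)/p`, `hh ≤ 3/p - 2/p²`; `c p = 0`: `hh ≤ 2/p`; `c p = -1`: `gg = 1/p²`, `h2 = (1 + 1/p)/p`, `hh ≤ 1/p + 2/p²`. So `0 ≤ hh ≤ 3/p`, and `hh ≤ 2/3` for `p ≥ 5`. `1 - hh ≥ (1 - 1/p)(1 - 2/p) ≥ (1 - 1/p)^5` (as `1 - 2/p ≥ (1 - 1/p)^4` for `p ≥ 3`). So the product is
`≥ ∏_{p ≤ z} (1 - 1/p)^5 ≥ (c'/log z)^5` (Mertens lower bound: `RG.prod_lower` of `RG/A7.lean`, or the lower bound for `GT.V`, see `PQ/C3m.lean`, `PL/C3l.lean`).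
-/

set_option autoImplicit false

open Finset
open Pool.Agent.Lib.GT (Rough V)
open Pool.Agent.Lib.MP_45349e_nt.LS (lam)
open Pool.Agent.Lib.RG (RC LV rr SS PB sig)

namespace Pool.Agent.Lib.PX

open Pool.Agent.Lib.PQ (pw)

private theorem PRH_alg {t : ℝ} (h0 : 0 < t) (h1 : t ≤ 1 / 5) :
    (1 - t) ^ 5 ≤ 1 - (3 * t - 2 * t ^ 2) := by
  have h2 : (1 - t) ^ 4 ≤ 1 - 2 * t := by
    have h3 : 6 * t - 4 * t ^ 2 + t ^ 3 ≤ 2 := by nlinarith [sq_nonneg t, mul_pos h0 h0]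
    nlinarith [mul_le_mul_of_nonneg_left h3 h0.le]
  have h4 := mul_le_mul_of_nonneg_left h2 (show 0 ≤ 1 - t by linarith)
  calc (1 - t) ^ 5 = (1 - t) * (1 - t) ^ 4 := by ring
    _ ≤ (1 - t) * (1 - 2 * t) := h4
    _ = _ := by ring

private theorem PRH_hh (c : ℕ → ℝ) (hc : ∀ n, c n = 1 ∨ c n = 0 ∨ c n = -1) (x p : ℕ) (hp : 5 ≤ p) :
    0 ≤ hh c x p ∧ hh c x p ≤ 3 * (1 / (p : ℝ)) - 2 * (1 / (p : ℝ)) ^ 2 := by
  have hp5 : (5 : ℝ) ≤ p := by exact_mod_cast hp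
  have ht0 : 0 < 1 / (p : ℝ) := by positivity
  have ht1 : 1 / (p : ℝ) ≤ 1 / 5 := one_div_le_one_div_of_le (by norm_num) hp5
  have hg : gg c p = (1 + c p - c p * (1 / (p : ℝ))) * (1 / (p : ℝ)) := by
    unfold gg; ring
  have hh2 : h2 c p = (1 - c p * (1 / (p : ℝ))) * (1 / (p : ℝ)) := by
    unfold h2; ring
  have key : 0 ≤ gg c p ∧ 0 ≤ h2 c p ∧ gg c p + h2 c p ≤ 3 * (1 / (p : ℝ)) - 2 * (1 / (p : ℝ)) ^ 2 := by
    rw [hg, hh2]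
    set t := 1 / (p : ℝ) with ht
    rcases hc p with h | h | h
    · rw [h]
      refine ⟨mul_nonneg (by linarith) ht0.le, mul_nonneg (by linarith) ht0.le, ?_⟩
      nlinarith
    · rw [h]
      refine ⟨mul_nonneg (by linarith) ht0.le, mul_nonneg (by linarith) ht0.le, ?_⟩
      nlinarith
    · rw [h]
      refine ⟨mul_nonneg (by linarith) ht0.le, mul_nonneg (by linarith) ht0.le, ?_⟩
      nlinarith
  unfold hh
  split_ifs with h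
  · exact ⟨by linarith [key.1], by linarith [key.2.1, key.2.2]⟩
  · exact ⟨by linarith [key.1, key.2.1], key.2.2⟩

theorem PRH : ∃ c0 : ℝ, 0 < c0 ∧ ∀ c : ℕ → ℝ, (∀ n, c n = 1 ∨ c n = 0 ∨ c n = -1) → ∀ z : ℕ, 2 ≤ z →
    ∀ P : Finset ℕ, (∀ p ∈ P, p.Prime ∧ 5 ≤ p ∧ p ≤ z) → ∀ x : ℕ,
    (∀ p ∈ P, 0 ≤ hh c x p ∧ hh c x p ≤ 4 / p ∧ hh c x p ≤ 2 / 3) ∧
      c0 / Real.log z ^ 5 ≤ ∏ p ∈ P, (1 - hh c x p) := by
  obtain ⟨c1, hc1, h1⟩ := RG.prod_lower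
  refine ⟨c1 ^ 5, pow_pos hc1 5, fun c hc z hz P hP x => ⟨fun p hp => ?_, ?_⟩⟩
  · have hp5 : (5 : ℝ) ≤ p := by exact_mod_cast (hP p hp).2.1
    have ht0 : 0 < 1 / (p : ℝ) := by positivity
    have ht1 : 1 / (p : ℝ) ≤ 1 / 5 := one_div_le_one_div_of_le (by norm_num) hp5
    obtain ⟨h2, h3⟩ := PRH_hh c hc x p (hP p hp).2.1
    refine ⟨h2, ?_, ?_⟩
    · have h4 : 4 / (p : ℝ) = 4 * (1 / (p : ℝ)) := by ring
      rw [h4]
      have := sq_nonneg (1 / (p : ℝ))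
      linarith
    · have := sq_nonneg (1 / (p : ℝ))
      linarith
  · have hlog : 0 < Real.log z := Real.log_pos (by exact_mod_cast hz)
    calc c1 ^ 5 / Real.log z ^ 5 = (c1 / Real.log z) ^ 5 := by rw [div_pow]
      _ ≤ (∏ p ∈ P, (1 - 1 / (p : ℝ))) ^ 5 :=
          pow_le_pow_left₀ (by positivity) (h1 z hz P fun r hr => ⟨(hP r hr).1, (hP r hr).2.2⟩) 5
      _ = ∏ p ∈ P, (1 - 1 / (p : ℝ)) ^ 5 := by rw [Finset.prod_pow]
      _ ≤ _ := by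
          apply Finset.prod_le_prod
          · intro p hp
            have hp5 : (5 : ℝ) ≤ p := by exact_mod_cast (hP p hp).2.1
            have ht1 : 1 / (p : ℝ) ≤ 1 / 5 := one_div_le_one_div_of_le (by norm_num) hp5
            exact pow_nonneg (by linarith) 5
          · intro p hp
            have hp5 : (5 : ℝ) ≤ p := by exact_mod_cast (hP p hp).2.1
            have ht0 : 0 < 1 / (p : ℝ) := by positivity
            have ht1 : 1 / (p : ℝ) ≤ 1 / 5 := one_div_le_one_div_of_le (by norm_num) hp5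
            have h5 := PRH_alg ht0 ht1
            have h6 := (PRH_hh c hc x p (hP p hp).2.1).2
            linarith

end Pool.Agent.Lib.PX
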