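import Pool.Agent.Lib.MP_7b7e48_nt.PX.Defs
import Pool.Agent.Lib.MP_7b7e48_nt.GT.FundLemma

/-!
# SUMR: sums over the pairs of moduli; the number of levels

PROOF. `2^ω(D1 D2) ≤ 2^ω(D1) 2^ω(D2) ≤ τ(D1) τ(D2)`, and `∑_{D ≤ Y} τ(D)/D ≤ (∑_{a ≤ Y} 1/a)² ≤ (1 + log Y)²`. `NJb`: `GT.NJ z = Nat.log 2 (Nat.log 2 z) + O(1)`, so `NJ z + 1 ≤ 3 + 2 log z`-like; the constant `10` is generous (`z ≥ 2`: unfold `GT.NJ`, `Nat.log 2 n ≤ log n/log 2`).
-/

set_option autoImplicit false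

open Finset
open Pool.Agent.Lib.GT (Rough V)
open Pool.Agent.Lib.MP_45349e_nt.LS (lam)
open Pool.Agent.Lib.RG (RC LV rr SS PB sig)

namespace Pool.Agent.Lib.PX

open Pool.Agent.Lib.PQ (pw)

private theorem SUMR_harm (n : ℕ) : ∑ a ∈ Finset.Icc 1 n, (1 : ℝ) / a ≤ 1 + Real.log n := by
  have h := harmonic_le_one_add_log n
  rw [harmonic_eq_sum_Icc] at h
  push_cast at h
  simp only [one_div]
  exact h

private theorem SUMR_om (D : ℕ) (hD : D ≠ 0) :
    (2 : ℝ) ^ D.primeFactors.card ≤ (D.divisors.card : ℝ) := by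
  rw [Nat.card_divisors hD]
  push_cast
  rw [← Finset.prod_const]
  apply Finset.prod_le_prod
  · intro p _; norm_num
  · intro p hp
    have h0 := Nat.mem_primeFactors.mp hp
    have h1 : 1 ≤ D.factorization p := (h0.1.dvd_iff_one_le_factorization hD).mp h0.2.1
    have h2 : (1 : ℝ) ≤ D.factorization p := by exact_mod_cast h1
    linarith

private theorem SUMR_one (Y : ℕ) : ∑ D ∈ Finset.Icc 1 Y, (D.divisors.card : ℝ) / D ≤
    (∑ a ∈ Finset.Icc 1 Y, (1 : ℝ) / a) ^ 2 := by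
  classical
  set T : Finset (ℕ × ℕ) := (Finset.Icc 1 Y ×ˢ Finset.Icc 1 Y).filter (fun x => x.1 * x.2 ≤ Y) with hT
  have hmaps : ∀ x ∈ T, x.1 * x.2 ∈ Finset.Icc 1 Y := by
    intro x hx
    rw [hT, Finset.mem_filter, Finset.mem_product, Finset.mem_Icc, Finset.mem_Icc] at hx
    rw [Finset.mem_Icc]
    exact ⟨Nat.mul_pos hx.1.1.1 hx.1.2.1, hx.2⟩
  have h1 : ∀ D ∈ Finset.Icc 1 Y, (D.divisors.card : ℝ) / D =
      ∑ x ∈ T.filter (fun x => x.1 * x.2 = D), (1 : ℝ) / x.1 * (1 / x.2) := by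
    intro D hD
    rw [Finset.mem_Icc] at hD
    have h2 : T.filter (fun x => x.1 * x.2 = D) = D.divisorsAntidiagonal := by
      ext ⟨a, b⟩
      rw [Finset.mem_filter, hT, Finset.mem_filter, Finset.mem_product, Finset.mem_Icc,
        Finset.mem_Icc, Nat.mem_divisorsAntidiagonal]
      constructor
      · rintro ⟨_, h⟩
        exact ⟨h, by omega⟩
      · rintro ⟨h, h0⟩
        simp only at h
        have ha : 0 < a := by
          rcases Nat.eq_zero_or_pos a with h' | h'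
          · rw [h', Nat.zero_mul] at h; omega
          · exact h'
        have hb : 0 < b := by
          rcases Nat.eq_zero_or_pos b with h' | h'
          · rw [h', Nat.mul_zero] at h; omega
          · exact h'
        have h3 : a ≤ D := h ▸ Nat.le_mul_of_pos_right a hb
        have h4 : b ≤ D := h ▸ Nat.le_mul_of_pos_left b ha
        exact ⟨⟨⟨⟨ha, by simp only; omega⟩, ⟨hb, by simp only; omega⟩⟩, by simp only; omega⟩, h⟩
    have h3 : (T.filter (fun x => x.1 * x.2 = D)).card = D.divisors.card := by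
      rw [h2, ← Nat.map_div_right_divisors, Finset.card_map]
    have h4 : ∑ x ∈ T.filter (fun x => x.1 * x.2 = D), (1 : ℝ) / x.1 * (1 / x.2) =
        ∑ x ∈ T.filter (fun x => x.1 * x.2 = D), 1 / (D : ℝ) := by
      apply Finset.sum_congr rfl
      intro x hx
      rw [← (Finset.mem_filter.mp hx).2]
      push_cast
      rw [one_div_mul_one_div]
    rw [h4, Finset.sum_const, nsmul_eq_mul, h3]
    ring
  rw [Finset.sum_congr rfl h1, Finset.sum_fiberwise_of_maps_to hmaps, sq, Finset.sum_mul_sum,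
    ← Finset.sum_product']
  apply Finset.sum_le_sum_of_subset_of_nonneg
  · rw [hT]; exact Finset.filter_subset _ _
  · intro x _ _
    positivity

theorem SUMR (Y : ℕ) (hY : 1 ≤ Y) :
    ∑ D1 ∈ Finset.Icc 1 Y, ∑ D2 ∈ Finset.Icc 1 Y,
      (2 : ℝ) ^ (D1 * D2).primeFactors.card / ((D1 * D2 : ℕ) : ℝ) ≤ (1 + Real.log Y) ^ 4 := by
  have hlog : 0 ≤ Real.log Y := Real.log_nonneg (by exact_mod_cast hY)
  have h1 : ∀ D1 ∈ Finset.Icc 1 Y, ∀ D2 ∈ Finset.Icc 1 Y,
      (2 : ℝ) ^ (D1 * D2).primeFactors.card / ((D1 * D2 : ℕ) : ℝ) ≤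
        (D1.divisors.card : ℝ) / D1 * ((D2.divisors.card : ℝ) / D2) := by
    intro D1 hD1 D2 hD2
    rw [Finset.mem_Icc] at hD1 hD2
    have ha : D1 ≠ 0 := by omega
    have hb : D2 ≠ 0 := by omega
    have h2 : (D1 * D2).primeFactors.card ≤ D1.primeFactors.card + D2.primeFactors.card := by
      rw [Nat.primeFactors_mul ha hb]
      exact Finset.card_union_le _ _
    have h3 : (2 : ℝ) ^ (D1 * D2).primeFactors.card ≤ (D1.divisors.card : ℝ) * D2.divisors.card :=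
      calc (2 : ℝ) ^ (D1 * D2).primeFactors.card
          ≤ (2 : ℝ) ^ (D1.primeFactors.card + D2.primeFactors.card) :=
            pow_le_pow_right₀ (by norm_num) h2
        _ = (2 : ℝ) ^ D1.primeFactors.card * (2 : ℝ) ^ D2.primeFactors.card := pow_add _ _ _
        _ ≤ _ := mul_le_mul (SUMR_om D1 ha) (SUMR_om D2 hb) (by positivity) (by positivity)
    rw [div_mul_div_comm]
    push_cast
    exact div_le_div_of_nonneg_right h3 (by positivity)
  have h0 : 0 ≤ ∑ a ∈ Finset.Icc 1 Y, (1 : ℝ) / a := Finset.sum_nonneg fun _ _ => by positivity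
  calc _ ≤ ∑ D1 ∈ Finset.Icc 1 Y, ∑ D2 ∈ Finset.Icc 1 Y,
        (D1.divisors.card : ℝ) / D1 * ((D2.divisors.card : ℝ) / D2) :=
        Finset.sum_le_sum fun D1 hD1 => Finset.sum_le_sum fun D2 hD2 => h1 D1 hD1 D2 hD2
    _ = (∑ D ∈ Finset.Icc 1 Y, (D.divisors.card : ℝ) / D) ^ 2 := by
        rw [sq, Finset.sum_mul_sum]
    _ ≤ ((∑ a ∈ Finset.Icc 1 Y, (1 : ℝ) / a) ^ 2) ^ 2 :=
        pow_le_pow_left₀ (Finset.sum_nonneg fun _ _ => by positivity) (SUMR_one Y) 2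
    _ ≤ ((1 + Real.log Y) ^ 2) ^ 2 :=
        pow_le_pow_left₀ (by positivity) (pow_le_pow_left₀ h0 (SUMR_harm Y) 2) 2
    _ = _ := by ring

theorem NJb (z : ℕ) (hz : 2 ≤ z) : (GT.NJ z : ℝ) + 1 ≤ 10 * (1 + Real.log z) := by
  have h1 : Nat.log 2 (Nat.log 2 z) ≤ Nat.log 2 z := Nat.log_le_self _ _
  have h2 : 2 ^ Nat.log 2 z ≤ z := Nat.pow_log_le_self 2 (by omega)
  have h3 : (2 : ℝ) ^ Nat.log 2 z ≤ z := by exact_mod_cast h2
  have h4 : (Nat.log 2 z : ℝ) * Real.log 2 ≤ Real.log z := by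
    rw [← Real.log_pow]
    exact Real.log_le_log (by positivity) h3
  have h5 : (0.6931471803 : ℝ) < Real.log 2 := Real.log_two_gt_d9
  have h6 : (Nat.log 2 z : ℝ) ≤ 2 * Real.log z := by
    have h7 : (0 : ℝ) ≤ (Nat.log 2 z : ℝ) := Nat.cast_nonneg _
    nlinarith
  have h8 : (GT.NJ z : ℝ) ≤ (Nat.log 2 z : ℝ) + 1 := by
    have : GT.NJ z ≤ Nat.log 2 z + 1 := by
      unfold GT.NJ
      omega
    exact_mod_cast this
  have h9 : 0 ≤ Real.log z := Real.log_nonneg (by exact_mod_cast (by omega : 1 ≤ z))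
  linarith

end Pool.Agent.Lib.PX
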