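import Pool.Agent.Lib.MP_7b7e48_nt.PX.Defs

/-!
# TLS: the dilated series

PROOF. `U = pw N (3/4)`. `log (x/(e w)) - 1 = (log (x/w) - 1) - log e`. So the difference is `-∑_{U/e < w ≤ U} c w/w (log (x/w) - 1) - log e * ∑_{w ≤ U/e} c w/w`. Second term: `≤ log e (L + 2 PB e/U * 2)` (`LV` with `y = U/e ≥ 1`), `log e ≤ (log N)/50`. First: Abel summation with the decreasing function
`log (x/w) - 1`, `|log (x/w) - 1| ≤ 3 log N`, and `|∑_{U/e < w ≤ y} c w/w| ≤ 4 PB/(U/e)` for `y ≥ U/e` (`LV` twice): `≤ 6 log N * 4 PB * 2 e/U`. `PB ≤ C N^(1/2 + 1/100)` (`RG.PB_le`), `e/U ≤ 2 N^(1/50 - 3/4)`: total error `≤ C' log N * N^(0.51 + 0.02 - 0.75) ≤ N^(-1/6)`.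
-/

set_option autoImplicit false

open Finset
open Pool.Agent.Lib.GT (Rough V)
open Pool.Agent.Lib.MP_45349e_nt.LS (lam)
open Pool.Agent.Lib.RG (RC LV rr SS PB sig)

namespace Pool.Agent.Lib.PX

open Pool.Agent.Lib.PQ (pw)

private theorem TLS_abel (f g : ℕ → ℝ) (A : ℕ) (M : ℝ) (U : ℕ)
    (hg : ∀ w, A ≤ w → w < U → g (w + 1) ≤ g w)
    (hS : ∀ y, A ≤ y → y ≤ U → |∑ w ∈ Finset.Ioc A y, f w| ≤ M) (B : ℕ) (hAB : A ≤ B) : B ≤ U →
    |∑ w ∈ Finset.Ioc A B, f w * g w - (∑ w ∈ Finset.Ioc A B, f w) * g B| ≤ M * (g A - g B) := by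
  induction B, hAB using Nat.le_induction with
  | base => intro _; simp
  | succ B hB ih =>
    intro hBU
    have h1 := ih (by omega)
    have h2 := hg B hB (by omega)
    have h3 := hS B hB (by omega)
    rw [← Finset.sum_Ioc_consecutive _ hB (Nat.le_succ B), ← Finset.sum_Ioc_consecutive f hB (Nat.le_succ B),
      Nat.Ioc_succ_singleton, Finset.sum_singleton, Finset.sum_singleton]
    have h4 : ∑ w ∈ Finset.Ioc A B, f w * g w + f (B + 1) * g (B + 1) -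
        (∑ w ∈ Finset.Ioc A B, f w + f (B + 1)) * g (B + 1) =
        (∑ w ∈ Finset.Ioc A B, f w * g w - (∑ w ∈ Finset.Ioc A B, f w) * g B) +
          (∑ w ∈ Finset.Ioc A B, f w) * (g B - g (B + 1)) := by ring
    rw [h4]
    refine (abs_add_le _ _).trans ?_
    rw [abs_mul, abs_of_nonneg (sub_nonneg.mpr h2)]
    have h5 := mul_le_mul_of_nonneg_right h3 (sub_nonneg.mpr h2)
    linarith

private theorem TLS_sum (c : ℕ → ℝ) (A y : ℕ) (hA : A ≤ y) :
    ∑ w ∈ Finset.Ioc A y, c w / w = ∑ w ∈ Finset.Icc 1 y, c w / w - ∑ w ∈ Finset.Icc 1 A, c w / w := by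
  have h1 : ∀ m : ℕ, Finset.Icc 1 m = Finset.Ioc 0 m := fun m => by ext a; simp [Nat.succ_le_iff]
  rw [h1, h1, ← Finset.sum_Ioc_consecutive _ (Nat.zero_le A) hA]
  ring

private theorem TLS_core (N : ℕ) (hN : 3 ≤ N) (c : ℕ → ℝ) (L : ℝ) (hLV : LV N c L) (x e U : ℕ)
    (hx : N ≤ x) (hx2 : x ≤ N ^ 2) (he : 1 ≤ e) (heU : e ≤ U) (hUN : U ≤ N) (hPB : 0 ≤ PB N) :
    |∑ w ∈ Finset.Icc 1 (U / e), c w / w * (Real.log ((x : ℝ) / ((e * w : ℕ) : ℝ)) - 1) -
      ∑ w ∈ Finset.Icc 1 U, c w / w * (Real.log ((x : ℝ) / (w : ℝ)) - 1)| ≤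
      L * Real.log N + 26 * Real.log N * PB N / ((U / e : ℕ) : ℝ) := by
  obtain ⟨hL0, hL⟩ := hLV
  set A := U / e with hAdef
  have hA1 : 1 ≤ A := (Nat.one_le_div_iff (by omega)).mpr heU
  have hAU : A ≤ U := Nat.div_le_self _ _
  have hxpos : (0 : ℝ) < x := by exact_mod_cast (by omega : 0 < x)
  have hepos : (0 : ℝ) < e := by exact_mod_cast (by omega : 0 < e)
  have hApos : (0 : ℝ) < A := by exact_mod_cast (by omega : 0 < A)
  have hNpos : (0 : ℝ) < N := by exact_mod_cast (by omega : 0 < N)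
  have hlogN : 1 ≤ Real.log N := by
    rw [Real.le_log_iff_exp_le hNpos]
    have h3 : (3 : ℝ) ≤ N := by exact_mod_cast hN
    have := Real.exp_one_lt_d9
    linarith
  have hPA : 0 ≤ PB N / A := by positivity
  set g : ℕ → ℝ := fun w => Real.log ((x : ℝ) / (w : ℝ)) - 1 with hg
  have hgb : ∀ w : ℕ, 1 ≤ w → w ≤ U → |g w| ≤ 2 * Real.log N := by
    intro w hw1 hw2
    have hwpos : (0 : ℝ) < w := by exact_mod_cast (by omega : 0 < w)
    have h1 : 0 ≤ Real.log ((x : ℝ) / (w : ℝ)) := by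
      apply Real.log_nonneg
      rw [le_div_iff₀ hwpos, one_mul]
      exact_mod_cast (by omega : w ≤ x)
    have h2 : Real.log ((x : ℝ) / (w : ℝ)) ≤ 2 * Real.log N := by
      have h3 : Real.log ((x : ℝ) / (w : ℝ)) ≤ Real.log x := by
        apply Real.log_le_log (by positivity)
        rw [div_le_iff₀ hwpos]
        have : (1 : ℝ) ≤ w := by exact_mod_cast hw1
        nlinarith
      have h4 : Real.log x ≤ Real.log ((N : ℝ) ^ 2) := by
        apply Real.log_le_log hxpos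
        exact_mod_cast hx2
      rw [Real.log_pow] at h4
      push_cast at h4
      linarith
    rw [abs_le, hg]
    dsimp only
    constructor <;> linarith
  have hpart : ∀ y, A ≤ y → y ≤ U → |∑ w ∈ Finset.Ioc A y, c w / w| ≤ 4 * (PB N / A) := by
    intro y hy _
    rw [TLS_sum c A y hy]
    have h1 := hL y (by omega)
    have h2 := hL A hA1
    have hypos : (0 : ℝ) < y := by exact_mod_cast (by omega : 0 < y)
    have h3 : 2 * PB N / y ≤ 2 * PB N / A := by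
      apply div_le_div_of_nonneg_left (by positivity) hApos
      exact_mod_cast hy
    have h4 : 2 * PB N / A = 2 * (PB N / A) := by ring
    rw [h4] at h2 h3
    rw [abs_le] at h1 h2 ⊢
    constructor <;> linarith [h1.1, h1.2, h2.1, h2.2]
  have hab := TLS_abel (fun w => c w / w) g A (4 * (PB N / A)) U (by
    intro w hw hwU
    have hwpos : (0 : ℝ) < w := by exact_mod_cast (by omega : 0 < w)
    have hw1pos : (0 : ℝ) < ((w + 1 : ℕ) : ℝ) := by exact_mod_cast (by omega : 0 < w + 1)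
    rw [hg]
    dsimp only
    have : Real.log ((x : ℝ) / ((w + 1 : ℕ) : ℝ)) ≤ Real.log ((x : ℝ) / (w : ℝ)) := by
      apply Real.log_le_log (by positivity)
      apply div_le_div_of_nonneg_left hxpos.le hwpos
      exact_mod_cast (by omega : w ≤ w + 1)
    linarith) hpart U hAU le_rfl
  have hgA := hgb A hA1 hAU
  have hgU := hgb U (by omega) le_rfl
  have hSU := hpart U hAU le_rfl
  have hfirst : |∑ w ∈ Finset.Ioc A U, c w / w * g w| ≤ 24 * Real.log N * (PB N / A) := by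
    have h1 : ∑ w ∈ Finset.Ioc A U, c w / w * g w =
        (∑ w ∈ Finset.Ioc A U, c w / w * g w - (∑ w ∈ Finset.Ioc A U, c w / w) * g U) +
          (∑ w ∈ Finset.Ioc A U, c w / w) * g U := by ring
    rw [h1]
    refine (abs_add_le _ _).trans ?_
    rw [abs_mul]
    have h2 : |∑ w ∈ Finset.Ioc A U, c w / w| * |g U| ≤ 4 * (PB N / A) * (2 * Real.log N) :=
      mul_le_mul hSU hgU (abs_nonneg _) (by positivity)
    have h3 : 4 * (PB N / A) * (g A - g U) ≤ 4 * (PB N / A) * (4 * Real.log N) := by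
      apply mul_le_mul_of_nonneg_left _ (by positivity)
      rw [abs_le] at hgA hgU
      linarith [hgA.2, hgU.1]
    linarith [hab]
  have hloge0 : 0 ≤ Real.log e := Real.log_nonneg (by exact_mod_cast he)
  have hlogeN : Real.log e ≤ Real.log N := by
    apply Real.log_le_log hepos
    exact_mod_cast (by omega : e ≤ N)
  have hsecond : |Real.log e * ∑ w ∈ Finset.Icc 1 A, c w / w| ≤ L * Real.log N + 2 * Real.log N * (PB N / A) := by
    rw [abs_mul, abs_of_nonneg hloge0]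
    have h1 := hL A hA1
    have h4 : 2 * PB N / A = 2 * (PB N / A) := by ring
    rw [h4] at h1
    have h2 : |∑ w ∈ Finset.Icc 1 A, c w / w| ≤ L + 2 * (PB N / A) := by
      rw [abs_le] at h1 ⊢
      constructor <;> linarith [h1.1, h1.2]
    have h3 : Real.log e * |∑ w ∈ Finset.Icc 1 A, c w / w| ≤ Real.log N * (L + 2 * (PB N / A)) :=
      mul_le_mul hlogeN h2 (abs_nonneg _) (by linarith)
    linarith
  have hdec : ∑ w ∈ Finset.Icc 1 A, c w / w * (Real.log ((x : ℝ) / ((e * w : ℕ) : ℝ)) - 1) -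
      ∑ w ∈ Finset.Icc 1 U, c w / w * (Real.log ((x : ℝ) / (w : ℝ)) - 1) =
      -(∑ w ∈ Finset.Ioc A U, c w / w * g w) - Real.log e * ∑ w ∈ Finset.Icc 1 A, c w / w := by
    have h1 : ∀ m : ℕ, Finset.Icc 1 m = Finset.Ioc 0 m := fun m => by ext a; simp [Nat.succ_le_iff]
    have h2 : ∑ w ∈ Finset.Icc 1 U, c w / w * (Real.log ((x : ℝ) / (w : ℝ)) - 1) =
        ∑ w ∈ Finset.Icc 1 A, c w / w * g w + ∑ w ∈ Finset.Ioc A U, c w / w * g w := by
      rw [h1, h1, Finset.sum_Ioc_consecutive _ (Nat.zero_le A) hAU]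
    have h3 : ∑ w ∈ Finset.Icc 1 A, c w / w * (Real.log ((x : ℝ) / ((e * w : ℕ) : ℝ)) - 1) =
        ∑ w ∈ Finset.Icc 1 A, c w / w * g w - Real.log e * ∑ w ∈ Finset.Icc 1 A, c w / w := by
      rw [Finset.mul_sum, ← Finset.sum_sub_distrib]
      apply Finset.sum_congr rfl
      intro w hw
      have hw1 := (Finset.mem_Icc.mp hw).1
      have hwpos : (0 : ℝ) < w := by exact_mod_cast (by omega : 0 < w)
      have h5 : Real.log ((x : ℝ) / ((e * w : ℕ) : ℝ)) = Real.log ((x : ℝ) / (w : ℝ)) - Real.log e := by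
        rw [← Real.log_div (by positivity) hepos.ne']
        congr 1
        push_cast
        field_simp
      rw [h5, hg]
      ring
    rw [h2, h3]
    ring
  rw [hdec]
  have hfin : 26 * Real.log N * PB N / (A : ℝ) = 26 * Real.log N * (PB N / A) := by ring
  rw [hfin]
  rw [abs_le] at hfirst hsecond ⊢
  constructor <;> linarith [hfirst.1, hfirst.2, hsecond.1, hsecond.2]

theorem TLS : ∃ N0 : ℕ, ∀ N : ℕ, N0 ≤ N → ∀ (c : ℕ → ℝ) (L : ℝ), RC N c → LV N c L → ∀ x e : ℕ, N ≤ x → x ≤ N ^ 2 →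
    1 ≤ e → (e : ℝ) ≤ (N : ℝ) ^ ((1 : ℝ) / 50) →
    |∑ w ∈ Finset.Icc 1 (pw N (3 / 4) / e), c w / w * (Real.log ((x : ℝ) / ((e * w : ℕ) : ℝ)) - 1) - L1 N c x| ≤
      L * Real.log N + (N : ℝ) ^ (-(1 / 6 : ℝ)) := by
  obtain ⟨C, hC, hPB⟩ := Pool.Agent.Lib.RG.PB_le (1 / 100) (by norm_num)
  have htend : Filter.Tendsto (fun n : ℕ => (n : ℝ) ^ ((13 : ℝ) / 300)) Filter.atTop Filter.atTop :=
    (tendsto_rpow_atTop (by norm_num)).comp tendsto_natCast_atTop_atTop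
  obtain ⟨N1, hN1⟩ := (htend.eventually_ge_atTop (10400 * C)).exists_forall_of_atTop
  refine ⟨max N1 3, ?_⟩
  intro N hN c L _ hLV x e hx hx2 he he2
  have hN3 : 3 ≤ N := le_trans (le_max_right _ _) hN
  have hbig := hN1 N (le_trans (le_max_left _ _) hN)
  have hNpos : (0 : ℝ) < N := by exact_mod_cast (by omega : 0 < N)
  have hN1r : (1 : ℝ) ≤ N := by exact_mod_cast (by omega : 1 ≤ N)
  have hU1 : e ≤ pw N (3 / 4) := by
    unfold Pool.Agent.Lib.PQ.pw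
    apply Nat.le_floor
    refine he2.trans (Real.rpow_le_rpow_of_exponent_le hN1r (by norm_num))
  have hU2 : pw N (3 / 4) ≤ N := by
    unfold Pool.Agent.Lib.PQ.pw
    apply Nat.floor_le_of_le
    calc (N : ℝ) ^ ((3 : ℝ) / 4) ≤ (N : ℝ) ^ (1 : ℝ) := Real.rpow_le_rpow_of_exponent_le hN1r (by norm_num)
      _ = N := Real.rpow_one _
  have hPB0 : 0 ≤ PB N := by
    unfold Pool.Agent.Lib.RG.PB
    have := Real.log_nonneg hN1r
    positivity
  have hmain := TLS_core N hN3 c L hLV x e (pw N (3 / 4)) hx hx2 he hU1 hU2 hPB0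
  unfold L1
  refine hmain.trans ?_
  have hPBN := (hPB N (by omega)).1
  have hlog : Real.log N ≤ 100 * (N : ℝ) ^ ((1 : ℝ) / 100) := by
    have h := Real.log_le_rpow_div hNpos.le (show (0 : ℝ) < 1 / 100 by norm_num)
    have h2 : (N : ℝ) ^ ((1 : ℝ) / 100) / (1 / 100) = 100 * (N : ℝ) ^ ((1 : ℝ) / 100) := by ring
    rw [h2] at h
    exact h
  have hlog0 : 0 ≤ Real.log N := Real.log_nonneg hN1r
  have hepos : (0 : ℝ) < e := by exact_mod_cast (by omega : 0 < e)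
  have hA1 : 1 ≤ pw N (3 / 4) / e := (Nat.one_le_div_iff (by omega)).mpr hU1
  have hAlow : (N : ℝ) ^ ((3 : ℝ) / 4 - 1 / 50) ≤ 4 * ((pw N (3 / 4) / e : ℕ) : ℝ) := by
    have h1 : (N : ℝ) ^ ((3 : ℝ) / 4) < (pw N (3 / 4) : ℝ) + 1 := by
      unfold Pool.Agent.Lib.PQ.pw
      exact Nat.lt_floor_add_one _
    have h2 : (pw N (3 / 4) : ℝ) + 1 ≤ 2 * (pw N (3 / 4) : ℝ) := by
      have : (1 : ℝ) ≤ (pw N (3 / 4) : ℝ) := by exact_mod_cast (le_trans he hU1)
      linarith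
    have h3 : (pw N (3 / 4) : ℝ) ≤ e * (2 * ((pw N (3 / 4) / e : ℕ) : ℝ)) := by
      have h4 : pw N (3 / 4) ≤ e * (2 * (pw N (3 / 4) / e)) := by
        have h5 := Nat.lt_mul_div_succ (pw N (3 / 4)) (show 0 < e by omega)
        have h6 : e * (pw N (3 / 4) / e + 1) ≤ e * (2 * (pw N (3 / 4) / e)) := by
          apply Nat.mul_le_mul_left
          omega
        omega
      exact_mod_cast h4
    rw [Real.rpow_sub hNpos, div_le_iff₀ (by positivity)]
    have h5 : (e : ℝ) * (2 * ((pw N (3 / 4) / e : ℕ) : ℝ)) ≤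
        (N : ℝ) ^ ((1 : ℝ) / 50) * (2 * ((pw N (3 / 4) / e : ℕ) : ℝ)) :=
      mul_le_mul_of_nonneg_right he2 (by positivity)
    nlinarith
  have hApos : (0 : ℝ) < ((pw N (3 / 4) / e : ℕ) : ℝ) := by exact_mod_cast (by omega : 0 < pw N (3 / 4) / e)
  have hfin : 26 * Real.log N * PB N / ((pw N (3 / 4) / e : ℕ) : ℝ) ≤ (N : ℝ) ^ (-(1 / 6 : ℝ)) := by
    rw [div_le_iff₀ hApos]
    have h1 : 26 * Real.log N * PB N ≤ 26 * (100 * (N : ℝ) ^ ((1 : ℝ) / 100)) * (C * (N : ℝ) ^ ((1 : ℝ) / 2 + 1 / 100)) := by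
      apply mul_le_mul _ hPBN hPB0 (by positivity)
      linarith
    have h2 : 26 * (100 * (N : ℝ) ^ ((1 : ℝ) / 100)) * (C * (N : ℝ) ^ ((1 : ℝ) / 2 + 1 / 100)) =
        2600 * C * (N : ℝ) ^ ((1 : ℝ) / 100 + (1 / 2 + 1 / 100)) := by
      rw [Real.rpow_add hNpos ((1 : ℝ) / 100)]
      ring
    have h3 : 2600 * C * (N : ℝ) ^ ((1 : ℝ) / 100 + (1 / 2 + 1 / 100)) ≤
        ((N : ℝ) ^ ((13 : ℝ) / 300) / 4) * (N : ℝ) ^ ((1 : ℝ) / 100 + (1 / 2 + 1 / 100)) := by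
      apply mul_le_mul_of_nonneg_right _ (by positivity)
      linarith
    have h4 : ((N : ℝ) ^ ((13 : ℝ) / 300) / 4) * (N : ℝ) ^ ((1 : ℝ) / 100 + (1 / 2 + 1 / 100)) =
        (N : ℝ) ^ (-(1 / 6 : ℝ)) * ((N : ℝ) ^ ((3 : ℝ) / 4 - 1 / 50) / 4) := by
      have h5 : (N : ℝ) ^ ((13 : ℝ) / 300) * (N : ℝ) ^ ((1 : ℝ) / 100 + (1 / 2 + 1 / 100)) =
          (N : ℝ) ^ (-(1 / 6 : ℝ)) * (N : ℝ) ^ ((3 : ℝ) / 4 - 1 / 50) := by
        rw [← Real.rpow_add hNpos, ← Real.rpow_add hNpos]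
        norm_num
      linear_combination h5 / 4
    rw [h4] at h3
    rw [h2] at h1
    have h6 : (N : ℝ) ^ (-(1 / 6 : ℝ)) * ((N : ℝ) ^ ((3 : ℝ) / 4 - 1 / 50) / 4) ≤
        (N : ℝ) ^ (-(1 / 6 : ℝ)) * ((pw N (3 / 4) / e : ℕ) : ℝ) := by
      apply mul_le_mul_of_nonneg_left _ (by positivity)
      linarith
    linarith
  linarith

end Pool.Agent.Lib.PX
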