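import Pool.Agent.Lib.MP_7b7e48_nt.PX.RHO
import Pool.Agent.Lib.MP_7b7e48_nt.PX.APC
import Pool.Agent.Lib.MP_7b7e48_nt.PX.APL
import Pool.Agent.Lib.MP_7b7e48_nt.PX.HYP
import Pool.Agent.Lib.MP_7b7e48_nt.PX.LFA
import Pool.Agent.Lib.MP_7b7e48_nt.PX.CNV
import Pool.Agent.Lib.MP_7b7e48_nt.PX.TLS

/-!
# WMN: the main term for the multiples of `D1` in the class `x` modulo `D2`

PROOF. `HYP2` with `X = x - 1`, `U = pw N (3/4)`, `p n = (D1 ∣ n ∧ n ≡ x [MOD D2])`, `f = lg`. FIRST SUM, `u ≤ U`: if `gcd(u, D2) > 1` there is no `v` (`u v = x` is a unit modulo `D2`). Otherwise `{v : D1 ∣ u v, u v = x mod D2} = {v : e' ∣ v, v = b mod D2}`, `e' = D1/gcd(D1,u)`, coprime to `D2`: one class modulo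
`e' D2`. `APL`: `(1/(e' D2)) ∑_{v ≤ (x-1)/u} log v + O(2 (1 + log x))`, then `LFA`. So the first sum is `∑_{u ≤ U, (u,D2) = 1} c u gcd(D1,u)/(D1 D2) (x/u)(log(x/u) - 1)` with an error `≤ U (4 log x + 6)`. By `CNVb`, `TLS` (`e ≤ D1 D2 ≤ N^(1/100)`), `CNVc`, `CNVd` this is
`x/(D1 D2) (D1 D2 EV L1 + O(2^ω (L log N + N^(-1/6))))`. SECOND SUM: `v ≤ (x-1)/(U+1) ≤ x N^(-3/4)`; the inner sum is empty if `gcd(v, D2) > 1`, otherwise `APC` with `m1 = D1/gcd(D1,v)`, `m2 = D2`, `m3 = 1`: `≤ 2 PB N`. Total `≤ (x N^(-3/4)) log x * 2 PB`, `PB ≤ C N^(1/2+1/100)`. Both errors are `≤ x N^(-1/10)/2`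
for large `N` (`x ≥ N`). (`D2` is coprime to `N` as `D2.Coprime x`, `N ∣ x`; it is a hypothesis here.)
-/

set_option autoImplicit false

open Finset
open Pool.Agent.Lib.GT (Rough V)
open Pool.Agent.Lib.MP_45349e_nt.LS (lam)
open Pool.Agent.Lib.RG (RC LV rr SS PB sig)

namespace Pool.Agent.Lib.PX

open Pool.Agent.Lib.PQ (pw)

private lemma wmn_inv (D2 x u : ℕ) (h2 : D2 ≠ 0) (hc : u.Coprime D2) :
    ∃ b : ℕ, ∀ v : ℕ, (u * v ≡ x [MOD D2]) ↔ v ≡ b [MOD D2] := by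
  haveI : NeZero D2 := ⟨h2⟩
  refine ⟨(((ZMod.unitOfCoprime u hc)⁻¹ : (ZMod D2)ˣ) * (x : ZMod D2) : ZMod D2).val, fun v => ?_⟩
  rw [← ZMod.natCast_eq_natCast_iff, ← ZMod.natCast_eq_natCast_iff, ZMod.natCast_zmod_val]
  push_cast
  have hu : ((ZMod.unitOfCoprime u hc : (ZMod D2)ˣ) : ZMod D2) = (u : ZMod D2) := ZMod.coe_unitOfCoprime u hc
  rw [← hu]
  constructor
  · intro h
    rw [← h, ← mul_assoc, Units.inv_mul, one_mul]
  · intro h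
    rw [h, ← mul_assoc, Units.mul_inv, one_mul]

private lemma wmn_dvd (D1 u : ℕ) (h1 : D1 ≠ 0) (v : ℕ) : D1 ∣ u * v ↔ D1 / Nat.gcd D1 u ∣ v := by
  have hg : 0 < Nat.gcd D1 u := Nat.gcd_pos_of_pos_left _ (Nat.pos_of_ne_zero h1)
  obtain ⟨a, b, hab, ha, hb⟩ := Nat.exists_coprime D1 u
  have h3 : D1 / Nat.gcd D1 u = a := by
    conv_lhs => rw [ha]
    rw [← ha]
    exact Nat.div_eq_of_eq_mul_left hg ha
  rw [h3]
  have h4 : D1 ∣ u * v ↔ a * Nat.gcd D1 u ∣ (b * v) * Nat.gcd D1 u := by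
    rw [← ha]
    have : b * v * Nat.gcd D1 u = u * v := by
      conv_rhs => rw [hb]
      ring
    rw [this]
  rw [h4, Nat.mul_dvd_mul_iff_right hg]
  exact hab.dvd_mul_left

private lemma wmn_class (D1 D2 x u : ℕ) (hs : Squarefree (D1 * D2)) (hc : u.Coprime D2) :
    ∃ b : ℕ, ∀ v : ℕ, (D1 ∣ u * v ∧ u * v ≡ x [MOD D2]) ↔ v ≡ b [MOD (D1 / Nat.gcd D1 u) * D2] := by
  have h12 : D1 * D2 ≠ 0 := hs.ne_zero
  have h1 : D1 ≠ 0 := left_ne_zero_of_mul h12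
  have h2 : D2 ≠ 0 := right_ne_zero_of_mul h12
  have hco : D1.Coprime D2 := Nat.coprime_of_squarefree_mul hs
  have hco' : (D1 / Nat.gcd D1 u).Coprime D2 :=
    Nat.Coprime.coprime_dvd_left (Nat.div_dvd_of_dvd (Nat.gcd_dvd_left D1 u)) hco
  obtain ⟨b0, hb0⟩ := wmn_inv D2 x u h2 hc
  obtain ⟨k, hk1, hk2⟩ := Nat.chineseRemainder hco' 0 b0
  refine ⟨k, fun v => ?_⟩
  rw [wmn_dvd D1 u h1 v, hb0 v, ← Nat.modEq_and_modEq_iff_modEq_mul hco']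
  constructor
  · rintro ⟨h3, h4⟩
    exact ⟨((Nat.modEq_zero_iff_dvd).mpr h3).trans hk1.symm, h4.trans hk2.symm⟩
  · rintro ⟨h3, h4⟩
    exact ⟨(Nat.modEq_zero_iff_dvd).mp (h3.trans hk1), h4.trans hk2⟩

private lemma wmn_empty (D2 x u v : ℕ) (hx : D2.Coprime x) (hc : ¬ u.Coprime D2) : ¬ u * v ≡ x [MOD D2] := by
  intro h
  apply hc
  have h1 : (u * v).gcd D2 = x.gcd D2 := h.gcd_eq
  have h2 : (u * v).Coprime D2 := by
    unfold Nat.Coprime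
    rw [h1]
    exact hx.symm
  exact h2.coprime_mul_right

open Classical in
private lemma wmn_T (x u D1 D2 : ℕ) (hs : Squarefree (D1 * D2)) (hx : D2.Coprime x) (hu : 1 ≤ u) (hux : u < x) :
    |∑ v ∈ (Finset.Icc 1 ((x - 1) / u)).filter (fun v => D1 ∣ u * v ∧ u * v ≡ x [MOD D2]), lg v -
      (if u.Coprime D2 then ((Nat.gcd D1 u : ℕ) : ℝ) / ((D1 * D2 : ℕ) : ℝ) *
        ((x : ℝ) / u * (Real.log ((x : ℝ) / u) - 1)) else 0)| ≤ 4 * Real.log x + 6 := by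
  have hx1 : 1 ≤ x := by omega
  have hlx : 0 ≤ Real.log x := Real.log_nonneg (by exact_mod_cast hx1)
  by_cases hc : u.Coprime D2
  · rw [if_pos hc]
    have h12 : D1 * D2 ≠ 0 := hs.ne_zero
    have h1 : D1 ≠ 0 := left_ne_zero_of_mul h12
    have h2 : D2 ≠ 0 := right_ne_zero_of_mul h12
    have hg : 0 < Nat.gcd D1 u := Nat.gcd_pos_of_pos_left _ (Nat.pos_of_ne_zero h1)
    have he : 0 < D1 / Nat.gcd D1 u := Nat.div_pos (Nat.le_of_dvd (Nat.pos_of_ne_zero h1) (Nat.gcd_dvd_left _ _)) hg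
    obtain ⟨b, hb⟩ := wmn_class D1 D2 x u hs hc
    have hm : 1 ≤ D1 / Nat.gcd D1 u * D2 := Nat.mul_pos he (Nat.pos_of_ne_zero h2)
    have hfil : (Finset.Icc 1 ((x - 1) / u)).filter (fun v => D1 ∣ u * v ∧ u * v ≡ x [MOD D2]) =
        (Finset.Icc 1 ((x - 1) / u)).filter (fun v => v ≡ b [MOD (D1 / Nat.gcd D1 u) * D2]) :=
      Finset.filter_congr fun v _ => hb v
    rw [hfil]
    have e1 := APL lg (Or.inr rfl) ((x - 1) / u) (D1 / Nat.gcd D1 u * D2) b hm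
    have e2 := LFA x u hu hux
    have hcast : (((D1 / Nat.gcd D1 u * D2 : ℕ)) : ℝ)⁻¹ = ((Nat.gcd D1 u : ℕ) : ℝ) / ((D1 * D2 : ℕ) : ℝ) := by
      have e3 : D1 / Nat.gcd D1 u * Nat.gcd D1 u = D1 := Nat.div_mul_cancel (Nat.gcd_dvd_left _ _)
      have e4 : ((D1 / Nat.gcd D1 u : ℕ) : ℝ) * ((Nat.gcd D1 u : ℕ) : ℝ) = (D1 : ℝ) := by exact_mod_cast e3
      have e5 : ((D1 / Nat.gcd D1 u : ℕ) : ℝ) ≠ 0 := by exact_mod_cast he.ne'
      have e6 : ((Nat.gcd D1 u : ℕ) : ℝ) ≠ 0 := by exact_mod_cast hg.ne'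
      have e7 : (D2 : ℝ) ≠ 0 := by exact_mod_cast h2
      rw [Nat.cast_mul, Nat.cast_mul, ← e4]
      field_simp
    set m : ℕ := D1 / Nat.gcd D1 u * D2 with hmdef
    have hmr : (1 : ℝ) ≤ (m : ℝ) := by exact_mod_cast hm
    rw [← hcast]
    have hY : Real.log (((x - 1) / u : ℕ) : ℝ) ≤ Real.log x := by
      have h3 : (x - 1) / u ≤ x := (Nat.div_le_self _ _).trans (Nat.sub_le _ _)
      rcases Nat.eq_zero_or_pos ((x - 1) / u) with h4 | h4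
      · rw [h4]; simpa using hlx
      · exact Real.log_le_log (by exact_mod_cast h4) (by exact_mod_cast h3)
    set A := ∑ v ∈ (Finset.Icc 1 ((x - 1) / u)).filter (fun v => v ≡ b [MOD m]), lg v with hA
    set B := ∑ v ∈ Finset.Icc 1 ((x - 1) / u), lg v with hB
    set Z := (x : ℝ) / u * (Real.log ((x : ℝ) / u) - 1) with hZ
    have h5 : A - (m : ℝ)⁻¹ * Z = (A - B / m) + (B - Z) * (m : ℝ)⁻¹ := by
      rw [div_eq_mul_inv]; ring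
    rw [h5]
    have h6 : |(B - Z) * (m : ℝ)⁻¹| ≤ 2 * Real.log x + 4 := by
      rw [abs_mul, abs_of_nonneg (inv_nonneg.mpr (by linarith : (0 : ℝ) ≤ m))]
      calc |B - Z| * (m : ℝ)⁻¹ ≤ |B - Z| * 1 :=
            mul_le_mul_of_nonneg_left (inv_le_one_of_one_le₀ hmr) (abs_nonneg _)
        _ ≤ 2 * Real.log x + 4 := by rw [mul_one]; exact e2
    calc |(A - B / m) + (B - Z) * (m : ℝ)⁻¹| ≤ |A - B / m| + |(B - Z) * (m : ℝ)⁻¹| := abs_add_le _ _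
      _ ≤ 2 * (1 + Real.log (((x - 1) / u : ℕ) : ℝ)) + (2 * Real.log x + 4) := add_le_add e1 h6
      _ ≤ 4 * Real.log x + 6 := by linarith
  · rw [if_neg hc, sub_zero]
    have hfil : (Finset.Icc 1 ((x - 1) / u)).filter (fun v => D1 ∣ u * v ∧ u * v ≡ x [MOD D2]) = ∅ := by
      apply Finset.filter_eq_empty_iff.mpr
      rintro v - ⟨-, h⟩
      exact wmn_empty D2 x u v hx hc h
    rw [hfil, Finset.sum_empty, abs_zero]
    linarith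

private lemma wmn_PB (N : ℕ) : 0 ≤ PB N := by
  unfold Pool.Agent.Lib.RG.PB
  have h : 0 ≤ Real.log (N : ℝ) := Real.log_natCast_nonneg N
  positivity

open Classical in
private lemma wmn_S {N : ℕ} {c : ℕ → ℝ} (hc : RC N c) (hN : 1 ≤ N) (x v A B D1 D2 : ℕ)
    (hs : Squarefree (D1 * D2)) (hx : D2.Coprime x) (h2N : D2.Coprime N) :
    |∑ u ∈ (Finset.Ioc A B).filter (fun u => D1 ∣ u * v ∧ u * v ≡ x [MOD D2]), c u| ≤ 2 * PB N := by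
  have h12 : D1 * D2 ≠ 0 := hs.ne_zero
  have h1 : D1 ≠ 0 := left_ne_zero_of_mul h12
  have h2 : D2 ≠ 0 := right_ne_zero_of_mul h12
  by_cases hcv : v.Coprime D2
  · have hg : 0 < Nat.gcd D1 v := Nat.gcd_pos_of_pos_left _ (Nat.pos_of_ne_zero h1)
    have he : 0 < D1 / Nat.gcd D1 v := Nat.div_pos (Nat.le_of_dvd (Nat.pos_of_ne_zero h1) (Nat.gcd_dvd_left _ _)) hg
    obtain ⟨s, hs'⟩ := wmn_inv D2 x v h2 hcv
    have hfil : (Finset.Ioc A B).filter (fun u => D1 ∣ u * v ∧ u * v ≡ x [MOD D2]) =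
        (Finset.Ioc A B).filter (fun u => D1 / Nat.gcd D1 v ∣ u ∧ u ≡ s [MOD D2] ∧ u ≡ 0 [MOD 1]) := by
      refine Finset.filter_congr fun u _ => ?_
      rw [mul_comm u v, wmn_dvd D1 v h1 u, hs' u]
      have : u ≡ 0 [MOD 1] := Nat.modEq_one
      tauto
    rw [hfil]
    exact APC hc hN A B (D1 / Nat.gcd D1 v) D2 1 s 0 he (Nat.pos_of_ne_zero h2) le_rfl h2N (Nat.coprime_one_left N)
  · have hfil : (Finset.Ioc A B).filter (fun u => D1 ∣ u * v ∧ u * v ≡ x [MOD D2]) = ∅ := by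
      apply Finset.filter_eq_empty_iff.mpr
      rintro u - ⟨-, h⟩
      rw [mul_comm] at h
      exact wmn_empty D2 x v u hx hcv h
    rw [hfil, Finset.sum_empty, abs_zero]
    have := wmn_PB N
    linarith

/-- the main term of the first sum -/
private lemma wmn_main {N : ℕ} {c : ℕ → ℝ} (hc : RC N c) (x U D1 D2 : ℕ) (hs : Squarefree (D1 * D2)) (E M : ℝ)
    (hT : ∀ e ∈ (D1 * D2).divisors, |∑ w ∈ Finset.Icc 1 (U / e), c w / w *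
      (Real.log ((x : ℝ) / ((e * w : ℕ) : ℝ)) - 1) - M| ≤ E) :
    |∑ u ∈ (Finset.Icc 1 U).filter (fun u => u.Coprime D2), c u / u * ((Nat.gcd D1 u : ℕ) : ℝ) *
      (Real.log ((x : ℝ) / (u : ℝ)) - 1) - (D1 * D2 : ℕ) * EV c D1 D2 * M| ≤
      2 ^ (D1 * D2).primeFactors.card * E := by
  have hE : 0 ≤ E := (abs_nonneg _).trans (hT 1 (Nat.one_mem_divisors.mpr hs.ne_zero))
  rw [CNVb hc D1 D2 U hs (fun u => Real.log ((x : ℝ) / (u : ℝ)) - 1), ← CNVc hc D1 D2 hs, Finset.sum_mul,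
    ← Finset.sum_sub_distrib]
  calc |∑ e ∈ (D1 * D2).divisors, (kk D1 e * c e / e * ∑ w ∈ Finset.Icc 1 (U / e), c w / w *
          (Real.log ((x : ℝ) / ((e * w : ℕ) : ℝ)) - 1) - kk D1 e * c e / e * M)|
      ≤ ∑ e ∈ (D1 * D2).divisors, |kk D1 e * c e / e * ∑ w ∈ Finset.Icc 1 (U / e), c w / w *
          (Real.log ((x : ℝ) / ((e * w : ℕ) : ℝ)) - 1) - kk D1 e * c e / e * M| := Finset.abs_sum_le_sum_abs _ _
    _ ≤ ∑ e ∈ (D1 * D2).divisors, |kk D1 e * c e / e| * E := by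
        refine Finset.sum_le_sum fun e he => ?_
        rw [← mul_sub, abs_mul]
        exact mul_le_mul_of_nonneg_left (hT e he) (abs_nonneg _)
    _ = (∑ e ∈ (D1 * D2).divisors, |kk D1 e * c e / e|) * E := by rw [Finset.sum_mul]
    _ ≤ 2 ^ (D1 * D2).primeFactors.card * E := mul_le_mul_of_nonneg_right (CNVd hc D1 D2 hs) hE

private lemma wmn_num : ∃ N0 : ℕ, ∀ N : ℕ, N0 ≤ N → ∀ x : ℕ, N ≤ x → x ≤ N ^ 2 →
    (pw N (3 / 4) : ℝ) * (4 * Real.log x + 6) + (((x - 1) / (pw N (3 / 4) + 1) : ℕ) : ℝ) * (Real.log x * (2 * PB N)) ≤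
      x * (N : ℝ) ^ (-(1 / 10 : ℝ)) ∧ 2 ≤ N ∧ pw N (3 / 4) < N := by
  obtain ⟨C, hC, hPB⟩ := Pool.Agent.Lib.RG.PB_le (1 / 100) (by norm_num)
  have t1 : Filter.Tendsto (fun N : ℕ => (N : ℝ) ^ ((1 : ℝ) / 10)) Filter.atTop Filter.atTop :=
    (tendsto_rpow_atTop (by norm_num)).comp tendsto_natCast_atTop_atTop
  have ev1 : ∀ᶠ N : ℕ in Filter.atTop, (8 * 100 + 6) * 2 + 8 * C * 100 ≤ (N : ℝ) ^ ((1 : ℝ) / 10) :=
    t1.eventually_ge_atTop _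
  have ev2 : ∀ᶠ N : ℕ in Filter.atTop, 2 ≤ N := Filter.eventually_ge_atTop 2
  obtain ⟨N0, hN0⟩ := Filter.eventually_atTop.mp (ev1.and ev2)
  refine ⟨N0, fun N hN x hx1 hx2 => ?_⟩
  obtain ⟨h1, h2⟩ := hN0 N hN
  have hNr : (2 : ℝ) ≤ N := by exact_mod_cast h2
  have hN0' : (0 : ℝ) < N := by linarith
  have hN1 : (1 : ℝ) ≤ N := by linarith
  have hxr : (N : ℝ) ≤ x := by exact_mod_cast hx1
  have hx0 : (0 : ℝ) < x := by linarith
  have hlogN : 0 ≤ Real.log N := Real.log_nonneg hN1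
  have hlogx : Real.log x ≤ 2 * Real.log N := by
    have h3 : (x : ℝ) ≤ (N : ℝ) ^ 2 := by exact_mod_cast hx2
    have h4 := Real.log_le_log hx0 h3
    rw [Real.log_pow] at h4
    exact_mod_cast h4
  have hlogx0 : 0 ≤ Real.log x := Real.log_nonneg (by linarith)
  -- log N ≤ 100 N^(1/100)
  have hl : Real.log N ≤ 100 * (N : ℝ) ^ ((1 : ℝ) / 100) := by
    have h4 := Real.log_le_rpow_div (x := (N : ℝ)) hN0'.le (show (0 : ℝ) < 1 / 100 by norm_num)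
    calc Real.log N ≤ (N : ℝ) ^ ((1 : ℝ) / 100) / (1 / 100) := h4
      _ = 100 * (N : ℝ) ^ ((1 : ℝ) / 100) := by ring
  have hone : (1 : ℝ) ≤ (N : ℝ) ^ ((1 : ℝ) / 100) := Real.one_le_rpow hN1 (by norm_num)
  have hU : (pw N (3 / 4) : ℝ) ≤ (N : ℝ) ^ ((3 : ℝ) / 4) := Nat.floor_le (by positivity)
  have hU2 : (N : ℝ) ^ ((3 : ℝ) / 4) < (pw N (3 / 4) : ℝ) + 1 := Nat.lt_floor_add_one _
  have hpwN : pw N (3 / 4) < N := by
    have h5 : (pw N (3 / 4) : ℝ) < N := by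
      refine hU.trans_lt ?_
      calc (N : ℝ) ^ ((3 : ℝ) / 4) < (N : ℝ) ^ (1 : ℝ) := Real.rpow_lt_rpow_of_exponent_lt (by linarith) (by norm_num)
        _ = N := Real.rpow_one _
    exact_mod_cast h5
  refine ⟨?_, h2, hpwN⟩
  have hPB1 := (hPB N h2).1
  -- first term
  have a1 : (pw N (3 / 4) : ℝ) * (4 * Real.log x + 6) ≤ x * (N : ℝ) ^ (-(1 / 10 : ℝ)) / 2 := by
    have b1 : 4 * Real.log x + 6 ≤ (8 * 100 + 6) * (N : ℝ) ^ ((1 : ℝ) / 100) := by nlinarith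
    have b2 : (N : ℝ) ^ ((3 : ℝ) / 4) * ((N : ℝ) ^ ((1 : ℝ) / 100) * (N : ℝ) ^ ((1 : ℝ) / 10)) ≤
        x * (N : ℝ) ^ (-(1 / 10 : ℝ)) := by
      rw [← Real.rpow_add hN0', ← Real.rpow_add hN0']
      calc (N : ℝ) ^ ((3 : ℝ) / 4 + (1 / 100 + 1 / 10)) ≤ (N : ℝ) ^ ((1 : ℝ) + -(1 / 10)) :=
            Real.rpow_le_rpow_of_exponent_le hN1 (by norm_num)
        _ = N * (N : ℝ) ^ (-(1 / 10 : ℝ)) := by rw [Real.rpow_add hN0', Real.rpow_one]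
        _ ≤ x * (N : ℝ) ^ (-(1 / 10 : ℝ)) := mul_le_mul_of_nonneg_right hxr (by positivity)
    have b3 : (8 * 100 + 6) * 2 ≤ (N : ℝ) ^ ((1 : ℝ) / 10) := by nlinarith
    calc (pw N (3 / 4) : ℝ) * (4 * Real.log x + 6)
        ≤ (N : ℝ) ^ ((3 : ℝ) / 4) * ((8 * 100 + 6) * (N : ℝ) ^ ((1 : ℝ) / 100)) :=
          mul_le_mul hU b1 (by linarith) (by positivity)
      _ = (N : ℝ) ^ ((3 : ℝ) / 4) * ((N : ℝ) ^ ((1 : ℝ) / 100) * ((8 * 100 + 6) * 2)) / 2 := by ring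
      _ ≤ (N : ℝ) ^ ((3 : ℝ) / 4) * ((N : ℝ) ^ ((1 : ℝ) / 100) * (N : ℝ) ^ ((1 : ℝ) / 10)) / 2 := by gcongr
      _ ≤ x * (N : ℝ) ^ (-(1 / 10 : ℝ)) / 2 := by linarith
  -- second term
  have a2 : (((x - 1) / (pw N (3 / 4) + 1) : ℕ) : ℝ) * (Real.log x * (2 * PB N)) ≤
      x * (N : ℝ) ^ (-(1 / 10 : ℝ)) / 2 := by
    have hP0 := wmn_PB N
    have b1 : (((x - 1) / (pw N (3 / 4) + 1) : ℕ) : ℝ) ≤ x * (N : ℝ) ^ (-(3 / 4 : ℝ)) := by
      have c1 : (((x - 1) / (pw N (3 / 4) + 1) : ℕ) : ℝ) ≤ ((x - 1 : ℕ) : ℝ) / ((pw N (3 / 4) + 1 : ℕ) : ℝ) :=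
        Nat.cast_div_le
      have c2 : ((x - 1 : ℕ) : ℝ) ≤ x := by exact_mod_cast Nat.sub_le _ _
      have c3 : (N : ℝ) ^ ((3 : ℝ) / 4) ≤ ((pw N (3 / 4) + 1 : ℕ) : ℝ) := by push_cast; linarith
      calc _ ≤ ((x - 1 : ℕ) : ℝ) / ((pw N (3 / 4) + 1 : ℕ) : ℝ) := c1
        _ ≤ (x : ℝ) / (N : ℝ) ^ ((3 : ℝ) / 4) := div_le_div₀ hx0.le c2 (by positivity) c3
        _ = x * (N : ℝ) ^ (-(3 / 4 : ℝ)) := by rw [Real.rpow_neg hN0'.le, div_eq_mul_inv]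
    have b2 : Real.log x * (2 * PB N) ≤ 4 * C * 100 * ((N : ℝ) ^ ((1 : ℝ) / 100) * (N : ℝ) ^ ((1 : ℝ) / 2 + 1 / 100)) := by
      calc Real.log x * (2 * PB N) ≤ (2 * (100 * (N : ℝ) ^ ((1 : ℝ) / 100))) *
            (2 * (C * (N : ℝ) ^ ((1 : ℝ) / 2 + 1 / 100))) := by
            refine mul_le_mul (by linarith) (by linarith) (by positivity) (by positivity)
        _ = _ := by ring
    have b3 : (N : ℝ) ^ (-(3 / 4 : ℝ)) * ((N : ℝ) ^ ((1 : ℝ) / 100) * (N : ℝ) ^ ((1 : ℝ) / 2 + 1 / 100)) *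
        (N : ℝ) ^ ((1 : ℝ) / 10) ≤ (N : ℝ) ^ (-(1 / 10 : ℝ)) := by
      rw [← Real.rpow_add hN0', ← Real.rpow_add hN0', ← Real.rpow_add hN0']
      exact Real.rpow_le_rpow_of_exponent_le hN1 (by norm_num)
    have b4 : 8 * C * 100 ≤ (N : ℝ) ^ ((1 : ℝ) / 10) := by linarith
    have hP : 0 ≤ Real.log x * (2 * PB N) := by positivity
    calc (((x - 1) / (pw N (3 / 4) + 1) : ℕ) : ℝ) * (Real.log x * (2 * PB N))
        ≤ (x * (N : ℝ) ^ (-(3 / 4 : ℝ))) *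
          (4 * C * 100 * ((N : ℝ) ^ ((1 : ℝ) / 100) * (N : ℝ) ^ ((1 : ℝ) / 2 + 1 / 100))) :=
          mul_le_mul b1 b2 hP (by positivity)
      _ = x * ((N : ℝ) ^ (-(3 / 4 : ℝ)) * ((N : ℝ) ^ ((1 : ℝ) / 100) * (N : ℝ) ^ ((1 : ℝ) / 2 + 1 / 100)) *
          (8 * C * 100)) / 2 := by ring
      _ ≤ x * ((N : ℝ) ^ (-(3 / 4 : ℝ)) * ((N : ℝ) ^ ((1 : ℝ) / 100) * (N : ℝ) ^ ((1 : ℝ) / 2 + 1 / 100)) *
          (N : ℝ) ^ ((1 : ℝ) / 10)) / 2 := by gcongr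
      _ ≤ x * (N : ℝ) ^ (-(1 / 10 : ℝ)) / 2 := by gcongr
  linarith

private lemma wmn_dec (s : Finset ℕ) (p : ℕ → Prop) (i1 i2 : DecidablePred p) (f : ℕ → ℝ) :
    ∑ v ∈ @Finset.filter ℕ p i1 s, f v = ∑ v ∈ @Finset.filter ℕ p i2 s, f v := by
  have h : i1 = i2 := Subsingleton.elim _ _
  rw [h]

theorem WMN : ∃ N0 : ℕ, ∀ N : ℕ, N0 ≤ N → ∀ (c : ℕ → ℝ) (L : ℝ), RC N c → LV N c L → ∀ x : ℕ, N ≤ x → x ≤ N ^ 2 →
    ∀ D1 D2 : ℕ, Squarefree (D1 * D2) → D2.Coprime x → D2.Coprime N →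
    ((D1 * D2 : ℕ) : ℝ) ≤ (N : ℝ) ^ ((1 : ℝ) / 100) →
    |WW (rho c) x D1 D2 - x * L1 N c x * EV c D1 D2| ≤
      x * (2 ^ (D1 * D2).primeFactors.card / ((D1 * D2 : ℕ) : ℝ) * (L * Real.log N + (N : ℝ) ^ (-(1 / 6 : ℝ))) +
        (N : ℝ) ^ (-(1 / 10 : ℝ))) := by
  classical
  obtain ⟨N1, hT⟩ := TLS
  obtain ⟨N2, hnum⟩ := wmn_num
  refine ⟨max N1 N2, fun N hN c L hc hL x hx1 hx2 D1 D2 hs hcx hcN hD => ?_⟩
  have hN1 : N1 ≤ N := (le_max_left _ _).trans hN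
  have hN2 : N2 ≤ N := (le_max_right _ _).trans hN
  obtain ⟨hnum1, h2N, hpwN⟩ := hnum N hN2 x hx1 hx2
  have hNr : (1 : ℝ) ≤ N := by exact_mod_cast (by omega : 1 ≤ N)
  have h12 : D1 * D2 ≠ 0 := hs.ne_zero
  have hDpos : (0 : ℝ) < ((D1 * D2 : ℕ) : ℝ) := by exact_mod_cast Nat.pos_of_ne_zero h12
  have hx0 : (0 : ℝ) ≤ x := Nat.cast_nonneg x
  set U := pw N (3 / 4) with hU
  have hcu : ∀ u, |c u| ≤ 1 := by
    intro u
    by_cases h : u.Coprime N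
    · rcases hc.val u h with h1 | h1 <;> rw [h1] <;> norm_num
    · rw [hc.zero u h]; norm_num
  -- the decomposition
  have hW : WW (rho c) x D1 D2 = ∑ u ∈ Finset.Icc 1 U, c u *
      (∑ v ∈ (Finset.Icc 1 ((x - 1) / u)).filter (fun v => D1 ∣ u * v ∧ u * v ≡ x [MOD D2]), lg v) +
      ∑ v ∈ Finset.Icc 1 ((x - 1) / (U + 1)), lg v *
        ∑ u ∈ (Finset.Ioc U ((x - 1) / v)).filter (fun u => D1 ∣ u * v ∧ u * v ≡ x [MOD D2]), c u := by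
    unfold WW rho
    refine (Eq.trans ?_ (HYP2 c lg U (x - 1) (fun n => D1 ∣ n ∧ n ≡ x [MOD D2]))).trans ?_
    · exact wmn_dec _ _ _ _ _
    · congr 1
      · exact Finset.sum_congr rfl fun u _ => congrArg _ (wmn_dec _ _ _ _ _)
      · exact Finset.sum_congr rfl fun u _ => congrArg _ (wmn_dec _ _ _ _ _)
  set G : ℕ → ℝ := fun u => if u.Coprime D2 then ((Nat.gcd D1 u : ℕ) : ℝ) / ((D1 * D2 : ℕ) : ℝ) *
        ((x : ℝ) / u * (Real.log ((x : ℝ) / u) - 1)) else 0 with hG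
  -- first sum
  have f1 : |∑ u ∈ Finset.Icc 1 U, c u *
      (∑ v ∈ (Finset.Icc 1 ((x - 1) / u)).filter (fun v => D1 ∣ u * v ∧ u * v ≡ x [MOD D2]), lg v) -
      ∑ u ∈ Finset.Icc 1 U, c u * G u| ≤ (U : ℝ) * (4 * Real.log x + 6) := by
    rw [← Finset.sum_sub_distrib]
    refine (Finset.abs_sum_le_sum_abs _ _).trans ?_
    calc ∑ u ∈ Finset.Icc 1 U, |c u * (∑ v ∈ (Finset.Icc 1 ((x - 1) / u)).filter
            (fun v => D1 ∣ u * v ∧ u * v ≡ x [MOD D2]), lg v) - c u * G u|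
        ≤ ∑ _u ∈ Finset.Icc 1 U, (4 * Real.log x + 6) := by
          refine Finset.sum_le_sum fun u hu => ?_
          rw [Finset.mem_Icc] at hu
          rw [← mul_sub, abs_mul]
          have h1 := wmn_T x u D1 D2 hs hcx hu.1 (by omega)
          calc |c u| * _ ≤ 1 * (4 * Real.log x + 6) :=
                mul_le_mul (hcu u) h1 (abs_nonneg _) zero_le_one
            _ = _ := one_mul _
      _ = (U : ℝ) * (4 * Real.log x + 6) := by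
          rw [Finset.sum_const, Nat.card_Icc, nsmul_eq_mul, Nat.add_sub_cancel]
  -- second sum
  have f2 : |∑ v ∈ Finset.Icc 1 ((x - 1) / (U + 1)), lg v *
        ∑ u ∈ (Finset.Ioc U ((x - 1) / v)).filter (fun u => D1 ∣ u * v ∧ u * v ≡ x [MOD D2]), c u| ≤
      (((x - 1) / (U + 1) : ℕ) : ℝ) * (Real.log x * (2 * PB N)) := by
    refine (Finset.abs_sum_le_sum_abs _ _).trans ?_
    calc ∑ v ∈ Finset.Icc 1 ((x - 1) / (U + 1)), |lg v *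
          ∑ u ∈ (Finset.Ioc U ((x - 1) / v)).filter (fun u => D1 ∣ u * v ∧ u * v ≡ x [MOD D2]), c u|
        ≤ ∑ _v ∈ Finset.Icc 1 ((x - 1) / (U + 1)), Real.log x * (2 * PB N) := by
          refine Finset.sum_le_sum fun v hv => ?_
          rw [Finset.mem_Icc] at hv
          rw [abs_mul]
          have h1 := wmn_S hc (by omega : 1 ≤ N) x v U ((x - 1) / v) D1 D2 hs hcx hcN
          have h3 : (1 : ℝ) ≤ v := by exact_mod_cast hv.1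
          have h4 : v ≤ x := hv.2.trans ((Nat.div_le_self _ _).trans (Nat.sub_le _ _))
          have h5 : |lg v| ≤ Real.log x := by
            unfold lg
            rw [abs_of_nonneg (Real.log_nonneg h3)]
            exact Real.log_le_log (by linarith) (by exact_mod_cast h4)
          exact mul_le_mul h5 h1 (abs_nonneg _) ((abs_nonneg _).trans h5)
      _ = _ := by
          rw [Finset.sum_const, Nat.card_Icc, nsmul_eq_mul, Nat.add_sub_cancel]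
  -- main term
  have f3 : ∑ u ∈ Finset.Icc 1 U, c u * G u = (x : ℝ) / ((D1 * D2 : ℕ) : ℝ) *
      ∑ u ∈ (Finset.Icc 1 U).filter (fun u => u.Coprime D2), c u / u * ((Nat.gcd D1 u : ℕ) : ℝ) *
      (Real.log ((x : ℝ) / (u : ℝ)) - 1) := by
    rw [Finset.mul_sum, Finset.sum_filter]
    refine Finset.sum_congr rfl fun u hu => ?_
    simp only [hG]
    split_ifs
    · rw [Finset.mem_Icc] at hu
      have : (u : ℝ) ≠ 0 := by
        have : (0 : ℝ) < u := by exact_mod_cast hu.1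
        exact this.ne'
      field_simp
    · ring
  have f4 := wmn_main hc x U D1 D2 hs (L * Real.log N + (N : ℝ) ^ (-(1 / 6 : ℝ))) (L1 N c x) (by
    intro e he
    have h1 := Nat.le_of_dvd (Nat.pos_of_ne_zero h12) (Nat.dvd_of_mem_divisors he)
    refine hT N hN1 c L hc hL x e hx1 hx2 (Nat.pos_of_mem_divisors he) ?_
    calc (e : ℝ) ≤ ((D1 * D2 : ℕ) : ℝ) := by exact_mod_cast h1
      _ ≤ (N : ℝ) ^ ((1 : ℝ) / 100) := hD
      _ ≤ (N : ℝ) ^ ((1 : ℝ) / 50) := Real.rpow_le_rpow_of_exponent_le hNr (by norm_num))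
  set Sm := ∑ u ∈ (Finset.Icc 1 U).filter (fun u => u.Coprime D2), c u / u * ((Nat.gcd D1 u : ℕ) : ℝ) *
      (Real.log ((x : ℝ) / (u : ℝ)) - 1) with hSm
  set A1 := ∑ u ∈ Finset.Icc 1 U, c u *
      (∑ v ∈ (Finset.Icc 1 ((x - 1) / u)).filter (fun v => D1 ∣ u * v ∧ u * v ≡ x [MOD D2]), lg v) with hA1
  set A2 := ∑ v ∈ Finset.Icc 1 ((x - 1) / (U + 1)), lg v *
        ∑ u ∈ (Finset.Ioc U ((x - 1) / v)).filter (fun u => D1 ∣ u * v ∧ u * v ≡ x [MOD D2]), c u with hA2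
  set Er := L * Real.log N + (N : ℝ) ^ (-(1 / 6 : ℝ)) with hEr
  have f5 : |(x : ℝ) / ((D1 * D2 : ℕ) : ℝ) * (Sm - (D1 * D2 : ℕ) * EV c D1 D2 * L1 N c x)| ≤
      (x : ℝ) * (2 ^ (D1 * D2).primeFactors.card / ((D1 * D2 : ℕ) : ℝ) * Er) := by
    rw [abs_mul, abs_of_nonneg (by positivity : (0 : ℝ) ≤ (x : ℝ) / ((D1 * D2 : ℕ) : ℝ))]
    calc (x : ℝ) / ((D1 * D2 : ℕ) : ℝ) * |Sm - (D1 * D2 : ℕ) * EV c D1 D2 * L1 N c x|
        ≤ (x : ℝ) / ((D1 * D2 : ℕ) : ℝ) * (2 ^ (D1 * D2).primeFactors.card * Er) :=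
          mul_le_mul_of_nonneg_left f4 (by positivity)
      _ = _ := by ring
  have f6 : WW (rho c) x D1 D2 - x * L1 N c x * EV c D1 D2 = (A1 - ∑ u ∈ Finset.Icc 1 U, c u * G u) + A2 +
      (x : ℝ) / ((D1 * D2 : ℕ) : ℝ) * (Sm - (D1 * D2 : ℕ) * EV c D1 D2 * L1 N c x) := by
    rw [hW, f3]
    field_simp
    ring
  rw [f6]
  calc |(A1 - ∑ u ∈ Finset.Icc 1 U, c u * G u) + A2 +
        (x : ℝ) / ((D1 * D2 : ℕ) : ℝ) * (Sm - (D1 * D2 : ℕ) * EV c D1 D2 * L1 N c x)|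
      ≤ |A1 - ∑ u ∈ Finset.Icc 1 U, c u * G u| + |A2| +
        |(x : ℝ) / ((D1 * D2 : ℕ) : ℝ) * (Sm - (D1 * D2 : ℕ) * EV c D1 D2 * L1 N c x)| :=
        (abs_add_le _ _).trans (add_le_add (abs_add_le _ _) le_rfl)
    _ ≤ (U : ℝ) * (4 * Real.log x + 6) + (((x - 1) / (U + 1) : ℕ) : ℝ) * (Real.log x * (2 * PB N)) +
        (x : ℝ) * (2 ^ (D1 * D2).primeFactors.card / ((D1 * D2 : ℕ) : ℝ) * Er) := by
        gcongr
    _ ≤ x * (N : ℝ) ^ (-(1 / 10 : ℝ)) +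
        (x : ℝ) * (2 ^ (D1 * D2).primeFactors.card / ((D1 * D2 : ℕ) : ℝ) * Er) := by linarith
    _ = _ := by ring

end Pool.Agent.Lib.PX
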