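import Pool.Agent.Lib.MP_7b7e48_nt.PX.SVL
import Pool.Agent.Lib.MP_7b7e48_nt.PX.WMN
import Pool.Agent.Lib.MP_7b7e48_nt.PX.L1B
import Pool.Agent.Lib.MP_7b7e48_nt.PX.SUMR
import Pool.Agent.Lib.MP_7b7e48_nt.PX.XSL
import Pool.Agent.Lib.MP_7b7e48_nt.PX.RHO
import Pool.Agent.Lib.MP_7b7e48_nt.PL.N1

/-!
# S1l: lower bound for the sifted sum, no modulus

PROOF. `b`, `c0` from `SVL`; `c1 = 1/(1500 b)`, so `Y = 6 z^(12 b) ≤ N^(1/100)` for `z = pw N c'`. `SVL` with `P` = the primes `5 ≤ p ≤ z`, `p ≠ K`, `w = rho c`, `X0 = x L1`, `R D1 D2 = x (2^ω/(D1 D2) (L log N + N^(-1/6)) + N^(-1/10))` (`WMN`; `D2` coprime to `x`, hence to `N ∣ x`). The sum of `R` is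
`≤ x ((1 + log Y)^4 (L log N + N^(-1/6)) + Y² N^(-1/10)) ≤ x (log N)^(-10)` (`SUMR`, `L ≤ (log N)^(-30)`), `NJ z + 1 ≤ 10 (1 + log N)`. MAIN TERM: `c0 x L1/(log z)^5 ≥ (c0/4) x/(log N)^5` (`L1B`, `log z ≤ log N`). The sifted set is `Sft x z K`. `c3 = c0/8`.
-/

set_option autoImplicit false

open Finset
open Pool.Agent.Lib.GT (Rough V)
open Pool.Agent.Lib.MP_45349e_nt.LS (lam)
open Pool.Agent.Lib.RG (RC LV rr SS PB sig)

namespace Pool.Agent.Lib.PX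

open Pool.Agent.Lib.PQ (pw)

private theorem s1_tend : Filter.Tendsto (fun N : ℕ => Real.log N) Filter.atTop Filter.atTop :=
  Real.tendsto_log_atTop.comp tendsto_natCast_atTop_atTop

private theorem s1_num {ℓ c0 x X0 S Y2 E1 E2 L J lz T : ℝ} (h1 : 1 ≤ ℓ) (hc0 : 0 < c0) (hx : 0 ≤ x)
    (hX : x / 4 ≤ X0) (_hS0 : 0 ≤ S) (hS : S ≤ 16 * ℓ ^ 4) (hL0 : 0 ≤ L) (hL : L ≤ (ℓ ^ 30)⁻¹) (hE1 : 0 ≤ E1)
    (hE1' : E1 ≤ (ℓ ^ 29)⁻¹) (hE2 : Y2 * E2 ≤ (ℓ ^ 25)⁻¹) (_hJ0 : 0 ≤ J) (hJ : J ≤ 20 * ℓ) (hz0 : 0 < lz) (hz : lz ≤ ℓ)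
    (hT : T ≤ x * (S * (L * ℓ + E1) + Y2 * E2)) (hT0 : 0 ≤ T) (hbig : 5280 / c0 ≤ ℓ) :
    c0 / 8 * (x / ℓ ^ 5) ≤ c0 * X0 / lz ^ 5 - J * T := by
  have hℓ : 0 < ℓ := by linarith
  have a1 : L * ℓ ≤ (ℓ ^ 29)⁻¹ := by
    calc L * ℓ ≤ (ℓ ^ 30)⁻¹ * ℓ := mul_le_mul_of_nonneg_right hL hℓ.le
      _ = (ℓ ^ 29)⁻¹ := by
        field_simp
  have a2 : S * (L * ℓ + E1) ≤ 32 * (ℓ ^ 25)⁻¹ := by
    calc S * (L * ℓ + E1) ≤ 16 * ℓ ^ 4 * ((ℓ ^ 29)⁻¹ + (ℓ ^ 29)⁻¹) := by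
          refine mul_le_mul hS (by linarith) (by positivity) (by positivity)
      _ = 32 * (ℓ ^ 25)⁻¹ := by
          field_simp
          ring
  have a3 : T ≤ x * (33 * (ℓ ^ 25)⁻¹) := by
    refine hT.trans (mul_le_mul_of_nonneg_left (by linarith) hx)
  have a4 : J * T ≤ 20 * ℓ * (x * (33 * (ℓ ^ 25)⁻¹)) := mul_le_mul hJ a3 hT0 (by positivity)
  have a5 : 20 * ℓ * (x * (33 * (ℓ ^ 25)⁻¹)) ≤ c0 / 8 * (x / ℓ ^ 5) := by
    have b1 : 5280 / c0 ≤ ℓ ^ 19 := hbig.trans (le_self_pow₀ h1 (by norm_num))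
    have b2 : 5280 ≤ c0 * ℓ ^ 19 := by
      rw [div_le_iff₀ hc0] at b1
      linarith
    have b3 : 20 * ℓ * (x * (33 * (ℓ ^ 25)⁻¹)) = x / ℓ ^ 24 * 660 := by
      field_simp
      ring
    have b4 : c0 / 8 * (x / ℓ ^ 5) = x / ℓ ^ 24 * (c0 * ℓ ^ 19 / 8) := by
      field_simp
    rw [b3, b4]
    refine mul_le_mul_of_nonneg_left (by linarith) (by positivity)
  have a6 : c0 * (x / 4) / ℓ ^ 5 ≤ c0 * X0 / lz ^ 5 := by
    have b1 : lz ^ 5 ≤ ℓ ^ 5 := pow_le_pow_left₀ hz0.le hz 5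
    have b2 : 0 < lz ^ 5 := by positivity
    refine div_le_div₀ (mul_nonneg hc0.le ?_) (mul_le_mul_of_nonneg_left hX hc0.le) b2 b1
    linarith
  have a7 : c0 * (x / 4) / ℓ ^ 5 = c0 / 8 * (x / ℓ ^ 5) + c0 / 8 * (x / ℓ ^ 5) := by
    ring
  linarith

private theorem s1_RC {N : ℕ} {c : ℕ → ℝ} (hc : RC N c) (n : ℕ) : c n = 1 ∨ c n = 0 ∨ c n = -1 := by
  by_cases h : n.Coprime N
  · rcases hc.val n h with h1 | h1
    · exact Or.inl h1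
    · exact Or.inr (Or.inr h1)
  · exact Or.inr (Or.inl (hc.zero n h))

open Classical in
theorem S1l : ∃ c1 c3 : ℝ, 0 < c1 ∧ 0 < c3 ∧ ∀ c' : ℝ, 0 < c' → c' ≤ c1 → ∃ N0 : ℕ, ∀ N : ℕ, N0 ≤ N →
    ∀ (c : ℕ → ℝ) (L : ℝ), RC N c → LV N c L → L ≤ (Real.log N ^ 30)⁻¹ → ∀ x K : ℕ, XS N x K →
    c3 * (x / Real.log N ^ 5) ≤ ∑ n ∈ Sft x (pw N c') K, rho c n := by
  obtain ⟨b, c0, hb, hc0, hS⟩ := SVL
  have hb' : (1 : ℝ) ≤ b := by exact_mod_cast hb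
  refine ⟨1 / (1500 * b), c0 / 8, by positivity, by positivity, fun c' hc' hc1 => ?_⟩
  have hc1' : c' * (12 * b) ≤ 1 / 125 := by
    calc c' * (12 * b) ≤ 1 / (1500 * b) * (12 * b) := mul_le_mul_of_nonneg_right hc1 (by positivity)
      _ = 1 / 125 := by
        field_simp
        norm_num
  obtain ⟨N1, h1⟩ := XSsz
  obtain ⟨N2, h2⟩ := WMN
  obtain ⟨N3, h3⟩ := L1B
  obtain ⟨N4, h4⟩ := PL.sz_log 0 2 c' hc'
  obtain ⟨N5, h5⟩ := PL.sz_log 0 6 (1 / 500) (by norm_num)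
  obtain ⟨N6, h6⟩ := PL.sz_log 29 1 (1 / 6) (by norm_num)
  obtain ⟨N7, h7⟩ := PL.sz_log 25 1 (2 / 25) (by norm_num)
  obtain ⟨N8, h8⟩ := Filter.eventually_atTop.1 (s1_tend.eventually_ge_atTop (max 1 (5280 / c0)))
  refine ⟨N1 + N2 + N3 + N4 + N5 + N6 + N7 + N8 + 2, fun N hN c L hc hL hLs x K hx => ?_⟩
  replace h1 := h1 N (by omega) x K hx
  replace h2 := h2 N (by omega) c L hc hL x
  replace h3 := h3 N (by omega) c L hc hL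
  replace h4 := h4 N (by omega)
  replace h5 := h5 N (by omega)
  replace h6 := h6 N (by omega)
  replace h7 := h7 N (by omega)
  replace h8 := h8 N (by omega)
  obtain ⟨hKp, hKN, h6x, hKx, hNx, -, -, -, -, hNlex, hxN⟩ := h1
  have hN1 : (1 : ℝ) ≤ N := by
    have : 1 ≤ N := by omega
    exact_mod_cast this
  have hN0 : (0 : ℝ) < N := by linarith
  obtain ⟨ℓ, hℓ⟩ : ∃ ℓ : ℝ, ℓ = Real.log N := ⟨_, rfl⟩
  have hℓ1 : 1 ≤ ℓ := by rw [hℓ]; exact (le_max_left _ _).trans h8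
  have hℓ2 : 5280 / c0 ≤ ℓ := by rw [hℓ]; exact (le_max_right _ _).trans h8
  rw [pow_zero, mul_one] at h4 h5
  rw [one_mul, ← hℓ] at h6 h7
  obtain ⟨z, hz⟩ : ∃ z : ℕ, z = pw N c' := ⟨_, rfl⟩
  have hz2 : 2 ≤ z := by
    rw [hz]
    exact Nat.le_floor (by simpa using h4)
  have hzr : (z : ℝ) ≤ (N : ℝ) ^ c' := by
    rw [hz]
    exact Nat.floor_le (by positivity)
  have hc'1 : c' ≤ 1 := by
    refine hc1.trans ?_
    rw [div_le_one (by positivity)]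
    nlinarith
  have hzN : (z : ℝ) ≤ N := by
    refine hzr.trans ?_
    calc (N : ℝ) ^ c' ≤ (N : ℝ) ^ (1 : ℝ) := Real.rpow_le_rpow_of_exponent_le hN1 hc'1
      _ = N := Real.rpow_one _
  have hz0 : (1 : ℝ) < z := by
    have : 1 < z := by omega
    exact_mod_cast this
  have hlz0 : 0 < Real.log z := Real.log_pos hz0
  have hlz : Real.log z ≤ ℓ := by
    rw [hℓ]
    exact Real.log_le_log (by linarith) hzN
  -- size of Y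
  obtain ⟨Y, hY⟩ : ∃ Y : ℕ, Y = 6 * z ^ (12 * b) := ⟨_, rfl⟩
  have hYN : (Y : ℝ) ≤ (N : ℝ) ^ ((1 : ℝ) / 100) := by
    rw [hY]
    push_cast
    calc (6 : ℝ) * (z : ℝ) ^ (12 * b) ≤ (N : ℝ) ^ ((1 : ℝ) / 500) * ((N : ℝ) ^ c') ^ (12 * b) := by
          refine mul_le_mul h5 (pow_le_pow_left₀ (by linarith) hzr _) (by positivity) (by positivity)
      _ = (N : ℝ) ^ ((1 : ℝ) / 500 + c' * (12 * b)) := by
          rw [← Real.rpow_natCast ((N : ℝ) ^ c'), ← Real.rpow_mul hN0.le, ← Real.rpow_add hN0]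
          congr 2
          push_cast
          ring
      _ ≤ (N : ℝ) ^ ((1 : ℝ) / 100) := Real.rpow_le_rpow_of_exponent_le hN1 (by linarith)
  have hY1 : 1 ≤ Y := by
    rw [hY]
    have := Nat.pos_of_ne_zero (pow_ne_zero (12 * b) (show z ≠ 0 by omega))
    omega
  have hY1' : (1 : ℝ) ≤ Y := by exact_mod_cast hY1
  have hlY : Real.log Y ≤ ℓ := by
    rw [hℓ]
    refine Real.log_le_log (by linarith) (hYN.trans ?_)
    calc (N : ℝ) ^ ((1 : ℝ) / 100) ≤ (N : ℝ) ^ (1 : ℝ) := Real.rpow_le_rpow_of_exponent_le hN1 (by norm_num)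
      _ = N := Real.rpow_one _
  have hlY0 : 0 ≤ Real.log Y := Real.log_nonneg hY1'
  -- L1
  have hL1 : 1 / 4 ≤ L1 N c x := by
    refine h3 ?_ x hNlex hxN
    rw [← hℓ] at hLs ⊢
    refine hLs.trans ?_
    exact inv_anti₀ (by positivity) (pow_le_pow_right₀ hℓ1 (by norm_num))
  have hx0 : (0 : ℝ) ≤ x := Nat.cast_nonneg x
  have hX0 : x / 4 ≤ x * L1 N c x := by
    calc (x : ℝ) / 4 = x * (1 / 4) := by ring
      _ ≤ x * L1 N c x := mul_le_mul_of_nonneg_left hL1 hx0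
  -- the remainder
  obtain ⟨R, hR⟩ : ∃ R : ℕ → ℕ → ℝ, R = fun D1 D2 =>
    x * (2 ^ (D1 * D2).primeFactors.card / ((D1 * D2 : ℕ) : ℝ) * (L * ℓ + (N : ℝ) ^ (-(1 / 6 : ℝ))) +
        (N : ℝ) ^ (-(1 / 10 : ℝ))) := ⟨_, rfl⟩
  have hR0 : ∀ D1 D2, 0 ≤ R D1 D2 := by
    intro D1 D2
    rw [hR]
    have := hL.1
    positivity
  have hsv := hS z hz2 ((Finset.Icc 5 z).filter (fun p => p.Prime ∧ p ≠ K))
    (fun p hp => by
      rw [Finset.mem_filter, Finset.mem_Icc] at hp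
      exact ⟨hp.2.1, hp.1.1, hp.1.2⟩) x h6x c (s1_RC hc) (rho c) (rho_nonneg hc) (x * L1 N c x)
    (by linarith [div_nonneg hx0 (by norm_num : (0 : ℝ) ≤ 4)]) R hR0 (by
      intro D1 D2 hsq hco hle
      rw [hR, hℓ]
      refine h2 hNlex hxN D1 D2 hsq hco (Nat.Coprime.coprime_dvd_right hNx hco) ?_
      refine le_trans ?_ hYN
      rw [hY]
      exact_mod_cast hle)
  rw [← hY] at hsv
  have hset : (Finset.Icc 1 (x - 1)).filter (fun n => n.Coprime 6 ∧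
      ∀ p ∈ (Finset.Icc 5 z).filter (fun p => p.Prime ∧ p ≠ K), ¬ p ∣ n * (x - n)) = Sft x (pw N c') K := by
    unfold Sft
    rw [← hz]
    refine Finset.filter_congr fun n _ => ?_
    refine and_congr_right fun _ => ?_
    constructor
    · intro h p hp h5 hpz hpK
      exact h p (by rw [Finset.mem_filter, Finset.mem_Icc]; exact ⟨⟨h5, hpz⟩, hp, hpK⟩)
    · intro h p hp
      rw [Finset.mem_filter, Finset.mem_Icc] at hp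
      exact h p hp.2.1 hp.1.1 hp.1.2 hp.2.2
  rw [hset] at hsv
  refine le_trans ?_ hsv
  rw [← hℓ] at hLs ⊢
  -- the sum of R
  have hsum : ∑ D1 ∈ Finset.Icc 1 Y, ∑ D2 ∈ Finset.Icc 1 Y, R D1 D2 =
      x * ((∑ D1 ∈ Finset.Icc 1 Y, ∑ D2 ∈ Finset.Icc 1 Y,
        (2 : ℝ) ^ (D1 * D2).primeFactors.card / ((D1 * D2 : ℕ) : ℝ)) * (L * ℓ + (N : ℝ) ^ (-(1 / 6 : ℝ))) +
        (Y : ℝ) ^ 2 * (N : ℝ) ^ (-(1 / 10 : ℝ))) := by
    rw [hR]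
    simp only
    rw [mul_add, Finset.sum_mul, Finset.mul_sum]
    have e1 : (x : ℝ) * ((Y : ℝ) ^ 2 * (N : ℝ) ^ (-(1 / 10 : ℝ))) =
        ∑ D1 ∈ Finset.Icc 1 Y, ∑ D2 ∈ Finset.Icc 1 Y, x * (N : ℝ) ^ (-(1 / 10 : ℝ)) := by
      rw [Finset.sum_const, Finset.sum_const, Nat.card_Icc, Nat.add_sub_cancel, nsmul_eq_mul, nsmul_eq_mul]
      ring
    rw [e1, ← Finset.sum_add_distrib]
    refine Finset.sum_congr rfl fun D1 _ => ?_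
    rw [Finset.sum_mul, Finset.mul_sum, ← Finset.sum_add_distrib]
    refine Finset.sum_congr rfl fun D2 _ => ?_
    ring
  refine s1_num hℓ1 hc0 hx0 hX0 (S := ∑ D1 ∈ Finset.Icc 1 Y, ∑ D2 ∈ Finset.Icc 1 Y,
        (2 : ℝ) ^ (D1 * D2).primeFactors.card / ((D1 * D2 : ℕ) : ℝ)) ?_ ?_ hL.1 hLs
    (E1 := (N : ℝ) ^ (-(1 / 6 : ℝ))) (by positivity) ?_ (Y2 := (Y : ℝ) ^ 2) (E2 := (N : ℝ) ^ (-(1 / 10 : ℝ))) ?_
    (by positivity) ?_ hlz0 hlz hsum.le ?_ hℓ2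
  · exact Finset.sum_nonneg fun D1 _ => Finset.sum_nonneg fun D2 _ => by positivity
  · refine (SUMR Y hY1).trans ?_
    calc (1 + Real.log Y) ^ 4 ≤ (2 * ℓ) ^ 4 := pow_le_pow_left₀ (by linarith) (by linarith) 4
      _ = 16 * ℓ ^ 4 := by ring
  · rw [Real.rpow_neg hN0.le]
    exact inv_anti₀ (by positivity) h6
  · calc (Y : ℝ) ^ 2 * (N : ℝ) ^ (-(1 / 10 : ℝ)) ≤ ((N : ℝ) ^ ((1 : ℝ) / 100)) ^ 2 * (N : ℝ) ^ (-(1 / 10 : ℝ)) := by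
          refine mul_le_mul_of_nonneg_right (pow_le_pow_left₀ (by linarith) hYN 2) (by positivity)
      _ = (N : ℝ) ^ (-(2 / 25 : ℝ)) := by
          rw [← Real.rpow_natCast ((N : ℝ) ^ ((1 : ℝ) / 100)), ← Real.rpow_mul hN0.le, ← Real.rpow_add hN0]
          congr 1
          norm_num
      _ ≤ (ℓ ^ 25)⁻¹ := by
          rw [Real.rpow_neg hN0.le]
          exact inv_anti₀ (by positivity) h7
  · refine (NJb z hz2).trans ?_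
    linarith
  · exact Finset.sum_nonneg fun D1 _ => Finset.sum_nonneg fun D2 _ => hR0 D1 D2

end Pool.Agent.Lib.PX
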