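import Pool.Agent.Lib.MP_7b7e48_nt.PX.S1l
import Pool.Agent.Lib.MP_7b7e48_nt.PX.BVc

/-!
# SQl: lower bound for the sifted sum, average over the prime moduli

PROOF. `b`, `c0` from `SVL`; `c1 = μ/(5000 b)`, so `Y = 6 z^(12 b) ≤ N^(μ/300)`. Every `q ∈ QQ` satisfies `q ∤ x` (`q ∤ N`; `q > N^μ > 6 K`, `XSpw`). `SVL` with `P` = the primes `5 ≤ p ≤ z`, `p ≠ K`, `w n = ∑_{q ∈ QQ} (if n ≡ x [MOD q] then rho c n else 0)`, `X0 = x L1 ∑_{q ∈ QQ} 1/(q-1)`. For `D1 D2 ≤ Y`: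
`WW w x D1 D2 = ∑_q (∑_{n = x (q)} FD D1 D2 x (rho c) n) = ∑_q (1/(q-1)) ∑_{n < x, q ∤ n} FD.. + (error ≤ N^(1-μ/10))` (`BVc`, `X = x - 1`, `f = lg`, `a = x`, `r q = x`), and `∑_{n < x, q ∤ n} FD.. = WW (rho c) x D1 D2 - (multiples of q)`, `0 ≤ ∑_{n<x, q ∣ n} rho c n ≤ (x/q) N^(μ/50)` (`rho ≤ τ(n) log n`, `RG.divisor_bound`). So
`R D1 D2 = ∑ 1/(q-1) * (x (2^ω/(D1D2)(L log N + N^(-1/6)) + N^(-1/10)) + x N^(μ/50 - μ)) + N^(1-μ/10)` (`WMN`). Its sum over `D1, D2 ≤ Y` times `NJ z + 1` is `≤ (c0/16) x/(log N)^5 ∑ 1/(q-1) + N^(1-μ/20)`. MAIN TERM `≥ (c0/4) x/(log N)^5 ∑ 1/(q-1)` (`L1B`), `1/(q-1) ≥ 1/q`. `c3 = c0/8`.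
-/

set_option autoImplicit false

open Finset
open Pool.Agent.Lib.GT (Rough V)
open Pool.Agent.Lib.MP_45349e_nt.LS (lam)
open Pool.Agent.Lib.RG (RC LV rr SS PB sig)

namespace Pool.Agent.Lib.PX

open Pool.Agent.Lib.PQ (pw)

private theorem SQl_log (k : ℕ) (a ε : ℝ) (ha : 0 < a) (hε : 0 < ε) :
    ∃ N0 : ℕ, ∀ N : ℕ, N0 ≤ N → Real.log N ^ k ≤ ε * (N : ℝ) ^ a := by
  have h := ((isLittleO_log_rpow_rpow_atTop (k : ℝ) ha).bound hε)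
  have h2 := tendsto_natCast_atTop_atTop (R := ℝ) |>.eventually h
  obtain ⟨N0, hN0⟩ := Filter.eventually_atTop.1 h2
  refine ⟨N0, fun N hN => ?_⟩
  have h3 := hN0 N hN
  rw [Real.rpow_natCast, Real.norm_eq_abs, Real.norm_eq_abs, abs_of_nonneg (Real.rpow_nonneg (Nat.cast_nonneg N) a)] at h3
  exact (le_abs_self _).trans h3

private theorem SQl_big (a C : ℝ) (ha : 0 < a) (hC : 0 < C) : ∃ N0 : ℕ, ∀ N : ℕ, N0 ≤ N → C ≤ (N : ℝ) ^ a := by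
  obtain ⟨N0, h⟩ := SQl_log 0 a (1 / C) ha (by positivity)
  refine ⟨N0, fun N hN => ?_⟩
  have h1 := h N hN
  rw [pow_zero, div_mul_eq_mul_div, one_mul, le_div_iff₀ hC, one_mul] at h1
  exact h1

open Classical in
private theorem SQl_WW (c : ℕ → ℝ) (x D1 D2 : ℕ) (QQ : Finset ℕ) :
    WW (fun n => ∑ q ∈ QQ, if n ≡ x [MOD q] then rho c n else 0) x D1 D2 =
      ∑ q ∈ QQ, ∑ n ∈ (Finset.Icc 1 (x - 1)).filter (fun n => n ≡ x [MOD q]), FD D1 D2 x (cf c lg) n := by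
  unfold WW
  rw [sum_comm]
  apply sum_congr rfl
  intro q _
  rw [sum_filter, sum_filter]
  apply sum_congr rfl
  intro n _
  unfold FD rho
  by_cases h1 : D1 ∣ n ∧ n ≡ x [MOD D2] <;> by_cases h2 : n ≡ x [MOD q] <;> simp [h1, h2]

open Classical in
private theorem SQl_mult (c : ℕ → ℝ) (x D1 D2 q : ℕ) :
    ∑ n ∈ (Finset.Icc 1 (x - 1)).filter (fun n => ¬ q ∣ n), FD D1 D2 x (cf c lg) n = WW (rho c) x D1 D2 -
      ∑ n ∈ (Finset.Icc 1 (x - 1)).filter (fun n => q ∣ n), FD D1 D2 x (cf c lg) n := by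
  have h1 : WW (rho c) x D1 D2 = ∑ n ∈ Finset.Icc 1 (x - 1), FD D1 D2 x (cf c lg) n := by
    unfold WW
    rw [sum_filter]
    rfl
  rw [h1, ← sum_filter_add_sum_filter_not (Finset.Icc 1 (x - 1)) (fun n => q ∣ n)]
  ring

open Classical in
private theorem SQl_qd {N : ℕ} {c : ℕ → ℝ} (hc : RC N c) (x D1 D2 q : ℕ) (hq : 0 < q) (M Qi : ℝ) (hM0 : 0 ≤ M)
    (hM : ∀ n ∈ Finset.Icc 1 (x - 1), rho c n ≤ M) (hQi : 1 / (q : ℝ) ≤ Qi) :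
    0 ≤ ∑ n ∈ (Finset.Icc 1 (x - 1)).filter (fun n => q ∣ n), FD D1 D2 x (cf c lg) n ∧
      ∑ n ∈ (Finset.Icc 1 (x - 1)).filter (fun n => q ∣ n), FD D1 D2 x (cf c lg) n ≤ x * Qi * M := by
  constructor
  · apply sum_nonneg
    intro n _
    unfold FD
    split_ifs
    · exact rho_nonneg hc n
    · exact le_refl _
  · have h1 : ∀ n ∈ (Finset.Icc 1 (x - 1)).filter (fun n => q ∣ n), FD D1 D2 x (cf c lg) n ≤ M := by
      intro n hn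
      unfold FD
      split_ifs
      · exact hM n (mem_filter.1 hn).1
      · exact hM0
    refine (sum_le_sum h1).trans ?_
    rw [sum_const, nsmul_eq_mul]
    apply mul_le_mul_of_nonneg_right _ hM0
    have h2 : (Finset.Icc 1 (x - 1)).filter (fun n => q ∣ n) = (Finset.Ioc 0 (x - 1)).filter (fun n => q ∣ n) := by
      congr 1
    rw [h2, Nat.Ioc_filter_dvd_card_eq_div]
    have h3 : (((x - 1) / q : ℕ) : ℝ) ≤ ((x - 1 : ℕ) : ℝ) / q := Nat.cast_div_le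
    have h4 : ((x - 1 : ℕ) : ℝ) ≤ x := by exact_mod_cast Nat.sub_le x 1
    have hq' : (0 : ℝ) < q := by exact_mod_cast hq
    calc (((x - 1) / q : ℕ) : ℝ) ≤ ((x - 1 : ℕ) : ℝ) / q := h3
      _ ≤ (x : ℝ) / q := by gcongr
      _ = x * (1 / (q : ℝ)) := by ring
      _ ≤ x * Qi := mul_le_mul_of_nonneg_left hQi (Nat.cast_nonneg x)

open Classical in
private theorem SQl_comb {N : ℕ} {c : ℕ → ℝ} (hc : RC N c) (x D1 D2 : ℕ) (QQ : Finset ℕ) (M Qi EB Ew Λ : ℝ) (hM0 : 0 ≤ M)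
    (hQQ : ∀ q ∈ QQ, 2 ≤ q) (hM : ∀ n ∈ Finset.Icc 1 (x - 1), rho c n ≤ M) (hQi : ∀ q ∈ QQ, 1 / (q : ℝ) ≤ Qi)
    (hEB : ∑ q ∈ QQ, |EQ (FD D1 D2 x (cf c lg)) (x - 1) q x| ≤ EB)
    (hEw : |WW (rho c) x D1 D2 - Λ * EV c D1 D2| ≤ Ew) :
    |WW (fun n => ∑ q ∈ QQ, if n ≡ x [MOD q] then rho c n else 0) x D1 D2 -
      (Λ * ∑ q ∈ QQ, 1 / ((q : ℝ) - 1)) * EV c D1 D2| ≤ EB + (∑ q ∈ QQ, 1 / ((q : ℝ) - 1)) * (Ew + x * Qi * M) := by
  have hp : ∀ q ∈ QQ, 0 ≤ 1 / ((q : ℝ) - 1) := by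
    intro q hq
    have : (2 : ℝ) ≤ q := by exact_mod_cast hQQ q hq
    apply div_nonneg zero_le_one
    linarith
  have h1 : WW (fun n => ∑ q ∈ QQ, if n ≡ x [MOD q] then rho c n else 0) x D1 D2 -
      (Λ * ∑ q ∈ QQ, 1 / ((q : ℝ) - 1)) * EV c D1 D2 =
      ∑ q ∈ QQ, (EQ (FD D1 D2 x (cf c lg)) (x - 1) q x + 1 / ((q : ℝ) - 1) * ((WW (rho c) x D1 D2 - Λ * EV c D1 D2) -
        ∑ n ∈ (Finset.Icc 1 (x - 1)).filter (fun n => q ∣ n), FD D1 D2 x (cf c lg) n)) := by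
    rw [SQl_WW, mul_assoc, mul_comm (∑ q ∈ QQ, 1 / ((q : ℝ) - 1)), ← mul_assoc, mul_sum, ← sum_sub_distrib]
    apply sum_congr rfl
    intro q _
    have h2 := SQl_mult c x D1 D2 q
    unfold EQ
    rw [h2]
    ring
  rw [h1]
  refine (abs_sum_le_sum_abs _ _).trans ?_
  have h3 : ∀ q ∈ QQ, |EQ (FD D1 D2 x (cf c lg)) (x - 1) q x + 1 / ((q : ℝ) - 1) * ((WW (rho c) x D1 D2 - Λ * EV c D1 D2) -
        ∑ n ∈ (Finset.Icc 1 (x - 1)).filter (fun n => q ∣ n), FD D1 D2 x (cf c lg) n)| ≤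
      |EQ (FD D1 D2 x (cf c lg)) (x - 1) q x| + 1 / ((q : ℝ) - 1) * (Ew + x * Qi * M) := by
    intro q hq
    refine (abs_add_le _ _).trans ?_
    apply add_le_add (le_refl _)
    rw [abs_mul, abs_of_nonneg (hp q hq)]
    apply mul_le_mul_of_nonneg_left _ (hp q hq)
    have h4 := SQl_qd hc x D1 D2 q (by have := hQQ q hq; omega) M Qi hM0 hM (hQi q hq)
    refine (abs_sub _ _).trans ?_
    rw [abs_of_nonneg h4.1]
    exact add_le_add hEw h4.2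
  refine (sum_le_sum h3).trans ?_
  rw [sum_add_distrib, ← sum_mul]
  exact add_le_add hEB (le_refl _)

private theorem SQl_real (c0 ℓ u Ll a6 lY t : ℝ) (hc0 : 0 < c0) (hℓ : 1 ≤ ℓ) (hu : 0 ≤ u) (hLl0 : 0 ≤ Ll)
    (hLl : Ll ≤ (ℓ ^ 29)⁻¹) (ha0 : 0 ≤ a6) (ha : a6 ≤ u) (hl0 : 0 ≤ lY) (hl : lY ≤ ℓ) (ht : t ≤ 2 * u)
    (h1 : ℓ ^ 10 * u ≤ c0 / 5760) (h2 : 5120 / c0 ≤ ℓ) :
    10 * (1 + ℓ) * ((Ll + a6) * (1 + lY) ^ 4 + t) ≤ c0 / 8 / ℓ ^ 5 := by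
  have hℓ0 : 0 < ℓ := by linarith
  rw [le_div_iff₀ (by positivity)]
  have h3 : (1 + lY) ^ 4 ≤ 16 * ℓ ^ 4 := by
    calc (1 + lY) ^ 4 ≤ (2 * ℓ) ^ 4 := by
          apply pow_le_pow_left₀ (by linarith)
          linarith
      _ = 16 * ℓ ^ 4 := by ring
  have h4 : (Ll + a6) * (1 + lY) ^ 4 ≤ (Ll + u) * (16 * ℓ ^ 4) := by
    apply mul_le_mul (by linarith) h3 (by positivity) (by linarith)
  have h5 : 10 * (1 + ℓ) ≤ 20 * ℓ := by linarith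
  have h6 : 10 * (1 + ℓ) * ((Ll + a6) * (1 + lY) ^ 4 + t) ≤ 20 * ℓ * ((Ll + u) * (16 * ℓ ^ 4) + 2 * u) := by
    calc 10 * (1 + ℓ) * ((Ll + a6) * (1 + lY) ^ 4 + t) ≤ 10 * (1 + ℓ) * ((Ll + u) * (16 * ℓ ^ 4) + 2 * u) := by
          apply mul_le_mul_of_nonneg_left _ (by linarith)
          linarith
      _ ≤ _ := by
          apply mul_le_mul_of_nonneg_right h5
          positivity
  have h7 : Ll * ℓ ^ 10 ≤ c0 / 5120 := by
    have h8 : Ll * ℓ ^ 29 ≤ 1 := by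
      have := mul_le_mul_of_nonneg_right hLl (by positivity : 0 ≤ ℓ ^ 29)
      rwa [inv_mul_cancel₀ (by positivity)] at this
    have h9 : ℓ ^ 11 ≤ ℓ ^ 29 := pow_le_pow_right₀ hℓ (by norm_num)
    have h10 : Ll * ℓ ^ 11 ≤ 1 := (mul_le_mul_of_nonneg_left h9 hLl0).trans h8
    have h11 : 5120 ≤ ℓ * c0 := by rwa [div_le_iff₀ hc0] at h2
    have h12 : 5120 * (Ll * ℓ ^ 10) ≤ c0 := by
      calc 5120 * (Ll * ℓ ^ 10) ≤ (ℓ * c0) * (Ll * ℓ ^ 10) := by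
            apply mul_le_mul_of_nonneg_right h11
            positivity
        _ = c0 * (Ll * ℓ ^ 11) := by ring
        _ ≤ c0 * 1 := mul_le_mul_of_nonneg_left h10 hc0.le
        _ = c0 := mul_one c0
    linarith
  have h13 : ℓ ^ 6 * u ≤ ℓ ^ 10 * u := by
    apply mul_le_mul_of_nonneg_right _ hu
    exact pow_le_pow_right₀ hℓ (by norm_num)
  calc 10 * (1 + ℓ) * ((Ll + a6) * (1 + lY) ^ 4 + t) * ℓ ^ 5 ≤ 20 * ℓ * ((Ll + u) * (16 * ℓ ^ 4) + 2 * u) * ℓ ^ 5 := by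
        apply mul_le_mul_of_nonneg_right h6
        positivity
    _ = 320 * (Ll * ℓ ^ 10) + 320 * (ℓ ^ 10 * u) + 40 * (ℓ ^ 6 * u) := by ring
    _ ≤ c0 / 8 := by linarith

private theorem SQl_sumR (Y : ℕ) (hY : 1 ≤ Y) (EB S1 x A B : ℝ) (hS1 : 0 ≤ S1) (hx : 0 ≤ x) (hA : 0 ≤ A) :
    ∑ D1 ∈ Finset.Icc 1 Y, ∑ D2 ∈ Finset.Icc 1 Y,
      (EB + S1 * (x * ((2 : ℝ) ^ (D1 * D2).primeFactors.card / ((D1 * D2 : ℕ) : ℝ) * A + B))) ≤
      (Y : ℝ) ^ 2 * EB + S1 * x * (A * (1 + Real.log Y) ^ 4 + (Y : ℝ) ^ 2 * B) := by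
  have h1 : ∑ D1 ∈ Finset.Icc 1 Y, ∑ D2 ∈ Finset.Icc 1 Y,
      (EB + S1 * (x * ((2 : ℝ) ^ (D1 * D2).primeFactors.card / ((D1 * D2 : ℕ) : ℝ) * A + B))) =
      (Y : ℝ) ^ 2 * EB + S1 * x * (A * (∑ D1 ∈ Finset.Icc 1 Y, ∑ D2 ∈ Finset.Icc 1 Y,
      (2 : ℝ) ^ (D1 * D2).primeFactors.card / ((D1 * D2 : ℕ) : ℝ)) + (Y : ℝ) ^ 2 * B) := by
    have h2 : ∀ D1 ∈ Finset.Icc 1 Y, ∑ D2 ∈ Finset.Icc 1 Y,
      (EB + S1 * (x * ((2 : ℝ) ^ (D1 * D2).primeFactors.card / ((D1 * D2 : ℕ) : ℝ) * A + B))) =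
      (Y : ℝ) * EB + S1 * x * A * (∑ D2 ∈ Finset.Icc 1 Y, (2 : ℝ) ^ (D1 * D2).primeFactors.card / ((D1 * D2 : ℕ) : ℝ)) +
        (Y : ℝ) * (S1 * x * B) := by
      intro D1 _
      have h3 : ∀ D2 ∈ Finset.Icc 1 Y,
        (EB + S1 * (x * ((2 : ℝ) ^ (D1 * D2).primeFactors.card / ((D1 * D2 : ℕ) : ℝ) * A + B))) =
        EB + S1 * x * A * ((2 : ℝ) ^ (D1 * D2).primeFactors.card / ((D1 * D2 : ℕ) : ℝ)) + S1 * x * B := by
        intro D2 _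
        ring
      rw [sum_congr rfl h3, sum_add_distrib, sum_add_distrib, ← mul_sum]
      simp only [sum_const, Nat.card_Icc, nsmul_eq_mul, Nat.add_sub_cancel]
    rw [sum_congr rfl h2, sum_add_distrib, sum_add_distrib, ← mul_sum (Finset.Icc 1 Y) _ (S1 * x * A)]
    simp only [sum_const, Nat.card_Icc, nsmul_eq_mul, Nat.add_sub_cancel]
    ring
  rw [h1]
  have h4 := SUMR Y hY
  have h5 : A * (∑ D1 ∈ Finset.Icc 1 Y, ∑ D2 ∈ Finset.Icc 1 Y,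
      (2 : ℝ) ^ (D1 * D2).primeFactors.card / ((D1 * D2 : ℕ) : ℝ)) ≤ A * (1 + Real.log Y) ^ 4 :=
    mul_le_mul_of_nonneg_left h4 hA
  have h6 : 0 ≤ S1 * x := mul_nonneg hS1 hx
  have h7 := mul_le_mul_of_nonneg_left h5 h6
  have h8 : S1 * x * (A * (∑ D1 ∈ Finset.Icc 1 Y, ∑ D2 ∈ Finset.Icc 1 Y,
      (2 : ℝ) ^ (D1 * D2).primeFactors.card / ((D1 * D2 : ℕ) : ℝ)) + (Y : ℝ) ^ 2 * B) ≤
      S1 * x * (A * (1 + Real.log Y) ^ 4 + (Y : ℝ) ^ 2 * B) := by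
    apply mul_le_mul_of_nonneg_left _ h6
    linarith
  linarith

private theorem SQl_rho (μ : ℝ) (hμ : 0 < μ) : ∃ N0 : ℕ, ∀ N : ℕ, N0 ≤ N → ∀ c : ℕ → ℝ, RC N c → ∀ x : ℕ, x ≤ N ^ 2 →
    ∀ n ∈ Finset.Icc 1 (x - 1), rho c n ≤ (N : ℝ) ^ (μ / 50) := by
  obtain ⟨C, hC, hdiv⟩ := RG.divisor_bound (μ / 200) (by linarith)
  obtain ⟨N1, h1⟩ := SQl_log 1 (μ / 100) (1 / (2 * C)) (by linarith) (by positivity)
  refine ⟨max N1 2, ?_⟩
  intro N hN c hc x hx n hn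
  have hN1 : N1 ≤ N := (le_max_left _ _).trans hN
  have hN2 : 2 ≤ N := (le_max_right _ _).trans hN
  have hNr : (1 : ℝ) ≤ N := by exact_mod_cast (by omega : 1 ≤ N)
  have hNpos : (0 : ℝ) < N := by linarith
  rw [mem_Icc] at hn
  have hn1 : (1 : ℝ) ≤ n := by exact_mod_cast hn.1
  have hnN : (n : ℝ) ≤ (N : ℝ) ^ 2 := by
    have : n ≤ N ^ 2 := by omega
    exact_mod_cast this
  have h2 := rho_le hc n
  have h3 := hdiv n hn.1
  have h4 : Real.log n ≤ 2 * Real.log N := by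
    calc Real.log n ≤ Real.log ((N : ℝ) ^ 2) := Real.log_le_log (by linarith) hnN
      _ = 2 * Real.log N := by rw [Real.log_pow]; norm_num
  have h5 : (n : ℝ) ^ (μ / 200) ≤ (N : ℝ) ^ (μ / 100) := by
    calc (n : ℝ) ^ (μ / 200) ≤ ((N : ℝ) ^ 2) ^ (μ / 200) := Real.rpow_le_rpow (by linarith) hnN (by linarith)
      _ = (N : ℝ) ^ (μ / 100) := by
        rw [← Real.rpow_natCast, ← Real.rpow_mul hNpos.le]
        congr 1
        push_cast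
        ring
  have h6 := h1 N hN1
  rw [pow_one] at h6
  have hl0 : 0 ≤ Real.log N := Real.log_nonneg hNr
  calc rho c n ≤ n.divisors.card * Real.log n := h2
    _ ≤ (C * (N : ℝ) ^ (μ / 100)) * (2 * Real.log N) := by
      apply mul_le_mul _ h4 (Real.log_nonneg hn1) (by positivity)
      exact h3.trans (mul_le_mul_of_nonneg_left h5 (by linarith))
    _ ≤ (C * (N : ℝ) ^ (μ / 100)) * (2 * (1 / (2 * C) * (N : ℝ) ^ (μ / 100))) := by gcongr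
    _ = (N : ℝ) ^ (μ / 100) * (N : ℝ) ^ (μ / 100) := by field_simp
    _ = (N : ℝ) ^ (μ / 50) := by
      rw [← Real.rpow_add hNpos]
      congr 1
      ring

open Classical in
theorem SQl (μ : ℝ) (hμ : 0 < μ) (hμ1 : μ ≤ 1 / 10) : ∃ c1 c3 : ℝ, 0 < c1 ∧ 0 < c3 ∧ ∀ c' : ℝ, 0 < c' → c' ≤ c1 →
    ∃ N0 : ℕ, ∀ N : ℕ, N0 ≤ N → ∀ (c : ℕ → ℝ) (L : ℝ), RC N c → LV N c L → L ≤ (Real.log N ^ 30)⁻¹ →
    ∀ x K : ℕ, XS N x K → ∀ (Q : ℕ) (QQ : Finset ℕ), QS N μ Q QQ →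
    c3 * (x / Real.log N ^ 5) * ∑ q ∈ QQ, 1 / (q : ℝ) - (N : ℝ) ^ (1 - μ / 20) ≤
      ∑ q ∈ QQ, ∑ n ∈ (Sft x (pw N c') K).filter (fun n => n ≡ x [MOD q]), rho c n := by
  classical
  obtain ⟨b, c0, hb, hc0, hSVL⟩ := SVL
  obtain ⟨N1, hW⟩ := WMN
  obtain ⟨N2, hL1⟩ := L1B
  obtain ⟨N3, hsz⟩ := XSsz
  obtain ⟨N4, hpw⟩ := XSpw (μ / 100) (by linarith)
  obtain ⟨N5, hBV⟩ := BVc μ hμ hμ1
  obtain ⟨N6, hrho⟩ := SQl_rho μ hμ
  obtain ⟨N7, h6⟩ := SQl_big (μ / 2000) 6 (by linarith) (by norm_num)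
  obtain ⟨N8, h8⟩ := SQl_log 10 (μ / 2) (c0 / 5760) (by linarith) (by positivity)
  obtain ⟨N9, h9⟩ := SQl_log 1 (μ / 100) (1 / 20) (by linarith) (by norm_num)
  obtain ⟨N10, h10⟩ : ∃ N0 : ℕ, ∀ N : ℕ, N0 ≤ N → max 1 (5120 / c0) ≤ Real.log N := by
    have h := (Real.tendsto_log_atTop.comp (tendsto_natCast_atTop_atTop (R := ℝ))).eventually_ge_atTop (max 1 (5120 / c0))
    obtain ⟨N0, hN0⟩ := Filter.eventually_atTop.1 h
    exact ⟨N0, fun N hN => hN0 N hN⟩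
  have hbr : (1 : ℝ) ≤ b := by exact_mod_cast hb
  refine ⟨μ / (5000 * b), c0 / 8, by positivity, by positivity, ?_⟩
  intro c' hc' hc'1
  obtain ⟨N11, h11⟩ := SQl_big c' 3 hc' (by norm_num)
  refine ⟨N1 + N2 + N3 + N4 + N5 + N6 + N7 + N8 + N9 + N10 + N11 + 3, ?_⟩
  intro N hN c L hc hLV hL x K hXS Q QQ hQS
  have hW := hW N (by omega)
  have hL1 := hL1 N (by omega)
  have hsz := hsz N (by omega) x K hXS
  have hpw := hpw N (by omega) x K hXS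
  have hBV := hBV N (by omega)
  have hrho := hrho N (by omega) c hc x
  have h6 := h6 N (by omega)
  have h8 := h8 N (by omega)
  have h9 := h9 N (by omega)
  have h10 := h10 N (by omega)
  have h11 := h11 N (by omega)
  obtain ⟨hKp, hKN, h6x, hKx, hNx, _, _, _, _, hNlx, hxN⟩ := hsz
  have hrho := hrho hxN
  obtain ⟨hx1, hK1⟩ := hpw
  have hN3 : (3 : ℝ) ≤ N := by exact_mod_cast (by omega : 3 ≤ N)
  have hNpos : (0 : ℝ) < N := by linarith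
  have hN1 : (1 : ℝ) ≤ N := by linarith
  set ℓ := Real.log N with hℓ
  have hℓ1 : 1 ≤ ℓ := (le_max_left _ _).trans h10
  have hℓc : 5120 / c0 ≤ ℓ := (le_max_right _ _).trans h10
  have hℓ0 : 0 < ℓ := by linarith
  have hxpos : 0 < x := by omega
  have hxr : (0 : ℝ) < x := by exact_mod_cast hxpos
  -- the size of z
  set z := pw N c' with hz
  have hzle : (z : ℝ) ≤ (N : ℝ) ^ c' := Nat.floor_le (Real.rpow_nonneg hNpos.le _)
  have hz3 : 3 ≤ z := Nat.le_floor (by exact_mod_cast h11)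
  have hc'2 : 12 * b * c' ≤ 12 * μ / 5000 := by
    have h := mul_le_mul_of_nonneg_left hc'1 (by positivity : (0 : ℝ) ≤ 12 * b)
    calc 12 * b * c' ≤ 12 * b * (μ / (5000 * b)) := h
      _ = 12 * μ / 5000 := by field_simp
  have hc'3 : c' ≤ 1 := by
    have : 12 * 1 * c' ≤ 12 * b * c' := by gcongr
    nlinarith
  set Y := 6 * z ^ (12 * b) with hY
  have hY1 : 1 ≤ Y := by
    have : 0 < z ^ (12 * b) := by positivity
    omega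
  have hYr1 : (1 : ℝ) ≤ Y := by exact_mod_cast hY1
  have hYle : (Y : ℝ) ≤ (N : ℝ) ^ (μ / 300) := by
    rw [hY]
    push_cast
    calc 6 * (z : ℝ) ^ (12 * b) ≤ (N : ℝ) ^ (μ / 2000) * ((N : ℝ) ^ c') ^ (12 * b) := by gcongr
      _ = (N : ℝ) ^ (μ / 2000 + c' * ((12 * b : ℕ) : ℝ)) := by
        rw [← Real.rpow_natCast ((N : ℝ) ^ c'), ← Real.rpow_mul hNpos.le, ← Real.rpow_add hNpos]
      _ ≤ (N : ℝ) ^ (μ / 300) := by
        apply Real.rpow_le_rpow_of_exponent_le hN1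
        push_cast
        linarith
  have hYN : (Y : ℝ) ≤ N := by
    calc (Y : ℝ) ≤ (N : ℝ) ^ (μ / 300) := hYle
      _ ≤ (N : ℝ) ^ (1 : ℝ) := Real.rpow_le_rpow_of_exponent_le hN1 (by linarith)
      _ = N := Real.rpow_one _
  have hzN : (z : ℝ) ≤ N := by
    calc (z : ℝ) ≤ (N : ℝ) ^ c' := hzle
      _ ≤ (N : ℝ) ^ (1 : ℝ) := Real.rpow_le_rpow_of_exponent_le hN1 hc'3
      _ = N := Real.rpow_one _
  have hzr : (3 : ℝ) ≤ z := by exact_mod_cast hz3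
  have hlz : Real.log z ≤ ℓ := Real.log_le_log (by linarith) hzN
  have hlz0 : 0 < Real.log z := Real.log_pos (by linarith)
  have hlY : Real.log Y ≤ ℓ := Real.log_le_log (by linarith) hYN
  have hlY0 : 0 ≤ Real.log Y := Real.log_nonneg hYr1
  -- the moduli
  have hQpos : (0 : ℝ) < (N : ℝ) ^ μ := Real.rpow_pos_of_pos hNpos _
  have hQbig : (6 : ℝ) < (N : ℝ) ^ μ := by
    calc (6 : ℝ) ≤ (N : ℝ) ^ (μ / 2000) := h6
      _ < (N : ℝ) ^ μ := Real.rpow_lt_rpow_of_exponent_lt (by linarith) (by linarith)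
  have hqQ : ∀ q ∈ QQ, (N : ℝ) ^ μ < q := by
    intro q hq
    have h1 := (hQS.mem q hq).2.1
    have h2 : (Q : ℝ) < q := by exact_mod_cast h1
    exact lt_of_le_of_lt hQS.low h2
  have hq2 : ∀ q ∈ QQ, 2 ≤ q := fun q hq => (hQS.mem q hq).1.two_le
  have hqx : ∀ q ∈ QQ, ¬ q ∣ x := by
    intro q hq hd
    have hqp := (hQS.mem q hq).1
    rw [hXS.eq] at hd
    rcases (Nat.Prime.dvd_mul hqp).1 hd with h | h
    · rcases (Nat.Prime.dvd_mul hqp).1 h with h' | h'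
      · have h1 := Nat.le_of_dvd (by norm_num) h'
        have h2 : (q : ℝ) ≤ 6 := by exact_mod_cast h1
        have h3 := hqQ q hq
        linarith
      · have h1 := Nat.le_of_dvd hKp.pos h'
        have h2 : (q : ℝ) ≤ K := by exact_mod_cast h1
        have h3 := hqQ q hq
        have h4 : (N : ℝ) ^ (μ / 100) ≤ (N : ℝ) ^ μ := Real.rpow_le_rpow_of_exponent_le hN1 (by linarith)
        linarith
    · exact (hQS.mem q hq).2.2.2 h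
  have hQi : ∀ q ∈ QQ, 1 / (q : ℝ) ≤ (N : ℝ) ^ (-μ) := by
    intro q hq
    rw [Real.rpow_neg hNpos.le, ← one_div]
    exact one_div_le_one_div_of_le hQpos (hqQ q hq).le
  set S1 := ∑ q ∈ QQ, 1 / ((q : ℝ) - 1) with hS1
  set S := ∑ q ∈ QQ, 1 / (q : ℝ) with hS
  have hSS1 : S ≤ S1 := by
    apply sum_le_sum
    intro q hq
    have : (2 : ℝ) ≤ q := by exact_mod_cast hq2 q hq
    apply one_div_le_one_div_of_le <;> linarith
  have hS0 : 0 ≤ S := sum_nonneg fun q _ => by positivity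
  have hS10 : 0 ≤ S1 := hS0.trans hSS1
  -- the series
  have hLℓ2 : L ≤ (ℓ ^ 2)⁻¹ := by
    refine hL.trans ?_
    apply inv_anti₀ (by positivity)
    exact pow_le_pow_right₀ hℓ1 (by norm_num)
  have hL1x := hL1 c L hc hLV hLℓ2 x hNlx hxN
  set Λ := (x : ℝ) * L1 N c x with hΛ
  have hΛ1 : (x : ℝ) / 4 ≤ Λ := by
    rw [hΛ]
    nlinarith
  have hΛ0 : 0 ≤ Λ := by
    have : 0 ≤ (x : ℝ) / 4 := by positivity
    linarith
  -- the error terms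
  set EB := (N : ℝ) ^ (1 - μ / 10) with hEB
  set a6 := (N : ℝ) ^ (-(1 / 6 : ℝ)) with ha6
  set M := (N : ℝ) ^ (μ / 50) with hM
  have hLℓ0 : 0 ≤ L * ℓ := mul_nonneg hLV.1 hℓ0.le
  set R : ℕ → ℕ → ℝ := fun D1 D2 => EB + S1 * (x * (2 ^ (D1 * D2).primeFactors.card / ((D1 * D2 : ℕ) : ℝ) *
    (L * ℓ + a6) + ((N : ℝ) ^ (-(1 / 10 : ℝ)) + (N : ℝ) ^ (-μ) * M))) with hR
  have hR0 : ∀ D1 D2, 0 ≤ R D1 D2 := by
    intro D1 D2
    simp only [hR]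
    positivity
  set P : Finset ℕ := (Finset.Icc 5 z).filter (fun p => p.Prime ∧ p ≠ K) with hP
  have hPm : ∀ p ∈ P, p.Prime ∧ 5 ≤ p ∧ p ≤ z := by
    intro p hp
    rw [hP, mem_filter, mem_Icc] at hp
    exact ⟨hp.2.1, hp.1.1, hp.1.2⟩
  have hcv : ∀ n, c n = 1 ∨ c n = 0 ∨ c n = -1 := by
    intro n
    by_cases h : n.Coprime N
    · rcases hc.val n h with h1 | h1
      · exact Or.inl h1
      · exact Or.inr (Or.inr h1)
    · exact Or.inr (Or.inl (hc.zero n h))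
  have hmain := hSVL z (by omega) P hPm x h6x c hcv
    (fun n => ∑ q ∈ QQ, if n ≡ x [MOD q] then rho c n else 0)
    (by
      intro n
      apply sum_nonneg
      intro q _
      split_ifs
      · exact rho_nonneg hc n
      · exact le_refl _)
    (Λ * S1) (mul_nonneg hΛ0 hS10) R hR0 (by
      intro D1 D2 hsq hcop hle
      have hD0 : D1 * D2 ≠ 0 := hsq.ne_zero
      have hD1 : 1 ≤ D1 := Nat.one_le_iff_ne_zero.2 (left_ne_zero_of_mul hD0)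
      have hD2 : 1 ≤ D2 := Nat.one_le_iff_ne_zero.2 (right_ne_zero_of_mul hD0)
      have hDr : ((D1 * D2 : ℕ) : ℝ) ≤ (N : ℝ) ^ (μ / 300) := by
        refine le_trans ?_ hYle
        exact_mod_cast hle
      have hD1r : (D1 : ℝ) ≤ (N : ℝ) ^ (μ / 100) := by
        calc (D1 : ℝ) ≤ ((D1 * D2 : ℕ) : ℝ) := by exact_mod_cast Nat.le_mul_of_pos_right D1 hD2
          _ ≤ (N : ℝ) ^ (μ / 300) := hDr
          _ ≤ (N : ℝ) ^ (μ / 100) := Real.rpow_le_rpow_of_exponent_le hN1 (by linarith)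
      have hD2r : (D2 : ℝ) ≤ (N : ℝ) ^ (μ / 100) := by
        calc (D2 : ℝ) ≤ ((D1 * D2 : ℕ) : ℝ) := by exact_mod_cast Nat.le_mul_of_pos_left D2 hD1
          _ ≤ (N : ℝ) ^ (μ / 300) := hDr
          _ ≤ (N : ℝ) ^ (μ / 100) := Real.rpow_le_rpow_of_exponent_le hN1 (by linarith)
      have hDw : ((D1 * D2 : ℕ) : ℝ) ≤ (N : ℝ) ^ ((1 : ℝ) / 100) :=
        hDr.trans (Real.rpow_le_rpow_of_exponent_le hN1 (by linarith))
      have hcopN : D2.Coprime N := Nat.Coprime.coprime_dvd_right hNx hcop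
      have hX : ((x - 1 : ℕ) : ℝ) ≤ (N : ℝ) ^ (1 + μ / 100) := by
        refine le_trans ?_ hx1
        exact_mod_cast Nat.sub_le x 1
      have e1 := hBV c lg hc (Or.inr rfl) Q QQ (fun _ => x) (x - 1) D1 D2 x hQS hqx hX hD1 hD1r hD2 hD2r hcopN hcop.symm
      have e2 := hW c L hc hLV x hNlx hxN D1 D2 hsq hcop hcopN hDw
      have e3 := SQl_comb hc x D1 D2 QQ M ((N : ℝ) ^ (-μ)) EB _ Λ (by positivity) hq2 hrho hQi e1 e2
      refine e3.trans (le_of_eq ?_)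
      simp only [hR]
      ring)
  -- the sifted set
  have hset : (Finset.Icc 1 (x - 1)).filter (fun n => n.Coprime 6 ∧ ∀ p ∈ P, ¬ p ∣ n * (x - n)) = Sft x z K := by
    unfold Sft
    apply filter_congr
    intro n _
    apply and_congr_right
    intro _
    constructor
    · intro h p hp h5 hpz hpK
      exact h p (by rw [hP, mem_filter, mem_Icc]; exact ⟨⟨h5, hpz⟩, hp, hpK⟩)
    · intro h p hp
      rw [hP, mem_filter, mem_Icc] at hp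
      exact h p hp.2.1 hp.1.1 hp.1.2 hp.2.2
  have hsum : ∑ n ∈ (Finset.Icc 1 (x - 1)).filter (fun n => n.Coprime 6 ∧ ∀ p ∈ P, ¬ p ∣ n * (x - n)),
      (∑ q ∈ QQ, if n ≡ x [MOD q] then rho c n else 0) =
      ∑ q ∈ QQ, ∑ n ∈ (Sft x z K).filter (fun n => n ≡ x [MOD q]), rho c n := by
    rw [hset, sum_comm]
    apply sum_congr rfl
    intro q _
    rw [sum_filter]
  rw [← hsum]
  refine le_trans ?_ hmain
  -- the error
  have hNJ : (GT.NJ z : ℝ) + 1 ≤ 10 * (1 + ℓ) := by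
    have := NJb z (by omega)
    linarith
  have hNJ0 : 0 ≤ (GT.NJ z : ℝ) + 1 := by positivity
  have hsR := SQl_sumR Y hY1 EB S1 x (L * ℓ + a6) ((N : ℝ) ^ (-(1 / 10 : ℝ)) + (N : ℝ) ^ (-μ) * M) hS10 hxr.le (by positivity)
  have hY2 : (Y : ℝ) ^ 2 ≤ (N : ℝ) ^ (μ / 150) := by
    calc (Y : ℝ) ^ 2 ≤ ((N : ℝ) ^ (μ / 300)) ^ 2 := by gcongr
      _ = (N : ℝ) ^ (μ / 150) := by
        rw [← Real.rpow_natCast, ← Real.rpow_mul hNpos.le]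
        congr 1
        push_cast
        ring
  set u := (N : ℝ) ^ (-(μ / 2)) with hu
  have hu0 : 0 < u := Real.rpow_pos_of_pos hNpos _
  have ha6u : a6 ≤ u := Real.rpow_le_rpow_of_exponent_le hN1 (by linarith)
  have ht : (Y : ℝ) ^ 2 * ((N : ℝ) ^ (-(1 / 10 : ℝ)) + (N : ℝ) ^ (-μ) * M) ≤ 2 * u := by
    have t1 : (N : ℝ) ^ (μ / 150) * (N : ℝ) ^ (-(1 / 10 : ℝ)) ≤ u := by
      rw [← Real.rpow_add hNpos]
      exact Real.rpow_le_rpow_of_exponent_le hN1 (by linarith)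
    have t2 : (N : ℝ) ^ (μ / 150) * ((N : ℝ) ^ (-μ) * M) ≤ u := by
      rw [hM, ← Real.rpow_add hNpos, ← Real.rpow_add hNpos]
      exact Real.rpow_le_rpow_of_exponent_le hN1 (by linarith)
    calc (Y : ℝ) ^ 2 * ((N : ℝ) ^ (-(1 / 10 : ℝ)) + (N : ℝ) ^ (-μ) * M) ≤
        (N : ℝ) ^ (μ / 150) * ((N : ℝ) ^ (-(1 / 10 : ℝ)) + (N : ℝ) ^ (-μ) * M) := by
          apply mul_le_mul_of_nonneg_right hY2
          positivity
      _ ≤ 2 * u := by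
          rw [mul_add]
          linarith
  have hLl : L * ℓ ≤ (ℓ ^ 29)⁻¹ := by
    calc L * ℓ ≤ (ℓ ^ 30)⁻¹ * ℓ := mul_le_mul_of_nonneg_right hL hℓ0.le
      _ = (ℓ ^ 29)⁻¹ := by
        field_simp
  have h8' : ℓ ^ 10 * u ≤ c0 / 5760 := by
    have h1 : (N : ℝ) ^ (μ / 2) * u = 1 := by
      rw [hu, ← Real.rpow_add hNpos]
      simp
    calc ℓ ^ 10 * u ≤ (c0 / 5760 * (N : ℝ) ^ (μ / 2)) * u := mul_le_mul_of_nonneg_right h8 hu0.le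
      _ = c0 / 5760 * ((N : ℝ) ^ (μ / 2) * u) := by ring
      _ = c0 / 5760 := by rw [h1, mul_one]
  have hreal := SQl_real c0 ℓ u (L * ℓ) a6 (Real.log Y) _ hc0 hℓ1 hu0.le hLℓ0 hLl (by positivity) ha6u hlY0 hlY ht h8' hℓc
  have hEBb : 10 * (1 + ℓ) * ((Y : ℝ) ^ 2 * EB) ≤ (N : ℝ) ^ (1 - μ / 20) := by
    have e1 : 10 * (1 + ℓ) ≤ (N : ℝ) ^ (μ / 100) := by
      rw [pow_one] at h9
      linarith
    calc 10 * (1 + ℓ) * ((Y : ℝ) ^ 2 * EB) ≤ (N : ℝ) ^ (μ / 100) * ((N : ℝ) ^ (μ / 150) * EB) := by gcongr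
      _ = (N : ℝ) ^ (μ / 100 + (μ / 150 + (1 - μ / 10))) := by
        rw [hEB, ← Real.rpow_add hNpos, ← Real.rpow_add hNpos]
      _ ≤ (N : ℝ) ^ (1 - μ / 20) := Real.rpow_le_rpow_of_exponent_le hN1 (by linarith)
  set T := (L * ℓ + a6) * (1 + Real.log Y) ^ 4 + (Y : ℝ) ^ 2 * ((N : ℝ) ^ (-(1 / 10 : ℝ)) + (N : ℝ) ^ (-μ) * M) with hT
  have hT0 : 0 ≤ T := by positivity
  have hSx : 0 ≤ S1 * x := mul_nonneg hS10 hxr.le
  have herr : ((GT.NJ z : ℝ) + 1) * ∑ D1 ∈ Finset.Icc 1 Y, ∑ D2 ∈ Finset.Icc 1 Y, R D1 D2 ≤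
      (N : ℝ) ^ (1 - μ / 20) + S1 * x * (c0 / 8 / ℓ ^ 5) := by
    calc ((GT.NJ z : ℝ) + 1) * ∑ D1 ∈ Finset.Icc 1 Y, ∑ D2 ∈ Finset.Icc 1 Y, R D1 D2 ≤
        ((GT.NJ z : ℝ) + 1) * ((Y : ℝ) ^ 2 * EB + S1 * x * T) := mul_le_mul_of_nonneg_left hsR hNJ0
      _ ≤ (10 * (1 + ℓ)) * ((Y : ℝ) ^ 2 * EB + S1 * x * T) := by
        apply mul_le_mul_of_nonneg_right hNJ
        positivity
      _ = 10 * (1 + ℓ) * ((Y : ℝ) ^ 2 * EB) + S1 * x * (10 * (1 + ℓ) * T) := by ring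
      _ ≤ (N : ℝ) ^ (1 - μ / 20) + S1 * x * (c0 / 8 / ℓ ^ 5) := add_le_add hEBb (mul_le_mul_of_nonneg_left hreal hSx)
  have hmn : c0 * (x / 4 * S1) / ℓ ^ 5 ≤ c0 * (Λ * S1) / Real.log z ^ 5 := by
    apply div_le_div₀ (by positivity) _ (by positivity) (by gcongr)
    apply mul_le_mul_of_nonneg_left _ hc0.le
    exact mul_le_mul_of_nonneg_right hΛ1 hS10
  have hfin : c0 / 8 * (x / ℓ ^ 5) * S ≤ c0 * (x / 4 * S1) / ℓ ^ 5 - S1 * x * (c0 / 8 / ℓ ^ 5) := by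
    have e1 : c0 * (x / 4 * S1) / ℓ ^ 5 - S1 * x * (c0 / 8 / ℓ ^ 5) = c0 / 8 * (x / ℓ ^ 5) * S1 := by ring
    rw [e1]
    apply mul_le_mul_of_nonneg_left hSS1
    positivity
  linarith

end Pool.Agent.Lib.PX
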