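import Pool.Agent.Lib.MP_7b7e48_nt.PX.Defs
import Pool.Agent.Lib.MP_7b7e48_nt.PQ.S2m

/-!
# SSU: upper bound for the summatory function of `1 * c`

PROOF. `PQ.S2m` with `e = μ/100`: `SS c y ≤ L y + C √y N^(1/4 + μ/100)`, and for `y ≥ N^(1/2 + μ/4)`: `√y N^(1/4+μ/100) = y N^(1/4+μ/100)/√y ≤ y N^(μ/100 - μ/8) ≤ y L/C` as `L ≥ N^(-μ/100)`.
-/

set_option autoImplicit false

open Finset
open Pool.Agent.Lib.GT (Rough V)
open Pool.Agent.Lib.MP_45349e_nt.LS (lam)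
open Pool.Agent.Lib.RG (RC LV rr SS PB sig)

namespace Pool.Agent.Lib.PX

open Pool.Agent.Lib.PQ (pw)

theorem SSU (μ : ℝ) (hμ : 0 < μ) : ∃ N0 : ℕ, ∀ N : ℕ, N0 ≤ N → ∀ (c : ℕ → ℝ) (L : ℝ), RC N c → LV N c L →
    (N : ℝ) ^ (-(μ / 100)) ≤ L → ∀ y : ℕ, (N : ℝ) ^ (1 / 2 + μ / 4) ≤ y → SS c y ≤ 2 * (L * y) := by
  obtain ⟨C, hC, h⟩ := PQ.S2m (μ / 100) (by positivity)
  have hlim : Filter.Tendsto (fun N : ℕ => (N : ℝ) ^ (21 * μ / 200)) Filter.atTop Filter.atTop :=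
    (tendsto_rpow_atTop (by positivity)).comp tendsto_natCast_atTop_atTop
  obtain ⟨N1, hN1⟩ := Filter.eventually_atTop.1 (hlim.eventually_ge_atTop C)
  refine ⟨max N1 2, ?_⟩
  intro N hN c L hc hL hlow y hy
  have h2 : 2 ≤ N := le_trans (le_max_right _ _) hN
  have h3 := (h N h2 c L hc hL).2 y
  have h4 : C ≤ (N : ℝ) ^ (21 * μ / 200) := hN1 N (le_trans (le_max_left _ _) hN)
  have hN0 : (0 : ℝ) < (N : ℝ) := by exact_mod_cast (by omega : 0 < N)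
  have hs : (N : ℝ) ^ (1 / 4 + μ / 8) ≤ Real.sqrt y := by
    apply Real.le_sqrt_of_sq_le
    refine le_trans (le_of_eq ?_) hy
    rw [← Real.rpow_natCast, ← Real.rpow_mul hN0.le]
    congr 1
    push_cast
    ring
  have hs0 : 0 ≤ Real.sqrt y := Real.sqrt_nonneg _
  have hss : Real.sqrt y * Real.sqrt y = y := Real.mul_self_sqrt (Nat.cast_nonneg _)
  have hL0 : 0 ≤ L := le_trans (by positivity) hlow
  have h5 : C * Real.sqrt y * (N : ℝ) ^ (1 / 4 + μ / 100) ≤ L * y := by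
    calc C * Real.sqrt y * (N : ℝ) ^ (1 / 4 + μ / 100)
        ≤ (N : ℝ) ^ (21 * μ / 200) * Real.sqrt y * (N : ℝ) ^ (1 / 4 + μ / 100) := by gcongr
      _ = Real.sqrt y * ((N : ℝ) ^ (-(μ / 100)) * (N : ℝ) ^ (1 / 4 + μ / 8)) := by
          rw [← Real.rpow_add hN0, mul_comm ((N : ℝ) ^ (21 * μ / 200)) (Real.sqrt y), mul_assoc,
            ← Real.rpow_add hN0]
          congr 2
          ring
      _ ≤ Real.sqrt y * (L * Real.sqrt y) := by gcongr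
      _ = L * (Real.sqrt y * Real.sqrt y) := by ring
      _ = L * y := by rw [hss]
  have h6 := (abs_le.1 h3).2
  linarith

end Pool.Agent.Lib.PX
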