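import Pool.Agent.Lib.MP_7b7e48_nt.PX.LOC
import Pool.Agent.Lib.MP_7b7e48_nt.PX.PRH
import Pool.Agent.Lib.MP_7b7e48_nt.TC.FLM

/-!
# SVL: the lower bound sieve

PROOF. `TC.flm` with `κ = 4`: constant `K`; `b` with `K (1/2)^b ≤ 1/2`; the weights `lo` on the subsets of `P`. For `n` coprime to `6`, `B n = {p ∈ P : p ∣ n (x - n)}`: `1[B n = ∅] ≥ ∑_{d ⊆ B n} lo d`. Multiply by `w n ≥ 0` and sum over the `n < x` coprime to `6`: the right side is at least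
`∑_{d ⊆ P} lo d * (left side of LOC)`. Insert `LOC` and replace `WW` by `X0 * EV`: MAIN TERM `X0 ∑_d lo d ∑_{e ∣ 6} μ(e) ∑_t EV(e ∏_{d \ t} p, ∏_t p) = X0 (1 - gg 2)(1 - gg 3) ∑_d lo d ∏_{p ∈ d} hh p` (`EV` is multiplicative; `∑_t ∏_{d \ t} gg ∏_t h2 = ∏_d hh`; `gg c 2 ≤ 3/4`, `gg c 3 ≤ 5/9`)
`≥ X0 (1/9)(1/2) ∏_P (1 - hh) ≥ c0 X0/(log z)^5` (`PRH`). ERROR: `|lo d| ≤ NJ z + 1`, `lo d ≠ 0` only if `∏ d ≤ z^(12 b)`; the pair `(D1, D2) = (e ∏_{d \ t} p, ∏_t p)` determines `e`, `t`, `d`; `D1 D2 ≤ 6 z^(12 b)`, squarefree, `D2` coprime to `x`.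
-/

set_option autoImplicit false

open Finset
open Pool.Agent.Lib.GT (Rough V)
open Pool.Agent.Lib.MP_45349e_nt.LS (lam)
open Pool.Agent.Lib.RG (RC LV rr SS PB sig)

namespace Pool.Agent.Lib.PX

open Pool.Agent.Lib.PQ (pw)

private theorem SVL_pf_prod {u : Finset ℕ} (hu : ∀ p ∈ u, p.Prime ∧ 5 ≤ p) :
    (∏ p ∈ u, p).primeFactors = u := Nat.primeFactors_prod (fun p hp => (hu p hp).1)

private theorem SVL_prod_ne {u : Finset ℕ} (hu : ∀ p ∈ u, p.Prime ∧ 5 ≤ p) :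
    ∏ p ∈ u, p ≠ 0 := Finset.prod_ne_zero_iff.mpr (fun p hp => (hu p hp).1.ne_zero)

private theorem SVL_sqf (d : Finset ℕ) (hd : ∀ p ∈ d, p.Prime ∧ 5 ≤ p) : Squarefree (∏ p ∈ d, p) := by
  classical
  induction d using Finset.induction_on with
  | empty => simp
  | insert a s ha ih =>
    rw [Finset.prod_insert ha]
    have h1 : ∀ p ∈ s, p.Prime ∧ 5 ≤ p := fun p hp => hd p (Finset.mem_insert_of_mem hp)
    have h2 := hd a (Finset.mem_insert_self a s)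
    have cop : Nat.Coprime a (∏ p ∈ s, p) := by
      refine Nat.Coprime.prod_right fun p hp => ?_
      rw [Nat.coprime_primes h2.1 (h1 p hp).1]
      rintro rfl
      exact ha hp
    rw [Nat.squarefree_mul cop]
    exact ⟨h2.1.squarefree, ih h1⟩

private theorem SVL_e_pf {e : ℕ} (he : e ∈ Nat.divisors 6) : e ≠ 0 ∧ e ≤ 6 ∧
    (∀ p ∈ e.primeFactors, p < 5) ∧ Squarefree e := by
  have h6 : e ∣ 6 := Nat.dvd_of_mem_divisors he
  have h0 : e ≠ 0 := by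
    rintro rfl
    simp at h6
  refine ⟨h0, Nat.le_of_dvd (by norm_num) h6, ?_, ?_⟩
  · intro p hp
    have hp1 := Nat.prime_of_mem_primeFactors hp
    have hp2 : p ∣ 2 * 3 := (Nat.dvd_of_mem_primeFactors hp).trans h6
    rcases (Nat.Prime.dvd_mul hp1).mp hp2 with h | h
    · have := Nat.le_of_dvd (by norm_num) h
      omega
    · have := Nat.le_of_dvd (by norm_num) h
      omega
  · have : Squarefree 6 := by
      rw [show (6 : ℕ) = 2 * 3 by norm_num]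
      exact (Nat.squarefree_mul (by norm_num)).mpr ⟨Nat.prime_two.squarefree, Nat.prime_three.squarefree⟩
    exact this.squarefree_of_dvd h6

private theorem SVL_pf_mul {u : Finset ℕ} (hu : ∀ p ∈ u, p.Prime ∧ 5 ≤ p) {e : ℕ}
    (he : e ∈ Nat.divisors 6) : (e * ∏ p ∈ u, p).primeFactors = e.primeFactors ∪ u := by
  rw [Nat.primeFactors_mul (SVL_e_pf he).1 (SVL_prod_ne hu), SVL_pf_prod hu]

private theorem SVL_disj {u : Finset ℕ} (hu : ∀ p ∈ u, p.Prime ∧ 5 ≤ p) {e : ℕ}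
    (he : e ∈ Nat.divisors 6) : Disjoint e.primeFactors u := by
  rw [Finset.disjoint_left]
  intro p hp hp2
  have h1 := (SVL_e_pf he).2.2.1 p hp
  have h2 := (hu p hp2).2
  omega

private theorem SVL_EV (c : ℕ → ℝ) {u t : Finset ℕ} (hu : ∀ p ∈ u, p.Prime ∧ 5 ≤ p)
    (ht : ∀ p ∈ t, p.Prime ∧ 5 ≤ p) {e : ℕ} (he : e ∈ Nat.divisors 6) :
    EV c (e * ∏ p ∈ u, p) (∏ p ∈ t, p) =
      (∏ p ∈ e.primeFactors, gg c p) * ((∏ p ∈ t, h2 c p) * ∏ p ∈ u, gg c p) := by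
  classical
  unfold EV
  rw [SVL_pf_mul hu he, SVL_pf_prod ht, Finset.prod_union (SVL_disj hu he)]
  ring

open Classical in
private theorem SVL_hh (c : ℕ → ℝ) (x : ℕ) (d : Finset ℕ) :
    ∑ t ∈ d.powerset.filter (fun t => ∀ p ∈ t, ¬ p ∣ x), ((∏ p ∈ t, h2 c p) * ∏ p ∈ d \ t, gg c p) =
      ∏ p ∈ d, hh c x p := by
  have h1 : ∏ p ∈ d, hh c x p = ∏ p ∈ d, ((if p ∣ x then 0 else h2 c p) + gg c p) := by
    refine Finset.prod_congr rfl fun p _ => ?_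
    unfold hh
    ring
  rw [h1, Finset.prod_add, Finset.sum_filter]
  refine Finset.sum_congr rfl fun t _ => ?_
  by_cases h : ∀ p ∈ t, ¬ p ∣ x
  · rw [if_pos h]
    congr 1
    refine Finset.prod_congr rfl fun p hp => ?_
    rw [if_neg (h p hp)]
  · rw [if_neg h]
    have h' : ∃ p ∈ t, p ∣ x := by
      by_contra h3
      exact h (fun p hp hpx => h3 ⟨p, hp, hpx⟩)
    obtain ⟨p, hp, hpx⟩ := h'
    have h5 : ∏ i ∈ t, (if i ∣ x then (0 : ℝ) else h2 c i) = 0 :=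
      Finset.prod_eq_zero hp (if_pos hpx)
    rw [h5, zero_mul]

private theorem SVL_six (c : ℕ → ℝ) : ∑ e ∈ Nat.divisors 6, (ArithmeticFunction.moebius e : ℝ) *
    ∏ p ∈ e.primeFactors, gg c p = (1 - gg c 2) * (1 - gg c 3) := by
  have hd : Nat.divisors 6 = {1, 2, 3, 6} := by decide
  have m1 : ArithmeticFunction.moebius 1 = 1 := ArithmeticFunction.moebius_apply_one
  have m2 : ArithmeticFunction.moebius 2 = -1 := ArithmeticFunction.moebius_apply_prime Nat.prime_two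
  have m3 : ArithmeticFunction.moebius 3 = -1 := ArithmeticFunction.moebius_apply_prime Nat.prime_three
  have m6 : ArithmeticFunction.moebius 6 = 1 := by
    rw [show (6 : ℕ) = 2 * 3 by norm_num,
      ArithmeticFunction.isMultiplicative_moebius.map_mul_of_coprime (by norm_num), m2, m3]
    norm_num
  have p1 : Nat.primeFactors 1 = ∅ := Nat.primeFactors_one
  have p2 : Nat.primeFactors 2 = {2} := Nat.prime_two.primeFactors
  have p3 : Nat.primeFactors 3 = {3} := Nat.prime_three.primeFactors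
  have p6 : Nat.primeFactors 6 = {2, 3} := by
    rw [show (6 : ℕ) = 2 * 3 by norm_num, Nat.primeFactors_mul (by norm_num) (by norm_num), p2, p3]
    rfl
  rw [hd, Finset.sum_insert (by decide), Finset.sum_insert (by decide), Finset.sum_insert (by decide),
    Finset.sum_singleton, m1, m2, m3, m6, p1, p2, p3, p6, Finset.prod_empty, Finset.prod_singleton,
    Finset.prod_singleton, Finset.prod_insert (by decide), Finset.prod_singleton]
  push_cast
  ring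

private theorem SVL_six_ge (c : ℕ → ℝ) (hc : ∀ n, c n = 1 ∨ c n = 0 ∨ c n = -1) :
    1 / 9 ≤ (1 - gg c 2) * (1 - gg c 3) := by
  have h2 : gg c 2 ≤ 3 / 4 := by
    unfold gg
    rcases hc 2 with h | h | h <;> rw [h] <;> norm_num
  have h3 : gg c 3 ≤ 5 / 9 := by
    unfold gg
    rcases hc 3 with h | h | h <;> rw [h] <;> norm_num
  nlinarith

open Classical in
/-- the sum of the expected values -/
private theorem SVL_T (c : ℕ → ℝ) (x : ℕ) (d : Finset ℕ) (hd : ∀ p ∈ d, p.Prime ∧ 5 ≤ p) :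
    ∑ e ∈ Nat.divisors 6, (ArithmeticFunction.moebius e : ℝ) *
      ∑ t ∈ d.powerset.filter (fun t => ∀ p ∈ t, ¬ p ∣ x), EV c (e * ∏ p ∈ d \ t, p) (∏ p ∈ t, p) =
      (1 - gg c 2) * (1 - gg c 3) * ∏ p ∈ d, hh c x p := by
  rw [← SVL_six, Finset.sum_mul]
  refine Finset.sum_congr rfl fun e he => ?_
  rw [mul_assoc]
  congr 1
  rw [← SVL_hh c x d, Finset.mul_sum]
  refine Finset.sum_congr rfl fun t ht => ?_
  have htd : t ⊆ d := Finset.mem_powerset.mp (Finset.mem_filter.mp ht).1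
  exact SVL_EV c (fun p hp => hd p (Finset.mem_sdiff.mp hp).1) (fun p hp => hd p (htd hp)) he

open Classical in
/-- the sum over the errors -/
private theorem SVL_R (x Y : ℕ) (P : Finset ℕ) (hP : ∀ p ∈ P, p.Prime ∧ 5 ≤ p) (A : Finset (Finset ℕ))
    (hA : ∀ d ∈ A, d ⊆ P ∧ ∏ p ∈ d, p ≤ Y) (R : ℕ → ℕ → ℝ) (hR : ∀ D1 D2, 0 ≤ R D1 D2) :
    ∑ d ∈ A, ∑ e ∈ Nat.divisors 6, ∑ t ∈ d.powerset.filter (fun t => ∀ p ∈ t, ¬ p ∣ x),
      R (e * ∏ p ∈ d \ t, p) (∏ p ∈ t, p) ≤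
      ∑ D1 ∈ Finset.Icc 1 (6 * Y), ∑ D2 ∈ Finset.Icc 1 (6 * Y), R D1 D2 := by
  have h1 : ∀ d ∈ A, ∑ e ∈ Nat.divisors 6, ∑ t ∈ d.powerset.filter (fun t => ∀ p ∈ t, ¬ p ∣ x),
      R (e * ∏ p ∈ d \ t, p) (∏ p ∈ t, p) =
      ∑ q ∈ Nat.divisors 6 ×ˢ d.powerset.filter (fun t => ∀ p ∈ t, ¬ p ∣ x),
        R (q.1 * ∏ p ∈ d \ q.2, p) (∏ p ∈ q.2, p) := by
    intro d _
    rw [Finset.sum_product]
  rw [Finset.sum_congr rfl h1, Finset.sum_sigma', ← Finset.sum_product']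
  set B := A.sigma (fun d => Nat.divisors 6 ×ˢ d.powerset.filter (fun t => ∀ p ∈ t, ¬ p ∣ x)) with hB
  set F : (Σ _ : Finset ℕ, ℕ × Finset ℕ) → ℕ × ℕ :=
    fun q => (q.2.1 * ∏ p ∈ q.1 \ q.2.2, p, ∏ p ∈ q.2.2, p) with hF
  have hmem : ∀ q ∈ B, q.1 ∈ A ∧ q.2.1 ∈ Nat.divisors 6 ∧ q.2.2 ⊆ q.1 := by
    intro q hq
    rw [hB, Finset.mem_sigma, Finset.mem_product, Finset.mem_filter, Finset.mem_powerset] at hq
    exact ⟨hq.1, hq.2.1, hq.2.2.1⟩
  have hinj : Set.InjOn F (B : Set (Σ _ : Finset ℕ, ℕ × Finset ℕ)) := by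
    rintro ⟨d, e, t⟩ hq ⟨d', e', t'⟩ hq' hEq
    obtain ⟨hd, he, ht⟩ := hmem _ hq
    obtain ⟨hd', he', ht'⟩ := hmem _ hq'
    simp only at hd he ht hd' he' ht'
    simp only [hF, Prod.mk.injEq] at hEq
    obtain ⟨hE1, hE2⟩ := hEq
    have P1 : ∀ p ∈ t, p.Prime ∧ 5 ≤ p := fun p hp => hP p ((hA d hd).1 (ht hp))
    have P1' : ∀ p ∈ t', p.Prime ∧ 5 ≤ p := fun p hp => hP p ((hA d' hd').1 (ht' hp))
    have P2 : ∀ p ∈ d \ t, p.Prime ∧ 5 ≤ p := fun p hp =>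
      hP p ((hA d hd).1 (Finset.mem_sdiff.mp hp).1)
    have P2' : ∀ p ∈ d' \ t', p.Prime ∧ 5 ≤ p := fun p hp =>
      hP p ((hA d' hd').1 (Finset.mem_sdiff.mp hp).1)
    have htt : t = t' := by
      rw [← SVL_pf_prod P1, hE2, SVL_pf_prod P1']
    have huu : d \ t = d' \ t' := by
      have h3 : e.primeFactors ∪ (d \ t) = e'.primeFactors ∪ (d' \ t') := by
        rw [← SVL_pf_mul P2 he, hE1, SVL_pf_mul P2' he']
      ext p
      constructor
      · intro hp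
        have h4 : p ∈ e'.primeFactors ∪ (d' \ t') := h3 ▸ Finset.mem_union_right _ hp
        rcases Finset.mem_union.mp h4 with h5 | h5
        · have h6 := (SVL_e_pf he').2.2.1 p h5
          have h7 := (P2 p hp).2
          omega
        · exact h5
      · intro hp
        have h4 : p ∈ e.primeFactors ∪ (d \ t) := h3.symm ▸ Finset.mem_union_right _ hp
        rcases Finset.mem_union.mp h4 with h5 | h5
        · have h6 := (SVL_e_pf he).2.2.1 p h5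
          have h7 := (P2' p hp).2
          omega
        · exact h5
    have hdd : d = d' := by
      rw [← Finset.sdiff_union_of_subset ht, ← Finset.sdiff_union_of_subset ht', huu, htt]
    have hee : e = e' := by
      rw [huu] at hE1
      exact Nat.eq_of_mul_eq_mul_right (Nat.pos_of_ne_zero (SVL_prod_ne P2')) hE1
    subst hdd hee htt
    rfl
  have h2 : ∑ q ∈ B, R (q.2.1 * ∏ p ∈ q.1 \ q.2.2, p) (∏ p ∈ q.2.2, p) =
      ∑ y ∈ B.image F, R y.1 y.2 := by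
    rw [Finset.sum_image (fun a ha b hb h => hinj ha hb h)]
  rw [h2]
  refine Finset.sum_le_sum_of_subset_of_nonneg ?_ (fun y _ _ => hR _ _)
  intro y hy
  obtain ⟨⟨d, e, t⟩, hq, rfl⟩ := Finset.mem_image.mp hy
  obtain ⟨hd, he, ht⟩ := hmem _ hq
  simp only at hd he ht
  have P1 : ∀ p ∈ t, p.Prime ∧ 5 ≤ p := fun p hp => hP p ((hA d hd).1 (ht hp))
  have P2 : ∀ p ∈ d \ t, p.Prime ∧ 5 ≤ p := fun p hp =>
    hP p ((hA d hd).1 (Finset.mem_sdiff.mp hp).1)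
  have q1 : 0 < ∏ p ∈ t, p := Nat.pos_of_ne_zero (SVL_prod_ne P1)
  have q2 : 0 < ∏ p ∈ d \ t, p := Nat.pos_of_ne_zero (SVL_prod_ne P2)
  have q3 : 0 < e := Nat.pos_of_ne_zero (SVL_e_pf he).1
  have q4 : (∏ p ∈ d \ t, p) * ∏ p ∈ t, p = ∏ p ∈ d, p := Finset.prod_sdiff ht
  have q5 := (hA d hd).2
  have q6 := (SVL_e_pf he).2.1
  simp only [hF, Finset.mem_product, Finset.mem_Icc]
  have q7 : ∏ p ∈ d \ t, p ≤ ∏ p ∈ d, p := by
    rw [← q4]
    exact Nat.le_mul_of_pos_right _ q1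
  have q8 : ∏ p ∈ t, p ≤ ∏ p ∈ d, p := by
    rw [← q4]
    exact Nat.le_mul_of_pos_left _ q2
  refine ⟨⟨Nat.mul_pos q3 q2, Nat.mul_le_mul q6 (q7.trans q5)⟩, q1, ?_⟩
  have := q8.trans q5
  omega

open Classical in
theorem SVL : ∃ (b : ℕ) (c0 : ℝ), 1 ≤ b ∧ 0 < c0 ∧ ∀ z : ℕ, 2 ≤ z → ∀ P : Finset ℕ,
    (∀ p ∈ P, p.Prime ∧ 5 ≤ p ∧ p ≤ z) → ∀ x : ℕ, 6 ∣ x → ∀ c : ℕ → ℝ, (∀ n, c n = 1 ∨ c n = 0 ∨ c n = -1) →
    ∀ w : ℕ → ℝ, (∀ n, 0 ≤ w n) → ∀ X0 : ℝ, 0 ≤ X0 → ∀ R : ℕ → ℕ → ℝ, (∀ D1 D2, 0 ≤ R D1 D2) →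
    (∀ D1 D2 : ℕ, Squarefree (D1 * D2) → D2.Coprime x → D1 * D2 ≤ 6 * z ^ (12 * b) →
      |WW w x D1 D2 - X0 * EV c D1 D2| ≤ R D1 D2) →
    c0 * X0 / Real.log z ^ 5 - ((GT.NJ z : ℝ) + 1) *
      ∑ D1 ∈ Finset.Icc 1 (6 * z ^ (12 * b)), ∑ D2 ∈ Finset.Icc 1 (6 * z ^ (12 * b)), R D1 D2 ≤
      ∑ n ∈ (Finset.Icc 1 (x - 1)).filter (fun n => n.Coprime 6 ∧ ∀ p ∈ P, ¬ p ∣ n * (x - n)), w n := by
  obtain ⟨K, hK, hflm⟩ := TC.flm 4 (by norm_num)
  obtain ⟨c1, hc1, hprh⟩ := PRH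
  obtain ⟨b0, hb0⟩ : ∃ b0 : ℕ, (1 / 2 : ℝ) ^ b0 < 1 / (2 * K) :=
    exists_pow_lt_of_lt_one (by positivity) (by norm_num)
  refine ⟨b0 + 1, c1 / 18, by omega, by positivity, ?_⟩
  set b : ℕ := b0 + 1 with hbdef
  have hKb : K * (1 / 2 : ℝ) ^ b ≤ 1 / 2 := by
    have h1 : (1 / 2 : ℝ) ^ b ≤ (1 / 2) ^ b0 := pow_le_pow_of_le_one (by norm_num) (by norm_num) (by omega)
    have h2 : K * (1 / 2 : ℝ) ^ b ≤ K * (1 / (2 * K)) :=
      mul_le_mul_of_nonneg_left (h1.trans hb0.le) (by linarith)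
    have h3 : K * (1 / (2 * K)) = 1 / 2 := by
      have : K ≠ 0 := by linarith
      field_simp
    linarith
  intro z hz P hP x hx c hc w hw X0 hX0 R hR hWW
  have hP5 : ∀ p ∈ P, p.Prime ∧ 5 ≤ p := fun p hp => ⟨(hP p hp).1, (hP p hp).2.1⟩
  obtain ⟨up, lo, hw1, hw2, hw3, hw4⟩ := hflm b (by omega) z hz P (fun r hr => ⟨(hP r hr).1, (hP r hr).2.2⟩)
  obtain ⟨hh1, hh2⟩ := hprh c hc z hz P hP x
  have hmain := (hw4 (hh c x) hh1).2
  set V : ℝ := ∏ p ∈ P, (1 - hh c x p) with hV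
  -- the left side of LOC
  set S : Finset ℕ → ℝ := fun d =>
    ∑ n ∈ (Finset.Icc 1 (x - 1)).filter (fun n => n.Coprime 6 ∧ ∀ p ∈ d, p ∣ n * (x - n)), w n with hS
  set Tt : Finset ℕ → ℝ := fun d => (1 - gg c 2) * (1 - gg c 3) * ∏ p ∈ d, hh c x p with hT
  -- step 1: the sieve inequality
  have step1 : ∑ d ∈ P.powerset, lo d * S d ≤
      ∑ n ∈ (Finset.Icc 1 (x - 1)).filter (fun n => n.Coprime 6 ∧ ∀ p ∈ P, ¬ p ∣ n * (x - n)), w n := by
    have e1 : ∑ d ∈ P.powerset, lo d * S d =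
        ∑ n ∈ (Finset.Icc 1 (x - 1)).filter (fun n => n.Coprime 6),
          w n * ∑ d ∈ (P.filter (fun p => p ∣ n * (x - n))).powerset, lo d := by
      have e2 : ∀ d ∈ P.powerset, lo d * S d =
          ∑ n ∈ (Finset.Icc 1 (x - 1)).filter (fun n => n.Coprime 6),
            if (∀ p ∈ d, p ∣ n * (x - n)) then lo d * w n else 0 := by
        intro d _
        rw [hS]
        simp only
        rw [Finset.mul_sum, ← Finset.sum_filter, Finset.filter_filter]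
      rw [Finset.sum_congr rfl e2, Finset.sum_comm]
      refine Finset.sum_congr rfl fun n _ => ?_
      rw [← Finset.sum_filter, Finset.mul_sum]
      refine Finset.sum_congr ?_ fun d _ => mul_comm _ _
      ext d
      rw [Finset.mem_filter, Finset.mem_powerset, Finset.mem_powerset]
      constructor
      · rintro ⟨q1, q2⟩ p hp
        exact Finset.mem_filter.mpr ⟨q1 hp, q2 p hp⟩
      · intro q1
        exact ⟨fun p hp => (Finset.mem_filter.mp (q1 hp)).1, fun p hp => (Finset.mem_filter.mp (q1 hp)).2⟩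
    have e3 : ∑ n ∈ (Finset.Icc 1 (x - 1)).filter (fun n => n.Coprime 6 ∧ ∀ p ∈ P, ¬ p ∣ n * (x - n)), w n =
        ∑ n ∈ (Finset.Icc 1 (x - 1)).filter (fun n => n.Coprime 6),
          w n * (if P.filter (fun p => p ∣ n * (x - n)) = ∅ then (1 : ℝ) else 0) := by
      rw [← Finset.filter_filter, Finset.sum_filter]
      refine Finset.sum_congr rfl fun n _ => ?_
      by_cases h : ∀ p ∈ P, ¬ p ∣ n * (x - n)
      · rw [if_pos h, if_pos (Finset.filter_eq_empty_iff.mpr (fun p hp => h p hp)), mul_one]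
      · have h3 : ¬ (P.filter (fun p => p ∣ n * (x - n)) = ∅) := fun h' => h (fun p hp hpn => by
          have h4 : p ∈ P.filter (fun p => p ∣ n * (x - n)) := Finset.mem_filter.mpr ⟨hp, hpn⟩
          rw [h'] at h4
          exact absurd h4 (Finset.notMem_empty p))
        rw [if_neg h, if_neg h3, mul_zero]
    rw [e1, e3]
    refine Finset.sum_le_sum fun n _ => mul_le_mul_of_nonneg_left ?_ (hw n)
    exact (hw3 _ (Finset.filter_subset _ _)).1
  -- step 2: the error of one term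
  have step2 : ∀ d ∈ P.powerset, lo d ≠ 0 → |S d - X0 * Tt d| ≤
      ∑ e ∈ Nat.divisors 6, ∑ t ∈ d.powerset.filter (fun t => ∀ p ∈ t, ¬ p ∣ x),
        R (e * ∏ p ∈ d \ t, p) (∏ p ∈ t, p) := by
    intro d hd hlo
    have hdP := Finset.mem_powerset.mp hd
    have hd5 : ∀ p ∈ d, p.Prime ∧ 5 ≤ p := fun p hp => hP5 p (hdP hp)
    have hsup := hw2 d hdP (Or.inr hlo)
    have hsupN : ∏ p ∈ d, p ≤ z ^ (12 * b) := by exact_mod_cast hsup
    have e1 : S d - X0 * Tt d = ∑ e ∈ Nat.divisors 6, (ArithmeticFunction.moebius e : ℝ) *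
        ∑ t ∈ d.powerset.filter (fun t => ∀ p ∈ t, ¬ p ∣ x),
          (WW w x (e * ∏ p ∈ d \ t, p) (∏ p ∈ t, p) - X0 * EV c (e * ∏ p ∈ d \ t, p) (∏ p ∈ t, p)) := by
      have e2 : S d = _ := LOC w x d hd5
      have e3 : Tt d = _ := (SVL_T c x d hd5).symm
      rw [e2, e3, Finset.mul_sum, ← Finset.sum_sub_distrib]
      refine Finset.sum_congr rfl fun e _ => ?_
      rw [Finset.sum_sub_distrib, ← Finset.mul_sum]
      ring
    rw [e1]
    refine (Finset.abs_sum_le_sum_abs _ _).trans (Finset.sum_le_sum fun e he => ?_)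
    rw [abs_mul]
    have hmu : |(ArithmeticFunction.moebius e : ℝ)| ≤ 1 := by
      have := ArithmeticFunction.abs_moebius_le_one (n := e)
      exact_mod_cast this
    calc |(ArithmeticFunction.moebius e : ℝ)| * |∑ t ∈ d.powerset.filter (fun t => ∀ p ∈ t, ¬ p ∣ x),
          (WW w x (e * ∏ p ∈ d \ t, p) (∏ p ∈ t, p) - X0 * EV c (e * ∏ p ∈ d \ t, p) (∏ p ∈ t, p))|
        ≤ 1 * |∑ t ∈ d.powerset.filter (fun t => ∀ p ∈ t, ¬ p ∣ x),
          (WW w x (e * ∏ p ∈ d \ t, p) (∏ p ∈ t, p) - X0 * EV c (e * ∏ p ∈ d \ t, p) (∏ p ∈ t, p))| :=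
          mul_le_mul_of_nonneg_right hmu (abs_nonneg _)
      _ = |∑ t ∈ d.powerset.filter (fun t => ∀ p ∈ t, ¬ p ∣ x),
          (WW w x (e * ∏ p ∈ d \ t, p) (∏ p ∈ t, p) - X0 * EV c (e * ∏ p ∈ d \ t, p) (∏ p ∈ t, p))| := one_mul _
      _ ≤ _ := by
          refine (Finset.abs_sum_le_sum_abs _ _).trans (Finset.sum_le_sum fun t ht => ?_)
          rw [Finset.mem_filter, Finset.mem_powerset] at ht
          have P1 : ∀ p ∈ t, p.Prime ∧ 5 ≤ p := fun p hp => hd5 p (ht.1 hp)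
          have P2 : ∀ p ∈ d \ t, p.Prime ∧ 5 ≤ p := fun p hp => hd5 p (Finset.mem_sdiff.mp hp).1
          have q4 : (∏ p ∈ d \ t, p) * ∏ p ∈ t, p = ∏ p ∈ d, p := Finset.prod_sdiff ht.1
          have q5 : e * (∏ p ∈ d \ t, p) * ∏ p ∈ t, p = e * ∏ p ∈ d, p := by
            rw [mul_assoc, q4]
          refine hWW _ _ ?_ ?_ ?_
          · rw [q5]
            have cop : Nat.Coprime e (∏ p ∈ d, p) := by
              rw [← Nat.disjoint_primeFactors (SVL_e_pf he).1 (SVL_prod_ne hd5), SVL_pf_prod hd5]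
              exact SVL_disj hd5 he
            rw [Nat.squarefree_mul cop]
            refine ⟨(SVL_e_pf he).2.2.2, ?_⟩
            exact SVL_sqf d hd5
          · exact Nat.Coprime.prod_left (fun p hp => (Nat.Prime.coprime_iff_not_dvd (P1 p hp).1).mpr (ht.2 p hp))
          · rw [q5]
            exact Nat.mul_le_mul (SVL_e_pf he).2.1 hsupN
  -- step 3: the total error
  have hNJ : (0 : ℝ) ≤ (GT.NJ z : ℝ) + 1 := by positivity
  have step3 : ∑ d ∈ P.powerset, |lo d * (S d - X0 * Tt d)| ≤ ((GT.NJ z : ℝ) + 1) *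
      ∑ D1 ∈ Finset.Icc 1 (6 * z ^ (12 * b)), ∑ D2 ∈ Finset.Icc 1 (6 * z ^ (12 * b)), R D1 D2 := by
    have e0 : ∑ d ∈ P.powerset, |lo d * (S d - X0 * Tt d)| =
        ∑ d ∈ P.powerset.filter (fun d => lo d ≠ 0), |lo d * (S d - X0 * Tt d)| := by
      rw [Finset.sum_filter]
      refine Finset.sum_congr rfl fun d _ => ?_
      by_cases h : lo d = 0
      · rw [if_neg (not_not.mpr h), h, zero_mul, abs_zero]
      · rw [if_pos h]
    rw [e0]
    have e1 := SVL_R x (z ^ (12 * b)) P hP5 (P.powerset.filter (fun d => lo d ≠ 0)) (by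
      intro d hd
      rw [Finset.mem_filter, Finset.mem_powerset] at hd
      refine ⟨hd.1, ?_⟩
      have := hw2 d hd.1 (Or.inr hd.2)
      exact_mod_cast this) R hR
    refine le_trans ?_ (mul_le_mul_of_nonneg_left e1 hNJ)
    rw [Finset.mul_sum]
    refine Finset.sum_le_sum fun d hd => ?_
    rw [Finset.mem_filter] at hd
    rw [abs_mul]
    exact mul_le_mul (hw1 d).2 (step2 d hd.1 hd.2) (abs_nonneg _) hNJ
  -- step 4: the main term
  have step4 : ∑ d ∈ P.powerset, lo d * S d = X0 * ∑ d ∈ P.powerset, lo d * Tt d +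
      ∑ d ∈ P.powerset, lo d * (S d - X0 * Tt d) := by
    rw [Finset.mul_sum, ← Finset.sum_add_distrib]
    refine Finset.sum_congr rfl fun d _ => ?_
    ring
  have step5 : ∑ d ∈ P.powerset, lo d * Tt d = (1 - gg c 2) * (1 - gg c 3) *
      ∑ d ∈ P.powerset, lo d * ∏ p ∈ d, hh c x p := by
    rw [Finset.mul_sum]
    refine Finset.sum_congr rfl fun d _ => ?_
    simp only [hT]
    ring
  have hlog : 0 < Real.log z := Real.log_pos (by exact_mod_cast hz)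
  have hVpos : 0 < V := lt_of_lt_of_le (by positivity) hh2
  have h6 := SVL_six_ge c hc
  have step6 : 1 / 2 * V ≤ ∑ d ∈ P.powerset, lo d * ∏ p ∈ d, hh c x p := by
    have h7 := (abs_le.mp hmain).1
    have h8 : K * (1 / 2 : ℝ) ^ b * V ≤ 1 / 2 * V := mul_le_mul_of_nonneg_right hKb hVpos.le
    linarith
  have step7 : c1 / 18 * X0 / Real.log z ^ 5 ≤ X0 * ((1 - gg c 2) * (1 - gg c 3) *
      ∑ d ∈ P.powerset, lo d * ∏ p ∈ d, hh c x p) := by
    have h7 : 1 / 9 * (1 / 2 * (c1 / Real.log z ^ 5)) ≤ (1 - gg c 2) * (1 - gg c 3) *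
        ∑ d ∈ P.powerset, lo d * ∏ p ∈ d, hh c x p := by
      refine mul_le_mul h6 (le_trans ?_ step6) (by positivity) (by linarith)
      linarith
    have h8 := mul_le_mul_of_nonneg_left h7 hX0
    have h9 : X0 * (1 / 9 * (1 / 2 * (c1 / Real.log z ^ 5))) = c1 / 18 * X0 / Real.log z ^ 5 := by ring
    linarith
  have step8 : -(∑ d ∈ P.powerset, |lo d * (S d - X0 * Tt d)|) ≤
      ∑ d ∈ P.powerset, lo d * (S d - X0 * Tt d) := by
    have := (abs_le.mp (Finset.abs_sum_le_sum_abs (fun d => lo d * (S d - X0 * Tt d)) P.powerset)).1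
    exact this
  rw [step5] at step4
  linarith

end Pool.Agent.Lib.PX
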